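import Pool.Agent.SRW.St

/-!
# SRW, module ANA: the analytic lemma of Kesten's ratio limit theorem
-/

set_option autoImplicit false

namespace SRW

open Finset Filter

private lemma ANA_no (ρ : ℝ) (hρ : 1 < ρ) (M : ℕ) : ∃ ε : ℝ, 0 < ε ∧ ∀ C : ℝ,
    ∀ᶠ J : ℕ in atTop, C * (1 + ε) ^ (M * (J + 1)) < ρ ^ J := by
  obtain ⟨ρ', h1, h2⟩ := exists_between hρ
  have hc : Tendsto (fun ε : ℝ => (1 + ε) ^ M) (nhds 0) (nhds ((1 + 0) ^ M)) :=
    (Continuous.tendsto (by fun_prop) 0)
  have hlt : ∀ᶠ ε : ℝ in nhds 0, (1 + ε) ^ M < ρ' := by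
    refine hc.eventually (gt_mem_nhds ?_)
    simpa using h1
  obtain ⟨δ, hδ, hball⟩ := Metric.eventually_nhds_iff.mp hlt
  have hε : (1 + δ / 2) ^ M < ρ' := by
    apply hball
    rw [Real.dist_eq, sub_zero, abs_of_pos (by positivity)]
    linarith
  refine ⟨δ / 2, by positivity, fun C => ?_⟩
  have h3 : Tendsto (fun J : ℕ => (ρ / ρ') ^ J) atTop atTop :=
    tendsto_pow_atTop_atTop_of_one_lt ((one_lt_div (by linarith)).mpr h2)
  filter_upwards [h3.eventually_gt_atTop (|C| * ρ')] with J hJ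
  have hρ' : 0 < ρ' := by linarith
  have h4 : |C| * ρ' * ρ' ^ J < ρ ^ J := by
    rw [div_pow, lt_div_iff₀ (by positivity)] at hJ
    exact hJ
  have h5 : (1 + δ / 2) ^ (M * (J + 1)) ≤ ρ' ^ (J + 1) := by
    rw [pow_mul]
    exact pow_le_pow_left₀ (by positivity) hε.le _
  calc C * (1 + δ / 2) ^ (M * (J + 1)) ≤ |C| * (1 + δ / 2) ^ (M * (J + 1)) :=
        mul_le_mul_of_nonneg_right (le_abs_self C) (by positivity)
    _ ≤ |C| * ρ' ^ (J + 1) := mul_le_mul_of_nonneg_left h5 (abs_nonneg C)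
    _ = |C| * ρ' * ρ' ^ J := by ring
    _ < ρ ^ J := h4

theorem thm_ANA : St_ANA := by
  intro cc μ κ Φ B n0 hμ hκ hlow hup hφκ hφΦ hrec
  have hμ0 : 0 < μ := by linarith
  have hcc : ∀ n, 0 < cc n := fun n => lt_of_lt_of_le (by positivity) (hlow n)
  set φ : ℕ → ℝ := fun n => cc (n + 2) / cc n with hφ
  have hφ0 : ∀ n, 0 < φ n := fun n => div_pos (hcc _) (hcc _)
  have hmul : ∀ n, cc (n + 2) = cc n * φ n := by
    intro n
    have := hcc n
    simp only [hφ]
    field_simp
  have hprod : ∀ n, cc (n + 4) / cc n = φ n * φ (n + 2) := by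
    intro n
    have h1 := hcc n
    have h2 := hcc (n + 2)
    simp only [hφ]
    field_simp
  set B' : ℝ := |B| / κ with hB'
  have hB0 : 0 ≤ B' := by positivity
  have step : ∀ n : ℕ, n0 ≤ n → 1 ≤ n → φ n - B' / n ≤ φ (n + 2) := by
    intro n hn hn1
    have h1 := hrec n hn
    rw [hprod] at h1
    have h2 : κ ≤ φ n := hφκ n
    have hn0 : (0 : ℝ) < n := by exact_mod_cast hn1
    by_contra hcon
    rw [not_le] at hcon
    have h3 : φ n * φ (n + 2) < φ n * (φ n - B' / n) := mul_lt_mul_of_pos_left hcon (hφ0 n)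
    have h4 : |B| / n ≤ φ n * (B' / n) := by
      have h5 : |B| ≤ φ n * B' := by
        have h6 : |B| = κ * B' := by rw [hB']; field_simp
        rw [h6]
        exact mul_le_mul_of_nonneg_right h2 hB0
      calc |B| / n ≤ (φ n * B') / n := div_le_div_of_nonneg_right h5 hn0.le
        _ = φ n * (B' / n) := by ring
    have h5 : B / n ≤ |B| / n := div_le_div_of_nonneg_right (le_abs_self B) hn0.le
    have h6 : (cc (n + 2) / cc n) ^ 2 = φ n * φ n := by simp only [hφ]; ring
    rw [h6] at h1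
    nlinarith
  have iter : ∀ n : ℕ, n0 ≤ n → 1 ≤ n → ∀ j : ℕ, φ n - B' * j / n ≤ φ (n + 2 * j) := by
    intro n hn hn1 j
    have hn0 : (0 : ℝ) < n := by exact_mod_cast hn1
    induction j with
    | zero => simp
    | succ j ih =>
      have h1 := step (n + 2 * j) (by omega) (by omega)
      have h2 : B' / ((n + 2 * j : ℕ) : ℝ) ≤ B' / n := by
        apply div_le_div_of_nonneg_left hB0 hn0
        push_cast
        have : (0 : ℝ) ≤ j := Nat.cast_nonneg j
        linarith
      have h3 : n + 2 * (j + 1) = n + 2 * j + 2 := by ring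
      rw [h3]
      have h4 : B' * ((j + 1 : ℕ) : ℝ) / n = B' * j / n + B' / n := by push_cast; ring
      rw [h4]
      linarith
  have hP : ∀ n J : ℕ, cc (n + 2 * J) = cc n * ∏ j ∈ range J, φ (n + 2 * j) := by
    intro n J
    induction J with
    | zero => simp
    | succ J ih =>
      rw [prod_range_succ, ← mul_assoc, ← ih]
      have h3 : n + 2 * (J + 1) = n + 2 * J + 2 := by ring
      rw [h3]
      exact hmul _
  rw [tendsto_order]
  constructor
  · -- lower bound
    intro a ha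
    set τ : ℝ := min ((μ ^ 2 - a) / 2) (μ ^ 2 / 4) with hτ
    have hμ2 : 0 < μ ^ 2 := by positivity
    have hτ0 : 0 < τ := lt_min (by linarith) (by linarith)
    have hτ1 : a ≤ μ ^ 2 - 2 * τ := by
      have := min_le_left ((μ ^ 2 - a) / 2) (μ ^ 2 / 4)
      linarith
    have hτ2 : τ ≤ μ ^ 2 / 4 := min_le_right _ _
    have hτ3 : 0 < μ ^ 2 - τ := by linarith
    obtain ⟨m0, hm0⟩ := exists_nat_ge (2 * B' / τ)
    set m : ℕ := m0 + 4 with hm
    have hmr : 2 * B' / τ ≤ m := by
      rw [hm]; push_cast; linarith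
    have hmB : 2 * B' ≤ τ * m := by
      rw [div_le_iff₀ hτ0] at hmr
      linarith
    set ρ : ℝ := μ ^ 2 / (μ ^ 2 - τ) with hρ
    have hρ1 : 1 < ρ := by
      rw [hρ, one_lt_div hτ3]
      linarith
    obtain ⟨ε, hε, hno⟩ := ANA_no ρ hρ1 m
    obtain ⟨C, hC, hCup⟩ := hup ε hε
    have hdiv : Tendsto (fun n : ℕ => n / m) atTop atTop :=
      Nat.tendsto_div_const_atTop (by omega)
    filter_upwards [hdiv.eventually (hno C), eventually_ge_atTop (2 * n0 + 2)] with n hn1 hn2
    by_contra hcon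
    rw [not_lt] at hcon
    set J : ℕ := n / m with hJ
    have hJ1 : m * J ≤ n := Nat.mul_div_le n m
    have hJ4 : 4 * J ≤ n := le_trans (Nat.mul_le_mul_right J (by omega)) hJ1
    have hJ2 : n < m * (J + 1) := Nat.lt_mul_div_succ n (by omega)
    -- bound for φ (n - 2 j)
    have hb : ∀ j : ℕ, j ≤ J → φ (n - 2 * j) ≤ μ ^ 2 - τ := by
      intro j hj
      have h0 : n - 2 * j + 2 * j = n := by omega
      have h1 := iter (n - 2 * j) (by omega) (by omega) j
      rw [h0] at h1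
      have h2 : (0 : ℝ) < ((n - 2 * j : ℕ) : ℝ) := by
        have : 0 < n - 2 * j := by omega
        exact_mod_cast this
      have h3 : B' * j / ((n - 2 * j : ℕ) : ℝ) ≤ τ := by
        rw [div_le_iff₀ h2]
        have h4 : (m : ℝ) * j ≤ 2 * ((n - 2 * j : ℕ) : ℝ) := by
          have h5 : m * j ≤ n := le_trans (Nat.mul_le_mul_left m hj) hJ1
          have h6 : m * j ≤ 2 * (n - 2 * j) := by omega
          exact_mod_cast h6
        have hj0 : (0 : ℝ) ≤ j := Nat.cast_nonneg j
        nlinarith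
      linarith
    have hbp : ∏ j ∈ range (J + 1), φ (n - 2 * J + 2 * j) ≤ (μ ^ 2 - τ) ^ (J + 1) := by
      have h1 : ∀ j ∈ range (J + 1), φ (n - 2 * J + 2 * j) ≤ μ ^ 2 - τ := by
        intro j hj
        rw [mem_range] at hj
        have h2 := hb (J - j) (by omega)
        have h3 : n - 2 * (J - j) = n - 2 * J + 2 * j := by omega
        rwa [h3] at h2
      have h4 := prod_le_prod (s := range (J + 1)) (f := fun j => φ (n - 2 * J + 2 * j))
        (g := fun _ => μ ^ 2 - τ) (fun j _ => (hφ0 _).le) h1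
      rwa [prod_const, card_range] at h4
    have hfull := hP (n - 2 * J) (J + 1)
    have hidx : n - 2 * J + 2 * (J + 1) = n + 2 := by omega
    rw [hidx] at hfull
    have hA1 := hlow (n + 2)
    have hA2 := hCup (n - 2 * J)
    have hA3 : μ ^ (n + 2) ≤ C * (μ * (1 + ε)) ^ (n - 2 * J) * (μ ^ 2 - τ) ^ (J + 1) := by
      refine hA1.trans ?_
      rw [hfull]
      exact mul_le_mul hA2 hbp (prod_nonneg fun j _ => (hφ0 _).le) (by positivity)
    have hidx2 : n + 2 = (n - 2 * J) + 2 * (J + 1) := by omega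
    rw [hidx2, pow_add, mul_pow, pow_mul] at hA3
    have hpos : 0 < μ ^ (n - 2 * J) := by positivity
    have hA4 : (μ ^ 2) ^ (J + 1) ≤ C * (1 + ε) ^ (n - 2 * J) * (μ ^ 2 - τ) ^ (J + 1) := by
      refine le_of_mul_le_mul_left ?_ hpos
      calc _ ≤ _ := hA3
        _ = _ := by ring
    have hA5 : ρ ^ (J + 1) ≤ C * (1 + ε) ^ (n - 2 * J) := by
      rw [hρ, div_pow, div_le_iff₀ (by positivity)]
      exact hA4
    have hA6 : (1 + ε) ^ (n - 2 * J) ≤ (1 + ε) ^ (m * (J + 1)) :=
      pow_le_pow_right₀ (by linarith) (by omega)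
    have hA7 : ρ ^ J ≤ ρ ^ (J + 1) := pow_le_pow_right₀ hρ1.le (by omega)
    have hA8 : C * (1 + ε) ^ (n - 2 * J) ≤ C * (1 + ε) ^ (m * (J + 1)) :=
      mul_le_mul_of_nonneg_left hA6 hC.le
    linarith
  · -- upper bound
    intro a ha
    set τ : ℝ := (a - μ ^ 2) / 2 with hτ
    have hτ0 : 0 < τ := by rw [hτ]; linarith
    have hμ2 : 0 < μ ^ 2 := by positivity
    obtain ⟨m0, hm0⟩ := exists_nat_ge (B' / τ)
    set m : ℕ := m0 + 1 with hm
    have hmr : B' / τ ≤ m := by
      rw [hm]; push_cast; linarith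
    have hmB : B' ≤ τ * m := by
      rw [div_le_iff₀ hτ0] at hmr
      linarith
    set ρ : ℝ := (μ ^ 2 + τ) / μ ^ 2 with hρ
    have hρ1 : 1 < ρ := by
      rw [hρ, one_lt_div hμ2]
      linarith
    obtain ⟨ε, hε, hno⟩ := ANA_no ρ hρ1 (m + 2)
    obtain ⟨C, hC, hCup⟩ := hup ε hε
    have hdiv : Tendsto (fun n : ℕ => n / m) atTop atTop :=
      Nat.tendsto_div_const_atTop (by omega)
    filter_upwards [hdiv.eventually (hno C), eventually_ge_atTop (n0 + 1)] with n hn1 hn2
    by_contra hcon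
    rw [not_lt] at hcon
    set J : ℕ := n / m with hJ
    have hJ1 : m * J ≤ n := Nat.mul_div_le n m
    have hJ2 : n < m * (J + 1) := Nat.lt_mul_div_succ n (by omega)
    have hn0 : (0 : ℝ) < n := by
      have : 0 < n := by omega
      exact_mod_cast this
    have hb : ∀ j ∈ range J, μ ^ 2 + τ ≤ φ (n + 2 * j) := by
      intro j hj
      rw [mem_range] at hj
      have h1 := iter n (by omega) (by omega) j
      have h3 : B' * j / n ≤ τ := by
        rw [div_le_iff₀ hn0]
        have h4 : (m : ℝ) * j ≤ n := by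
          have h5 : m * j ≤ n := le_trans (Nat.mul_le_mul_left m hj.le) hJ1
          exact_mod_cast h5
        have hj0 : (0 : ℝ) ≤ j := Nat.cast_nonneg j
        nlinarith
      have h5 : a = μ ^ 2 + 2 * τ := by rw [hτ]; ring
      linarith
    have hbp : (μ ^ 2 + τ) ^ J ≤ ∏ j ∈ range J, φ (n + 2 * j) := by
      have h4 := prod_le_prod (s := range J) (f := fun _ => μ ^ 2 + τ)
        (g := fun j => φ (n + 2 * j)) (fun j _ => by positivity) hb
      rwa [prod_const, card_range] at h4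
    have hfull := hP n J
    have hA1 := hlow n
    have hA2 := hCup (n + 2 * J)
    have hA3 : μ ^ n * (μ ^ 2 + τ) ^ J ≤ C * (μ * (1 + ε)) ^ (n + 2 * J) := by
      refine le_trans ?_ hA2
      rw [hfull]
      exact mul_le_mul hA1 hbp (by positivity) (hcc n).le
    rw [mul_pow, pow_add μ, pow_mul μ] at hA3
    have hpos : 0 < μ ^ n := by positivity
    have hA4 : (μ ^ 2 + τ) ^ J ≤ C * (1 + ε) ^ (n + 2 * J) * (μ ^ 2) ^ J := by
      refine le_of_mul_le_mul_left ?_ hpos
      calc _ ≤ _ := hA3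
        _ = _ := by ring
    have hA5 : ρ ^ J ≤ C * (1 + ε) ^ (n + 2 * J) := by
      rw [hρ, div_pow, div_le_iff₀ (by positivity)]
      exact hA4
    have hA6 : (1 + ε) ^ (n + 2 * J) ≤ (1 + ε) ^ ((m + 2) * (J + 1)) := by
      refine pow_le_pow_right₀ (by linarith) ?_
      calc n + 2 * J ≤ m * (J + 1) + 2 * (J + 1) := by omega
        _ = (m + 2) * (J + 1) := by ring
    have hA8 : C * (1 + ε) ^ (n + 2 * J) ≤ C * (1 + ε) ^ ((m + 2) * (J + 1)) :=
      mul_le_mul_of_nonneg_left hA6 hC.le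
    linarith

end SRW
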