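import Pool.Agent.SRW.St

/-!
# SRW AVG (helper63): weighted averages with growing weights
-/

set_option autoImplicit false

open Filter Finset

namespace SRW

private theorem AVG_contract (a b : ℕ → ℝ) (ρ : ℝ) (h0 : 0 ≤ ρ) (h1 : ρ < 1) (ha : ∀ n, 0 ≤ a n)
    (N0 : ℕ) (hr : ∀ n, N0 ≤ n → a (n + 1) ≤ ρ * (a n + b n)) (hb : Tendsto b atTop (nhds 0)) :
    Tendsto a atTop (nhds 0) := by
  rw [Metric.tendsto_atTop]
  intro ε hε
  have hε2 : 0 < ε / 2 := by positivity
  have h1ρ : 0 < 1 - ρ := by linarith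
  obtain ⟨N1, hN1⟩ := (Metric.tendsto_atTop.1 hb) (ε / 2 * (1 - ρ)) (by positivity)
  set N := max N0 N1 with hN
  have hb' : ∀ n, N ≤ n → b n ≤ ε / 2 * (1 - ρ) := by
    intro n hn
    have := hN1 n (le_trans (le_max_right _ _) hn)
    rw [Real.dist_eq, sub_zero] at this
    exact le_trans (le_abs_self _) this.le
  have key : ∀ k : ℕ, a (N + k) ≤ ε / 2 + ρ ^ k * a N := by
    intro k
    induction k with
    | zero => simp; positivity
    | succ k ih =>
      have h2 := hr (N + k) (le_trans (le_max_left _ _) (Nat.le_add_right _ _))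
      have h3 := hb' (N + k) (Nat.le_add_right _ _)
      have h4 : a (N + k) + b (N + k) ≤ ε / 2 + ρ ^ k * a N + ε / 2 * (1 - ρ) := by linarith
      have h5 : ρ * (a (N + k) + b (N + k)) ≤ ρ * (ε / 2 + ρ ^ k * a N + ε / 2 * (1 - ρ)) :=
        mul_le_mul_of_nonneg_left h4 h0
      have h6 : 0 ≤ ε / 2 * (1 - ρ) ^ 2 := by positivity
      have h7 : ρ * (ε / 2 + ρ ^ k * a N + ε / 2 * (1 - ρ)) =
          ε / 2 + ρ ^ (k + 1) * a N - ε / 2 * (1 - ρ) ^ 2 := by ring
      calc a (N + (k + 1)) = a (N + k + 1) := rfl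
        _ ≤ _ := h2
        _ ≤ _ := h5
        _ ≤ _ := by linarith
  have hgeo : Tendsto (fun k : ℕ => ρ ^ k * a N) atTop (nhds 0) := by
    have := (tendsto_pow_atTop_nhds_zero_of_lt_one h0 h1).mul_const (a N)
    simpa using this
  obtain ⟨K, hK⟩ := (Metric.tendsto_atTop.1 hgeo) (ε / 2) hε2
  refine ⟨N + K, fun n hn => ?_⟩
  obtain ⟨k, rfl⟩ : ∃ k, n = N + k := ⟨n - N, by omega⟩
  have h8 := hK k (by omega)
  rw [Real.dist_eq, sub_zero] at h8
  have h9 := key k
  have h10 := le_abs_self (ρ ^ k * a N)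
  rw [Real.dist_eq, sub_zero, abs_of_nonneg (ha _)]
  linarith

private theorem AVG_ratio (u : ℕ → ℝ) (κ : ℝ) (hκ : 1 < κ) (hu : ∀ n, 0 < u n)
    (hr : Tendsto (fun n => u (n + 1) / u n) atTop (nhds κ)) :
    ∃ ρ : ℝ, 0 ≤ ρ ∧ ρ < 1 ∧ ∃ N0 : ℕ, ∀ n, N0 ≤ n →
      (∑ j ∈ range (n + 1), u j) ≤ ρ * ∑ j ∈ range (n + 2), u j := by
  set l := (1 + κ) / 2 with hl
  have hl1 : 1 < l := by rw [hl]; linarith
  have hlκ : l < κ := by rw [hl]; linarith
  set l' := (1 + l) / 2 with hl'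
  have hl'1 : 1 < l' := by rw [hl']; linarith
  have hl'l : l' < l := by rw [hl']; linarith
  obtain ⟨j0, hj0⟩ := (eventually_atTop.1 (hr.eventually (lt_mem_nhds hlκ)))
  have hstep : ∀ j, j0 ≤ j → l * u j ≤ u (j + 1) := by
    intro j hj
    have h := hj0 j hj
    rw [lt_div_iff₀ (hu j)] at h
    exact h.le
  set U : ℕ → ℝ := fun n => ∑ j ∈ range (n + 1), u j with hU
  have hUpos : ∀ n, 0 < U n := fun n => Finset.sum_pos (fun j _ => hu j) ⟨0, by simp⟩
  have hUs : ∀ n, U (n + 1) = U n + u (n + 1) := fun n => Finset.sum_range_succ _ _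
  -- lower bound of the growth
  have hmono : ∀ k, u j0 ≤ u (j0 + k) := by
    intro k
    induction k with
    | zero => simp
    | succ k ih =>
      have h := hstep (j0 + k) (Nat.le_add_right _ _)
      have h2 := hu (j0 + k)
      have : u (j0 + k) ≤ l * u (j0 + k) := by nlinarith
      calc u j0 ≤ u (j0 + k) := ih
        _ ≤ _ := this
        _ ≤ _ := h
  have hU1 : ∀ k : ℕ, (k : ℝ) * u j0 ≤ U (j0 + k) := by
    intro k
    induction k with
    | zero => simpa using (hUpos j0).le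
    | succ k ih =>
      have h := hUs (j0 + k)
      have h2 := hmono (k + 1)
      have h3 : U (j0 + (k + 1)) = U (j0 + k) + u (j0 + (k + 1)) := h
      rw [h3]
      push_cast
      linarith
  have hU2 : ∀ k : ℕ, l * (U (j0 + k) - U j0) ≤ U (j0 + k + 1) - U (j0 + 1) := by
    intro k
    induction k with
    | zero => simp
    | succ k ih =>
      have h := hUs (j0 + k)
      have h2 := hUs (j0 + k + 1)
      have h3 := hstep (j0 + k + 1) (by omega)
      have e : j0 + (k + 1) = j0 + k + 1 := rfl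
      rw [e, h2, h]
      rw [h] at ih
      have : l * (U (j0 + k) + u (j0 + k + 1) - U j0) =
        l * (U (j0 + k) - U j0) + l * u (j0 + k + 1) := by ring
      rw [this]
      linarith
  obtain ⟨K, hK⟩ := exists_nat_gt (l * U j0 / ((l - l') * u j0))
  have hlu : 0 < (l - l') * u j0 := mul_pos (by linarith) (hu j0)
  refine ⟨1 / l', by positivity, by rw [div_lt_one (by linarith)]; exact hl'1, j0 + K, fun n hn => ?_⟩
  obtain ⟨k, rfl⟩ : ∃ k, n = j0 + k := ⟨n - j0, by omega⟩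
  have hkK : (K : ℝ) ≤ k := by exact_mod_cast (by omega : K ≤ k)
  rw [div_lt_iff₀ hlu] at hK
  have h4 : l * U j0 ≤ (l - l') * U (j0 + k) := by
    have h5 := hU1 k
    have h6 : (K : ℝ) * u j0 ≤ k * u j0 := mul_le_mul_of_nonneg_right hkK (hu j0).le
    have h7 : (l - l') * ((K : ℝ) * u j0) ≤ (l - l') * U (j0 + k) :=
      mul_le_mul_of_nonneg_left (le_trans h6 h5) (by linarith)
    calc l * U j0 ≤ K * ((l - l') * u j0) := hK.le
      _ = (l - l') * ((K : ℝ) * u j0) := by ring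
      _ ≤ _ := h7
  have h8 := hU2 k
  have h9 := hUpos (j0 + 1)
  have h10 : l' * U (j0 + k) ≤ U (j0 + k + 1) := by nlinarith
  show U (j0 + k) ≤ 1 / l' * U (j0 + k + 1)
  rw [one_div, ← div_eq_inv_mul, le_div_iff₀ (by linarith)]
  linarith

theorem thm_AVG : St_AVG := by
  intro u g κ C hκ hu hr _ hg
  obtain ⟨ρ, hρ0, hρ1, N0, hρ⟩ := AVG_ratio u κ hκ hu hr
  set U : ℕ → ℝ := fun n => ∑ j ∈ range (n + 1), u j with hU
  set e : ℕ → ℝ := fun J => (∑ j ∈ range (J + 1), u j * g j) / (∑ j ∈ range (J + 1), u j) - g J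
    with he
  have hUpos : ∀ n, 0 < U n := fun n => Finset.sum_pos (fun j _ => hu j) ⟨0, by simp⟩
  have hUs : ∀ n, U (n + 1) = U n + u (n + 1) := fun n => Finset.sum_range_succ _ _
  have hrec : ∀ n, e (n + 1) = (U n / U (n + 1)) * (e n - (g (n + 1) - g n)) := by
    intro n
    have h1 : ∑ j ∈ range (n + 1 + 1), u j * g j =
        ∑ j ∈ range (n + 1), u j * g j + u (n + 1) * g (n + 1) := Finset.sum_range_succ _ _
    have h2 : e (n + 1) = (∑ j ∈ range (n + 1 + 1), u j * g j) / U (n + 1) - g (n + 1) := rfl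
    have h3 : e n = (∑ j ∈ range (n + 1), u j * g j) / U n - g n := rfl
    rw [h2, h3, h1]
    have h4 := (hUpos n).ne'
    have h5 := (hUpos (n + 1)).ne'
    have h6 := hUs n
    field_simp
    rw [h6]
    ring
  have habs : Tendsto (fun n => |e n|) atTop (nhds 0) := by
    refine AVG_contract (fun n => |e n|) (fun n => |g (n + 1) - g n|) ρ hρ0 hρ1
      (fun n => abs_nonneg _) N0 (fun n hn => ?_) (by simpa using hg.abs)
    have h1 : 0 ≤ U n / U (n + 1) := (div_pos (hUpos n) (hUpos (n + 1))).le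
    have h2 : U n / U (n + 1) ≤ ρ := by
      rw [div_le_iff₀ (hUpos (n + 1))]
      exact hρ n hn
    show |e (n + 1)| ≤ ρ * (|e n| + |g (n + 1) - g n|)
    rw [hrec n, abs_mul, abs_of_nonneg h1]
    have h3 : |e n - (g (n + 1) - g n)| ≤ |e n| + |g (n + 1) - g n| := abs_sub _ _
    exact mul_le_mul h2 h3 (abs_nonneg _) hρ0
  exact (tendsto_zero_iff_abs_tendsto_zero _).2 habs

end SRW
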