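import Pool.Agent.SRW.St

/-!
# SRW, module BLA: the generating inequality for blocks
-/

set_option autoImplicit false

namespace SRW

open Finset

variable {d : ℕ}

private lemma BLA_blk_take (M N t : ℕ) (w : List (Step d)) (ht : t < N) :
    blk M (w.take (N * M)) t = blk M w t := by
  unfold blk
  rw [List.drop_take, List.take_take]
  have h : (t + 1) * M ≤ N * M := Nat.mul_le_mul_right M ht
  rw [add_mul, one_mul] at h
  congr 1
  omega

private lemma BLA_blk_last (M N : ℕ) (w : List (Step d)) (hw : w.length = (N + 1) * M) :
    blk M w N = w.drop (N * M) := by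
  unfold blk
  apply List.take_of_length_le
  rw [List.length_drop, hw, add_mul, one_mul]
  omega

open Classical in
private lemma BLA_rho (R : List (Step d) → Prop) (M N : ℕ) (w : List (Step d))
    (hw : w.length = (N + 1) * M) :
    rho R M (N + 1) w = rho R M N (w.take (N * M)) + (if R (w.drop (N * M)) then 0 else 1) := by
  unfold rho
  rw [range_add_one, filter_insert]
  have h1 : (range N).filter (fun t => ¬ R (blk M (w.take (N * M)) t))
      = (range N).filter (fun t => ¬ R (blk M w t)) := by
    apply filter_congr
    intro t ht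
    rw [BLA_blk_take M N t w (mem_range.mp ht)]
  rw [h1, BLA_blk_last M N w hw]
  by_cases hR : R (w.drop (N * M))
  · rw [if_neg (not_not.mpr hR), if_pos hR, add_zero]
  · rw [if_pos hR, if_neg hR, card_insert_of_notMem]
    intro hc
    exact absurd (mem_range.mp (mem_filter.mp hc).1) (lt_irrefl N)

open Classical in
/-- **BLA.** -/
theorem thm_BLA : St_BLA := by
  intro d M N P R θ hP hθ
  set X : ℝ := ((sw d M (fun v => P v ∧ R v)).card : ℝ) + θ * ((sw d M P).card : ℝ) with hX
  have hX0 : 0 ≤ X := by positivity
  induction N with
  | zero =>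
    have hsub : sw d (0 * M) P ⊆ {[]} := by
      intro w hw
      rw [mem_sw, zero_mul] at hw
      rw [mem_singleton]
      exact List.length_eq_zero_iff.mp hw.1
    rw [pow_zero]
    calc ∑ w ∈ sw d (0 * M) P, θ ^ (rho R M 0 w) = ∑ w ∈ sw d (0 * M) P, (1 : ℝ) := by
          refine sum_congr rfl fun w _ => ?_
          simp [rho]
      _ = ((sw d (0 * M) P).card : ℝ) := by rw [sum_const, nsmul_eq_mul, mul_one]
      _ ≤ 1 := by
          have := card_le_card hsub
          rw [card_singleton] at this
          exact_mod_cast this
  | succ N ih =>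
    let e : List (Step d) → List (Step d) × List (Step d) := fun w =>
      (w.take (N * M), w.drop (N * M))
    let F : List (Step d) × List (Step d) → ℝ := fun x =>
      θ ^ (rho R M N x.1) * (if R x.2 then 1 else θ)
    have hF0 : ∀ x, 0 ≤ F x := by
      intro x
      refine mul_nonneg (pow_nonneg hθ _) ?_
      split_ifs
      · exact zero_le_one
      · exact hθ
    have hinj : Set.InjOn e (sw d ((N + 1) * M) P : Set (List (Step d))) := by
      intro w _ w' _ h
      have h1 := congrArg Prod.fst h
      have h2 := congrArg Prod.snd h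
      simp only [e] at h1 h2
      rw [← List.take_append_drop (N * M) w, ← List.take_append_drop (N * M) w', h1, h2]
    have hval : ∀ w ∈ sw d ((N + 1) * M) P, θ ^ (rho R M (N + 1) w) = F (e w) := by
      intro w hw
      rw [mem_sw] at hw
      rw [BLA_rho R M N w hw.1, pow_add]
      simp only [F, e]
      congr 1
      split_ifs
      · exact pow_zero θ
      · exact pow_one θ
    have himg : (sw d ((N + 1) * M) P).image e ⊆ sw d (N * M) P ×ˢ sw d M P := by
      intro x hx
      rw [mem_image] at hx
      obtain ⟨w, hw, rfl⟩ := hx
      rw [mem_sw] at hw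
      obtain ⟨hl, hs, hp⟩ := hw
      rw [mem_product, mem_sw, mem_sw]
      refine ⟨⟨?_, hs.take _, ?_⟩, ?_, hs.drop _, ?_⟩
      · simp only [e, List.length_take, hl]
        rw [add_mul]
        omega
      · apply hP [] (w.take (N * M)) (w.drop (N * M))
        rw [List.nil_append, List.take_append_drop]
        exact hp
      · simp only [e, List.length_drop, hl]
        rw [add_mul]
        omega
      · apply hP (w.take (N * M)) (w.drop (N * M)) []
        rw [List.append_nil, List.take_append_drop]
        exact hp
    have hg : ∑ v ∈ sw d M P, (if R v then (1 : ℝ) else θ) ≤ X := by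
      rw [sum_ite, sum_const, sum_const, nsmul_eq_mul, nsmul_eq_mul, mul_one]
      have h1 : (sw d M P).filter R = sw d M (fun v => P v ∧ R v) := by
        ext v
        rw [mem_filter, mem_sw, mem_sw]
        tauto
      have h2 : (((sw d M P).filter (fun v => ¬ R v)).card : ℝ) ≤ ((sw d M P).card : ℝ) := by
        exact_mod_cast card_le_card (filter_subset _ _)
      rw [h1, hX, mul_comm θ]
      exact add_le_add le_rfl (mul_le_mul_of_nonneg_right h2 hθ)
    calc ∑ w ∈ sw d ((N + 1) * M) P, θ ^ (rho R M (N + 1) w)
        = ∑ w ∈ sw d ((N + 1) * M) P, F (e w) := sum_congr rfl hval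
      _ = ∑ x ∈ (sw d ((N + 1) * M) P).image e, F x := (sum_image hinj).symm
      _ ≤ ∑ x ∈ sw d (N * M) P ×ˢ sw d M P, F x :=
          sum_le_sum_of_subset_of_nonneg himg fun x _ _ => hF0 x
      _ = (∑ u ∈ sw d (N * M) P, θ ^ (rho R M N u)) *
            ∑ v ∈ sw d M P, (if R v then (1 : ℝ) else θ) := by
          rw [sum_product, sum_mul_sum]
      _ ≤ X ^ N * X := by
          refine mul_le_mul ih hg ?_ (pow_nonneg hX0 _)
          refine sum_nonneg fun v _ => ?_
          split_ifs
          · exact zero_le_one
          · exact hθ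
      _ = X ^ (N + 1) := (pow_succ X N).symm

end SRW
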