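import Pool.Agent.SRW.St

/-!
# SRW, module BLB (helper8): blocks, exponential tail
-/

set_option autoImplicit false

namespace SRW

open Finset Filter

private theorem BLB_choose (y x t : ℝ) (hy : 0 ≤ y) (hx : 0 ≤ x) (hyt : y < t) :
    ∃ θ s a η : ℝ, 0 < θ ∧ θ ≤ 1 ∧ s = y + θ * x ∧ 0 ≤ s ∧ 0 < a ∧ 0 < η ∧ η < 1 ∧
      θ ^ (-a) * s ≤ η * t := by
  have ht : 0 < t := lt_of_le_of_lt hy hyt
  have hx1 : 0 < x + 1 := by linarith
  obtain ⟨θ, hθ0, hθ1, hθ2⟩ : ∃ θ : ℝ, 0 < θ ∧ θ ≤ 1 ∧ θ * (2 * (x + 1)) ≤ t - y := by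
    refine ⟨min 1 ((t - y) / (2 * (x + 1))), ?_, min_le_left _ _, ?_⟩
    · exact lt_min one_pos (div_pos (by linarith) (by linarith))
    · calc min 1 ((t - y) / (2 * (x + 1))) * (2 * (x + 1))
          ≤ ((t - y) / (2 * (x + 1))) * (2 * (x + 1)) :=
            mul_le_mul_of_nonneg_right (min_le_right _ _) (by linarith)
        _ = t - y := by
            field_simp
  have hs0 : 0 ≤ y + θ * x := add_nonneg hy (mul_nonneg hθ0.le hx)
  have hst : y + θ * x < t := by nlinarith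
  have hc : ContinuousAt (fun a : ℝ => θ ^ (-a) * (y + θ * x)) 0 := by
    refine ContinuousAt.mul ?_ continuousAt_const
    exact (Real.continuousAt_const_rpow hθ0.ne').comp continuousAt_neg
  have h0 : (fun a : ℝ => θ ^ (-a) * (y + θ * x)) 0 < (t + (y + θ * x)) / 2 := by
    simp only [neg_zero, Real.rpow_zero, one_mul]
    linarith
  have hev := hc.eventually (gt_mem_nhds h0)
  obtain ⟨a, ha1, ha2⟩ := ((hev.filter_mono nhdsWithin_le_nhds).and
    (self_mem_nhdsWithin (a := (0 : ℝ)) (s := Set.Ioi 0))).exists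
  refine ⟨θ, y + θ * x, a, (1 + (y + θ * x) / t) / 2, hθ0, hθ1, rfl, hs0, ha2, ?_, ?_, ?_⟩
  · have : 0 ≤ (y + θ * x) / t := div_nonneg hs0 ht.le
    linarith
  · have : (y + θ * x) / t < 1 := (div_lt_one ht).2 hst
    linarith
  · have e : (1 + (y + θ * x) / t) / 2 * t = (t + (y + θ * x)) / 2 := by
      field_simp
    rw [e]
    exact le_of_lt ha1

theorem thm_BLB (hBLA : St_BLA) : St_BLB := by
  classical
  intro d M P R t hP hlt
  obtain ⟨θ, s, a, η, hθ0, hθ1, hs, hs0, ha, hη0, hη1, hle⟩ :=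
    BLB_choose _ ((sw d M P).card : ℝ) t (Nat.cast_nonneg _) (Nat.cast_nonneg _) hlt
  refine ⟨a, η, ha, hη0, hη1, fun N => ?_⟩
  have hmain := hBLA d M N P R θ hP hθ0.le
  rw [← hs] at hmain
  have hsub : sw d (N * M) (fun w => P w ∧ (rho R M N w : ℝ) ≤ a * N) ⊆ sw d (N * M) P := by
    intro w hw
    rw [mem_sw] at hw ⊢
    exact ⟨hw.1, hw.2.1, hw.2.2.1⟩
  have h1 : ((sw d (N * M) (fun w => P w ∧ (rho R M N w : ℝ) ≤ a * N)).card : ℝ) *
      θ ^ (a * (N : ℝ)) ≤ s ^ N := by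
    calc ((sw d (N * M) (fun w => P w ∧ (rho R M N w : ℝ) ≤ a * N)).card : ℝ) *
          θ ^ (a * (N : ℝ))
        = ∑ w ∈ sw d (N * M) (fun w => P w ∧ (rho R M N w : ℝ) ≤ a * N), θ ^ (a * (N : ℝ)) := by
          rw [Finset.sum_const, nsmul_eq_mul]
      _ ≤ ∑ w ∈ sw d (N * M) (fun w => P w ∧ (rho R M N w : ℝ) ≤ a * N), θ ^ (rho R M N w) := by
          refine Finset.sum_le_sum fun w hw => ?_
          rw [mem_sw] at hw
          rw [← Real.rpow_natCast]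
          exact Real.rpow_le_rpow_of_exponent_ge hθ0 hθ1 hw.2.2.2
      _ ≤ ∑ w ∈ sw d (N * M) P, θ ^ (rho R M N w) :=
          Finset.sum_le_sum_of_subset_of_nonneg hsub fun _ _ _ => pow_nonneg hθ0.le _
      _ ≤ s ^ N := hmain
  have hpos : 0 < θ ^ (a * (N : ℝ)) := Real.rpow_pos_of_pos hθ0 _
  have e1 : θ ^ (a * (N : ℝ)) = (θ ^ a) ^ N := by
    rw [Real.rpow_mul hθ0.le, Real.rpow_natCast]
  have hpa : 0 < θ ^ a := Real.rpow_pos_of_pos hθ0 _
  calc ((sw d (N * M) (fun w => P w ∧ (rho R M N w : ℝ) ≤ a * N)).card : ℝ)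
      ≤ s ^ N / θ ^ (a * (N : ℝ)) := (le_div_iff₀ hpos).2 h1
    _ = (θ ^ (-a) * s) ^ N := by
        rw [e1, Real.rpow_neg hθ0.le, mul_pow, inv_pow, div_eq_mul_inv, mul_comm]
    _ ≤ (η * t) ^ N :=
        pow_le_pow_left₀ (mul_nonneg (Real.rpow_nonneg hθ0.le _) hs0) hle N

end SRW
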