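import Pool.Agent.SRW.St

/-!
# SRW, module CLO: closed words are rare
-/

set_option autoImplicit false

namespace SRW

open Finset Filter

/-- the split of `Lp` -/
private lemma CLO_split (d I m0 : ℕ) (x : ℝ) (hx : 0 ≤ x) (hI : 1 ≤ I) :
    Lp d x m0 ≤ (∑ n ∈ range (16 * I), x ^ n * (el d (n + 1) : ℝ)) + La d x m0 / (16 * I) := by
  have hI0 : (0 : ℝ) < 16 * I := by positivity
  have hterm : ∀ n : ℕ, 0 ≤ x ^ n * (el d (n + 1) : ℝ) := fun n => by positivity
  have h1 : Lp d x m0 ≤ ∑ n ∈ range (m0 + 1), ((if n < 16 * I then x ^ n * (el d (n + 1) : ℝ) else 0) +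
      ((n : ℝ) + 1) * x ^ n * (el d (n + 1) : ℝ) / (16 * I)) := by
    unfold Lp
    refine Finset.sum_le_sum fun n _ => ?_
    by_cases hn : n < 16 * I
    · rw [if_pos hn]
      have h2 : 0 ≤ ((n : ℝ) + 1) * x ^ n * (el d (n + 1) : ℝ) / (16 * I) := by positivity
      linarith
    · rw [if_neg hn, zero_add, le_div_iff₀ hI0]
      have h2 : (16 : ℝ) * I ≤ (n : ℝ) + 1 := by
        have h3 : 16 * I ≤ n := not_lt.mp hn
        have h4 : ((16 * I : ℕ) : ℝ) ≤ (n : ℝ) := by exact_mod_cast h3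
        push_cast at h4
        linarith
      calc x ^ n * (el d (n + 1) : ℝ) * (16 * I) ≤ x ^ n * (el d (n + 1) : ℝ) * ((n : ℝ) + 1) :=
            mul_le_mul_of_nonneg_left h2 (hterm n)
        _ = ((n : ℝ) + 1) * x ^ n * (el d (n + 1) : ℝ) := by ring
  refine h1.trans ?_
  rw [Finset.sum_add_distrib, ← Finset.sum_div]
  have h5 : ∑ n ∈ range (m0 + 1), (if n < 16 * I then x ^ n * (el d (n + 1) : ℝ) else 0) ≤
      ∑ n ∈ range (16 * I), x ^ n * (el d (n + 1) : ℝ) := by
    rw [← Finset.sum_filter]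
    refine Finset.sum_le_sum_of_subset_of_nonneg ?_ fun n _ _ => hterm n
    intro n hn
    exact Finset.mem_range.mpr (Finset.mem_filter.mp hn).2
  unfold La
  linarith

/-- **CLO**. -/
theorem thm_CLO (hMU : St_MU) (hSNC : St_SNC) : St_CLO := by
  intro d δ₀ hd hδ₀
  obtain ⟨hmu1, hmuc, _, _, _, _, _, hgrow⟩ := hMU d hd
  have hmu0 : 0 < mu d := by linarith
  set δ : ℝ := min δ₀ 1 with hδdef
  have hδ : 0 < δ := lt_min hδ₀ one_pos
  have hδ1 : δ ≤ 1 := min_le_right _ _
  have hδle : δ ≤ δ₀ := min_le_left _ _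
  set γ : ℝ := Real.log (1 + 1 / mu d * δ / 2) with hγdef
  have hγ : 0 < γ := by
    apply Real.log_pos
    have : 0 < 1 / mu d * δ / 2 := by positivity
    linarith
  obtain ⟨C, hC, hgrowC⟩ := hgrow (γ / 32) (by positivity)
  obtain ⟨I, hIlarge⟩ := exists_nat_ge (max 1 ((1 + Real.log (1 / δ) + Real.log C) / (γ / 32)))
  have hI1 : 1 ≤ I := by
    have h1 := (le_max_left _ _).trans hIlarge
    exact_mod_cast h1
  have hI0 : (0 : ℝ) < I := by exact_mod_cast hI1
  have hIγ : 1 + Real.log (1 / δ) + Real.log C ≤ I * (γ / 32) := by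
    have h1 := (le_max_right _ _).trans hIlarge
    rwa [div_le_iff₀ (by positivity)] at h1
  have hcI : (1 : ℝ) ≤ (c d I : ℝ) := by
    have h1 := hmuc I
    have h2 : (1 : ℝ) ≤ mu d ^ I := one_le_pow₀ hmu1
    linarith
  have hcI0 : (0 : ℝ) < (c d I : ℝ) := by linarith
  have hlogc : Real.log (c d I : ℝ) ≤ Real.log C + I * (Real.log (mu d) + γ / 32) := by
    have h1 := hgrowC I
    have h2 := Real.log_le_log hcI0 h1
    have h3 : 0 < 1 + γ / 32 := by positivity
    rw [Real.log_mul hC.ne' (by positivity), Real.log_pow, Real.log_mul hmu0.ne' h3.ne'] at h2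
    have h4 : Real.log (1 + γ / 32) ≤ γ / 32 := by
      have := Real.log_le_sub_one_of_pos h3
      linarith
    have h5 : (I : ℝ) * (Real.log (mu d) + Real.log (1 + γ / 32)) ≤
        I * (Real.log (mu d) + γ / 32) :=
      mul_le_mul_of_nonneg_left (by linarith) hI0.le
    linarith
  refine ⟨γ / 16, by positivity, fun ε hε hε0 => ?_⟩
  set x : ℝ := Real.exp ε / mu d with hxdef
  have hx0 : 0 < x := by positivity
  have hxmu : 1 / mu d ≤ x := by
    rw [hxdef]
    gcongr
    exact Real.one_le_exp hε.le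
  have hxc : ∀ n : ℕ, 1 ≤ x ^ n * (c d n : ℝ) := by
    intro n
    have h1 : (1 / mu d) ^ n * mu d ^ n = 1 := by
      rw [← mul_pow, one_div, inv_mul_cancel₀ hmu0.ne', one_pow]
    rw [← h1]
    have h2 : (1 / mu d) ^ n ≤ x ^ n := by gcongr
    exact mul_le_mul h2 (hmuc n) (by positivity) (by positivity)
  have hlogx : Real.log x = ε - Real.log (mu d) := by
    rw [hxdef, Real.log_div (Real.exp_pos ε).ne' hmu0.ne', Real.log_exp]
  set C1 : ℝ := ∑ n ∈ range (16 * I), x ^ n * (el d (n + 1) : ℝ) with hC1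
  obtain ⟨n1, hn1⟩ := exists_nat_ge (16 * I * C1 / δ)
  refine ⟨n1, fun m0 hm0 => ?_⟩
  have hXi : (m0 : ℝ) + 1 ≤ Xi d x m0 := by
    unfold Xi
    have h1 : ((m0 : ℝ) + 1) * x ^ m0 * (c d m0 : ℝ) ≤
        ∑ n ∈ range (m0 + 1), ((n : ℝ) + 1) * x ^ n * (c d n : ℝ) :=
      Finset.single_le_sum (f := fun n : ℕ => ((n : ℝ) + 1) * x ^ n * (c d n : ℝ))
        (fun n _ => by positivity) (Finset.mem_range.mpr (Nat.lt_succ_self m0))
    have h2 : ((m0 : ℝ) + 1) * 1 ≤ ((m0 : ℝ) + 1) * (x ^ m0 * (c d m0 : ℝ)) :=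
      mul_le_mul_of_nonneg_left (hxc m0) (by positivity)
    linarith
  have hXi0 : 0 < Xi d x m0 := by
    have : (0 : ℝ) ≤ m0 := Nat.cast_nonneg _
    linarith
  have key : La d x m0 ≤ δ * Xi d x m0 := by
    by_contra hcon
    rw [not_le] at hcon
    have hLaδ : δ * ((m0 : ℝ) + 1) ≤ La d x m0 :=
      (mul_le_mul_of_nonneg_left hXi hδ.le).trans hcon.le
    have hLa0 : 0 < La d x m0 := lt_trans (by positivity) hcon
    have hLa1 : 16 * I * C1 ≤ La d x m0 := by
      have h1 : (n1 : ℝ) ≤ m0 := by exact_mod_cast hm0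
      have h2 : 16 * I * C1 / δ ≤ (m0 : ℝ) + 1 := by linarith
      rw [div_le_iff₀ hδ] at h2
      linarith
    have hLp := CLO_split d I m0 x hx0.le hI1
    have hLp2 : 2 * I * Lp d x m0 ≤ La d x m0 / 4 := by
      have h1 : 2 * I * Lp d x m0 ≤ 2 * I * (C1 + La d x m0 / (16 * I)) :=
        mul_le_mul_of_nonneg_left hLp (by positivity)
      have h2 : 2 * (I : ℝ) * (C1 + La d x m0 / (16 * I)) = 2 * I * C1 + La d x m0 / 8 := by
        field_simp
        ring
      linarith
    have hS := hSNC d I m0 x δ hd hI1 hxmu hδ hδ1 hcon.le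
    have hlow : γ ≤ Real.log (1 + x * δ / 2) := by
      apply Real.log_le_log (by positivity)
      have h1 : 1 / mu d * δ ≤ x * δ := mul_le_mul_of_nonneg_right hxmu hδ.le
      linarith
    have hprod : (I : ℝ) * γ * (La d x m0 / 4) ≤
        (I : ℝ) * Real.log (1 + x * δ / 2) * (La d x m0 / 2 - 2 * I * Lp d x m0) := by
      have h1 : (I : ℝ) * γ ≤ (I : ℝ) * Real.log (1 + x * δ / 2) :=
        mul_le_mul_of_nonneg_left hlow hI0.le
      exact mul_le_mul h1 (by linarith) (by positivity)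
        (le_trans (by positivity) h1)
    have hlogall : Real.log (x ^ I * (c d I : ℝ) / δ) ≤
        I * ε + Real.log C + I * (γ / 32) + Real.log (1 / δ) := by
      rw [Real.log_div (by positivity) hδ.ne', Real.log_mul (by positivity) hcI0.ne',
        Real.log_pow, hlogx, one_div, Real.log_inv]
      have h1 : (I : ℝ) * (ε - Real.log (mu d)) = I * ε - I * Real.log (mu d) := by ring
      have h2 : (I : ℝ) * (Real.log (mu d) + γ / 32) = I * Real.log (mu d) + I * (γ / 32) := by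
        ring
      rw [h1]
      rw [h2] at hlogc
      linarith
    have hfin : (I : ℝ) * γ * (La d x m0 / 4) ≤
        La d x m0 * (1 + (I * ε + Real.log C + I * (γ / 32) + Real.log (1 / δ))) :=
      hprod.trans (hS.trans (mul_le_mul_of_nonneg_left (by linarith) hLa0.le))
    have hdiv : (I : ℝ) * γ / 4 ≤
        1 + (I * ε + Real.log C + I * (γ / 32) + Real.log (1 / δ)) := by
      have h1 : La d x m0 * ((I : ℝ) * γ / 4) ≤
          La d x m0 * (1 + (I * ε + Real.log C + I * (γ / 32) + Real.log (1 / δ))) := by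
        calc La d x m0 * ((I : ℝ) * γ / 4) = (I : ℝ) * γ * (La d x m0 / 4) := by ring
          _ ≤ _ := hfin
      exact le_of_mul_le_mul_left h1 hLa0
    have hIε : (I : ℝ) * ε ≤ I * (γ / 16) := mul_le_mul_of_nonneg_left hε0 hI0.le
    have hIγ0 : 0 < (I : ℝ) * γ := mul_pos hI0 hγ
    have h9 : (I : ℝ) * (γ / 16) = (I : ℝ) * γ / 16 := by ring
    have h10 : (I : ℝ) * (γ / 32) = (I : ℝ) * γ / 32 := by ring
    rw [h9] at hIε
    rw [h10] at hIγ hdiv
    linarith
  exact key.trans (mul_le_mul_of_nonneg_right hδle hXi0.le)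

end SRW
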