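import Pool.Agent.SRW.St

/-!
# SRW: construction of the new word and its code (module COA)
-/

set_option autoImplicit false

namespace SRW

open Finset

variable {d : ℕ}

/-- Two cubes with different centres in the same residue class are disjoint. -/
private theorem COA_disj {κ : Fin d → ZMod 3} {z z' : Pt d} (h : res z = κ) (h' : res z' = κ) (hne : z ≠ z')
    (p : Pt d) : ¬ (InCube z p ∧ InCube z' p) := by
  rintro ⟨h1, h2⟩
  apply hne
  funext j
  have a1 := abs_le.1 (h1 j)
  have a2 := abs_le.1 (h2 j)
  have e : ((z j : ℤ) : ZMod 3) = ((z' j : ℤ) : ZMod 3) := by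
    have := congrFun (h.trans h'.symm) j
    exact this
  rw [ZMod.intCast_eq_intCast_iff_dvd_sub] at e
  obtain ⟨q, hq⟩ := e
  push_cast at hq
  omega

/-- The parts of a word. -/
private theorem COA_split (w : List (Step d)) {a b : ℕ} (h : a ≤ b) :
    w.drop a = (w.drop a).take (b - a) ++ w.drop b := by
  have e : w.drop b = (w.drop a).drop (b - a) := by
    rw [List.drop_drop]
    congr 1
    omega
  rw [e, List.take_append_drop]

private theorem COA_len (w : List (Step d)) {a b : ℕ} (h : b ≤ w.length) :
    ((w.drop a).take (b - a)).length = b - a := by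
  rw [List.length_take, List.length_drop]
  omega

private theorem COA_disp (w : List (Step d)) {a b : ℕ} (hab : a ≤ b) (h : b ≤ w.length) :
    pos w b = pos w a + disp ((w.drop a).take (b - a)) := by
  have h1 := pos_part w a (b - a) (b - a) (by omega) le_rfl
  rw [show a + (b - a) = b by omega] at h1
  rw [h1]
  congr 1
  apply pos_of_length_le
  rw [List.length_take]
  omega

private theorem COA_take {A V : List (Step d)} {m : ℕ} (h : A.length = m) : (A ++ V).take m = A := by
  rw [List.take_append_of_le_length (by omega), List.take_of_length_le (by omega)]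

private theorem COA_drop {A V : List (Step d)} {m : ℕ} (h : A.length = m) : (A ++ V).drop m = V := by
  rw [List.drop_append_of_le_length (by omega), List.drop_of_length_le (by omega), List.nil_append]

private theorem COA_main (hMDF : St_MDF) (hDEC : St_DEC) {k M G K : ℕ} {κ : Fin d → ZMod 3}
    {w : List (Step d)} {σ : List (Option ℕ)} (hd : 2 ≤ d) (hM : 1 ≤ M)
    (hwl : w.length = K * G * M) (hws : Saw w) (hwn : NB w) (hwc : Cov k w) (hσ : σ.length = K)
    (hopt : ∀ g b : ℕ, σ[g]? = some (some b) → b ∈ opt k M G K κ w g) :
    ∀ j g : ℕ, g + j = K → ∃ (l : List (List (Step d) × List (Step d) × Option (Pt d)))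
      (D : List (Option (ℕ × ℕ × List (Step d)))),
      (l.map (fun g => g.1)).flatten = w.drop (g * (G * M)) ∧
      SegOK w (g * (G * M)) l ∧
      (∀ z ∈ l.filterMap (fun g => g.2.2), ∃ i, g * (G * M) < i ∧ i ≤ w.length ∧ z = pos w i ∧ res z = κ) ∧
      (l.filterMap (fun g => g.2.2)).Pairwise (fun z z' => ∀ p, ¬ (InCube z p ∧ InCube z' p)) ∧
      D.length = j ∧
      (∀ a ∈ D, a = none ∨ ∃ r l O, a = some (r, l, O) ∧ r ≤ 2 * d + 4 ∧ l ≤ 2 * d + 2 ∧ O.length ≤ M) ∧
      ((l.map (fun g => g.2.1)).flatten).length ≤ j * (G * M + (2 * d + 2)) ∧
      decW (G * M) (2 * d + 2) D ((l.map (fun g => g.2.1)).flatten) = w.drop (g * (G * M)) ∧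
      decS (G * M) (2 * d + 2) M D ((l.map (fun g => g.2.1)).flatten) = σ.drop g := by
  intro j
  induction j with
  | zero =>
    intro g hg
    have hgK : g = K := by omega
    subst hgK
    refine ⟨[], [], ?_, trivial, by simp, by simp, rfl, by simp, by simp, ?_, ?_⟩
    · rw [List.drop_of_length_le (by rw [hwl, mul_assoc])]
      simp
    · rw [List.drop_of_length_le (by rw [hwl, mul_assoc])]
      simp [decW]
    · rw [List.drop_of_length_le (by omega)]
      simp [decS]
  | succ j ih =>
    intro g hg
    obtain ⟨l, D, h1, h2, h3, h4, h5, h6, h7, h8, h9⟩ := ih (g + 1) (by omega)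
    set m := G * M with hm
    have hgK : g < K := by omega
    have hle : (g + 1) * m ≤ w.length := by
      rw [hwl, mul_assoc]
      exact Nat.mul_le_mul_right _ (by omega)
    have hgm : (g + 1) * m = g * m + m := by ring
    have hsg : w.drop (g * m) = (w.drop (g * m)).take m ++ w.drop ((g + 1) * m) := by
      have := COA_split w (a := g * m) (b := (g + 1) * m) (by omega)
      rwa [show (g + 1) * m - g * m = m by omega] at this
    have hBl : ((w.drop (g * m)).take m).length = m := by
      have := COA_len w (a := g * m) hle
      rwa [show (g + 1) * m - g * m = m by omega] at this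
    set V := (l.map (fun g => g.2.1)).flatten with hV
    have hσg : g < σ.length := by omega
    have hσd : σ.drop g = σ[g] :: σ.drop (g + 1) := List.drop_eq_getElem_cons hσg
    have h3' : ∀ z ∈ l.filterMap (fun g => g.2.2), ∃ i, g * m < i ∧ i ≤ w.length ∧ z = pos w i ∧ res z = κ := by
      intro z hz
      obtain ⟨i, hi, hi2⟩ := h3 z hz
      exact ⟨i, by omega, hi2⟩
    rcases hs : σ[g] with _ | b
    · -- the group is kept
      refine ⟨((w.drop (g * m)).take m, (w.drop (g * m)).take m, none) :: l, none :: D, ?_, ?_, ?_, ?_, ?_, ?_, ?_,
        ?_, ?_⟩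
      · simp only [List.map_cons, List.flatten_cons]
        rw [h1, ← hsg]
      · refine ⟨rfl, ?_⟩
        rw [hBl, ← hgm]
        exact h2
      · simpa using h3'
      · simpa using h4
      · simp [h5]
      · intro a ha
        rcases List.mem_cons.1 ha with rfl | ha
        · exact Or.inl rfl
        · exact h6 a ha
      · simp only [List.map_cons, List.flatten_cons, List.length_append]
        rw [hBl, ← hV]
        have : (j + 1) * (m + (2 * d + 2)) = j * (m + (2 * d + 2)) + m + (2 * d + 2) := by ring
        omega
      · simp only [List.map_cons, List.flatten_cons, decW]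
        rw [← hV, COA_take hBl, COA_drop hBl, h8, ← hsg]
      · simp only [List.map_cons, List.flatten_cons, decS]
        rw [← hV, COA_drop hBl, h9, hσd, hs]
    · -- the group is changed
      have hmem := hopt g b (by rw [List.getElem?_eq_getElem hσg, hs])
      unfold opt at hmem
      rw [Finset.mem_filter, Finset.mem_range] at hmem
      obtain ⟨hbG, ht1, ht2, hc1, hc2, hκ⟩ := hmem
      set t := g * G + b with ht
      set i0 := ctr k (blk M w t) with hi0
      obtain ⟨s, e, π, hs1, hs2, he1, he2, hπs, hπb, hπl, hπd, hcw, hcπ⟩ :=
        hMDF d k M (K * G) w hd hM hws hwl hwc t i0 ht1 ht2 hc1 hc2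
      -- arithmetic
      have e1 : t * M = g * m + b * M := by rw [ht, hm]; ring
      have e2 : (t + 1) * M = g * m + b * M + M := by rw [add_mul, e1]; ring
      have e3 : (b + 1) * M ≤ m := by
        rw [hm]
        exact Nat.mul_le_mul_right _ (by omega)
      have e3' : b * M + M ≤ m := by
        have : (b + 1) * M = b * M + M := by ring
        omega
      have hsl : g * m ≤ s := by omega
      have hse : s < e := by omega
      have hel : e ≤ (g + 1) * m := by omega
      set α := (w.drop (g * m)).take (s - g * m) with hα
      set O := (w.drop s).take (e - s) with hO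
      set β := (w.drop e).take ((g + 1) * m - e) with hβ
      have hαl : α.length = s - g * m := COA_len w (by omega)
      have hOl : O.length = e - s := COA_len w (by omega)
      have hβl : β.length = (g + 1) * m - e := COA_len w hle
      have hw1 : w.drop (g * m) = α ++ (O ++ (β ++ w.drop ((g + 1) * m))) := by
        rw [COA_split w hsl, COA_split w hse.le, COA_split w hel]
      have hnb : NB (α ++ O ++ β) := by
        apply her_NB (w.take (g * m)) (α ++ O ++ β) (w.drop ((g + 1) * m))
        have : w.take (g * m) ++ (α ++ O ++ β) ++ w.drop ((g + 1) * m) = w := by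
          simp only [List.append_assoc]
          rw [← hw1, List.take_append_drop]
        rw [this]
        exact hwn
      obtain ⟨hf1, hf2⟩ := hDEC d (2 * d + 2) α O π β hnb hπb hπl
      set F := fb (α ++ π ++ β) with hF
      have hBl' : (α ++ π ++ β).length = m - O.length + π.length := by
        simp only [List.length_append]
        omega
      have hpos : F + (α.length + (2 * d + 2) - F) - (2 * d + 2) = α.length := by omega
      have hVt : (α ++ (π ++ (β ++ V))).take (m - O.length + π.length) = α ++ π ++ β := by
        have : α ++ (π ++ (β ++ V)) = (α ++ π ++ β) ++ V := by simp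
        rw [this, List.take_append_of_le_length (by omega), List.take_of_length_le (by omega)]
      have hVd : (α ++ (π ++ (β ++ V))).drop (m - O.length + π.length) = V := by
        have : α ++ (π ++ (β ++ V)) = (α ++ π ++ β) ++ V := by simp
        rw [this, List.drop_append_of_le_length (by omega), List.drop_of_length_le (by omega), List.nil_append]
      refine ⟨(α, α, none) :: (O, π, some (pos w (t * M + i0))) :: (β, β, none) :: l,
        some (α.length + (2 * d + 2) - F, π.length, O) :: D, ?_, ?_, ?_, ?_, ?_, ?_, ?_, ?_, ?_⟩
      · simp only [List.map_cons, List.flatten_cons]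
        rw [h1, ← hw1]
      · refine ⟨rfl, hπs, ?_, ?_, ?_, rfl, ?_⟩
        · have q := COA_disp w hse.le (by omega)
          rw [q] at hπd
          exact add_left_cancel hπd
        · intro i hi hc
          have := hcw i hi hc
          constructor <;> omega
        · intro i hi
          rw [hαl, show g * m + (s - g * m) = s by omega]
          exact hcπ i hi
        · rw [hαl, hOl, hβl, show g * m + (s - g * m) + (e - s) + ((g + 1) * m - e) = (g + 1) * m by omega]
          exact h2
      · intro z hz
        simp only [List.filterMap_cons, List.mem_cons] at hz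
        rcases hz with rfl | hz
        · exact ⟨t * M + i0, by omega, by omega, rfl, hκ⟩
        · exact h3' z hz
      · simp only [List.filterMap_cons]
        rw [List.pairwise_cons]
        refine ⟨?_, h4⟩
        intro z' hz'
        obtain ⟨i, hi1, hi2, rfl, hi4⟩ := h3 z' hz'
        apply COA_disj hκ hi4
        intro he
        have := hws.inj (by omega) hi2 he
        omega
      · simp [h5]
      · intro a ha
        rcases List.mem_cons.1 ha with rfl | ha
        · refine Or.inr ⟨_, _, _, rfl, ?_, hπl, ?_⟩
          · omega
          · omega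
        · exact h6 a ha
      · simp only [List.map_cons, List.flatten_cons, List.length_append]
        rw [← hV]
        have : (j + 1) * (m + (2 * d + 2)) = j * (m + (2 * d + 2)) + m + (2 * d + 2) := by ring
        omega
      · simp only [List.map_cons, List.flatten_cons, decW]
        rw [← hV, hVt, hVd, ← hF, hpos, h8]
        have t1 : (α ++ π ++ β).take α.length = α := by
          rw [List.append_assoc, List.take_append_of_le_length le_rfl, List.take_of_length_le le_rfl]
        have t2 : (α ++ π ++ β).drop (α.length + π.length) = β := by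
          rw [List.drop_append_of_le_length (by simp), List.drop_of_length_le (by simp), List.nil_append]
        rw [t1, t2, ← hw1]
      · simp only [List.map_cons, List.flatten_cons, decS]
        rw [← hV, hVt, hVd, ← hF, hpos, h9, hσd, hs]
        congr 2
        rw [hαl]
        apply Nat.div_eq_of_lt_le
        · omega
        · have : (b + 1) * M = b * M + M := by ring
          omega

theorem thm_COA (hMDF : St_MDF) (hSGS : St_SGS) (hDEC : St_DEC) : St_COA := by
  intro d k M G K κ w σ hd hM _ hw hσ hopt
  obtain ⟨hwl, hws, hwn, hwc⟩ := mem_sw.1 hw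
  obtain ⟨l, D, h1, h2, h3, h4, h5, h6, h7, h8, h9⟩ :=
    COA_main hMDF hDEC hd hM hwl hws hwn hwc hσ hopt K 0 (by omega)
  rw [Nat.zero_mul, List.drop_zero] at h1 h8
  rw [Nat.zero_mul] at h2
  rw [List.drop_zero] at h9
  have h10 := hSGS d l (by rw [h1]; exact hws) (by rw [h1]; exact h2) h4
  refine ⟨_, D, h10.1, ?_, h5, h6, h8, h9⟩
  refine h7.trans (le_of_eq ?_)
  ring

end SRW
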