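import Pool.Agent.SRW.St

/-!
# SRW: COB, counting from COA
-/

set_option autoImplicit false

namespace SRW

open Finset

private lemma COB_card_words (d n : ℕ) : (words d n).card = (2 * d) ^ n := by
  have h : words d n = (univ : Finset (List.Vector (Step d) n)).map
      ⟨List.Vector.toList, List.Vector.toList_injective⟩ := by
    ext w
    rw [mem_words]
    simp only [Finset.mem_map, Finset.mem_univ, true_and, Function.Embedding.coeFn_mk]
    constructor
    · intro hw
      exact ⟨⟨w, hw⟩, rfl⟩
    · rintro ⟨v, rfl⟩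
      exact v.toList_length
  rw [h, Finset.card_map, Finset.card_univ, card_vector, card_step]

open Classical in
/-- The admissible codes of one group. -/
private noncomputable def COB_code (d M : ℕ) : Finset (Option (ℕ × ℕ × List (Step d))) :=
  insertNone ((range (2 * d + 5)) ×ˢ ((range (2 * d + 3)) ×ˢ ((range (M + 1)).biUnion (words d))))

private lemma COB_code_card (d M : ℕ) : (COB_code d M).card ≤
    1 + (2 * d + 5) * (2 * d + 3) * ∑ j ∈ range (M + 1), (2 * d) ^ j := by
  classical
  unfold COB_code
  rw [card_insertNone, card_product, card_product, card_range, card_range]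
  have h1 : ((range (M + 1)).biUnion (words d)).card ≤ ∑ j ∈ range (M + 1), (2 * d) ^ j := by
    refine card_biUnion_le.trans (le_of_eq ?_)
    exact Finset.sum_congr rfl fun j _ => COB_card_words d j
  have h2 := Nat.mul_le_mul_left ((2 * d + 5) * (2 * d + 3)) h1
  rw [← mul_assoc]
  omega

private lemma COB_code_mem (d M : ℕ) (a : Option (ℕ × ℕ × List (Step d)))
    (h : a = none ∨ ∃ r l O, a = some (r, l, O) ∧ r ≤ 2 * d + 4 ∧ l ≤ 2 * d + 2 ∧ O.length ≤ M) :
    a ∈ COB_code d M := by
  classical
  unfold COB_code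
  rcases h with rfl | ⟨r, l, O, rfl, h1, h2, h3⟩
  · simp
  · rw [some_mem_insertNone, mem_product, mem_product, mem_range, mem_range, mem_biUnion]
    refine ⟨by simp only; omega, by simp only; omega, O.length, ?_, ?_⟩
    · rw [mem_range]; omega
    · rw [mem_words]

theorem thm_COB (hCOA : St_COA) : St_COB := by
  classical
  intro d k M G K κ hd hM hG
  set A : Finset (List (Step d)) := sw d (K * G * M) (fun u => NB u ∧ Cov k u) with hA
  -- the pairs (w, σ)
  set S : Finset (Σ _ : List (Step d), (Fin K → Option ℕ)) :=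
    A.sigma (fun w => Fintype.piFinset (fun g : Fin K => insertNone (opt k M G K κ w g))) with hS
  have hScard : S.card = ∑ w ∈ A, ∏ g ∈ range K, (1 + (opt k M G K κ w g).card) := by
    rw [hS, card_sigma]
    refine Finset.sum_congr rfl fun w _ => ?_
    rw [Fintype.card_piFinset, Finset.prod_range]
    refine Finset.prod_congr rfl fun g _ => ?_
    rw [card_insertNone, add_comm]
  -- the targets
  set V : Finset (List (Step d)) :=
    (range (K * G * M + K * (2 * d + 2) + 1)).biUnion (saws d) with hV
  set DL : Finset (List (Option (ℕ × ℕ × List (Step d)))) :=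
    (Fintype.piFinset (fun _ : Fin K => COB_code d M)).image List.ofFn with hDL
  have hVcard : V.card ≤ ∑ n ∈ range (K * G * M + K * (2 * d + 2) + 1), c d n := card_biUnion_le
  have hDLcard : DL.card ≤ (1 + (2 * d + 5) * (2 * d + 3) * ∑ j ∈ range (M + 1), (2 * d) ^ j) ^ K := by
    refine card_image_le.trans ?_
    rw [Fintype.card_piFinset, Finset.prod_const, card_univ, Fintype.card_fin]
    exact Nat.pow_le_pow_left (COB_code_card d M) K
  -- the choice of the code
  have key : ∀ p ∈ S, ∃ q ∈ V ×ˢ DL,
      decW (G * M) (2 * d + 2) q.2 q.1 = p.1 ∧ decS (G * M) (2 * d + 2) M q.2 q.1 = List.ofFn p.2 := by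
    rintro ⟨w, f⟩ hp
    rw [hS, mem_sigma] at hp
    obtain ⟨hw, hf⟩ := hp
    simp only at hw hf
    rw [Fintype.mem_piFinset] at hf
    obtain ⟨v, D, hv, hvl, hDl, hDm, h1, h2⟩ := hCOA d k M G K κ w (List.ofFn f) hd hM hG hw
      (List.length_ofFn) (by
        intro g b hgb
        rw [List.getElem?_eq_some_iff] at hgb
        obtain ⟨hg, hb⟩ := hgb
        have hg' : g < K := by simpa using hg
        rw [List.getElem_ofFn] at hb
        have h3 := hf ⟨g, hg'⟩
        have h4 : f ⟨g, hg'⟩ = some b := hb
        rw [h4, some_mem_insertNone] at h3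
        exact h3)
    refine ⟨(v, D), ?_, h1, h2⟩
    rw [mem_product]
    constructor
    · rw [hV, mem_biUnion]
      refine ⟨v.length, ?_, ?_⟩
      · rw [mem_range]; omega
      · rw [mem_saws]; exact ⟨rfl, hv⟩
    · rw [hDL, mem_image]
      refine ⟨fun g => D[g.1]'(by rw [hDl]; exact g.2), ?_, ?_⟩
      · rw [Fintype.mem_piFinset]
        intro g
        exact COB_code_mem d M _ (hDm _ (List.getElem_mem _))
      · subst hDl
        exact List.ofFn_getElem
  choose! φ hφ1 hφ2 using key
  have hinj : Set.InjOn φ S := by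
    intro p hp p' hp' he
    obtain ⟨h1, h2⟩ := hφ2 p hp
    obtain ⟨h3, h4⟩ := hφ2 p' hp'
    rw [he] at h1 h2
    have e1 : p.1 = p'.1 := h1.symm.trans h3
    have e2 : p.2 = p'.2 := List.ofFn_injective (h2.symm.trans h4)
    rcases p with ⟨w, f⟩
    rcases p' with ⟨w', f'⟩
    simp only at e1 e2
    subst e1
    subst e2
    rfl
  have hle : S.card ≤ (V ×ˢ DL).card := Finset.card_le_card_of_injOn φ hφ1 hinj
  rw [hScard, card_product] at hle
  exact hle.trans (Nat.mul_le_mul hVcard hDLcard)

end SRW
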