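import Pool.Agent.SRW.St

/-!
# SRW: module COV, coverage of cubes
-/

set_option autoImplicit false

namespace SRW

open Finset

variable {d : ℕ}

private theorem COV_pos (a v b : List (Step d)) {j : ℕ} (hj : j ≤ v.length) :
    pos (a ++ v ++ b) (a.length + j) = disp a + pos v j := by
  rw [List.append_assoc, pos_append_right, pos_append_left v b hj]

private theorem COV_her_aux (a v b : List (Step d)) {i : ℕ} (hi : i ≤ v.length) :
    cov v i ≤ cov (a ++ v ++ b) (a.length + i) := by
  classical
  unfold cov
  refine Finset.card_le_card_of_injOn (fun j => a.length + j) ?_ ?_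
  · intro j hj
    simp only [Finset.coe_filter, Finset.mem_range, Set.mem_setOf_eq] at hj ⊢
    obtain ⟨hj1, hj2⟩ := hj
    have hj3 : j ≤ v.length := by omega
    refine ⟨?_, ?_⟩
    · simp only [List.length_append]
      omega
    · rw [COV_pos a v b hi, COV_pos a v b hj3]
      intro l
      have h := hj2 l
      simp only [Pi.add_apply]
      have e : disp a l + pos v j l - (disp a l + pos v i l) = pos v j l - pos v i l := by ring
      rw [e]
      exact h
  · intro x _ y _ hxy
    simpa using hxy

private theorem COV_saw (w : List (Step d)) (hw : Saw w) : Cov (3 ^ d) w := by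
  classical
  intro i _
  unfold cov
  have h1 : (Fintype.piFinset fun _ : Fin d => ({-1, 0, 1} : Finset ℤ)).card = 3 ^ d := by
    rw [Fintype.card_piFinset]
    simp
  rw [← h1]
  refine Finset.card_le_card_of_injOn (fun j => pos w j - pos w i) ?_ ?_
  · intro j hj
    simp only [Finset.coe_filter, Finset.mem_range, Set.mem_setOf_eq] at hj
    rw [Finset.mem_coe, Fintype.mem_piFinset]
    intro l
    have h2 := abs_le.1 (hj.2 l)
    simp only [Pi.sub_apply, Finset.mem_insert, Finset.mem_singleton]
    omega
  · intro x hx y hy hxy
    simp only [Finset.coe_filter, Finset.mem_range, Set.mem_setOf_eq] at hx hy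
    have h2 : pos w x = pos w y := by
      have h3 : pos w x - pos w i = pos w y - pos w i := hxy
      exact sub_left_injective h3
    exact hw.inj (by omega) (by omega) h2

theorem thm_COV : St_COV := by
  intro d
  refine ⟨?_, fun w hw => COV_saw w hw, ?_, ?_⟩
  · intro k a v b h i hi
    refine (COV_her_aux a v b hi).trans (h (a.length + i) ?_)
    simp only [List.length_append]
    omega
  · intro w h
    classical
    have h1 := h 0 (Nat.zero_le _)
    unfold cov at h1
    rw [Nat.le_zero, Finset.card_eq_zero] at h1
    have h2 : 0 ∈ (range (w.length + 1)).filter (fun j => InCube (pos w 0) (pos w j)) := by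
      rw [Finset.mem_filter]
      refine ⟨by simp, ?_⟩
      intro j
      simp
    rw [h1] at h2
    simp at h2
  · intro k w h i hi
    exact (h i hi).trans (Nat.le_succ k)

end SRW
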