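import Pool.Agent.SRW.St

/-!
# SRW: DEC, position of the first bump
-/

set_option autoImplicit false

namespace SRW

theorem thm_DEC : St_DEC := by
  intro d L α O π β hNB hb hL
  obtain ⟨a, b, f, e, hπ⟩ := hb
  have hlen : a.length ≤ π.length := by
    rw [hπ]
    simp
  have h1 : α.length + a.length ∈
      {i | ∃ f e b, (α ++ π ++ β).drop i = f :: e :: opp f :: b} := by
    refine ⟨f, e, b ++ β, ?_⟩
    rw [hπ]
    have h2 : α ++ (a ++ [f, e, opp f] ++ b) ++ β = (α ++ a) ++ ([f, e, opp f] ++ (b ++ β)) := by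
      simp
    have h3 : α.length + a.length = (α ++ a).length := by simp
    rw [h2, h3, List.drop_left]
    rfl
  refine ⟨?_, ?_⟩
  · have h2 : fb (α ++ π ++ β) ≤ α.length + a.length := Nat.sInf_le h1
    omega
  · by_contra h2
    push Not at h2
    obtain ⟨f', e', b', h3⟩ : fb (α ++ π ++ β) ∈
        {i | ∃ f e b, (α ++ π ++ β).drop i = f :: e :: opp f :: b} := Nat.sInf_mem ⟨_, h1⟩
    obtain ⟨i, hi⟩ : ∃ i, i = fb (α ++ π ++ β) := ⟨_, rfl⟩
    rw [← hi] at h2 h3
    rw [List.append_assoc, List.drop_append_of_le_length (by omega)] at h3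
    have h4 : (α.drop i).length = α.length - i := List.length_drop
    apply hNB
    rcases h5 : α.drop i with _ | ⟨x, _ | ⟨y, _ | ⟨z, r⟩⟩⟩
    · rw [h5] at h4
      simp at h4
      omega
    · rw [h5] at h4
      simp at h4
      omega
    · rw [h5] at h4
      simp at h4
      omega
    · rw [h5] at h3
      simp only [List.cons_append, List.cons.injEq] at h3
      obtain ⟨rfl, rfl, rfl, -⟩ := h3
      refine ⟨α.take i, r ++ O ++ β, x, y, ?_⟩
      have h6 : α = α.take i ++ (x :: y :: opp x :: r) := by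
        rw [← h5, List.take_append_drop]
      conv_lhs => rw [h6]
      simp

end SRW
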