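import Pool.Agent.SRW.St

/-!
# SRW, module ENA: the three identities for the ends (helper34)
-/

set_option autoImplicit false

namespace SRW

open Finset

variable {d : ℕ}

private lemma ENA_last (v : List (Step d)) (n : ℕ) (h : v.length = n + 1) :
    ∃ w t, v = w ++ [t] ∧ w.length = n := by
  rcases List.eq_nil_or_concat v with h1 | ⟨w, t, h1⟩
  · rw [h1] at h
    simp at h
  · rw [List.concat_eq_append] at h1
    refine ⟨w, t, h1, ?_⟩
    rw [h1, List.length_append] at h
    simpa using h

private lemma ENA_first (v : List (Step d)) (n : ℕ) (h : v.length = n + 1) :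
    ∃ s w, v = s :: w ∧ w.length = n := by
  cases v with
  | nil => simp at h
  | cons s w => exact ⟨s, w, rfl, by simpa using h⟩

/-- the word `s, w, t` -/
private lemma ENA_saw (s t : Step d) (w : List (Step d)) (h1 : Saw (s :: w)) (h2 : Saw (w ++ [t]))
    (h3 : disp (s :: (w ++ [t])) ≠ 0) : Saw (s :: (w ++ [t])) := by
  rw [saw_iff]
  intro a u b hu hu0
  cases a with
  | nil =>
    rcases List.eq_nil_or_concat b with hb | ⟨b', t', hb⟩
    · rw [hb, List.append_nil, List.nil_append] at hu
      rw [← hu]
      exact h3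
    · rw [hb, List.concat_eq_append, List.nil_append, ← List.append_assoc,
        ← List.cons_append] at hu
      have h4 := (List.append_inj' hu rfl).1
      rw [saw_iff] at h1
      exact h1 [] u b' (by rw [h4, List.nil_append]) hu0
  | cons s' a =>
    rw [List.cons_append, List.cons_append, List.cons.injEq] at hu
    rw [saw_iff] at h2
    exact h2 a u b hu.2 hu0

theorem thm_ENA : St_ENA := by
  classical
  intro d n
  refine ⟨?_, ?_, ?_⟩
  · unfold fe c
    rw [← Finset.card_sigma]
    refine Finset.card_nbij (fun p => p.1 ++ [p.2]) ?_ ?_ ?_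
    · rintro ⟨w, t⟩ h
      rw [Finset.mem_coe, Finset.mem_sigma, mem_saws, Finset.mem_filter] at h
      rw [Finset.mem_coe, mem_saws]
      exact ⟨by simp [h.1.1], h.2.2⟩
    · rintro ⟨w, t⟩ _ ⟨w', t'⟩ _ h
      have h1 : w ++ [t] = w' ++ [t'] := h
      obtain ⟨h2, h3⟩ := List.append_inj' h1 rfl
      rw [List.cons.injEq] at h3
      rw [h2, h3.1]
    · intro v hv
      rw [Finset.mem_coe, mem_saws] at hv
      obtain ⟨w, t, h1, h2⟩ := ENA_last v n hv.1
      refine ⟨⟨w, t⟩, ?_, h1.symm⟩
      rw [Finset.mem_coe, Finset.mem_sigma, mem_saws, Finset.mem_filter]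
      rw [h1] at hv
      exact ⟨⟨h2, hv.2.left⟩, Finset.mem_univ _, hv.2⟩
  · unfold fs c
    rw [← Finset.card_sigma]
    refine Finset.card_nbij (fun p => p.2 :: p.1) ?_ ?_ ?_
    · rintro ⟨w, s⟩ h
      rw [Finset.mem_coe, Finset.mem_sigma, mem_saws, Finset.mem_filter] at h
      rw [Finset.mem_coe, mem_saws]
      exact ⟨by simp [h.1.1], h.2.2⟩
    · rintro ⟨w, s⟩ _ ⟨w', s'⟩ _ h
      have h1 : s :: w = s' :: w' := h
      rw [List.cons.injEq] at h1
      rw [h1.1, h1.2]
    · intro v hv
      rw [Finset.mem_coe, mem_saws] at hv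
      obtain ⟨s, w, h1, h2⟩ := ENA_first v n hv.1
      refine ⟨⟨w, s⟩, ?_, h1.symm⟩
      rw [Finset.mem_coe, Finset.mem_sigma, mem_saws, Finset.mem_filter]
      rw [h1] at hv
      exact ⟨⟨h2, hv.2.tail⟩, Finset.mem_univ _, hv.2⟩
  · have hdis : Disjoint (saws d (n + 2)) (polys d (n + 2)) := by
      rw [Finset.disjoint_left]
      intro u hu hu'
      rw [mem_saws] at hu
      rw [mem_polys] at hu'
      have h1 := saw_iff.1 hu.2 [] u [] (by simp) (by
        intro h0
        rw [h0] at hu
        simp at hu)
      exact h1 hu'.2.1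
    unfold c el
    rw [← Finset.card_union_of_disjoint hdis]
    have hprod : ∀ w : List (Step d), fs w * fe w =
        (((univ : Finset (Step d)).filter (fun s => Saw (s :: w))) ×ˢ
          ((univ : Finset (Step d)).filter (fun t => Saw (w ++ [t])))).card := by
      intro w
      rw [Finset.card_product]
      rfl
    rw [Finset.sum_congr rfl (fun w _ => hprod w), ← Finset.card_sigma]
    refine Finset.card_nbij (fun p => p.2.1 :: (p.1 ++ [p.2.2])) ?_ ?_ ?_
    · rintro ⟨w, s, t⟩ h
      rw [Finset.mem_coe, Finset.mem_sigma, mem_saws, Finset.mem_product, Finset.mem_filter,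
        Finset.mem_filter] at h
      obtain ⟨⟨h1, h2⟩, ⟨-, h3⟩, ⟨-, h4⟩⟩ := h
      have h5 : Saw (s :: w) := h3
      have h6 : Saw (w ++ [t]) := h4
      rw [Finset.mem_coe, Finset.mem_union, mem_saws, mem_polys]
      show (List.length (s :: (w ++ [t])) = n + 2 ∧ Saw (s :: (w ++ [t]))) ∨
        (List.length (s :: (w ++ [t])) = n + 2 ∧ disp (s :: (w ++ [t])) = 0 ∧
          Saw (s :: (w ++ [t])).dropLast)
      have h7 : List.length (s :: (w ++ [t])) = n + 2 := by
        have h8 : w.length = n := h1
        simp [h8]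
      by_cases h9 : disp (s :: (w ++ [t])) = 0
      · right
        refine ⟨h7, h9, ?_⟩
        rw [← List.cons_append, List.dropLast_concat]
        exact h5
      · left
        exact ⟨h7, ENA_saw s t w h5 h6 h9⟩
    · rintro ⟨w, s, t⟩ _ ⟨w', s', t'⟩ _ h
      have h1 : s :: (w ++ [t]) = s' :: (w' ++ [t']) := h
      rw [List.cons.injEq] at h1
      obtain ⟨h2, h3⟩ := List.append_inj' h1.2 rfl
      rw [List.cons.injEq] at h3
      rw [h1.1, h2, h3.1]
    · intro u hu
      rw [Finset.mem_coe, Finset.mem_union, mem_saws, mem_polys] at hu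
      have hlen : u.length = n + 1 + 1 := by
        rcases hu with hu | hu
        · exact hu.1
        · exact hu.1
      obtain ⟨s, v, h1, h2⟩ := ENA_first u (n + 1) hlen
      obtain ⟨w, t, h3, h4⟩ := ENA_last v n h2
      have h5 : u = (s :: w) ++ [t] := by rw [h1, h3, List.cons_append]
      have h6 : Saw (s :: w) := by
        rcases hu with hu | hu
        · have h7 := hu.2
          rw [h5] at h7
          exact h7.left
        · have h7 := hu.2.2
          rw [h5, List.dropLast_concat] at h7
          exact h7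
      have h7 : Saw (w ++ [t]) := by
        rcases hu with hu | hu
        · have h8 := hu.2
          rw [h1, h3] at h8
          exact h8.tail
        · refine poly_saw (w := u) (a := [s]) (u := w ++ [t]) (b := []) hu.2.1 hu.2.2 ?_ ?_
          · rw [h1, h3]
            simp
          · intro h8
            have h9 := congrArg List.length h8
            rw [hlen] at h9
            simp [h4] at h9
      refine ⟨⟨w, (s, t)⟩, ?_, ?_⟩
      · rw [Finset.mem_coe, Finset.mem_sigma, mem_saws, Finset.mem_product, Finset.mem_filter,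
          Finset.mem_filter]
        exact ⟨⟨h4, h6.tail⟩, ⟨Finset.mem_univ _, h6⟩, ⟨Finset.mem_univ _, h7⟩⟩
      · show s :: (w ++ [t]) = u
        rw [h1, h3]

end SRW
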