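import Pool.Agent.SRW.St

/-!
# SRW, module ENB: the inequality from the two ends
-/

set_option autoImplicit false

namespace SRW

open Finset

private lemma ENB_card {d : ℕ} (S : Finset (Step d)) (t : Step d) (h : t ∉ S) :
    (S.card : ℝ) ≤ 2 * (d : ℝ) - 1 := by
  classical
  have h1 : (insert t S).card ≤ Fintype.card (Step d) := Finset.card_le_univ _
  rw [Finset.card_insert_of_notMem h, card_step] at h1
  have h2 : ((S.card + 1 : ℕ) : ℝ) ≤ ((2 * d : ℕ) : ℝ) := by exact_mod_cast h1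
  push_cast at h2
  linarith

private lemma ENB_fe {d : ℕ} (w : List (Step d)) (hw : w ≠ []) :
    (fe w : ℝ) ≤ 2 * (d : ℝ) - 1 := by
  classical
  unfold fe
  refine ENB_card _ (opp (w.getLast hw)) ?_
  rw [Finset.mem_filter]
  rintro ⟨_, h⟩
  rw [saw_iff] at h
  refine h w.dropLast [w.getLast hw, opp (w.getLast hw)] [] ?_ (by simp) ?_
  · have h1 : w = w.dropLast ++ [w.getLast hw] := (List.dropLast_append_getLast hw).symm
    have h2 : w.dropLast ++ [w.getLast hw, opp (w.getLast hw)] =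
        w.dropLast ++ [w.getLast hw] ++ [opp (w.getLast hw)] := by simp
    rw [List.append_nil, h2, ← h1]
  · simp [vec_opp]

private lemma ENB_fs {d : ℕ} (w : List (Step d)) (hw : w ≠ []) :
    (fs w : ℝ) ≤ 2 * (d : ℝ) - 1 := by
  classical
  obtain ⟨s, v, rfl⟩ := List.exists_cons_of_ne_nil hw
  unfold fs
  refine ENB_card _ (opp s) ?_
  rw [Finset.mem_filter]
  rintro ⟨_, h⟩
  rw [saw_iff] at h
  refine h [] [opp s, s] v (by simp) (by simp) ?_
  simp [vec_opp]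

private lemma ENB_nonneg {d : ℕ} (w : List (Step d)) :
    0 ≤ (2 * (d : ℝ) - 1 - fs w) * (2 * (d : ℝ) - 1 - fe w) := by
  by_cases hw : w = []
  · subst hw
    have h : fs ([] : List (Step d)) = fe ([] : List (Step d)) := rfl
    rw [h]
    exact mul_self_nonneg _
  · exact mul_nonneg (sub_nonneg.2 (ENB_fs w hw)) (sub_nonneg.2 (ENB_fe w hw))

theorem thm_ENB (hENA : St_ENA) : St_ENB := by
  intro d n _
  obtain ⟨h1, h2, h3⟩ := hENA d n
  have h1' : ∑ w ∈ saws d n, (fe w : ℝ) = (c d (n + 1) : ℝ) := by exact_mod_cast h1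
  have h2' : ∑ w ∈ saws d n, (fs w : ℝ) = (c d (n + 1) : ℝ) := by exact_mod_cast h2
  have h3' : ∑ w ∈ saws d n, (fs w : ℝ) * (fe w : ℝ) = (c d (n + 2) : ℝ) + (el d (n + 2) : ℝ) := by
    exact_mod_cast h3
  have h4 : 0 ≤ ∑ w ∈ saws d n, (2 * (d : ℝ) - 1 - fs w) * (2 * (d : ℝ) - 1 - fe w) :=
    Finset.sum_nonneg fun w _ => ENB_nonneg w
  have h5 : ∑ w ∈ saws d n, (2 * (d : ℝ) - 1 - fs w) * (2 * (d : ℝ) - 1 - fe w) =
      (2 * (d : ℝ) - 1) ^ 2 * (c d n : ℝ) - (2 * (d : ℝ) - 1) * (∑ w ∈ saws d n, (fs w : ℝ)) -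
        (2 * (d : ℝ) - 1) * (∑ w ∈ saws d n, (fe w : ℝ)) +
          ∑ w ∈ saws d n, (fs w : ℝ) * (fe w : ℝ) := by
    have h6 : (2 * (d : ℝ) - 1) ^ 2 * (c d n : ℝ) = ∑ _w ∈ saws d n, (2 * (d : ℝ) - 1) ^ 2 := by
      rw [Finset.sum_const, nsmul_eq_mul, mul_comm]
      rfl
    rw [h6, Finset.mul_sum, Finset.mul_sum, ← Finset.sum_sub_distrib, ← Finset.sum_sub_distrib,
      ← Finset.sum_add_distrib]
    exact Finset.sum_congr rfl fun w _ => by ring
  rw [h5, h1', h2', h3'] at h4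
  linarith

end SRW
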