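import Pool.Agent.SRW.St

/-!
# SRW, module FIN: the final limsup
-/

set_option autoImplicit false

namespace SRW

open Finset Filter

private theorem FIN_split (f : ℕ → ℝ) (p : ℕ) : ∀ J : ℕ,
    ∑ k ∈ range (2 * J + p + 2), f k =
      ∑ k ∈ range p, f k + ∑ j ∈ range (J + 1), (f (2 * j + p) + f (2 * j + p + 1))
  | 0 => by
    rw [show 2 * 0 + p + 2 = p + 1 + 1 by omega, sum_range_succ, sum_range_succ]
    simp
    ring
  | J + 1 => by
    rw [show 2 * (J + 1) + p + 2 = 2 * J + p + 2 + 1 + 1 by omega, sum_range_succ, sum_range_succ,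
      FIN_split f p J, sum_range_succ _ (J + 1)]
    rw [show 2 * (J + 1) + p = 2 * J + p + 2 by omega]
    ring

theorem thm_FIN (hAVG : St_AVG) : St_FIN := by
  intro cc ll μ q hμ hq h0 hlow hll hup hlim hineq hclo η hη
  have hμ0 : 0 < μ := by linarith
  have hq0 : 0 < q := by linarith
  have hcc : ∀ n, 0 < cc n := fun n => lt_of_lt_of_le (pow_pos hμ0 n) (hlow n)
  obtain ⟨δ, hδdef⟩ : ∃ δ : ℝ, δ = q * η / (2 * (μ + q + 1)) := ⟨_, rfl⟩
  have hδ : 0 < δ := by rw [hδdef]; positivity
  obtain ⟨ε, hε, n1, hn1⟩ := hclo δ hδ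
  obtain ⟨x, hxdef⟩ : ∃ x : ℝ, x = Real.exp ε / μ := ⟨_, rfl⟩
  rw [← hxdef] at hn1
  have hx : 0 < x := by rw [hxdef]; positivity
  have hxμ : x * μ = Real.exp ε := by rw [hxdef]; field_simp
  have hexp : 1 < Real.exp ε := Real.one_lt_exp_iff.mpr hε
  have hx1 : 1 ≤ x * μ := by rw [hxμ]; exact hexp.le
  have hκ : 1 < x ^ 2 * μ ^ 2 := by
    rw [← mul_pow, hxμ]
    exact one_lt_pow₀ hexp (by norm_num)
  obtain ⟨W, hW⟩ : ∃ W : ℕ → ℝ, ∀ n, W n = ((n : ℝ) + 1) * x ^ n * cc n := ⟨_, fun _ => rfl⟩
  obtain ⟨T, hT⟩ : ∃ T : ℕ → ℝ, ∀ n, T n = ((n : ℝ) + 1) * x ^ n * ll (n + 1) := ⟨_, fun _ => rfl⟩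
  obtain ⟨r, hr⟩ : ∃ r : ℕ → ℝ, ∀ n, r n = cc (n + 1) / cc n := ⟨_, fun _ => rfl⟩
  obtain ⟨φ, hφ⟩ : ∃ φ : ℕ → ℝ, ∀ n, φ n = cc (n + 2) / cc n := ⟨_, fun _ => rfl⟩
  have hWpos : ∀ n, 0 < W n := fun n => by
    rw [hW]
    exact mul_pos (mul_pos (by positivity) (pow_pos hx n)) (hcc n)
  have hTnn : ∀ n, 0 ≤ T n := fun n => by
    rw [hT]
    exact mul_nonneg (mul_nonneg (by positivity) (pow_pos hx n).le) (hll _)
  have hrpos : ∀ n, 0 < r n := fun n => by rw [hr]; exact div_pos (hcc _) (hcc _)
  have hφpos : ∀ n, 0 < φ n := fun n => by rw [hφ]; exact div_pos (hcc _) (hcc _)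
  have hrle : ∀ n, r n ≤ q + 1 := fun n => by
    rw [hr, div_le_iff₀ (hcc n)]
    exact hup n
  have hφle : ∀ n, φ n ≤ (q + 1) ^ 2 := fun n => by
    rw [hφ, div_le_iff₀ (hcc n)]
    have h1 := hup (n + 1)
    have h2 := mul_le_mul_of_nonneg_left (hup n) (by linarith : (0 : ℝ) ≤ q + 1)
    calc cc (n + 2) ≤ (q + 1) * cc (n + 1) := h1
      _ ≤ (q + 1) * ((q + 1) * cc n) := h2
      _ = (q + 1) ^ 2 * cc n := by ring
  have hφlim : Tendsto φ atTop (nhds (μ ^ 2)) := by
    have : φ = fun n => cc (n + 2) / cc n := funext hφ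
    rw [this]
    exact hlim
  have hφratio : Tendsto (fun n => φ (n + 1) / φ n) atTop (nhds 1) := by
    have h1 : Tendsto (fun n => φ (n + 1)) atTop (nhds (μ ^ 2)) :=
      hφlim.comp (tendsto_add_atTop_nat 1)
    have h2 := h1.div hφlim (by positivity)
    rwa [div_self (by positivity)] at h2
  have hrdiff : Tendsto (fun n => r (n + 2) - r n) atTop (nhds 0) := by
    have h1 : ∀ n, r (n + 2) - r n = r n * (φ (n + 1) / φ n - 1) := by
      intro n
      rw [hr, hr, hφ, hφ]
      have a := (hcc n).ne'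
      have b := (hcc (n + 1)).ne'
      have c := (hcc (n + 2)).ne'
      have e1 : cc (n + 2 + 1) = cc (n + 1 + 2) := by congr 1
      rw [e1]
      field_simp
    have h2 : Tendsto (fun n => (q + 1) * |φ (n + 1) / φ n - 1|) atTop (nhds 0) := by
      have h3 : Tendsto (fun n => φ (n + 1) / φ n - 1) atTop (nhds 0) := by
        have := hφratio.sub_const 1
        rwa [sub_self] at this
      have h4 := h3.abs.const_mul (q + 1)
      rwa [abs_zero, mul_zero] at h4
    refine squeeze_zero_norm (fun n => ?_) h2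
    rw [h1, Real.norm_eq_abs, abs_mul, abs_of_pos (hrpos n)]
    exact mul_le_mul_of_nonneg_right (hrle n) (abs_nonneg _)
  have hWratio : Tendsto (fun n => W (n + 2) / W n) atTop (nhds (x ^ 2 * μ ^ 2)) := by
    have h1 : ∀ n, W (n + 2) / W n = (1 + 2 * (1 / ((n : ℝ) + 1))) * (x ^ 2 * φ n) := by
      intro n
      rw [hW, hW, hφ]
      have a := (hcc n).ne'
      have b : ((n : ℝ) + 1) ≠ 0 := by positivity
      have c := (pow_pos hx n).ne'
      push_cast
      field_simp
      ring
    have h2 : Tendsto (fun n : ℕ => 1 + 2 * (1 / ((n : ℝ) + 1))) atTop (nhds 1) := by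
      have := (tendsto_one_div_add_atTop_nhds_zero_nat (𝕜 := ℝ)).const_mul 2
      have h3 := this.const_add 1
      rwa [mul_zero, add_zero] at h3
    have h4 := h2.mul (hφlim.const_mul (x ^ 2))
    rw [one_mul] at h4
    exact h4.congr fun n => (h1 n).symm
  -- the two parities
  have key : ∀ p : ℕ, p ≤ 1 → ∀ᶠ J : ℕ in atTop,
      r (2 * J + p) ≤ (q ^ 2 + μ ^ 2) / (2 * q) + η := by
    intro p hp
    have hsub : Tendsto (fun j : ℕ => 2 * j + p) atTop atTop :=
      tendsto_atTop_mono (fun j => by show j ≤ 2 * j + p; omega) tendsto_id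
    have e2 : ∀ j : ℕ, 2 * (j + 1) + p = 2 * j + p + 2 := fun j => by ring
    have hu : Tendsto (fun j => W (2 * (j + 1) + p) / W (2 * j + p)) atTop
        (nhds (x ^ 2 * μ ^ 2)) := by
      have := hWratio.comp hsub
      refine this.congr fun j => ?_
      rw [e2]
      rfl
    have hd1 : Tendsto (fun j => r (2 * (j + 1) + p) - r (2 * j + p)) atTop (nhds 0) := by
      have := hrdiff.comp hsub
      refine this.congr fun j => ?_
      rw [e2]
      rfl
    have hd2 : Tendsto (fun j => φ (2 * (j + 1) + p) - φ (2 * j + p)) atTop (nhds 0) := by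
      have h1 : Tendsto (fun n => φ (n + 2) - φ n) atTop (nhds 0) := by
        have := (hφlim.comp (tendsto_add_atTop_nat 2)).sub hφlim
        rwa [sub_self] at this
      have := h1.comp hsub
      refine this.congr fun j => ?_
      rw [e2]
      rfl
    have hA1 := hAVG (fun j => W (2 * j + p)) (fun j => r (2 * j + p)) _ (q + 1) hκ
      (fun j => hWpos _) hu (fun j => by rw [abs_of_pos (hrpos _)]; exact hrle _) hd1
    have hA2 := hAVG (fun j => W (2 * j + p)) (fun j => φ (2 * j + p)) _ ((q + 1) ^ 2) hκ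
      (fun j => hWpos _) hu (fun j => by rw [abs_of_pos (hφpos _)]; exact hφle _) hd2
    have hA3 : Tendsto (fun J => φ (2 * J + p)) atTop (nhds (μ ^ 2)) := hφlim.comp hsub
    have hη4 : 0 < η / 4 := by linarith
    have ev1 := (Metric.tendsto_atTop.mp hA1) (η / 4) hη4
    have ev2 := (Metric.tendsto_atTop.mp hA2) (η / 4) hη4
    have ev3 := (Metric.tendsto_atTop.mp hA3) (η / 4) hη4
    obtain ⟨N1, hN1⟩ := ev1
    obtain ⟨N2, hN2⟩ := ev2
    obtain ⟨N3, hN3⟩ := ev3
    filter_upwards [eventually_ge_atTop N1, eventually_ge_atTop N2, eventually_ge_atTop N3,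
      eventually_ge_atTop n1] with J hJ1 hJ2 hJ3 hJn
    have a1 := hN1 J hJ1
    have a2 := hN2 J hJ2
    have a3 := hN3 J hJ3
    rw [Real.dist_eq, sub_zero] at a1 a2
    rw [Real.dist_eq] at a3
    obtain ⟨S, hS⟩ : ∃ S : ℝ, S = ∑ j ∈ range (J + 1), W (2 * j + p) := ⟨_, rfl⟩
    obtain ⟨A, hA⟩ : ∃ A : ℝ, A = ∑ j ∈ range (J + 1), W (2 * j + p) * r (2 * j + p) := ⟨_, rfl⟩
    obtain ⟨B, hB⟩ : ∃ B : ℝ, B = ∑ j ∈ range (J + 1), W (2 * j + p) * φ (2 * j + p) := ⟨_, rfl⟩
    rw [← hS, ← hA] at a1
    rw [← hS, ← hB] at a2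
    have hSpos : 0 < S := by
      rw [hS]
      exact sum_pos (fun j _ => hWpos _) ⟨0, by simp⟩
    -- the sum of the inequality
    have hmain : 2 * q * A ≤ q ^ 2 * S + B + q * η * S := by
      have h1 : 2 * q * A ≤ q ^ 2 * S + B +
          ∑ j ∈ range (J + 1), 1 / x * T (2 * j + p + 1) := by
        rw [hA, hS, hB, mul_sum, mul_sum, ← sum_add_distrib, ← sum_add_distrib]
        refine sum_le_sum fun j _ => ?_
        obtain ⟨m, hm⟩ : ∃ m, m = 2 * j + p := ⟨_, rfl⟩
        rw [← hm]
        have h2 := mul_le_mul_of_nonneg_left (hineq m)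
          (by positivity : (0 : ℝ) ≤ ((m : ℝ) + 1) * x ^ m)
        have h3 : W m * r m = ((m : ℝ) + 1) * x ^ m * cc (m + 1) := by
          rw [hW, hr]
          have := (hcc m).ne'
          field_simp
        have h4 : W m * φ m = ((m : ℝ) + 1) * x ^ m * cc (m + 2) := by
          rw [hW, hφ]
          have := (hcc m).ne'
          field_simp
        have h5 : ((m : ℝ) + 1) * x ^ m * ll (m + 2) ≤ 1 / x * T (m + 1) := by
          rw [hT]
          have h6 : 1 / x * (((m + 1 : ℕ) : ℝ) + 1) * x ^ (m + 1) =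
              ((m : ℝ) + 2) * x ^ m := by
            push_cast
            rw [pow_succ]
            field_simp
            ring
          have h7 : 1 / x * ((((m + 1 : ℕ) : ℝ) + 1) * x ^ (m + 1) * ll (m + 1 + 1)) =
              ((m : ℝ) + 2) * x ^ m * ll (m + 2) := by
            rw [← h6]
            ring
          rw [h7]
          refine mul_le_mul_of_nonneg_right (mul_le_mul_of_nonneg_right ?_ (pow_pos hx m).le)
            (hll _)
          linarith
        rw [h3, h4]
        have h8 : W m = ((m : ℝ) + 1) * x ^ m * cc m := hW m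
        rw [h8]
        nlinarith [h2, h5]
      have h2 : ∑ j ∈ range (J + 1), 1 / x * T (2 * j + p + 1) ≤
          1 / x * ∑ k ∈ range (2 * J + p + 2), T k := by
        rw [← mul_sum, FIN_split T p J]
        refine mul_le_mul_of_nonneg_left ?_ (by positivity)
        have h3 : ∑ j ∈ range (J + 1), T (2 * j + p + 1) ≤
            ∑ j ∈ range (J + 1), (T (2 * j + p) + T (2 * j + p + 1)) :=
          sum_le_sum fun j _ => by linarith [hTnn (2 * j + p)]
        have h4 : 0 ≤ ∑ k ∈ range p, T k := sum_nonneg fun k _ => hTnn k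
        linarith
      have h3 : ∑ k ∈ range (2 * J + p + 2), T k ≤ δ * ∑ k ∈ range (2 * J + p + 2), W k := by
        have h4 := hn1 (2 * J + p + 1) (by omega)
        have e5 : 2 * J + p + 1 + 1 = 2 * J + p + 2 := by ring
        rw [e5] at h4
        have e6 : ∑ k ∈ range (2 * J + p + 2), T k =
            ∑ n ∈ range (2 * J + p + 2), ((n : ℝ) + 1) * x ^ n * ll (n + 1) :=
          sum_congr rfl fun k _ => hT k
        have e7 : ∑ k ∈ range (2 * J + p + 2), W k =
            ∑ n ∈ range (2 * J + p + 2), ((n : ℝ) + 1) * x ^ n * cc n :=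
          sum_congr rfl fun k _ => hW k
        rw [e6, e7]
        exact h4
      have h4 : ∑ k ∈ range (2 * J + p + 2), W k ≤ (2 + 2 * (q + 1) * x) * S := by
        rw [FIN_split W p J, sum_add_distrib, ← hS]
        have h5 : ∑ j ∈ range (J + 1), W (2 * j + p + 1) ≤ 2 * (q + 1) * x * S := by
          rw [hS, mul_sum]
          refine sum_le_sum fun j _ => ?_
          obtain ⟨m, hm⟩ : ∃ m, m = 2 * j + p := ⟨_, rfl⟩
          rw [← hm, hW, hW]
          have h6 := hup m
          have h7 : (((m + 1 : ℕ) : ℝ) + 1) ≤ 2 * ((m : ℝ) + 1) := by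
            push_cast
            have : (0 : ℝ) ≤ m := Nat.cast_nonneg m
            linarith
          calc (((m + 1 : ℕ) : ℝ) + 1) * x ^ (m + 1) * cc (m + 1)
              ≤ (2 * ((m : ℝ) + 1)) * x ^ (m + 1) * ((q + 1) * cc m) := by
                refine mul_le_mul (mul_le_mul_of_nonneg_right h7 (pow_pos hx _).le) h6
                  (hcc _).le (by positivity)
            _ = 2 * (q + 1) * x * (((m : ℝ) + 1) * x ^ m * cc m) := by
                rw [pow_succ]
                ring
        have h6 : ∑ k ∈ range p, W k ≤ S := by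
          rcases Nat.le_one_iff_eq_zero_or_eq_one.mp hp with rfl | rfl
          · simpa using hSpos.le
          · rw [sum_range_one]
            have h7 : W 0 = 1 := by rw [hW, h0]; simp
            have h8 : W 1 ≤ S := by
              rw [hS]
              have := single_le_sum (f := fun j => W (2 * j + 1))
                (fun j _ => (hWpos _).le) (show 0 ∈ range (J + 1) by simp)
              simpa using this
            have h9 : 1 ≤ W 1 := by
              rw [hW]
              have h10 := hlow 1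
              have h11 : x * μ ≤ x * cc 1 := by
                refine mul_le_mul_of_nonneg_left ?_ hx.le
                simpa using h10
              norm_num
              nlinarith
            linarith
        linarith
      have h5 : 1 / x * (δ * ((2 + 2 * (q + 1) * x) * S)) ≤ q * η * S := by
        have h6 : 1 / x ≤ μ := by
          rw [div_le_iff₀ hx]
          linarith
        have h7 : 1 / x * (δ * ((2 + 2 * (q + 1) * x) * S)) =
            δ * (2 * (1 / x) + 2 * (q + 1)) * S := by
          field_simp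
        rw [h7]
        refine mul_le_mul_of_nonneg_right ?_ hSpos.le
        have h8 : δ * (2 * (μ + q + 1)) = q * η := by
          rw [hδdef]
          field_simp
        nlinarith
      have h6 : 1 / x * ∑ k ∈ range (2 * J + p + 2), T k ≤
          1 / x * (δ * ((2 + 2 * (q + 1) * x) * S)) :=
        mul_le_mul_of_nonneg_left (h3.trans (mul_le_mul_of_nonneg_left h4 hδ.le)) (by positivity)
      linarith
    have hdiv : 2 * q * (A / S) ≤ q ^ 2 + B / S + q * η := by
      have h1 : 2 * q * (A / S) = (2 * q * A) / S := by ring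
      rw [h1, div_le_iff₀ hSpos]
      have h2 : (q ^ 2 + B / S + q * η) * S = q ^ 2 * S + B + q * η * S := by
        field_simp
      rw [h2]
      exact hmain
    have b1 := (abs_lt.mp a1).1
    have b2 := (abs_lt.mp a2).2
    have b3 := (abs_lt.mp a3).2
    have h9 : 2 * q * r (2 * J + p) ≤ q ^ 2 + μ ^ 2 + 2 * q * η := by
      have c1 : r (2 * J + p) ≤ A / S + η / 4 := by linarith
      have c2 : B / S ≤ μ ^ 2 + η / 2 := by linarith
      have c3 : 2 * q * r (2 * J + p) ≤ 2 * q * (A / S + η / 4) :=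
        mul_le_mul_of_nonneg_left c1 (by positivity)
      nlinarith
    have h10 : r (2 * J + p) ≤ (q ^ 2 + μ ^ 2 + 2 * q * η) / (2 * q) := by
      rw [le_div_iff₀ (by positivity)]
      linarith
    refine h10.trans (le_of_eq ?_)
    field_simp
  have k0 := key 0 (by norm_num)
  have k1 := key 1 le_rfl
  rw [eventually_atTop] at k0 k1 ⊢
  obtain ⟨N0, hN0⟩ := k0
  obtain ⟨N1, hN1⟩ := k1
  refine ⟨2 * (N0 + N1) + 2, fun n hn => ?_⟩
  rw [← hr]
  rcases Nat.even_or_odd' n with ⟨m, rfl | rfl⟩
  · exact hN0 m (by omega)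
  · exact hN1 m (by omega)

end SRW
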