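import Pool.Agent.SRW.St

set_option autoImplicit false

namespace SRW

open Finset

variable {d : ℕ}

private def GEOD (x y : Pt d) : ℕ := ∑ j, (y j - x j).natAbs

private lemma GEO_step (x y : Pt d) (s : Step d) :
    GEOD (x + vec s) y + (y s.1 - x s.1).natAbs =
      GEOD x y + (y s.1 - x s.1 - (if s.2 then 1 else -1)).natAbs := by
  unfold GEOD
  rw [← Finset.add_sum_erase univ (fun j => (y j - (x + vec s) j).natAbs) (mem_univ s.1),
      ← Finset.add_sum_erase univ (fun j => (y j - x j).natAbs) (mem_univ s.1)]
  have h : ∑ j ∈ univ.erase s.1, (y j - (x + vec s) j).natAbs = ∑ j ∈ univ.erase s.1, (y j - x j).natAbs := by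
    apply Finset.sum_congr rfl
    intro j hj
    have : j ≠ s.1 := Finset.ne_of_mem_erase hj
    simp [vec, this]
  have h2 : y s.1 - (x + vec s) s.1 = y s.1 - x s.1 - (if s.2 then 1 else -1) := by
    simp only [vec, Pi.add_apply, if_true]
    ring
  rw [h, h2]
  ring

private def GEOtw (x y : Pt d) (i : Fin d) : Step d := (i, decide (x i < y i))

private lemma GEO_tw (x y : Pt d) (i : Fin d) (h : x i ≠ y i) :
    GEOD (x + vec (GEOtw x y i)) y + 1 = GEOD x y := by
  have h1 := GEO_step x y (GEOtw x y i)
  rcases lt_or_gt_of_ne h with hl | hl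
  · simp only [GEOtw, hl, decide_true, if_true] at h1 ⊢
    omega
  · have hl' : ¬ (x i < y i) := by omega
    simp only [GEOtw, hl', decide_false, Bool.false_eq_true, if_false] at h1 ⊢
    omega

private lemma GEO_cube (z x y : Pt d) (i : Fin d) (h : x i ≠ y i) (hx : InCube z x) (hy : InCube z y) :
    InCube z (x + vec (GEOtw x y i)) := by
  intro j
  have h1 := hx j
  have h2 := hy j
  by_cases hj : j = i
  · subst hj
    rw [abs_le] at h1 h2 ⊢
    rcases lt_or_gt_of_ne h with hl | hl
    · simp only [GEOtw, vec, hl, decide_true, if_true, Pi.add_apply]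
      omega
    · have hl' : ¬ (x j < y j) := by omega
      simp only [GEOtw, vec, hl', decide_false, Bool.false_eq_true, if_false, if_true, Pi.add_apply]
      omega
  · simpa [GEOtw, vec, hj] using h1

private lemma GEO_ne (x y : Pt d) (h : GEOD x y ≠ 0) : ∃ i, x i ≠ y i := by
  by_contra hc
  push Not at hc
  apply h
  unfold GEOD
  apply Finset.sum_eq_zero
  intro j _
  simp [hc j]

private lemma GEO_eq (x y : Pt d) (h : GEOD x y = 0) : x = y := by
  funext j
  unfold GEOD at h
  rw [Finset.sum_eq_zero_iff] at h
  have := h j (mem_univ j)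
  omega

private lemma GEO_direct : ∀ (n : ℕ) (z x y : Pt d), InCube z x → InCube z y → GEOD x y = n →
    ∃ w : List (Step d), w.length = n ∧ x + disp w = y ∧
      ∀ i ≤ n, GEOD (x + pos w i) y + i = n ∧ InCube z (x + pos w i) := by
  intro n
  induction n with
  | zero =>
    intro z x y hx hy h
    refine ⟨[], rfl, ?_, ?_⟩
    · simp [GEO_eq x y h]
    · intro i hi
      have : i = 0 := by omega
      subst this
      simp [h, hx]
  | succ n ih =>
    intro z x y hx hy h
    obtain ⟨i, hi⟩ := GEO_ne x y (by omega)
    have h1 := GEO_tw x y i hi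
    obtain ⟨w, hw1, hw2, hw3⟩ := ih z (x + vec (GEOtw x y i)) y (GEO_cube z x y i hi hx hy) hy (by omega)
    refine ⟨GEOtw x y i :: w, by simp [hw1], ?_, ?_⟩
    · rw [disp_cons, ← add_assoc]; exact hw2
    · intro m hm
      rcases m with _ | m
      · simp [h, hx]
      · have h6 : x + pos (GEOtw x y i :: w) (m + 1) = x + vec (GEOtw x y i) + pos w m := by
          rw [pos_cons_succ, add_assoc]
        rw [h6]
        have := hw3 m (by omega)
        exact ⟨by omega, this.2⟩

private def GEOok (z x y : Pt d) : Prop := ∃ π : List (Step d), Saw π ∧ HasBump π ∧ x + disp π = y ∧ π.length ≤ 2 * d + 2 ∧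
    ∀ i ≤ π.length, InCube z (x + pos π i)

private lemma GEO_le (z x y : Pt d) (hx : InCube z x) (hy : InCube z y) : GEOD x y ≤ 2 * d := by
  unfold GEOD
  have : ∑ j : Fin d, (y j - x j).natAbs ≤ ∑ _j : Fin d, 2 := by
    apply Finset.sum_le_sum
    intro j _
    have h1 := hx j
    have h2 := hy j
    rw [abs_le] at h1 h2
    omega
  simpa [mul_comm] using this

/-- case A -/
private lemma GEO_A (z x y : Pt d) (hx : InCube z x) (hy : InCube z y) (i k : Fin d) (hik : k ≠ i)
    (hi : x i ≠ y i) (b : Bool) (h1 : InCube z (x + vec (k, b))) (h2 : GEOD (x + vec (k, b)) y = GEOD x y + 1) :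
    GEOok z x y := by
  set f : Step d := (k, b) with hf
  set e : Step d := GEOtw x y i with he
  have hxi : (x + vec f) i = x i := by simp [hf, vec, hik.symm]
  have he' : GEOtw (x + vec f) y i = e := by simp only [he, GEOtw, hxi]
  have hD2 : GEOD (x + vec f + vec e) y + 1 = GEOD (x + vec f) y := by
    have := GEO_tw (x + vec f) y i (by rw [hxi]; exact hi)
    rwa [he'] at this
  have hC2 : InCube z (x + vec f + vec e) := by
    have := GEO_cube z (x + vec f) y i (by rw [hxi]; exact hi) h1 hy
    rwa [he'] at this
  have hD1 : GEOD (x + vec e) y + 1 = GEOD x y := GEO_tw x y i hi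
  have hC1 : InCube z (x + vec e) := GEO_cube z x y i hi hx hy
  obtain ⟨w, hw1, hw2, hw3⟩ := GEO_direct (GEOD (x + vec e) y) z (x + vec e) y hC1 hy rfl
  have hfe : vec f + vec e ≠ 0 := by
    intro h0
    have := congrFun h0 k
    cases b <;> simp [hf, he, GEOtw, vec, hik] at this
  have hd3 : disp [f, e, opp f] = vec e := by
    simp only [disp_cons, disp_nil, vec_opp]
    abel
  have p0 : pos ([f, e, opp f] ++ w) 0 = 0 := by simp
  have p1 : pos ([f, e, opp f] ++ w) 1 = vec f := by simp [pos]
  have p2 : pos ([f, e, opp f] ++ w) 2 = vec f + vec e := by simp [pos]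
  have p3 : ∀ m, pos ([f, e, opp f] ++ w) (3 + m) = vec e + pos w m := by
    intro m
    have := pos_append_right [f, e, opp f] w m
    rw [hd3] at this
    exact this
  have hlen : ([f, e, opp f] ++ w).length = 3 + w.length := by simp; omega
  have key : ∀ i ≤ ([f, e, opp f] ++ w).length, i = 0 ∨ i = 1 ∨ i = 2 ∨ ∃ m ≤ w.length, i = 3 + m := by
    intro i hi
    rw [hlen] at hi
    by_cases h3 : i < 3
    · omega
    · right; right; right
      exact ⟨i - 3, by omega, by omega⟩
  have q0 : GEOD (x + pos ([f, e, opp f] ++ w) 0) y = GEOD x y := by rw [p0, add_zero]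
  have q1 : GEOD (x + pos ([f, e, opp f] ++ w) 1) y = GEOD x y + 1 := by rw [p1]; exact h2
  have q2 : GEOD (x + pos ([f, e, opp f] ++ w) 2) y = GEOD x y := by rw [p2, ← add_assoc]; omega
  have q3 : ∀ m ≤ w.length, GEOD (x + pos ([f, e, opp f] ++ w) (3 + m)) y + m + 1 = GEOD x y := by
    intro m hm
    rw [p3, ← add_assoc]
    have := (hw3 m (by omega)).1
    omega
  refine ⟨[f, e, opp f] ++ w, ?_, ⟨[], w, f, e, by simp⟩, ?_, ?_, ?_⟩
  · intro a c hac hc heq
    have hE : GEOD (x + pos ([f, e, opp f] ++ w) a) y = GEOD (x + pos ([f, e, opp f] ++ w) c) y := by rw [heq]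
    rcases key a (by omega) with rfl | rfl | rfl | ⟨m, hm, rfl⟩
    · rcases key c hc with rfl | rfl | rfl | ⟨m', hm', rfl⟩
      · omega
      · omega
      · rw [p0, p2] at heq; exact hfe heq.symm
      · have := q3 m' hm'; omega
    · rcases key c hc with rfl | rfl | rfl | ⟨m', hm', rfl⟩
      · omega
      · omega
      · omega
      · have := q3 m' hm'; omega
    · rcases key c hc with rfl | rfl | rfl | ⟨m', hm', rfl⟩
      · omega
      · omega
      · omega
      · have := q3 m' hm'; omega
    · rcases key c hc with rfl | rfl | rfl | ⟨m', hm', rfl⟩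
      · omega
      · omega
      · omega
      · have := q3 m' hm'
        have := q3 m hm
        omega
  · rw [disp_append, hd3, ← add_assoc]; exact hw2
  · rw [hlen, hw1]
    have := GEO_le z x y hx hy
    omega
  · intro a ha
    rcases key a ha with rfl | rfl | rfl | ⟨m, hm, rfl⟩
    · rw [p0, add_zero]; exact hx
    · rw [p1]; exact h1
    · rw [p2, ← add_assoc]; exact hC2
    · rw [p3, ← add_assoc]; exact (hw3 m (by omega)).2

/-- case B -/
private lemma GEO_B (z x y : Pt d) (hx : InCube z x) (hy : InCube z y) (i k : Fin d) (hik : k ≠ i)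
    (hi : x i ≠ y i) (hk : x k ≠ y k) (hi2 : 2 ≤ |x i - y i|) : GEOok z x y := by
  set f : Step d := GEOtw x y k with hf
  set e : Step d := GEOtw x y i with he
  have hxi : (x + vec f) i = x i := by simp [hf, GEOtw, vec, hik.symm]
  have he' : GEOtw (x + vec f) y i = e := by simp only [he, GEOtw, hxi]
  have hDf : GEOD (x + vec f) y + 1 = GEOD x y := GEO_tw x y k hk
  have hCf : InCube z (x + vec f) := GEO_cube z x y k hk hx hy
  have hD2 : GEOD (x + vec f + vec e) y + 1 = GEOD (x + vec f) y := by
    have := GEO_tw (x + vec f) y i (by rw [hxi]; exact hi)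
    rwa [he'] at this
  have hC2 : InCube z (x + vec f + vec e) := by
    have := GEO_cube z (x + vec f) y i (by rw [hxi]; exact hi) hCf hy
    rwa [he'] at this
  have hD1 : GEOD (x + vec e) y + 1 = GEOD x y := GEO_tw x y i hi
  have hC1 : InCube z (x + vec e) := GEO_cube z x y i hi hx hy
  -- second step in the direction i
  have hx1 : (x + vec e) i ≠ y i ∧ GEOtw (x + vec e) y i = e := by
    rcases lt_or_gt_of_ne hi with hl | hl
    · have h3 : (x + vec e) i = x i + 1 := by simp [he, GEOtw, vec, hl]
      rw [abs_of_nonpos (by omega)] at hi2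
      refine ⟨by omega, ?_⟩
      have h4 : (x + vec e) i < y i := by omega
      show ((i, decide ((x + vec e) i < y i)) : Step d) = (i, decide (x i < y i))
      rw [decide_eq_true h4, decide_eq_true hl]
    · have hl' : ¬ (x i < y i) := by omega
      have h3 : (x + vec e) i = x i - 1 := by
        simp [he, GEOtw, vec, hl']
        ring
      rw [abs_of_nonneg (by omega)] at hi2
      refine ⟨by omega, ?_⟩
      have h4 : ¬ ((x + vec e) i < y i) := by omega
      show ((i, decide ((x + vec e) i < y i)) : Step d) = (i, decide (x i < y i))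
      rw [decide_eq_false h4, decide_eq_false hl']
  have hD3 : GEOD (x + vec e + vec e) y + 1 = GEOD (x + vec e) y := by
    have := GEO_tw (x + vec e) y i hx1.1
    rwa [hx1.2] at this
  have hC3 : InCube z (x + vec e + vec e) := by
    have := GEO_cube z (x + vec e) y i hx1.1 hC1 hy
    rwa [hx1.2] at this
  obtain ⟨w, hw1, hw2, hw3⟩ := GEO_direct (GEOD (x + vec e + vec e) y) z (x + vec e + vec e) y hC3 hy rfl
  have hfe : vec f ≠ vec e := by
    intro h0
    have := vec_injective h0
    have := congrArg Prod.fst this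
    exact hik this
  have hd4 : disp [f, e, opp f, e] = vec e + vec e := by
    simp only [disp_cons, disp_nil, vec_opp]
    abel
  have p0 : pos ([f, e, opp f, e] ++ w) 0 = 0 := by simp
  have p1 : pos ([f, e, opp f, e] ++ w) 1 = vec f := by simp [pos]
  have p2 : pos ([f, e, opp f, e] ++ w) 2 = vec f + vec e := by simp [pos]
  have p3 : pos ([f, e, opp f, e] ++ w) 3 = vec e := by
    simp only [pos, List.cons_append, List.take_succ_cons, List.take_zero, disp_cons, disp_nil, vec_opp]
    abel
  have p4 : ∀ m, pos ([f, e, opp f, e] ++ w) (4 + m) = vec e + vec e + pos w m := by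
    intro m
    have := pos_append_right [f, e, opp f, e] w m
    rw [hd4] at this
    exact this
  have hlen : ([f, e, opp f, e] ++ w).length = 4 + w.length := by simp; omega
  have key : ∀ i ≤ ([f, e, opp f, e] ++ w).length, i = 0 ∨ i = 1 ∨ i = 2 ∨ i = 3 ∨ ∃ m ≤ w.length, i = 4 + m := by
    intro i hi
    rw [hlen] at hi
    by_cases h3 : i < 4
    · omega
    · right; right; right; right
      exact ⟨i - 4, by omega, by omega⟩
  have q0 : GEOD (x + pos ([f, e, opp f, e] ++ w) 0) y = GEOD x y := by rw [p0, add_zero]
  have q1 : GEOD (x + pos ([f, e, opp f, e] ++ w) 1) y + 1 = GEOD x y := by rw [p1]; exact hDf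
  have q2 : GEOD (x + pos ([f, e, opp f, e] ++ w) 2) y + 2 = GEOD x y := by rw [p2, ← add_assoc]; omega
  have q3 : GEOD (x + pos ([f, e, opp f, e] ++ w) 3) y + 1 = GEOD x y := by rw [p3]; omega
  have q4 : ∀ m ≤ w.length, GEOD (x + pos ([f, e, opp f, e] ++ w) (4 + m)) y + m + 2 = GEOD x y := by
    intro m hm
    rw [p4, ← add_assoc, ← add_assoc]
    have := (hw3 m (by omega)).1
    omega
  refine ⟨[f, e, opp f, e] ++ w, ?_, ⟨[], e :: w, f, e, by simp⟩, ?_, ?_, ?_⟩
  · intro a c hac hc heq
    have hE : GEOD (x + pos ([f, e, opp f, e] ++ w) a) y = GEOD (x + pos ([f, e, opp f, e] ++ w) c) y := by rw [heq]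
    rcases key a (by omega) with rfl | rfl | rfl | rfl | ⟨m, hm, rfl⟩
    · rcases key c hc with rfl | rfl | rfl | rfl | ⟨m', hm', rfl⟩
      · omega
      · omega
      · omega
      · omega
      · have := q4 m' hm'; omega
    · rcases key c hc with rfl | rfl | rfl | rfl | ⟨m', hm', rfl⟩
      · omega
      · omega
      · omega
      · rw [p1, p3] at heq; exact hfe heq
      · have := q4 m' hm'; omega
    · rcases key c hc with rfl | rfl | rfl | rfl | ⟨m', hm', rfl⟩
      · omega
      · omega
      · omega
      · omega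
      · have h5 := q4 m' hm'
        have h6 : m' = 0 := by omega
        subst h6
        rw [p2, p4, pos_zero, add_zero] at heq
        exact hfe (add_right_cancel heq)
    · rcases key c hc with rfl | rfl | rfl | rfl | ⟨m', hm', rfl⟩
      · omega
      · omega
      · omega
      · omega
      · have := q4 m' hm'; omega
    · rcases key c hc with rfl | rfl | rfl | rfl | ⟨m', hm', rfl⟩
      · omega
      · omega
      · omega
      · omega
      · have := q4 m' hm'
        have := q4 m hm
        omega
  · rw [disp_append, hd4, ← add_assoc, ← add_assoc]; exact hw2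
  · rw [hlen, hw1]
    have := GEO_le z x y hx hy
    omega
  · intro a ha
    rcases key a ha with rfl | rfl | rfl | rfl | ⟨m, hm, rfl⟩
    · rw [p0, add_zero]; exact hx
    · rw [p1]; exact hCf
    · rw [p2, ← add_assoc]; exact hC2
    · rw [p3]; exact hC1
    · rw [p4, ← add_assoc, ← add_assoc]; exact (hw3 m (by omega)).2

/-! reversal -/

private def GEOrev (w : List (Step d)) : List (Step d) := (w.map opp).reverse

private lemma GEO_rev_append (a b : List (Step d)) : GEOrev (a ++ b) = GEOrev b ++ GEOrev a := by
  simp [GEOrev]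

private lemma GEO_rev_rev (w : List (Step d)) : GEOrev (GEOrev w) = w := by
  unfold GEOrev
  rw [List.map_reverse, List.reverse_reverse, List.map_map]
  have : (opp ∘ opp : Step d → Step d) = id := by
    funext s
    exact opp_opp s
  rw [this, List.map_id]

private lemma GEO_rev_length (w : List (Step d)) : (GEOrev w).length = w.length := by
  simp [GEOrev]

private lemma GEO_rev_disp (w : List (Step d)) : disp (GEOrev w) = - disp w := by
  induction w with
  | nil => simp [GEOrev]
  | cons s w ih =>
    have h : GEOrev (s :: w) = GEOrev w ++ [opp s] := by simp [GEOrev]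
    rw [h, disp_append, ih, disp_cons, disp_cons, disp_nil, vec_opp]
    abel

private lemma GEO_rev_saw {w : List (Step d)} (h : Saw w) : Saw (GEOrev w) := by
  rw [saw_iff] at h ⊢
  intro a u b hw hu h0
  have h1 : w = GEOrev b ++ GEOrev u ++ GEOrev a := by
    have := congrArg GEOrev hw
    rw [GEO_rev_rev, GEO_rev_append, GEO_rev_append] at this
    rw [this, List.append_assoc]
  apply h _ _ _ h1
  · intro h2
    apply hu
    have := congrArg GEOrev h2
    rw [GEO_rev_rev] at this
    rw [this]
    rfl
  · rw [GEO_rev_disp, h0, neg_zero]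

private lemma GEO_rev_pos (w : List (Step d)) (i : ℕ) (hi : i ≤ w.length) :
    pos (GEOrev w) i = pos w (w.length - i) - disp w := by
  have h1 : w = w.take (w.length - i) ++ w.drop (w.length - i) := (List.take_append_drop _ _).symm
  have h2 : GEOrev w = GEOrev (w.drop (w.length - i)) ++ GEOrev (w.take (w.length - i)) := by
    conv_lhs => rw [h1]
    rw [GEO_rev_append]
  have h3 : (GEOrev (w.drop (w.length - i))).length = i := by
    rw [GEO_rev_length, List.length_drop]
    omega
  have h4 : pos (GEOrev w) i = disp (GEOrev (w.drop (w.length - i))) := by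
    rw [h2, pos_append_left _ _ (by rw [h3])]
    exact pos_of_length_le _ (by rw [h3])
  have h5 : disp w = pos w (w.length - i) + disp (w.drop (w.length - i)) := by
    conv_lhs => rw [h1]
    rw [disp_append]
    rfl
  rw [h4, GEO_rev_disp, h5]
  abel

private lemma GEO_symm (z x y : Pt d) (h : GEOok z y x) : GEOok z x y := by
  obtain ⟨w, h1, ⟨a, b, f, e, h2⟩, h3, h4, h5⟩ := h
  refine ⟨GEOrev w, GEO_rev_saw h1, ⟨GEOrev b, GEOrev a, f, opp e, ?_⟩, ?_, ?_, ?_⟩
  · rw [h2, GEO_rev_append, GEO_rev_append]
    simp [GEOrev, opp_opp]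
  · rw [GEO_rev_disp, ← h3]
    abel
  · rw [GEO_rev_length]; exact h4
  · intro i hi
    rw [GEO_rev_length] at hi
    rw [GEO_rev_pos w i hi]
    have : x + (pos w (w.length - i) - disp w) = y + pos w (w.length - i) := by
      rw [← h3]; abel
    rw [this]
    exact h5 _ (by omega)

private lemma GEO_away_t (x y : Pt d) (k : Fin d) (h : y k ≤ x k) :
    GEOD (x + vec (k, true)) y = GEOD x y + 1 := by
  have h1 := GEO_step x y (k, true)
  simp only [if_true] at h1
  omega

private lemma GEO_away_f (x y : Pt d) (k : Fin d) (h : x k ≤ y k) :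
    GEOD (x + vec (k, false)) y = GEOD x y + 1 := by
  have h1 := GEO_step x y (k, false)
  simp only [Bool.false_eq_true, if_false] at h1
  omega

private lemma GEO_cube_t (z x : Pt d) (hx : InCube z x) (k : Fin d) (h : x k ≤ z k) :
    InCube z (x + vec (k, true)) := by
  intro j
  have h1 := hx j
  by_cases hj : j = k
  · subst hj
    rw [abs_le] at h1 ⊢
    simp only [vec, if_true, Pi.add_apply]
    omega
  · simpa [vec, hj] using h1

private lemma GEO_cube_f (z x : Pt d) (hx : InCube z x) (k : Fin d) (h : z k ≤ x k) :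
    InCube z (x + vec (k, false)) := by
  intro j
  have h1 := hx j
  by_cases hj : j = k
  · subst hj
    rw [abs_le] at h1 ⊢
    simp only [vec, Bool.false_eq_true, if_false, if_true, Pi.add_apply]
    omega
  · simpa [vec, hj] using h1

theorem thm_GEO : St_GEO := by
  intro d hd z x y hx hy hxy
  show GEOok z x y
  obtain ⟨i, hi⟩ : ∃ i, x i ≠ y i := by
    by_contra hc
    push Not at hc
    exact hxy (funext hc)
  obtain ⟨k, hki⟩ : ∃ k : Fin d, k ≠ i := by
    have : Nontrivial (Fin d) := Fin.nontrivial_iff_two_le.mpr hd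
    exact exists_ne i
  have hxk := hx k
  have hyk := hy k
  rw [abs_le] at hxk hyk
  by_cases hk : x k = y k
  · by_cases hz : x k ≤ z k
    · exact GEO_A z x y hx hy i k hki hi true (GEO_cube_t z x hx k hz) (GEO_away_t x y k (by omega))
    · exact GEO_A z x y hx hy i k hki hi false (GEO_cube_f z x hx k (by omega)) (GEO_away_f x y k (by omega))
  · by_cases h2 : 2 ≤ |x k - y k|
    · exact GEO_B z x y hx hy k i hki.symm hk hi h2
    · have h3 : |x k - y k| ≤ 1 := by omega
      rw [abs_le] at h3
      by_cases hlt : x k < y k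
      · -- away from y: decrease x k
        by_cases hz : z k ≤ x k
        · exact GEO_A z x y hx hy i k hki hi false (GEO_cube_f z x hx k hz) (GEO_away_f x y k (by omega))
        · apply GEO_symm
          exact GEO_A z y x hy hx i k hki hi.symm true (GEO_cube_t z y hy k (by omega)) (GEO_away_t y x k (by omega))
      · by_cases hz : x k ≤ z k
        · exact GEO_A z x y hx hy i k hki hi true (GEO_cube_t z x hx k hz) (GEO_away_t x y k (by omega))
        · apply GEO_symm
          exact GEO_A z y x hy hx i k hki hi.symm false (GEO_cube_f z y hy k (by omega)) (GEO_away_f y x k (by omega))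

end SRW
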