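import Pool.Agent.SRW.St

/-! # SRW, module KES (MP_55bc5d_pr) -/

set_option autoImplicit false

namespace SRW

open Finset Filter

theorem thm_KES (hMU : St_MU) (hLOW : St_LOW) (hRTC : St_RTC) (hANA : St_ANA) : St_KES := by
  intro d hd
  obtain ⟨h1, h2, h3, _, _, h6, _, h8⟩ := hMU d (by omega)
  obtain ⟨B, n0, hB⟩ := hRTC d hd
  have hpos : ∀ n, (0 : ℝ) < (c d n : ℝ) := by
    intro n
    have := h3 n
    exact_mod_cast this
  refine hANA (fun n => (c d n : ℝ)) (mu d) (1 / 3) ((2 * (d : ℝ)) ^ 2) B n0 h1 (by norm_num) h2 h8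
    ?_ ?_ hB
  · intro n
    have h := hLOW d n (by omega)
    have h' : (c d n : ℝ) ≤ 3 * (c d (n + 2) : ℝ) := by exact_mod_cast h
    rw [le_div_iff₀ (hpos n)]
    linarith
  · intro n
    have ha : (c d (n + 1) : ℝ) ≤ 2 * (d : ℝ) * (c d n : ℝ) := by exact_mod_cast h6 n
    have hb : (c d (n + 2) : ℝ) ≤ 2 * (d : ℝ) * (c d (n + 1) : ℝ) := by exact_mod_cast h6 (n + 1)
    rw [div_le_iff₀ (hpos n)]
    calc (c d (n + 2) : ℝ) ≤ 2 * (d : ℝ) * (c d (n + 1) : ℝ) := hb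
      _ ≤ 2 * (d : ℝ) * (2 * (d : ℝ) * (c d n : ℝ)) :=
        mul_le_mul_of_nonneg_left ha (by positivity)
      _ = (2 * (d : ℝ)) ^ 2 * (c d n : ℝ) := by ring

end SRW
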