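import Pool.Agent.SRW.St

/-!
# SRW: module LOW, `c_n ≤ 3 c_{n+2}`
-/

set_option autoImplicit false

namespace SRW

open Finset

private theorem LOW_up {d : ℕ} {s : Step d} {z : Fin d} (h : 0 < vec s z) : s = (z, true) := by
  rcases s with ⟨k, b⟩
  by_cases hk : z = k
  · subst hk
    cases b
    · simp [vec] at h
    · rfl
  · simp [vec, hk] at h

private theorem LOW_dn {d : ℕ} {s : Step d} {z : Fin d} (h : vec s z < 0) : s = (z, false) := by
  rcases s with ⟨k, b⟩
  by_cases hk : z = k
  · subst hk
    cases b
    · rfl
    · simp [vec] at h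
  · simp [vec, hk] at h

private theorem LOW_vt {d : ℕ} (z : Fin d) : vec (z, true) z = 1 := by simp [vec]

private theorem LOW_vf {d : ℕ} (z : Fin d) : vec (z, false) z = -1 := by simp [vec]

/-! ### the three ways to add two steps -/

private theorem LOW_sawA {d : ℕ} (z : Fin d) (w : List (Step d)) (hw : Saw w)
    (h : ∀ i ≤ w.length, pos w i z ≤ disp w z) : Saw (w ++ [(z, true), (z, true)]) := by
  have h1 : pos (w ++ [(z, true), (z, true)]) (w.length + 1) = disp w + vec (z, true) := by
    rw [pos_append_right]
    simp [pos]
  have h2 : pos (w ++ [(z, true), (z, true)]) (w.length + 2) =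
      disp w + (vec (z, true) + vec (z, true)) := by
    rw [pos_append_right]
    simp [pos]
  have e := LOW_vt z
  intro i j hij hj he
  rw [List.length_append] at hj
  simp only [List.length_cons, List.length_nil] at hj
  rcases Nat.lt_or_ge w.length j with hj' | hj'
  · rcases Nat.lt_or_ge w.length i with hi | hi
    · have hi' : i = w.length + 1 := by omega
      have hj2 : j = w.length + 2 := by omega
      subst hi' hj2
      rw [h1, h2] at he
      have := congrFun he z
      simp only [Pi.add_apply] at this
      omega
    · rw [pos_append_left _ _ hi] at he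
      have hi2 := h i hi
      have hz := congrFun he z
      rcases (by omega : j = w.length + 1 ∨ j = w.length + 2) with rfl | rfl
      · rw [h1] at hz
        simp only [Pi.add_apply] at hz
        omega
      · rw [h2] at hz
        simp only [Pi.add_apply] at hz
        omega
  · rw [pos_append_left _ _ (by omega), pos_append_left _ _ hj'] at he
    exact hw i j hij hj' he

private theorem LOW_sawB {d : ℕ} (z : Fin d) (w : List (Step d)) (hw : Saw w)
    (h : ∀ i ≤ w.length, pos w i z ≤ 0) : Saw ((z, false) :: (z, false) :: w) := by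
  have h2 : ∀ i, pos ((z, false) :: (z, false) :: w) (i + 2) =
      vec (z, false) + (vec (z, false) + pos w i) := fun i => by
    rw [pos_cons_succ, pos_cons_succ]
  have h1 : pos ((z, false) :: (z, false) :: w) 1 = vec (z, false) := by
    rw [pos_cons_succ, pos_zero, add_zero]
  have e := LOW_vf z
  intro i j hij hj he
  simp only [List.length_cons] at hj
  match i, j with
  | 0, 0 => omega
  | 0, 1 =>
    rw [h1, pos_zero] at he
    exact vec_ne_zero _ he.symm
  | 0, j + 2 =>
    rw [h2, pos_zero] at he
    have hz := congrFun he z
    have := h j (by omega)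
    simp only [Pi.add_apply, Pi.zero_apply] at hz
    omega
  | 1, 0 => omega
  | 1, 1 => omega
  | 1, j + 2 =>
    rw [h2, h1] at he
    have hz := congrFun he z
    have := h j (by omega)
    simp only [Pi.add_apply] at hz
    omega
  | i + 2, 0 => omega
  | i + 2, 1 => omega
  | i + 2, j + 2 =>
    rw [h2, h2] at he
    exact hw i j (by omega) (by omega) (add_left_cancel (add_left_cancel he))

private theorem LOW_pos3 {d : ℕ} (a b : List (Step d)) (e s : Step d) :
    (∀ i ≤ a.length, pos (a ++ e :: s :: opp e :: b) i = pos (a ++ s :: b) i) ∧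
    pos (a ++ e :: s :: opp e :: b) (a.length + 1) = pos (a ++ s :: b) a.length + vec e ∧
    pos (a ++ e :: s :: opp e :: b) (a.length + 2) = pos (a ++ s :: b) (a.length + 1) + vec e ∧
    ∀ i, pos (a ++ e :: s :: opp e :: b) (a.length + (i + 3)) =
      pos (a ++ s :: b) (a.length + (i + 1)) := by
  refine ⟨fun i hi => ?_, ?_, ?_, fun i => ?_⟩
  · rw [pos_append_left _ _ hi, pos_append_left _ _ hi]
  · rw [pos_append_right, pos_cons_succ, pos_zero, pos_append_left _ _ le_rfl, pos_length,
      add_zero]
  · rw [pos_append_right, pos_cons_succ, pos_cons_succ, pos_zero, pos_append_right, pos_cons_succ,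
      pos_zero, add_zero, add_comm (vec e), add_assoc]
  · rw [pos_append_right, pos_append_right, show i + 3 = i + 1 + 1 + 1 from rfl, pos_cons_succ,
      pos_cons_succ, pos_cons_succ, pos_cons_succ, vec_opp]
    abel

private theorem LOW_sawC {d : ℕ} (z : Fin d) (a b : List (Step d)) (s : Step d)
    (hw : Saw (a ++ s :: b))
    (h : ∀ i ≤ (a ++ s :: b).length, pos (a ++ s :: b) i z ≤ pos (a ++ s :: b) a.length z)
    (hs : pos (a ++ s :: b) (a.length + 1) z = pos (a ++ s :: b) a.length z) :
    Saw (a ++ (z, true) :: s :: opp (z, true) :: b) ∧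
    ∀ i ≤ (a ++ (z, true) :: s :: opp (z, true) :: b).length,
      pos (a ++ (z, true) :: s :: opp (z, true) :: b) i z ≤
        pos (a ++ (z, true) :: s :: opp (z, true) :: b) (a.length + 1) z ∧
      (i ≤ a.length → pos (a ++ (z, true) :: s :: opp (z, true) :: b) i z <
        pos (a ++ (z, true) :: s :: opp (z, true) :: b) (a.length + 1) z) := by
  obtain ⟨g0, g1, g2, g3⟩ := LOW_pos3 a b (z, true) s
  have e := LOW_vt z
  have hl : (a ++ s :: b).length = a.length + (b.length + 1) := by simp
  have hl2 : (a ++ (z, true) :: s :: opp (z, true) :: b).length = a.length + (b.length + 3) := by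
    simp
  have hcase : ∀ i ≤ (a ++ (z, true) :: s :: opp (z, true) :: b).length,
      i ≤ a.length ∨ i = a.length + 1 ∨ i = a.length + 2 ∨
        ∃ k, i = a.length + (k + 3) ∧ k ≤ b.length := by
    intro i hi
    rcases Nat.lt_or_ge i (a.length + 3) with h1 | h1
    · omega
    · right; right; right
      exact ⟨i - (a.length + 3), by omega, by omega⟩
  constructor
  · intro i j hij hj he
    have hz := congrFun he z
    rcases hcase i (by omega) with hi | rfl | rfl | ⟨k, rfl, hk⟩
    · have hi2 := h i (by omega)
      rcases hcase j hj with hj' | rfl | rfl | ⟨l, rfl, hl'⟩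
      · rw [g0 i hi, g0 j hj'] at he
        exact hw i j hij (by omega) he
      · rw [g0 i hi, g1, Pi.add_apply] at hz
        omega
      · rw [g0 i hi, g2, Pi.add_apply] at hz
        omega
      · rw [g0 i hi, g3 l] at he
        exact hw i _ (by omega) (by omega) he
    · rcases hcase j hj with hj' | rfl | rfl | ⟨l, rfl, hl'⟩
      · omega
      · omega
      · rw [g1, g2] at he
        exact hw _ _ (Nat.lt_succ_self _) (by omega) (add_right_cancel he)
      · have h3 := h (a.length + (l + 1)) (by omega)
        rw [g1, g3 l, Pi.add_apply] at hz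
        omega
    · rcases hcase j hj with hj' | rfl | rfl | ⟨l, rfl, hl'⟩
      · omega
      · omega
      · omega
      · have h3 := h (a.length + (l + 1)) (by omega)
        rw [g2, g3 l, Pi.add_apply] at hz
        omega
    · rcases hcase j hj with hj' | rfl | rfl | ⟨l, rfl, hl'⟩
      · omega
      · omega
      · omega
      · rw [g3 k, g3 l] at he
        exact hw _ _ (by omega) (by omega) he
  · intro i hi
    rw [g1, Pi.add_apply, e]
    rcases hcase i hi with hi' | rfl | rfl | ⟨k, rfl, hk⟩
    · have h3 := h i (by omega)
      rw [g0 i hi']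
      exact ⟨by omega, fun _ => by omega⟩
    · rw [g1, Pi.add_apply, e]
      exact ⟨le_rfl, fun h4 => by omega⟩
    · rw [g2, Pi.add_apply, e]
      exact ⟨by omega, fun h4 => by omega⟩
    · have h3 := h (a.length + (k + 1)) (by omega)
      rw [g3 k]
      exact ⟨by omega, fun h4 => by omega⟩

/-! ### every walk is in one of the three cases -/

private theorem LOW_cases {d : ℕ} (z : Fin d) (w : List (Step d)) (hw : Saw w) :
    (∀ i ≤ w.length, pos w i z ≤ disp w z) ∨ (∀ i ≤ w.length, pos w i z ≤ 0) ∨
    ∃ a s b, w = a ++ s :: b ∧ (∀ i ≤ w.length, pos w i z ≤ pos w a.length z) ∧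
      pos w (a.length + 1) z = pos w a.length z := by
  -- an index of maximal height, and then the last one
  obtain ⟨j0, hj0, hmax⟩ := Finset.exists_max_image (range (w.length + 1)) (fun i => pos w i z)
    ⟨0, by simp⟩
  have hne : ((range (w.length + 1)).filter (fun i => pos w i z = pos w j0 z)).Nonempty :=
    ⟨j0, by rw [mem_filter]; exact ⟨hj0, rfl⟩⟩
  obtain ⟨j, hj, hlast⟩ := Finset.exists_max_image _ (fun i : ℕ => i) hne
  rw [mem_filter, mem_range] at hj
  obtain ⟨hjl, hjz⟩ := hj
  have hle : ∀ i ≤ w.length, pos w i z ≤ pos w j z := by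
    intro i hi
    rw [hjz]
    exact hmax i (mem_range.2 (by omega))
  have hlt : ∀ i ≤ w.length, j < i → pos w i z < pos w j z := by
    intro i hi hji
    rcases lt_or_eq_of_le (hle i hi) with h | h
    · exact h
    · have := hlast i (by rw [mem_filter, mem_range]; exact ⟨by omega, by rw [h, hjz]⟩)
      omega
  rcases Nat.lt_or_ge j w.length with hjn | hjn
  · rcases Nat.eq_zero_or_pos j with rfl | hj1
    · right; left
      intro i hi
      have := hle i hi
      rw [pos_zero, Pi.zero_apply] at this
      exact this
    · right; right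
      obtain ⟨m, rfl⟩ : ∃ m, j = m + 1 := ⟨j - 1, by omega⟩
      have h1 := pos_succ_sub w (i := m) (by omega)
      have h2 := pos_succ_sub w (i := m + 1) hjn
      have h3 := hlt (m + 1 + 1) (by omega) (by omega)
      have h4 : w[m + 1] = (z, false) := by
        apply LOW_dn
        have := congrFun h2 z
        rw [Pi.add_apply] at this
        omega
      have h5 : pos w (m + 1) z = pos w m z := by
        rcases lt_or_eq_of_le (hle m (by omega)) with h | h
        · exfalso
          have h6 : w[m] = (z, true) := by
            apply LOW_up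
            have := congrFun h1 z
            rw [Pi.add_apply] at this
            omega
          apply hw m (m + 1 + 1) (by omega) (by omega)
          rw [h2, h1, h4, h6]
          have : vec (z, false) = - vec (z, true) := vec_opp (z, true)
          rw [this]
          abel
        · exact h.symm
      refine ⟨w.take m, w[m], w.drop (m + 1), ?_, ?_, ?_⟩
      · rw [List.getElem_cons_drop, List.take_append_drop]
      · intro i hi
        rw [List.length_take, min_eq_left (by omega), ← h5]
        exact hle i hi
      · rw [List.length_take, min_eq_left (by omega)]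
        exact h5
  · left
    intro i hi
    have hj' : j = w.length := by omega
    have := hle i hi
    rw [hj', pos_length] at this
    exact this

theorem thm_LOW : St_LOW := by
  classical
  intro d n hd
  set z : Fin d := ⟨0, hd⟩
  set A := (saws d n).filter (fun w => ∀ i ≤ w.length, pos w i z ≤ disp w z) with hA
  set B := (saws d n).filter (fun w => ∀ i ≤ w.length, pos w i z ≤ 0) with hB
  set C := (saws d n).filter (fun w => ∃ a s b, w = a ++ s :: b ∧
    (∀ i ≤ w.length, pos w i z ≤ pos w a.length z) ∧
      pos w (a.length + 1) z = pos w a.length z) with hC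
  have hsub : saws d n ⊆ A ∪ B ∪ C := by
    intro w hw
    rw [mem_union, mem_union, hA, hB, hC, mem_filter, mem_filter, mem_filter]
    rcases LOW_cases z w (mem_saws.1 hw).2 with h | h | h
    · exact Or.inl (Or.inl ⟨hw, h⟩)
    · exact Or.inl (Or.inr ⟨hw, h⟩)
    · exact Or.inr ⟨hw, h⟩
  have cA : A.card ≤ c d (n + 2) := by
    apply Finset.card_le_card_of_injOn (fun w => w ++ [(z, true), (z, true)])
    · intro w hw
      rw [hA, mem_coe, mem_filter, mem_saws] at hw
      obtain ⟨⟨hl, hs⟩, h⟩ := hw
      rw [mem_coe, mem_saws]
      exact ⟨by simp [hl], LOW_sawA z w hs h⟩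
    · intro w _ w' _ h
      exact List.append_cancel_right h
  have cB : B.card ≤ c d (n + 2) := by
    apply Finset.card_le_card_of_injOn (fun w => (z, false) :: (z, false) :: w)
    · intro w hw
      rw [hB, mem_coe, mem_filter, mem_saws] at hw
      obtain ⟨⟨hl, hs⟩, h⟩ := hw
      rw [mem_coe, mem_saws]
      exact ⟨by simp [hl], LOW_sawB z w hs h⟩
    · intro w _ w' _ h
      simpa using h
  have cC : C.card ≤ c d (n + 2) := by
    have key : ∀ w : List (Step d), w ∈ C → ∃ v, v ∈ saws d (n + 2) ∧ ∃ a s b, w = a ++ s :: b ∧
        v = a ++ (z, true) :: s :: opp (z, true) :: b ∧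
        ∀ i ≤ v.length, pos v i z ≤ pos v (a.length + 1) z ∧
          (i ≤ a.length → pos v i z < pos v (a.length + 1) z) := by
      intro w hw
      rw [hC, mem_filter, mem_saws] at hw
      obtain ⟨⟨hl, hs⟩, a, s, b, rfl, h1, h2⟩ := hw
      obtain ⟨h3, h4⟩ := LOW_sawC z a b s hs h1 h2
      refine ⟨_, mem_saws.2 ⟨?_, h3⟩, a, s, b, rfl, rfl, h4⟩
      rw [← hl]
      simp only [List.length_append, List.length_cons]
      rfl
    choose! g hg1 hg2 using key
    apply Finset.card_le_card_of_injOn g
    · intro w hw
      exact hg1 w hw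
    · intro w hw w' hw' he
      obtain ⟨a, s, b, h1, h2, h3⟩ := hg2 w hw
      obtain ⟨a', s', b', h1', h2', h3'⟩ := hg2 w' hw'
      rw [← he] at h2' h3'
      have hl : (g w).length = a.length + (b.length + 3) := by rw [h2]; simp
      have hl' : (g w).length = a'.length + (b'.length + 3) := by rw [h2']; simp
      have hlen : a.length = a'.length := by
        rcases lt_trichotomy a.length a'.length with h | h | h
        · have h5 := (h3' (a.length + 1) (by omega)).2 (by omega)
          have h6 := (h3 (a'.length + 1) (by omega)).1
          omega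
        · exact h
        · have h5 := (h3 (a'.length + 1) (by omega)).2 (by omega)
          have h6 := (h3' (a.length + 1) (by omega)).1
          omega
      have h7 : a ++ (z, true) :: s :: opp (z, true) :: b =
          a' ++ (z, true) :: s' :: opp (z, true) :: b' := by rw [← h2, ← h2']
      obtain ⟨h8, h9⟩ := List.append_inj h7 hlen
      rw [List.cons.injEq, List.cons.injEq, List.cons.injEq] at h9
      rw [h1, h1', h8, h9.2.1, h9.2.2.2]
  calc c d n ≤ (A ∪ B ∪ C).card := Finset.card_le_card hsub
    _ ≤ (A ∪ B).card + C.card := Finset.card_union_le _ _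
    _ ≤ A.card + B.card + C.card := Nat.add_le_add_right (Finset.card_union_le _ _) _
    _ ≤ 3 * c d (n + 2) := by omega

end SRW
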