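import Pool.Agent.SRW.St

/-!
# SRW: a rich block has a place where a bump can be inserted
-/

set_option autoImplicit false

namespace SRW

open Finset

theorem thm_MDF (hRIC : St_RIC) (hGEO : St_GEO) : St_MDF := by
  intro d k M N w hd hM hw hlen hcov t i0 ht ht2 hi0 hk
  obtain ⟨s, e, h1, h2, h3, h4, h5, h6, h7⟩ := hRIC d k M N w hM hw hlen hcov t i0 ht ht2 hi0 hk
  have he : e ≤ w.length := by
    rw [hlen]
    exact h4.trans (Nat.mul_le_mul_right M (by omega))
  have hne : pos w s ≠ pos w e := hw s e (by omega) he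
  obtain ⟨π, g1, g2, g3, g4, g5⟩ := hGEO d hd (pos w (t * M + i0)) (pos w s) (pos w e) h5 h6 hne
  exact ⟨s, e, π, h1, h2, h3, h4, g1, g2, g4, g3, h7, g5⟩

end SRW
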