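import Pool.Agent.SRW.St

/-!
# SRW, module MU: the connective constant
-/

set_option autoImplicit false

namespace SRW

open Finset Filter

variable {d : ℕ}

private lemma MU_pos_rep (s : Step d) (n i : ℕ) (h : i ≤ n) :
    pos (List.replicate n s) i = i • vec s := by
  unfold pos disp
  rw [List.take_replicate, min_eq_left h, List.map_replicate, List.sum_replicate]

private lemma MU_saw_rep (s : Step d) (n : ℕ) : Saw (List.replicate n s) := by
  intro i j hij hj he
  rw [List.length_replicate] at hj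
  rw [MU_pos_rep s n i (by omega), MU_pos_rep s n j hj] at he
  have h1 : ((i : ℤ) - j) • vec s = 0 := by
    rw [sub_smul, natCast_zsmul, natCast_zsmul, he, sub_self]
  rcases smul_eq_zero.1 h1 with h | h
  · omega
  · exact vec_ne_zero s h

private lemma MU_one_le (hd : 1 ≤ d) (n : ℕ) : 1 ≤ c d n := by
  unfold c
  rw [Nat.one_le_iff_ne_zero, Ne, Finset.card_eq_zero]
  intro h
  have h1 : List.replicate n ((⟨0, hd⟩ : Fin d), true) ∈ saws d n :=
    mem_saws.2 ⟨by simp, MU_saw_rep _ n⟩
  rw [h] at h1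
  exact absurd h1 (Finset.notMem_empty _)

private lemma MU_zero : c d 0 = 1 := by
  unfold c
  rw [Finset.card_eq_one]
  refine ⟨[], ?_⟩
  ext w
  rw [mem_saws, Finset.mem_singleton, List.length_eq_zero_iff]
  exact ⟨fun h => h.1, fun h => ⟨h, h ▸ saw_nil⟩⟩

private lemma MU_sub (hSUB : St_SUB) (n m : ℕ) : c d (n + m) ≤ c d n * c d m := by
  have h := hSUB d (fun _ => True) (fun _ _ _ _ => trivial) n m
  have h1 : ∀ n : ℕ, sw d n (fun _ => True) = saws d n := by
    intro n
    ext w
    rw [mem_sw, mem_saws]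
    tauto
  rw [h1, h1, h1] at h
  exact h

private lemma MU_one : c d 1 ≤ 2 * d := by
  classical
  unfold c
  have h1 : saws d 1 ⊆ (univ : Finset (Step d)).image (fun s => [s]) := by
    intro w hw
    obtain ⟨s, hs⟩ := List.length_eq_one_iff.1 (mem_saws.1 hw).1
    rw [Finset.mem_image]
    exact ⟨s, Finset.mem_univ s, hs.symm⟩
  refine (Finset.card_le_card h1).trans (Finset.card_image_le.trans ?_)
  rw [Finset.card_univ, card_step]

theorem thm_MU (hSUB : St_SUB) : St_MU := by
  intro d hd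
  have h3 : ∀ n : ℕ, 1 ≤ c d n := MU_one_le hd
  have h3r : ∀ n : ℕ, (1 : ℝ) ≤ c d n := fun n => by exact_mod_cast h3 n
  have hpos : ∀ n : ℕ, (0 : ℝ) < c d n := fun n => lt_of_lt_of_le one_pos (h3r n)
  have h5 : ∀ n m : ℕ, c d (n + m) ≤ c d n * c d m := MU_sub hSUB
  have h6 : ∀ n : ℕ, c d (n + 1) ≤ 2 * d * c d n := by
    intro n
    have h := h5 n 1
    have h1 := MU_one (d := d)
    calc c d (n + 1) ≤ c d n * c d 1 := h
      _ ≤ c d n * (2 * d) := Nat.mul_le_mul_left _ h1
      _ = 2 * d * c d n := Nat.mul_comm _ _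
  -- Fekete
  have hsub : Subadditive fun n : ℕ => Real.log (c d n : ℝ) := by
    intro m n
    have h : ((c d (m + n) : ℕ) : ℝ) ≤ (c d m : ℝ) * (c d n : ℝ) := by exact_mod_cast h5 m n
    show Real.log (c d (m + n) : ℝ) ≤ Real.log (c d m : ℝ) + Real.log (c d n : ℝ)
    rw [← Real.log_mul (hpos m).ne' (hpos n).ne']
    exact Real.log_le_log (hpos _) h
  have hlog : ∀ n : ℕ, 0 ≤ Real.log (c d n : ℝ) := fun n => Real.log_nonneg (h3r n)
  have hbdd : BddBelow (Set.range fun n : ℕ => Real.log (c d n : ℝ) / n) := by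
    refine ⟨0, ?_⟩
    rintro _ ⟨n, rfl⟩
    exact div_nonneg (hlog n) (Nat.cast_nonneg n)
  obtain ⟨L, hL⟩ : ∃ L : ℝ, L = hsub.lim := ⟨_, rfl⟩
  have hlim : Tendsto (fun n : ℕ => Real.log (c d n : ℝ) / n) atTop (nhds L) := by
    rw [hL]
    exact hsub.tendsto_lim hbdd
  have hle : ∀ n : ℕ, n ≠ 0 → L ≤ Real.log (c d n : ℝ) / n := by
    intro n hn
    rw [hL]
    exact hsub.lim_le_div hbdd hn
  have hL0 : 0 ≤ L := ge_of_tendsto' hlim fun n => div_nonneg (hlog n) (Nat.cast_nonneg n)
  have hexp : ∀ n : ℕ, Real.exp (Real.log (c d n : ℝ) / n) = (c d n : ℝ) ^ ((1 : ℝ) / (n : ℝ)) := by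
    intro n
    rw [Real.rpow_def_of_pos (hpos n)]
    congr 1
    ring
  have hten : Tendsto (fun n : ℕ => (c d n : ℝ) ^ ((1 : ℝ) / (n : ℝ))) atTop (nhds (Real.exp L)) := by
    have h := (Real.continuous_exp.tendsto L).comp hlim
    refine h.congr fun n => ?_
    exact hexp n
  have hten1 : Tendsto (fun n : ℕ => (c d (n + 1) : ℝ) ^ (1 / ((n : ℝ) + 1))) atTop
      (nhds (Real.exp L)) := by
    have h := (tendsto_add_atTop_iff_nat 1).2 hten
    refine h.congr fun n => ?_
    push_cast
    rfl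
  have hbd : BddBelow (Set.range fun n : ℕ => (c d (n + 1) : ℝ) ^ (1 / ((n : ℝ) + 1))) := by
    refine ⟨0, ?_⟩
    rintro _ ⟨n, rfl⟩
    exact Real.rpow_nonneg (hpos _).le _
  have hmu : mu d = Real.exp L := by
    refine le_antisymm ?_ ?_
    · exact ge_of_tendsto' hten1 fun n => ciInf_le hbd n
    · refine le_ciInf fun n => ?_
      have h := hexp (n + 1)
      push_cast at h
      rw [← h]
      have h1 := hle (n + 1) (Nat.succ_ne_zero n)
      push_cast at h1
      exact Real.exp_le_exp.2 h1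
  have h1 : 1 ≤ mu d := by
    rw [hmu]
    exact Real.one_le_exp hL0
  refine ⟨h1, ?_, h3, MU_zero, h5, h6, hmu ▸ hten, ?_⟩
  · intro n
    rcases Nat.eq_zero_or_pos n with hn | hn
    · subst hn
      rw [pow_zero]
      exact h3r 0
    · have h := hle n hn.ne'
      have hn' : (0 : ℝ) < n := by exact_mod_cast hn
      rw [le_div_iff₀ hn'] at h
      rw [hmu, ← Real.exp_nat_mul, mul_comm]
      calc Real.exp (L * n) ≤ Real.exp (Real.log (c d n : ℝ)) := Real.exp_le_exp.2 h
        _ = (c d n : ℝ) := Real.exp_log (hpos n)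
  · intro ε hε
    have hlt : L < L + Real.log (1 + ε) := by
      have := Real.log_pos (show (1 : ℝ) < 1 + ε by linarith)
      linarith
    obtain ⟨N, hN⟩ := eventually_atTop.1 (hlim.eventually_lt_const hlt)
    have hb : 1 ≤ mu d * (1 + ε) := by nlinarith
    have hS : 0 ≤ ∑ n ∈ range N, (c d n : ℝ) := Finset.sum_nonneg fun n _ => (hpos n).le
    refine ⟨1 + ∑ n ∈ range N, (c d n : ℝ), by linarith, fun n => ?_⟩
    have hp : 1 ≤ (mu d * (1 + ε)) ^ n := one_le_pow₀ hb
    rcases Nat.lt_or_ge n N with hn | hn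
    · have h7 : (c d n : ℝ) ≤ ∑ n ∈ range N, (c d n : ℝ) :=
        Finset.single_le_sum (f := fun n => (c d n : ℝ)) (fun n _ => (hpos n).le)
          (Finset.mem_range.2 hn)
      nlinarith
    · have h8 : (c d n : ℝ) ≤ (mu d * (1 + ε)) ^ n := by
        rcases Nat.eq_zero_or_pos n with h0 | h0
        · subst h0
          rw [MU_zero, pow_zero]
          norm_num
        · have h9 := hN n hn
          have hn' : (0 : ℝ) < n := by exact_mod_cast h0
          rw [div_lt_iff₀ hn'] at h9
          have h10 : mu d * (1 + ε) = Real.exp (L + Real.log (1 + ε)) := by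
            rw [Real.exp_add, Real.exp_log (by linarith), hmu]
          rw [h10, ← Real.exp_nat_mul, mul_comm]
          calc (c d n : ℝ) = Real.exp (Real.log (c d n : ℝ)) := (Real.exp_log (hpos n)).symm
            _ ≤ Real.exp ((L + Real.log (1 + ε)) * n) := Real.exp_le_exp.2 h9.le
      nlinarith

end SRW
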