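import Pool.Agent.SRW.St

/-!
# SRW, module NFU: the words without bumps have a smaller growth
-/

set_option autoImplicit false

namespace SRW

open Finset Filter

private lemma NFU_eps (n : ℕ) (hn : n ≠ 0) : ∃ ε : ℝ, 0 < ε ∧ (1 + ε) ^ n = 2 := by
  refine ⟨(2 : ℝ) ^ ((n : ℝ)⁻¹) - 1, ?_, ?_⟩
  · have hpos : (0 : ℝ) < (n : ℝ)⁻¹ := by
      have : (0 : ℝ) < (n : ℝ) := by exact_mod_cast Nat.pos_of_ne_zero hn
      positivity
    have := Real.one_lt_rpow (x := 2) (by norm_num) hpos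
    linarith
  · rw [add_sub_cancel, Real.rpow_inv_natCast_pow (by norm_num) hn]

private lemma NFU_fin (A B c0 : ℝ) (hc : 0 < c0) : ∀ᶠ K : ℕ in atTop, A * (K : ℝ) + B < c0 * 2 ^ K := by
  have h1 := tendsto_pow_const_div_const_pow_of_one_lt 1 (r := (2 : ℝ)) (by norm_num)
  have h0 := tendsto_pow_const_div_const_pow_of_one_lt 0 (r := (2 : ℝ)) (by norm_num)
  have h2 : Tendsto (fun K : ℕ => A * ((K : ℝ) ^ 1 / 2 ^ K) + B * ((K : ℝ) ^ 0 / 2 ^ K)) atTop (nhds 0) := by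
    have := (h1.const_mul A).add (h0.const_mul B)
    simpa using this
  filter_upwards [h2.eventually (gt_mem_nhds hc)] with K hK
  have h3 : (0 : ℝ) < 2 ^ K := by positivity
  have h4 : A * ((K : ℝ) ^ 1 / 2 ^ K) + B * ((K : ℝ) ^ 0 / 2 ^ K) = (A * K + B) / 2 ^ K := by
    field_simp
  rw [h4, div_lt_iff₀ h3] at hK
  exact hK

private lemma NFU_G (y T : ℝ) (hy : 0 < y) : ∃ G : ℕ, 1 ≤ G ∧ T ≤ (1 + (G : ℝ)) ^ y := by
  have h1 : Tendsto (fun G : ℕ => (1 + (G : ℝ)) ^ y) atTop atTop :=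
    (tendsto_rpow_atTop hy).comp (tendsto_atTop_add_const_left _ _ tendsto_natCast_atTop_atTop)
  obtain ⟨G, hG⟩ := ((h1.eventually_ge_atTop T).and (eventually_ge_atTop 1)).exists
  exact ⟨G, hG.2, hG.1⟩

open Classical in
theorem thm_NFU (hMU : St_MU) (hBLB : St_BLB) (hCOV : St_COV) (hCOB : St_COB) (hPIG : St_PIG) :
    St_NFU := by
  intro d hd
  obtain ⟨hmu1, hmuc, -, -, -, -, -, hmuC⟩ := hMU d (by omega)
  obtain ⟨hcv1, hcv2, hcv3, hcv4⟩ := hCOV d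
  by_contra hcon
  push Not at hcon
  set μ : ℝ := mu d with hμ
  have hμ0 : 0 < μ := by linarith
  -- the least `k`
  have hex : ∃ k : ℕ, ∀ M : ℕ, 1 ≤ M →
      μ ^ M ≤ ((sw d M (fun u => NB u ∧ Cov k u)).card : ℝ) := by
    refine ⟨3 ^ d, fun M hM => (hcon M hM).trans ?_⟩
    have : sw d M (NB : List (Step d) → Prop) ⊆ sw d M (fun u => NB u ∧ Cov (3 ^ d) u) := by
      intro w hw
      rw [mem_sw] at hw ⊢
      exact ⟨hw.1, hw.2.1, hw.2.2, hcv2 w hw.2.1⟩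
    exact_mod_cast Finset.card_le_card this
  obtain ⟨k, hk, hmin⟩ : ∃ k : ℕ, (∀ M : ℕ, 1 ≤ M →
      μ ^ M ≤ ((sw d M (fun u => NB u ∧ Cov k u)).card : ℝ)) ∧ ∀ j < k, ¬ (∀ M : ℕ, 1 ≤ M →
      μ ^ M ≤ ((sw d M (fun u => NB u ∧ Cov j u)).card : ℝ)) :=
    ⟨Nat.find hex, Nat.find_spec hex, fun j hj => Nat.find_min hex hj⟩
  have hk1 : 1 ≤ k := by
    by_contra h0
    have h0' : k = 0 := by omega
    subst h0'
    have h1 := hk 1 le_rfl
    have h2 : sw d 1 (fun u => NB u ∧ Cov 0 u) = ∅ := by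
      rw [Finset.eq_empty_iff_forall_notMem]
      intro w hw
      rw [mem_sw] at hw
      exact hcv3 w hw.2.2.2
    rw [h2] at h1
    simp at h1
    linarith
  have hm := hmin (k - 1) (by omega)
  push Not at hm
  obtain ⟨M, hM, hMlt⟩ := hm
  -- blocks
  have hHer : Her (fun u : List (Step d) => NB u ∧ Cov k u) := by
    intro a v b h
    exact ⟨her_NB a v b h.1, hcv1 k a v b h.2⟩
  have hcard : ((sw d M (fun v => (NB v ∧ Cov k v) ∧ Cov (k - 1) v)).card : ℝ) < μ ^ M := by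
    have : sw d M (fun v => (NB v ∧ Cov k v) ∧ Cov (k - 1) v) = sw d M (fun u => NB u ∧ Cov (k - 1) u) := by
      ext w
      rw [mem_sw, mem_sw]
      constructor
      · rintro ⟨h1, h2, ⟨h3, h4⟩, h5⟩
        exact ⟨h1, h2, h3, h5⟩
      · rintro ⟨h1, h2, h3, h5⟩
        refine ⟨h1, h2, ⟨h3, ?_⟩, h5⟩
        have := hcv4 (k - 1) w h5
        rwa [Nat.sub_add_cancel hk1] at this
    rw [this]
    exact hMlt
  obtain ⟨a, η, ha, hη0, hη1, hbl⟩ := hBLB d M (fun u => NB u ∧ Cov k u) (Cov (k - 1)) (μ ^ M) hHer hcard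
  -- constants
  obtain ⟨W, hWdef⟩ : ∃ W : ℕ, W = 1 + (2 * d + 5) * (2 * d + 3) * ∑ j ∈ range (M + 1), (2 * d) ^ j := ⟨_, rfl⟩
  have hW1 : 1 ≤ W := by omega
  obtain ⟨L, hL⟩ : ∃ L : ℕ, L = 2 * d + 2 := ⟨_, rfl⟩
  have h3d : (0 : ℝ) < 3 ^ d := by positivity
  obtain ⟨G, hG1, hG⟩ := NFU_G (a / 3 ^ d) (4 * (W : ℝ) * μ ^ L) (by positivity)
  obtain ⟨n0, hn0⟩ : ∃ n0 : ℕ, n0 = G * M + L := ⟨_, rfl⟩
  obtain ⟨ε, hε0, hε⟩ := NFU_eps n0 (by omega)
  obtain ⟨C, hC0, hC⟩ := hmuC ε hε0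
  have hG0 : (0 : ℝ) < (G : ℝ) := by exact_mod_cast hG1
  obtain ⟨D0, hD0⟩ : ∃ D0 : ℝ, D0 = (1 + (G : ℝ)) ^ (-(2 / (3 ^ d * (G : ℝ)))) := ⟨_, rfl⟩
  have hD0p : 0 < D0 := by rw [hD0]; positivity
  -- choice of `K`
  have hev1 : ∀ᶠ K : ℕ in atTop, η ^ K ≤ 1 / 2 := by
    have := tendsto_pow_atTop_nhds_zero_of_lt_one hη0.le hη1
    exact (this.eventually (gt_mem_nhds (show (0 : ℝ) < 1 / 2 by norm_num))).mono fun K hK => hK.le
  obtain ⟨K, ⟨hK1, hK2⟩, hK3⟩ := ((hev1.and (NFU_fin (3 ^ d * C * n0) (3 ^ d * C) (D0 / 2) (by positivity))).and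
    (eventually_ge_atTop 1)).exists
  -- many words with many blocks
  set P : List (Step d) → Prop := fun u => NB u ∧ Cov k u with hP
  obtain ⟨N, hN⟩ : ∃ N : ℕ, N = K * G := ⟨_, rfl⟩
  have hN1 : 1 ≤ N := by rw [hN]; exact Nat.mul_pos hK3 hG1
  have hηN : η ^ N ≤ 1 / 2 := by
    refine le_trans (pow_le_pow_of_le_one hη0.le hη1.le ?_) hK1
    rw [hN]
    exact Nat.le_mul_of_pos_right K hG1
  have htot : μ ^ (N * M) ≤ ((sw d (N * M) P).card : ℝ) := hk (N * M) (Nat.mul_pos hN1 hM)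
  have hbad := hbl N
  have hbad' : ((sw d (N * M) (fun w => P w ∧ (rho (Cov (k - 1)) M N w : ℝ) ≤ a * N)).card : ℝ) ≤
      μ ^ (N * M) / 2 := by
    refine hbad.trans ?_
    rw [mul_pow, ← pow_mul, mul_comm M N]
    have : 0 < μ ^ (N * M) := by positivity
    nlinarith
  have hsplit : ((sw d (N * M) P).filter (fun w => (rho (Cov (k - 1)) M N w : ℝ) ≤ a * N)).card +
      ((sw d (N * M) P).filter (fun w => ¬ (rho (Cov (k - 1)) M N w : ℝ) ≤ a * N)).card =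
      (sw d (N * M) P).card := Finset.card_filter_add_card_filter_not _
  have hfe : (sw d (N * M) P).filter (fun w => (rho (Cov (k - 1)) M N w : ℝ) ≤ a * N) =
      sw d (N * M) (fun w => P w ∧ (rho (Cov (k - 1)) M N w : ℝ) ≤ a * N) := by
    ext w
    rw [Finset.mem_filter, mem_sw, mem_sw]
    tauto
  rw [hfe] at hsplit
  obtain ⟨Gd, hGd⟩ : ∃ Gd : Finset (List (Step d)),
    Gd = (sw d (N * M) P).filter (fun w => ¬ (rho (Cov (k - 1)) M N w : ℝ) ≤ a * N) := ⟨_, rfl⟩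
  rw [← hGd] at hsplit
  have hgood : μ ^ (N * M) / 2 ≤ (Gd.card : ℝ) := by
    have : ((sw d (N * M) (fun w => P w ∧ (rho (Cov (k - 1)) M N w : ℝ) ≤ a * N)).card : ℝ) + (Gd.card : ℝ) =
        ((sw d (N * M) P).card : ℝ) := by exact_mod_cast hsplit
    linarith
  -- lower bound for the products
  obtain ⟨Y, hY⟩ : ∃ Y : ℝ, Y = (1 + (G : ℝ)) ^ ((a * N - 2) / (3 ^ d * (G : ℝ))) := ⟨_, rfl⟩
  have hY0 : 0 < Y := by rw [hY]; positivity
  have hprod : ∀ w ∈ Gd, Y ≤ ∑ κ : Fin d → ZMod 3, ∏ g ∈ range K, (1 + ((opt k M G K κ w g).card : ℝ)) := by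
    intro w hw
    rw [hGd, Finset.mem_filter, mem_sw] at hw
    obtain ⟨κ, h1, h2⟩ := hPIG d k M G K w hk1 hG1 (by rw [hw.1.1, hN])
    have h3 : Y ≤ ∏ g ∈ range K, (1 + ((opt k M G K κ w g).card : ℝ)) := by
      refine le_trans ?_ h2
      rw [hY]
      apply Real.rpow_le_rpow_of_exponent_le (by linarith)
      rw [div_le_div_iff₀ (by positivity) hG0]
      have h4 := hw.2
      push Not at h4
      rw [← hN] at h1
      nlinarith
    refine h3.trans ?_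
    exact Finset.single_le_sum (f := fun κ => ∏ g ∈ range K, (1 + ((opt k M G K κ w g).card : ℝ)))
      (fun κ _ => Finset.prod_nonneg fun g _ => by positivity) (Finset.mem_univ κ)
  have hlow : μ ^ (N * M) / 2 * Y ≤
      ∑ w ∈ sw d (N * M) P, ∑ κ : Fin d → ZMod 3, ∏ g ∈ range K, (1 + ((opt k M G K κ w g).card : ℝ)) := by
    calc μ ^ (N * M) / 2 * Y ≤ (Gd.card : ℝ) * Y := by gcongr
      _ = ∑ w ∈ Gd, Y := by rw [Finset.sum_const, nsmul_eq_mul]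
      _ ≤ ∑ w ∈ Gd, ∑ κ : Fin d → ZMod 3, ∏ g ∈ range K, (1 + ((opt k M G K κ w g).card : ℝ)) :=
        Finset.sum_le_sum hprod
      _ ≤ _ := by
        apply Finset.sum_le_sum_of_subset_of_nonneg
        · rw [hGd]; exact Finset.filter_subset _ _
        · intro w _ _
          exact Finset.sum_nonneg fun κ _ => Finset.prod_nonneg fun g _ => by positivity
  -- upper bound
  obtain ⟨S, hS⟩ : ∃ S : ℕ, S = K * G * M + K * (2 * d + 2) := ⟨_, rfl⟩
  have hcob : ∀ κ : Fin d → ZMod 3,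
      ∑ w ∈ sw d (N * M) P, ∏ g ∈ range K, (1 + ((opt k M G K κ w g).card : ℝ)) ≤
        (∑ n ∈ range (S + 1), (c d n : ℝ)) * (W : ℝ) ^ K := by
    intro κ
    have h1 := hCOB d k M G K κ hd hM hG1
    rw [← hWdef, ← hS, ← hN] at h1
    exact_mod_cast h1
  have hsum : ∑ n ∈ range (S + 1), (c d n : ℝ) ≤ ((S : ℝ) + 1) * (C * (μ * (1 + ε)) ^ S) := by
    have hb : (1 : ℝ) ≤ μ * (1 + ε) := by nlinarith
    calc ∑ n ∈ range (S + 1), (c d n : ℝ) ≤ ∑ n ∈ range (S + 1), C * (μ * (1 + ε)) ^ S := by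
          apply Finset.sum_le_sum
          intro n hn
          rw [Finset.mem_range] at hn
          refine (hC n).trans ?_
          have := pow_le_pow_right₀ hb (show n ≤ S by omega)
          nlinarith
      _ = _ := by
          rw [Finset.sum_const, Finset.card_range, nsmul_eq_mul]
          push_cast
          ring
  have hup : ∑ w ∈ sw d (N * M) P, ∑ κ : Fin d → ZMod 3, ∏ g ∈ range K, (1 + ((opt k M G K κ w g).card : ℝ)) ≤
      3 ^ d * (((S : ℝ) + 1) * (C * (μ * (1 + ε)) ^ S) * (W : ℝ) ^ K) := by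
    rw [Finset.sum_comm]
    calc ∑ κ : Fin d → ZMod 3, ∑ w ∈ sw d (N * M) P, ∏ g ∈ range K, (1 + ((opt k M G K κ w g).card : ℝ))
        ≤ ∑ κ : Fin d → ZMod 3, ((S : ℝ) + 1) * (C * (μ * (1 + ε)) ^ S) * (W : ℝ) ^ K := by
          apply Finset.sum_le_sum
          intro κ _
          refine (hcob κ).trans ?_
          gcongr
      _ = _ := by
          rw [Finset.sum_const, Finset.card_univ, nsmul_eq_mul]
          congr 1
          rw [Fintype.card_fun, ZMod.card, Fintype.card_fin]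
          push_cast
          rfl
  -- contradiction
  have hmain := hlow.trans hup
  have hSe : S = K * n0 := by rw [hS, hn0, hL]; ring
  have hSN : S = N * M + K * L := by rw [hS, hN, hL]
  have hYe : Y = D0 * ((1 + (G : ℝ)) ^ (a / 3 ^ d)) ^ K := by
    rw [hY, hD0, ← Real.rpow_natCast ((1 + (G : ℝ)) ^ (a / 3 ^ d)) K, ← Real.rpow_mul (by positivity),
      ← Real.rpow_add (by positivity)]
    congr 1
    rw [hN]
    push_cast
    field_simp
    ring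
  have hYl : D0 * (4 * (W : ℝ) * μ ^ L) ^ K ≤ Y := by
    rw [hYe]
    have : (4 * (W : ℝ) * μ ^ L) ^ K ≤ ((1 + (G : ℝ)) ^ (a / 3 ^ d)) ^ K :=
      pow_le_pow_left₀ (by positivity) hG K
    exact mul_le_mul_of_nonneg_left this hD0p.le
  have hpowS : (μ * (1 + ε)) ^ S = μ ^ (N * M) * (μ ^ L) ^ K * 2 ^ K := by
    rw [mul_pow]
    have h1 : (1 + ε) ^ S = 2 ^ K := by rw [hSe, mul_comm K n0, pow_mul, hε]
    have h2 : μ ^ S = μ ^ (N * M) * (μ ^ L) ^ K := by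
      rw [hSN, pow_add, ← pow_mul, mul_comm L K]
    rw [h1, h2]
  rw [hpowS] at hmain
  have hX : 0 < μ ^ (N * M) := by positivity
  have hZ : 0 < (μ ^ L) ^ K := by positivity
  have hWK : 0 < (W : ℝ) ^ K := by
    have : (0 : ℝ) < W := by exact_mod_cast hW1
    positivity
  have h4 : (4 * (W : ℝ) * μ ^ L) ^ K = 2 ^ K * 2 ^ K * (W : ℝ) ^ K * (μ ^ L) ^ K := by
    rw [mul_pow, mul_pow, ← mul_pow 2 2]
    norm_num
  rw [h4] at hYl
  have hfin : μ ^ (N * M) * (μ ^ L) ^ K * (W : ℝ) ^ K * 2 ^ K * (D0 / 2 * 2 ^ K) ≤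
      μ ^ (N * M) * (μ ^ L) ^ K * (W : ℝ) ^ K * 2 ^ K * (3 ^ d * C * n0 * K + 3 ^ d * C) := by
    have h5 : μ ^ (N * M) / 2 * (D0 * (2 ^ K * 2 ^ K * (W : ℝ) ^ K * (μ ^ L) ^ K)) ≤
        3 ^ d * (((S : ℝ) + 1) * (C * (μ ^ (N * M) * (μ ^ L) ^ K * 2 ^ K)) * (W : ℝ) ^ K) :=
      le_trans (mul_le_mul_of_nonneg_left hYl (by positivity)) hmain
    have h6 : (S : ℝ) = K * n0 := by rw [hSe]; push_cast; ring
    rw [h6] at h5
    calc _ = μ ^ (N * M) / 2 * (D0 * (2 ^ K * 2 ^ K * (W : ℝ) ^ K * (μ ^ L) ^ K)) := by ring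
      _ ≤ _ := h5
      _ = _ := by ring
  have h7 := le_of_mul_le_mul_left hfin (by positivity)
  linarith

end SRW
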