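import Pool.Agent.SRW.St

/-!
# SRW, PIG: pigeonhole on residue classes
-/

set_option autoImplicit false

namespace SRW

open Finset

variable {d : ℕ}

/-- Bernoulli. -/
private theorem PIG_ber (G y : ℝ) (hG : 1 ≤ G) (h0 : 0 ≤ y) (h1 : y ≤ G) : (1 + G) ^ (y / G) ≤ 1 + y := by
  have hG0 : 0 < G := by linarith
  have h := _root_.rpow_one_add_le_one_add_mul_self (s := G) (p := y / G) (by linarith) (by positivity)
    ((div_le_one hG0).mpr h1)
  rwa [div_mul_cancel₀ _ hG0.ne'] at h

private theorem PIG_card (k M G K : ℕ) (κ : Fin d → ZMod 3) (w : List (Step d)) (g : ℕ) :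
    (opt k M G K κ w g).card ≤ G := by
  unfold opt
  refine (card_filter_le _ _).trans ?_
  rw [card_range]

private theorem PIG_prod (k M G K : ℕ) (κ : Fin d → ZMod 3) (w : List (Step d)) (hG : 1 ≤ G) :
    (1 + (G : ℝ)) ^ ((∑ g ∈ range K, ((opt k M G K κ w g).card : ℝ)) / (G : ℝ)) ≤
      ∏ g ∈ range K, (1 + ((opt k M G K κ w g).card : ℝ)) := by
  have hG1 : (1 : ℝ) ≤ G := by exact_mod_cast hG
  have hpos : (0 : ℝ) < 1 + (G : ℝ) := by linarith
  rw [Finset.sum_div, Real.rpow_sum_of_pos hpos]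
  apply Finset.prod_le_prod
  · intro g _
    exact (Real.rpow_pos_of_pos hpos _).le
  · intro g _
    apply PIG_ber _ _ hG1 (Nat.cast_nonneg _)
    exact_mod_cast PIG_card k M G K κ w g

/-- A block which does not have the property `Cov (k-1)`. -/
private theorem PIG_ctr (k M : ℕ) (B : List (Step d)) (hk : 1 ≤ k) (hB : B.length ≤ M) (h : ¬ Cov (k - 1) B) :
    ctr k B ≤ M ∧ k ≤ cov B (ctr k B) := by
  unfold Cov at h
  push Not at h
  obtain ⟨i, hi, hc⟩ := h
  have hne : {i | i ≤ B.length ∧ k ≤ cov B i}.Nonempty := ⟨i, hi, by omega⟩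
  have hm := Nat.sInf_mem hne
  exact ⟨le_trans hm.1 hB, hm.2⟩

open Classical in
/-- The blocks in the class `κ`. -/
private noncomputable def PIG_T (k M N : ℕ) (w : List (Step d)) (κ : Fin d → ZMod 3) : Finset ℕ :=
  (range N).filter (fun t => (1 ≤ t ∧ t + 2 ≤ N ∧ ctr k (blk M w t) ≤ M ∧
    k ≤ cov (blk M w t) (ctr k (blk M w t))) ∧ res (pos w (t * M + ctr k (blk M w t))) = κ)

private theorem PIG_T_card (k M G K : ℕ) (w : List (Step d)) (hG : 1 ≤ G) (κ : Fin d → ZMod 3) :
    (PIG_T k M (K * G) w κ).card ≤ ∑ g ∈ range K, (opt k M G K κ w g).card := by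
  classical
  have hsub : PIG_T k M (K * G) w κ ⊆
      (range K).biUnion (fun g => (opt k M G K κ w g).image (fun b => g * G + b)) := by
    intro t ht
    unfold PIG_T at ht
    rw [mem_filter, mem_range] at ht
    obtain ⟨htN, ⟨h1, h2, h3, h4⟩, h5⟩ := ht
    have hdm : t / G * G + t % G = t := by
      rw [mul_comm]
      exact Nat.div_add_mod t G
    rw [mem_biUnion]
    refine ⟨t / G, mem_range.mpr ?_, mem_image.mpr ⟨t % G, ?_, hdm⟩⟩
    · exact (Nat.div_lt_iff_lt_mul hG).mpr htN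
    · unfold opt
      rw [mem_filter, mem_range, hdm]
      exact ⟨Nat.mod_lt _ hG, h1, h2, h3, h4, h5⟩
  refine (card_le_card hsub).trans (card_biUnion_le.trans ?_)
  exact Finset.sum_le_sum fun g _ => card_image_le

private theorem PIG_rho (k M N : ℕ) (w : List (Step d)) (hk : 1 ≤ k) :
    rho (Cov (k - 1)) M N w ≤ (∑ κ : Fin d → ZMod 3, (PIG_T k M N w κ).card) + 2 := by
  classical
  have hsub : (range N).filter (fun t => ¬ Cov (k - 1) (blk M w t)) ⊆
      ((univ : Finset (Fin d → ZMod 3)).biUnion (fun κ => PIG_T k M N w κ)) ∪ {0, N - 1} := by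
    intro t ht
    rw [mem_filter, mem_range] at ht
    rw [mem_union]
    by_cases hb : 1 ≤ t ∧ t + 2 ≤ N
    · left
      rw [mem_biUnion]
      have hB : (blk M w t).length ≤ M := by
        unfold blk
        exact List.length_take_le _ _
      obtain ⟨h3, h4⟩ := PIG_ctr k M (blk M w t) hk hB ht.2
      refine ⟨res (pos w (t * M + ctr k (blk M w t))), mem_univ _, ?_⟩
      unfold PIG_T
      rw [mem_filter, mem_range]
      exact ⟨ht.1, ⟨hb.1, hb.2, h3, h4⟩, rfl⟩
    · right
      rw [mem_insert, mem_singleton]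
      omega
  have h1 : rho (Cov (k - 1)) M N w = ((range N).filter (fun t => ¬ Cov (k - 1) (blk M w t))).card := by
    unfold rho
    congr 1
  rw [h1]
  refine (card_le_card hsub).trans ((card_union_le _ _).trans ?_)
  apply Nat.add_le_add card_biUnion_le
  exact card_le_two

theorem thm_PIG : St_PIG := by
  intro d k M G K w hk hG _
  obtain ⟨κ, _, hκ⟩ := Finset.exists_max_image (univ : Finset (Fin d → ZMod 3))
    (fun κ => ∑ g ∈ range K, (opt k M G K κ w g).card) ⟨0, mem_univ _⟩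
  refine ⟨κ, ?_, PIG_prod k M G K κ w hG⟩
  have h1 := PIG_rho k M (K * G) w hk
  have h2 : ∑ κ' : Fin d → ZMod 3, (PIG_T k M (K * G) w κ').card ≤
      3 ^ d * ∑ g ∈ range K, (opt k M G K κ w g).card := by
    calc ∑ κ' : Fin d → ZMod 3, (PIG_T k M (K * G) w κ').card
        ≤ ∑ κ' : Fin d → ZMod 3, ∑ g ∈ range K, (opt k M G K κ w g).card := by
          apply Finset.sum_le_sum
          intro κ' _
          exact (PIG_T_card k M G K w hG κ').trans (hκ κ' (mem_univ _))
      _ = 3 ^ d * ∑ g ∈ range K, (opt k M G K κ w g).card := by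
          rw [Finset.sum_const, card_univ, Fintype.card_fun, ZMod.card, Fintype.card_fin, smul_eq_mul]
  have h3 : rho (Cov (k - 1)) M (K * G) w ≤ 3 ^ d * ∑ g ∈ range K, (opt k M G K κ w g).card + 2 := by
    omega
  have h4 : (rho (Cov (k - 1)) M (K * G) w : ℝ) ≤
      ((3 ^ d * ∑ g ∈ range K, (opt k M G K κ w g).card + 2 : ℕ) : ℝ) := by exact_mod_cast h3
  push_cast at h4
  linarith

end SRW
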