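import Pool.Agent.SRW.St

/-!
# SRW RIC (helper17): rich blocks, the time interval is short
-/

set_option autoImplicit false

namespace SRW

open Finset

variable {d : ℕ}

private lemma RIC_incube_iff (w : List (Step d)) (M t i0 j : ℕ) (hs : t * M ≤ w.length)
    (hi : i0 ≤ M) (hj : j ≤ M) :
    InCube (pos w (t * M + i0)) (pos w (t * M + j)) ↔
      InCube (pos (blk M w t) i0) (pos (blk M w t) j) := by
  have h1 : pos w (t * M + i0) = pos w (t * M) + pos (blk M w t) i0 := pos_part w _ M i0 hs hi
  have h2 : pos w (t * M + j) = pos w (t * M) + pos (blk M w t) j := pos_part w _ M j hs hj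
  unfold InCube
  refine forall_congr' fun l => ?_
  rw [h1, h2, Pi.add_apply, Pi.add_apply, add_sub_add_left_eq_sub]

theorem thm_RIC : St_RIC := by
  classical
  intro d k M N w hM _ hlen hcov t i0 ht htN hi hk
  have hNM : (t + 2) * M ≤ N * M := Nat.mul_le_mul_right M htN
  have e2 : (t + 2) * M = t * M + M + M := by ring
  have e1 : (t + 1) * M = t * M + M := by ring
  have htM : 1 ≤ t * M := Nat.mul_pos (by omega) (by omega)
  have hlB : (blk M w t).length = M := by
    unfold blk
    rw [List.length_take, List.length_drop]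
    omega
  set T : Finset ℕ := (range (w.length + 1)).filter
    (fun j => InCube (pos w (t * M + i0)) (pos w j)) with hT
  have hTc : T.card ≤ k := by
    have h := hcov (t * M + i0) (by omega)
    unfold cov at h
    simpa only [hT] using h
  set S : Finset ℕ := (range ((blk M w t).length + 1)).filter
    (fun j => InCube (pos (blk M w t) i0) (pos (blk M w t) j)) with hS
  have hSc : k ≤ S.card := by
    unfold cov at hk
    simpa only [hS] using hk
  have himg : S.image (fun j => t * M + j) = T := by
    refine Finset.eq_of_subset_of_card_le ?_ ?_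
    · intro x hx
      rw [Finset.mem_image] at hx
      obtain ⟨j, hj, rfl⟩ := hx
      rw [hS, Finset.mem_filter, Finset.mem_range, hlB] at hj
      rw [hT, Finset.mem_filter, Finset.mem_range]
      refine ⟨by omega, ?_⟩
      exact (RIC_incube_iff w M t i0 j (by omega) hi (by omega)).2 hj.2
    · rw [Finset.card_image_of_injective _ (add_right_injective _)]
      omega
  have hTmem : ∀ i ∈ T, t * M ≤ i ∧ i ≤ (t + 1) * M := by
    intro i hiT
    rw [← himg, Finset.mem_image] at hiT
    obtain ⟨j, hj, rfl⟩ := hiT
    rw [hS, Finset.mem_filter, Finset.mem_range, hlB] at hj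
    omega
  have ha : t * M + i0 - 1 ∈ T := by
    rw [hT, Finset.mem_filter, Finset.mem_range]
    refine ⟨by omega, fun l => ?_⟩
    have h := abs_pos_succ_sub_le w (t * M + i0 - 1) l
    rw [show t * M + i0 - 1 + 1 = t * M + i0 by omega] at h
    rwa [abs_sub_comm] at h
  have hb : t * M + i0 + 1 ∈ T := by
    rw [hT, Finset.mem_filter, Finset.mem_range]
    exact ⟨by omega, fun l => abs_pos_succ_sub_le w (t * M + i0) l⟩
  have hne : T.Nonempty := ⟨_, ha⟩
  have hsm := T.min'_mem hne
  have hem := T.max'_mem hne
  have hs1 := T.min'_le _ ha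
  have he1 := T.le_max' _ hb
  refine ⟨T.min' hne, T.max' hne, (hTmem _ hsm).1, by omega, by omega, (hTmem _ hem).2, ?_, ?_, ?_⟩
  · exact (Finset.mem_filter.1 hsm).2
  · exact (Finset.mem_filter.1 hem).2
  · intro i hi' hc
    have hiT : i ∈ T := by
      rw [hT, Finset.mem_filter, Finset.mem_range]
      exact ⟨by omega, hc⟩
    exact ⟨T.min'_le _ hiT, T.le_max' _ hiT⟩

end SRW
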