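import Pool.Agent.SRW.St

/-!
# SRW, module ROT: rotation of closed words
-/

set_option autoImplicit false

namespace SRW

open Finset

private lemma ROT_one {d N : ℕ} {w : List (Step d)} (h : w ∈ polys d N) :
    w.rotate 1 ∈ polys d N := by
  rw [mem_polys] at h ⊢
  obtain ⟨h1, h2, h3⟩ := h
  refine ⟨by rw [List.length_rotate]; exact h1, by rw [disp_rotate]; exact h2, ?_⟩
  cases w with
  | nil => simpa using saw_nil
  | cons s v =>
    have h4 : (s :: v).rotate 1 = v ++ [s] := by simp
    rw [h4, List.dropLast_concat]
    refine poly_saw (w := s :: v) (a := [s]) (u := v) (b := []) h2 h3 (by simp) ?_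
    intro h5
    have := congrArg List.length h5
    simp at this

private lemma ROT_mem {d N : ℕ} (i : ℕ) {w : List (Step d)} (h : w ∈ polys d N) :
    w.rotate i ∈ polys d N := by
  induction i with
  | zero => simpa using h
  | succ i ih =>
    rw [← List.rotate_rotate]
    exact ROT_one ih

theorem thm_ROT : St_ROT := by
  intro d N i m ψ him hmN
  refine Finset.sum_nbij' (fun u => u.rotate i) (fun u => u.rotate (N - i))
    (fun u hu => ROT_mem i hu) (fun u hu => ROT_mem (N - i) hu) ?_ ?_ ?_
  · intro u hu
    have h1 := (mem_polys.mp hu).1
    rw [List.rotate_rotate, show i + (N - i) = u.length by omega, List.rotate_length]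
  · intro u hu
    have h1 := (mem_polys.mp hu).1
    rw [List.rotate_rotate, show N - i + i = u.length by omega, List.rotate_length]
  · intro u hu
    have h1 := (mem_polys.mp hu).1
    have h2 : u.rotate i = u.drop i ++ u.take i := List.rotate_eq_drop_append_take (by omega)
    have h3 : (u.rotate i).take (m - i) = (u.take m).drop i := by
      rw [h2, List.take_append_of_le_length (by rw [List.length_drop]; omega), List.drop_take]
    rw [h3]

end SRW
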