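import Pool.Agent.SRW.St

/-!
# SRW, module RTA: upper inequality for `c_{n+2}`
-/

set_option autoImplicit false

namespace SRW

open Finset

open Classical in
private noncomputable def RTAF (d : ℕ) (b : ℝ) (v : List (Step d)) : ℝ :=
  if (nb v : ℝ) < b then 0 else 1 / (nb v : ℝ)

theorem thm_RTA (hSLD : St_SLD) (hSLB : St_SLB) : St_RTA := by
  classical
  intro d n a hn ha
  have hn' : (1 : ℝ) ≤ (n : ℝ) := by exact_mod_cast hn
  have hn0 : (0 : ℝ) < (n : ℝ) := by linarith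
  have hb : 0 < a * ((n + 2 : ℕ) : ℝ) := by positivity
  have hC : (0 : ℝ) ≤ 10 * (d : ℝ) + 5 := by positivity
  have hC5 : (5 : ℝ) ≤ 10 * (d : ℝ) + 5 := by
    have : (0 : ℝ) ≤ (d : ℝ) := Nat.cast_nonneg d
    linarith
  have h1 : (c d (n + 2) : ℝ) =
      ((sw d (n + 2) (fun w => (nb w : ℝ) < a * ((n + 2 : ℕ) : ℝ))).card : ℝ) +
        (((saws d (n + 2)).filter (fun w => ¬ (nb w : ℝ) < a * ((n + 2 : ℕ) : ℝ))).card : ℝ) := by
    unfold c sw
    rw [← Nat.cast_add]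
    congr 1
    exact (Finset.card_filter_add_card_filter_not (fun w => (nb w : ℝ) < a * ((n + 2 : ℕ) : ℝ))).symm
  have h2 : (((saws d (n + 2)).filter (fun w => ¬ (nb w : ℝ) < a * ((n + 2 : ℕ) : ℝ))).card : ℝ) =
      ∑ v ∈ saws d (n + 2), ∑ i ∈ vsl v, RTAF d (a * ((n + 2 : ℕ) : ℝ)) v := by
    rw [Finset.card_eq_sum_ones, Nat.cast_sum, Finset.sum_filter]
    refine Finset.sum_congr rfl fun v _ => ?_
    rw [Finset.sum_const, nsmul_eq_mul]
    by_cases hv : (nb v : ℝ) < a * ((n + 2 : ℕ) : ℝ)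
    · rw [if_neg (not_not.mpr hv), RTAF, if_pos hv, mul_zero]
    · rw [if_pos hv, RTAF, if_neg hv]
      have : (nb v : ℝ) ≠ 0 := by
        have := not_lt.mp hv
        linarith
      change ((1 : ℕ) : ℝ) = (nb v : ℝ) * (1 / (nb v : ℝ))
      field_simp
      norm_num
  have h3 := hSLD d n (fun _ v => RTAF d (a * ((n + 2 : ℕ) : ℝ)) v)
  have h4 : ∑ w ∈ saws d n, ∑ p ∈ us w, RTAF d (a * ((n + 2 : ℕ) : ℝ)) (ins w p.1 p.2) ≤
      (1 + 3 * (10 * (d : ℝ) + 5) / (a * n)) * FF d n := by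
    unfold FF
    rw [Finset.mul_sum]
    refine Finset.sum_le_sum fun w hw => ?_
    obtain ⟨hwl, hws⟩ := mem_saws.mp hw
    have h5 : ∀ p ∈ us w, RTAF d (a * ((n + 2 : ℕ) : ℝ)) (ins w p.1 p.2) ≤
        (1 + 3 * (10 * (d : ℝ) + 5) / (a * n)) / ((nb w : ℝ) + 2 * (10 * (d : ℝ) + 5)) := by
      intro p hp
      unfold us at hp
      rw [Finset.mem_filter, Finset.mem_product, Finset.mem_range] at hp
      have h6 := (hSLB d w p.1 p.2 hws hp.1.1 hp.2).2.1
      have h7 : (nb w : ℝ) ≤ (nb (ins w p.1 p.2) : ℝ) + 5 := by exact_mod_cast h6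
      have hw0 : (0 : ℝ) ≤ (nb w : ℝ) := Nat.cast_nonneg _
      have hden : (0 : ℝ) < (nb w : ℝ) + 2 * (10 * (d : ℝ) + 5) := by linarith
      by_cases hv : (nb (ins w p.1 p.2) : ℝ) < a * ((n + 2 : ℕ) : ℝ)
      · rw [RTAF, if_pos hv]
        positivity
      · rw [RTAF, if_neg hv]
        have h8 := not_lt.mp hv
        have h9 : a * (n : ℝ) ≤ (nb (ins w p.1 p.2) : ℝ) := by
          refine le_trans ?_ h8
          push_cast
          nlinarith
        have h10 : 0 < a * (n : ℝ) := by positivity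
        have h11 : 0 < (nb (ins w p.1 p.2) : ℝ) := lt_of_lt_of_le h10 h9
        rw [div_le_div_iff₀ h11 hden, one_mul]
        have h12 : 3 * (10 * (d : ℝ) + 5) ≤
            3 * (10 * (d : ℝ) + 5) / (a * n) * (nb (ins w p.1 p.2) : ℝ) := by
          rw [div_mul_eq_mul_div, le_div_iff₀ h10]
          exact mul_le_mul_of_nonneg_left h9 (by positivity)
        rw [add_mul, one_mul]
        linarith
    have h13 := Finset.sum_le_sum h5
    rw [Finset.sum_const, nsmul_eq_mul] at h13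
    refine h13.trans (le_of_eq ?_)
    unfold nu
    ring
  rw [h1, h2]
  have h14 : ∑ v ∈ saws d (n + 2), ∑ i ∈ vsl v, RTAF d (a * ((n + 2 : ℕ) : ℝ)) v ≤
      (1 + 3 * (10 * (d : ℝ) + 5) / (a * n)) * FF d n := h3 ▸ h4
  linarith

end SRW
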