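import Pool.Agent.SRW.St

/-!
# SRW, module RTB (helper8): lower inequality for `c_{n+4}`
-/

set_option autoImplicit false

namespace SRW

open Finset Filter

private theorem RTB_nb_pos {d : ℕ} (w : List (Step d)) (i : ℕ) (f : Step d) (h : i < w.length) :
    0 < nb (ins w i f) := by
  classical
  unfold nb
  rw [Finset.card_pos]
  refine ⟨i, ?_⟩
  have hl : (w.take i).length = i := by
    rw [List.length_take]
    exact min_eq_left h.le
  have hd : (ins w i f).drop i = f :: w[i] :: opp f :: w.drop (i + 1) := by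
    unfold ins
    have h1 : (w.drop i).take 1 = [w[i]] := by
      rw [List.drop_eq_getElem_cons h]
      rfl
    rw [h1, List.drop_left' hl]
    rfl
  unfold vsl
  rw [Finset.mem_filter, Finset.mem_range]
  refine ⟨?_, f, w[i], w.drop (i + 1), hd⟩
  by_contra hc
  rw [not_lt] at hc
  rw [List.drop_of_length_le hc] at hd
  simp at hd

private theorem RTB_us {d : ℕ} {w : List (Step d)} {p : ℕ × Step d} (h : p ∈ us w) :
    p.1 < w.length ∧ Saw (ins w p.1 p.2) := by
  classical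
  unfold us at h
  rw [Finset.mem_filter, Finset.mem_product, Finset.mem_range] at h
  exact ⟨h.1.1, h.2⟩

private theorem RTB_sum_div {d : ℕ} (v : List (Step d)) (x : ℝ) (hx : 0 ≤ x) :
    ∑ _i ∈ vsl v, x / (nb v : ℝ) ≤ x := by
  rw [Finset.sum_const, nsmul_eq_mul]
  change (nb v : ℝ) * (x / (nb v : ℝ)) ≤ x
  rcases Nat.eq_zero_or_pos (nb v) with h | h
  · rw [h, Nat.cast_zero, zero_mul]
    exact hx
  · have h1 : (0 : ℝ) < nb v := Nat.cast_pos.2 h
    rw [mul_div_cancel₀ _ h1.ne']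

private theorem RTB_key (u nw v nv C : ℝ) (hC : 0 ≤ C) (hnw : 0 ≤ nw) (hv : 0 ≤ v)
    (hnv : 0 < nv) (h1 : nv ≤ nw + C) (h2 : u ≤ v + C) :
    (u - C) / (nw + 2 * C) ^ 2 ≤ v / (nv + C) / nv := by
  have hnw' : 0 ≤ nw + C := add_nonneg hnw hC
  rcases le_or_gt (u - C) 0 with h | h
  · have ha : (u - C) / (nw + 2 * C) ^ 2 ≤ 0 := div_nonpos_of_nonpos_of_nonneg h (sq_nonneg _)
    have hb : 0 ≤ v / (nv + C) / nv := div_nonneg (div_nonneg hv (by linarith)) hnv.le
    linarith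
  · rw [div_div]
    have hpos : 0 < (nv + C) * nv := mul_pos (by linarith) hnv
    have hle : (nv + C) * nv ≤ (nw + 2 * C) ^ 2 := by
      rw [sq]
      exact mul_le_mul (by linarith) (by linarith) hnv.le (by linarith)
    calc (u - C) / (nw + 2 * C) ^ 2 ≤ (u - C) / ((nv + C) * nv) :=
          div_le_div_of_nonneg_left h.le hpos hle
      _ ≤ v / ((nv + C) * nv) := div_le_div_of_nonneg_right (by linarith) hpos.le

theorem thm_RTB (hSLD : St_SLD) (hSLB : St_SLB) : St_RTB := by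
  classical
  intro d n
  set C : ℝ := 10 * d + 5 with hCdef
  have hd0 : (0 : ℝ) ≤ d := Nat.cast_nonneg d
  have hC0 : 0 < C := by
    rw [hCdef]
    linarith
  set h : List (Step d) → ℝ := fun v => (nu v : ℝ) / ((nb v : ℝ) + C) with hh
  have hh0 : ∀ v, 0 ≤ h v := fun v =>
    div_nonneg (Nat.cast_nonneg _) (add_nonneg (Nat.cast_nonneg _) hC0.le)
  -- first step
  have s1 : ∑ v ∈ saws d (n + 2), h v ≤ (c d (n + 4) : ℝ) := by
    calc ∑ v ∈ saws d (n + 2), h v
        ≤ ∑ v ∈ saws d (n + 2), ∑ p ∈ us v, 1 / (nb (ins v p.1 p.2) : ℝ) := by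
          refine Finset.sum_le_sum fun v hv => ?_
          have hvS : Saw v := (mem_saws.1 hv).2
          have e : h v = ∑ _p ∈ us v, 1 / ((nb v : ℝ) + C) := by
            rw [Finset.sum_const, nsmul_eq_mul, mul_one_div]
            rfl
          rw [e]
          refine Finset.sum_le_sum fun p hp => ?_
          obtain ⟨hp1, hp2⟩ := RTB_us hp
          have hb := (hSLB d v p.1 p.2 hvS hp1 hp2).1
          have hb' : (nb (ins v p.1 p.2) : ℝ) ≤ (nb v : ℝ) + 5 := by exact_mod_cast hb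
          have hpos : (0 : ℝ) < nb (ins v p.1 p.2) := Nat.cast_pos.2 (RTB_nb_pos v p.1 p.2 hp1)
          refine one_div_le_one_div_of_le hpos ?_
          rw [hCdef]
          linarith
      _ = ∑ v ∈ saws d (n + 2 + 2), ∑ i ∈ vsl v, 1 / (nb v : ℝ) :=
          hSLD d (n + 2) (fun _ v => 1 / (nb v : ℝ))
      _ ≤ ∑ _v ∈ saws d (n + 2 + 2), (1 : ℝ) :=
          Finset.sum_le_sum fun v _ => RTB_sum_div v 1 zero_le_one
      _ = (c d (n + 4) : ℝ) := by
          rw [Finset.sum_const, nsmul_eq_mul, mul_one]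
          rfl
  refine le_trans ?_ s1
  -- second step
  calc ∑ w ∈ saws d n, (nu w : ℝ) * ((nu w : ℝ) - C) / ((nb w : ℝ) + 2 * C) ^ 2
      ≤ ∑ w ∈ saws d n, ∑ p ∈ us w, h (ins w p.1 p.2) / (nb (ins w p.1 p.2) : ℝ) := by
        refine Finset.sum_le_sum fun w hw => ?_
        have hwS : Saw w := (mem_saws.1 hw).2
        have e : (nu w : ℝ) * ((nu w : ℝ) - C) / ((nb w : ℝ) + 2 * C) ^ 2 =
            ∑ _p ∈ us w, ((nu w : ℝ) - C) / ((nb w : ℝ) + 2 * C) ^ 2 := by
          rw [Finset.sum_const, nsmul_eq_mul, mul_div_assoc]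
          rfl
        rw [e]
        refine Finset.sum_le_sum fun p hp => ?_
        obtain ⟨hp1, hp2⟩ := RTB_us hp
        obtain ⟨hb1, -, hb3, -⟩ := hSLB d w p.1 p.2 hwS hp1 hp2
        have hb1' : (nb (ins w p.1 p.2) : ℝ) ≤ (nb w : ℝ) + 5 := by exact_mod_cast hb1
        have hb3' : (nu w : ℝ) ≤ (nu (ins w p.1 p.2) : ℝ) + 10 * d := by exact_mod_cast hb3
        refine RTB_key (nu w) (nb w) (nu (ins w p.1 p.2)) (nb (ins w p.1 p.2)) C hC0.le
          (Nat.cast_nonneg _) (Nat.cast_nonneg _)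
          (Nat.cast_pos.2 (RTB_nb_pos w p.1 p.2 hp1)) ?_ ?_
        · rw [hCdef]
          linarith
        · rw [hCdef]
          linarith
    _ = ∑ v ∈ saws d (n + 2), ∑ i ∈ vsl v, h v / (nb v : ℝ) :=
        hSLD d n (fun _ v => h v / (nb v : ℝ))
    _ ≤ ∑ v ∈ saws d (n + 2), h v :=
        Finset.sum_le_sum fun v _ => RTB_sum_div v (h v) (hh0 v)

end SRW
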