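import Pool.Agent.SRW.St

/-!
# SRW, module RTC: approximate log-convexity of the counts
-/

set_option autoImplicit false

namespace SRW

open Finset Filter

private theorem RTC_nu_le (hSLB : St_SLB) (d : ℕ) (w : List (Step d)) (hw : Saw w) :
    nu w ≤ 2 * d * w.length := by
  by_cases h : (us w).Nonempty
  · obtain ⟨p, hp⟩ := h
    have hp2 : p.1 < w.length ∧ Saw (ins w p.1 p.2) := by
      simpa [us] using hp
    exact (hSLB d w p.1 p.2 hw hp2.1 hp2.2).2.2.2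
  · rw [Finset.not_nonempty_iff_eq_empty] at h
    unfold nu
    rw [h]
    simp

private theorem RTC_bound (η : ℝ) (h0 : 0 < η) (h1 : η < 1) :
    ∃ M : ℝ, 0 ≤ M ∧ ∀ n : ℕ, (n : ℝ) ^ 2 * η ^ n ≤ M := by
  have ht := tendsto_pow_const_mul_const_pow_of_abs_lt_one 2 (r := η)
    (by rw [abs_of_pos h0]; exact h1)
  obtain ⟨M, hM⟩ := ht.bddAbove_range
  refine ⟨max M 0, le_max_right _ _, fun n => ?_⟩
  exact (hM ⟨n, rfl⟩).trans (le_max_left _ _)

/-- bound of the linear term -/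
private theorem RTC_lin (hSLB : St_SLB) (d n : ℕ) (a : ℝ) (hn : 1 ≤ n) (ha : 0 < a) :
    ∑ w ∈ saws d n, (nu w : ℝ) / ((nb w : ℝ) + 2 * (10 * d + 5)) ^ 2 ≤
      (c d n : ℝ) * (2 * d / (a ^ 2 * n)) +
        ((sw d n (fun w => (nb w : ℝ) < a * n)).card : ℝ) * (2 * d * n) := by
  classical
  have hn' : (0 : ℝ) < n := by exact_mod_cast hn
  have hd0 : (0 : ℝ) ≤ d := Nat.cast_nonneg d
  have key : ∀ w ∈ saws d n, (nu w : ℝ) / ((nb w : ℝ) + 2 * (10 * d + 5)) ^ 2 ≤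
      2 * d / (a ^ 2 * n) + (if (nb w : ℝ) < a * n then (2 * d * n : ℝ) else 0) := by
    intro w hw
    rw [mem_saws] at hw
    have hu : (nu w : ℝ) ≤ 2 * d * n := by
      have := RTC_nu_le hSLB d w hw.2
      rw [hw.1] at this
      exact_mod_cast this
    have hu0 : (0 : ℝ) ≤ (nu w : ℝ) := Nat.cast_nonneg _
    have hv0 : (0 : ℝ) ≤ (nb w : ℝ) := Nat.cast_nonneg _
    have hq : (0 : ℝ) ≤ 2 * d / (a ^ 2 * n) := by positivity
    by_cases hb : (nb w : ℝ) < a * n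
    · rw [if_pos hb]
      have hD : (1 : ℝ) ≤ ((nb w : ℝ) + 2 * (10 * d + 5)) ^ 2 := by
        have : (1 : ℝ) ≤ (nb w : ℝ) + 2 * (10 * d + 5) := by nlinarith
        nlinarith
      have h1 : (nu w : ℝ) / ((nb w : ℝ) + 2 * (10 * d + 5)) ^ 2 ≤ nu w :=
        div_le_self hu0 hD
      linarith
    · rw [if_neg hb, add_zero]
      push Not at hb
      have hpos : 0 < a * n := mul_pos ha hn'
      have hD : (a * n) ^ 2 ≤ ((nb w : ℝ) + 2 * (10 * d + 5)) ^ 2 := by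
        apply pow_le_pow_left₀ hpos.le
        nlinarith
      calc (nu w : ℝ) / ((nb w : ℝ) + 2 * (10 * d + 5)) ^ 2
          ≤ (2 * d * n) / (a * n) ^ 2 := by
            apply div_le_div₀ (by positivity) hu (by positivity) hD
        _ = 2 * d / (a ^ 2 * n) := by
            field_simp
  refine (Finset.sum_le_sum key).trans ?_
  rw [Finset.sum_add_distrib, Finset.sum_const, nsmul_eq_mul, ← Finset.sum_filter,
    Finset.sum_const, nsmul_eq_mul]
  apply le_of_eq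
  unfold c sw
  congr 3

theorem thm_RTC (hMU : St_MU) (hPAT : St_PAT) (hSLB : St_SLB) (hRTA : St_RTA)
    (hRTB : St_RTB) : St_RTC := by
  intro d hd
  obtain ⟨hmu1, hmun, hc1, -, -, hstep, -, -⟩ := hMU d (by omega)
  obtain ⟨a, η, C1, ha, hη0, hη1, hC1, hbad⟩ := hPAT d hd
  obtain ⟨M, hM0, hM⟩ := RTC_bound η hη0 hη1
  have hd0 : (0 : ℝ) ≤ d := Nat.cast_nonneg d
  set C : ℝ := 10 * d + 5 with hC
  have hC0 : 0 < C := by positivity
  set Φ : ℝ := (2 * d) ^ 2 with hΦ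
  have hΦ0 : 0 ≤ Φ := by positivity
  set K : ℝ := 3 * C / a with hK
  have hK0 : 0 ≤ K := by positivity
  set B2 : ℝ := C1 * mu d ^ 2 * M + Φ * K with hB2
  have hB20 : 0 ≤ B2 := by positivity
  set B1 : ℝ := C * (2 * d / a ^ 2 + C1 * M * (2 * d)) with hB1
  refine ⟨B1 + 2 * Φ * B2, 1, fun n hn => ?_⟩
  have hn' : (0 : ℝ) < n := by exact_mod_cast hn
  have hn1 : (1 : ℝ) ≤ n := by exact_mod_cast hn
  have hcc : (0 : ℝ) < (c d n : ℝ) := by exact_mod_cast hc1 n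
  have hmu0 : 0 < mu d := lt_of_lt_of_le one_pos hmu1
  -- bounds of powers
  have hp1 : η ^ n ≤ M / n := by
    rw [le_div_iff₀ hn']
    have h1 := hM n
    have h2 : 0 ≤ η ^ n := by positivity
    nlinarith [mul_nonneg h2 hn'.le, mul_nonneg (mul_nonneg h2 hn'.le) (sub_nonneg.mpr hn1)]
  have hp2 : (n : ℝ) * η ^ n ≤ M / n := by
    rw [le_div_iff₀ hn']
    have h1 := hM n
    nlinarith
  -- bad sets
  have hbn : ((sw d n (fun w => (nb w : ℝ) < a * n)).card : ℝ) ≤ C1 * η ^ n * c d n := by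
    refine (hbad n).trans ?_
    rw [mul_pow, ← mul_assoc]
    exact mul_le_mul_of_nonneg_left (hmun n) (by positivity)
  have hbn2 : ((sw d (n + 2) (fun w => (nb w : ℝ) < a * ((n + 2 : ℕ) : ℝ))).card : ℝ) ≤
      C1 * mu d ^ 2 * η ^ n * c d n := by
    refine (hbad (n + 2)).trans ?_
    have h1 : C1 * (η * mu d) ^ (n + 2) = C1 * mu d ^ 2 * η ^ n * (η ^ 2 * mu d ^ n) := by ring
    rw [h1]
    apply mul_le_mul_of_nonneg_left _ (by positivity)
    have h2 : η ^ 2 ≤ 1 := pow_le_one₀ hη0.le hη1.le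
    have h3 : 0 ≤ mu d ^ n := by positivity
    calc η ^ 2 * mu d ^ n ≤ 1 * mu d ^ n := mul_le_mul_of_nonneg_right h2 h3
      _ = mu d ^ n := one_mul _
      _ ≤ c d n := hmun n
  -- the ratio
  set φ : ℝ := (c d (n + 2) : ℝ) / (c d n : ℝ) with hφ
  have hφ0 : 0 ≤ φ := by positivity
  have hφΦ : φ ≤ Φ := by
    rw [hφ, div_le_iff₀ hcc]
    have h1 := hstep n
    have h2 := hstep (n + 1)
    have h3 : c d (n + 2) ≤ (2 * d) * ((2 * d) * c d n) := h2.trans (Nat.mul_le_mul_left _ h1)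
    have h4 : (c d (n + 2) : ℝ) ≤ (2 * d) * ((2 * d) * c d n) := by exact_mod_cast h3
    rw [hΦ]
    nlinarith
  set f : ℝ := FF d n / (c d n : ℝ) with hf
  have hFF0 : 0 ≤ FF d n := by
    unfold FF
    exact Finset.sum_nonneg fun w _ => by positivity
  have hf0 : 0 ≤ f := by positivity
  -- RTA
  have hA : φ ≤ C1 * mu d ^ 2 * η ^ n + (1 + K / n) * f := by
    have h1 := hRTA d n a hn ha
    have h2 : 3 * (10 * (d : ℝ) + 5) / (a * n) = K / n := by
      rw [hK, hC]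
      field_simp
    rw [h2] at h1
    rw [hφ, hf, div_le_iff₀ hcc]
    have h3 : (C1 * mu d ^ 2 * η ^ n + (1 + K / n) * (FF d n / c d n)) * c d n =
        C1 * mu d ^ 2 * η ^ n * c d n + (1 + K / n) * FF d n := by
      field_simp
    rw [h3]
    linarith
  have hB : φ - B2 / n ≤ f := by
    by_cases hff : φ ≤ f
    · have : 0 ≤ B2 / n := by positivity
      linarith
    · push Not at hff
      have h1 : C1 * mu d ^ 2 * η ^ n ≤ C1 * mu d ^ 2 * (M / n) :=
        mul_le_mul_of_nonneg_left hp1 (by positivity)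
      have h2 : K / n * f ≤ K / n * Φ :=
        mul_le_mul_of_nonneg_left (hff.le.trans hφΦ) (by positivity)
      have h3 : B2 / n = C1 * mu d ^ 2 * (M / n) + K / n * Φ := by
        rw [hB2]
        ring
      rw [h3]
      nlinarith
  have hsq : φ ^ 2 - 2 * Φ * B2 / n ≤ f ^ 2 := by
    by_cases hff : φ ≤ f
    · have h1 : 0 ≤ 2 * Φ * B2 / n := by positivity
      have h2 : φ ^ 2 ≤ f ^ 2 := pow_le_pow_left₀ hφ0 hff 2
      linarith
    · push Not at hff
      have h1 : (φ - f) * (φ + f) ≤ (B2 / n) * (2 * Φ) := by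
        apply mul_le_mul (by linarith) (by linarith) (by positivity) (by positivity)
      have h2 : (B2 / n) * (2 * Φ) = 2 * Φ * B2 / n := by ring
      nlinarith
  -- RTB and Cauchy-Schwarz
  have hCS : (FF d n) ^ 2 ≤ (c d n : ℝ) *
      ∑ w ∈ saws d n, ((nu w : ℝ) / ((nb w : ℝ) + 2 * (10 * d + 5))) ^ 2 := by
    unfold FF c
    exact sq_sum_le_card_mul_sum_sq
  have hR : ∑ w ∈ saws d n, ((nu w : ℝ) / ((nb w : ℝ) + 2 * (10 * d + 5))) ^ 2 ≤
      (c d (n + 4) : ℝ) +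
        C * ∑ w ∈ saws d n, (nu w : ℝ) / ((nb w : ℝ) + 2 * (10 * d + 5)) ^ 2 := by
    have h1 := hRTB d n
    have h2 : ∑ w ∈ saws d n, (nu w : ℝ) * ((nu w : ℝ) - (10 * d + 5)) /
        ((nb w : ℝ) + 2 * (10 * d + 5)) ^ 2 =
        ∑ w ∈ saws d n, ((nu w : ℝ) / ((nb w : ℝ) + 2 * (10 * d + 5))) ^ 2 -
        C * ∑ w ∈ saws d n, (nu w : ℝ) / ((nb w : ℝ) + 2 * (10 * d + 5)) ^ 2 := by
      rw [Finset.mul_sum, ← Finset.sum_sub_distrib]
      refine Finset.sum_congr rfl fun w _ => ?_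
      rw [div_pow, hC]
      ring
    rw [h2] at h1
    linarith
  have hL := RTC_lin hSLB d n a hn ha
  have hL2 : ∑ w ∈ saws d n, (nu w : ℝ) / ((nb w : ℝ) + 2 * (10 * d + 5)) ^ 2 ≤
      (c d n : ℝ) * ((2 * d / a ^ 2 + C1 * M * (2 * d)) / n) := by
    refine hL.trans ?_
    have h1 : ((sw d n (fun w => (nb w : ℝ) < a * n)).card : ℝ) * (2 * d * n) ≤
        (C1 * η ^ n * c d n) * (2 * d * n) :=
      mul_le_mul_of_nonneg_right hbn (by positivity)
    have h2 : (C1 * η ^ n * c d n) * (2 * d * n) = (c d n : ℝ) * (C1 * (2 * d)) * (n * η ^ n) := by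
      ring
    have h3 : (c d n : ℝ) * (C1 * (2 * d)) * (n * η ^ n) ≤
        (c d n : ℝ) * (C1 * (2 * d)) * (M / n) :=
      mul_le_mul_of_nonneg_left hp2 (by positivity)
    have h4 : (c d n : ℝ) * ((2 * d / a ^ 2 + C1 * M * (2 * d)) / n) =
        (c d n : ℝ) * (2 * d / (a ^ 2 * n)) + (c d n : ℝ) * (C1 * (2 * d)) * (M / n) := by
      field_simp
    rw [h4]
    linarith
  have hfin : f ^ 2 - B1 / n ≤ (c d (n + 4) : ℝ) / (c d n : ℝ) := by
    have h1 : ∑ w ∈ saws d n, ((nu w : ℝ) / ((nb w : ℝ) + 2 * (10 * d + 5))) ^ 2 ≤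
        (c d (n + 4) : ℝ) + c d n * (B1 / n) := by
      refine hR.trans ?_
      have h2 := mul_le_mul_of_nonneg_left hL2 hC0.le
      have h3 : C * ((c d n : ℝ) * ((2 * d / a ^ 2 + C1 * M * (2 * d)) / n)) =
          c d n * (B1 / n) := by
        rw [hB1]
        ring
      linarith
    have h4 : f ^ 2 ≤ (∑ w ∈ saws d n,
        ((nu w : ℝ) / ((nb w : ℝ) + 2 * (10 * d + 5))) ^ 2) / c d n := by
      rw [hf, div_pow, div_le_div_iff₀ (by positivity) hcc]
      have h5 := mul_le_mul_of_nonneg_right hCS hcc.le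
      nlinarith
    have h6 : (∑ w ∈ saws d n, ((nu w : ℝ) / ((nb w : ℝ) + 2 * (10 * d + 5))) ^ 2) / c d n ≤
        ((c d (n + 4) : ℝ) + c d n * (B1 / n)) / c d n :=
      div_le_div_of_nonneg_right h1 hcc.le
    have h7 : ((c d (n + 4) : ℝ) + c d n * (B1 / n)) / c d n =
        (c d (n + 4) : ℝ) / c d n + B1 / n := by
      field_simp
    rw [h7] at h6
    linarith
  have hsum : (B1 + 2 * Φ * B2) / n = B1 / n + 2 * Φ * B2 / n := by ring
  rw [hsum]
  linarith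

end SRW
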