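import Pool.Agent.SRW.St

/-!
# SRW, module SGS: replacing segments inside of disjoint cubes
-/

set_option autoImplicit false

namespace SRW

open Finset

variable {d : ℕ}

private lemma SGS_cases (A b R : List (Step d)) (n : ℕ) (hn : n ≤ (A ++ (b ++ R)).length) :
    (n < A.length ∧ pos (A ++ (b ++ R)) n = pos A n) ∨
    (∃ k ≤ b.length, n = A.length + k ∧ pos (A ++ (b ++ R)) n = disp A + pos b k) ∨
    (∃ k, 1 ≤ k ∧ k ≤ R.length ∧ n = A.length + (b.length + k) ∧
      pos (A ++ (b ++ R)) n = disp A + (disp b + pos R k)) := by
  simp only [List.length_append] at hn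
  by_cases h1 : n < A.length
  · exact Or.inl ⟨h1, pos_append_left A _ h1.le⟩
  · right
    obtain ⟨m, rfl⟩ : ∃ m, n = A.length + m := ⟨n - A.length, by omega⟩
    rw [pos_append_right]
    by_cases h2 : m ≤ b.length
    · exact Or.inl ⟨m, h2, rfl, by rw [pos_append_left b R h2]⟩
    · right
      obtain ⟨k, rfl⟩ : ∃ k, m = b.length + k := ⟨m - b.length, by omega⟩
      exact ⟨k, by omega, by omega, rfl, by rw [pos_append_right]⟩

private lemma SGS_saw (A a b R : List (Step d)) (h : Saw (A ++ (a ++ R))) (hb : Saw b)
    (hd : disp b = disp a)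
    (h1 : ∀ i < A.length, ∀ k ≤ b.length, pos A i ≠ disp A + pos b k)
    (h2 : ∀ k ≤ b.length, ∀ m, 1 ≤ m → m ≤ R.length → disp A + pos b k ≠ disp A + (disp a + pos R m)) :
    Saw (A ++ (b ++ R)) := by
  have hA : Saw A := h.left
  have hR : Saw R := h.right.right
  have hlen : (A ++ (a ++ R)).length = A.length + (a.length + R.length) := by
    simp only [List.length_append]
  intro i j hij hj
  rcases SGS_cases A b R i (hij.le.trans hj) with ⟨hi, ei⟩ | ⟨k, hk, rfl, ei⟩ | ⟨k, hk1, hk, rfl, ei⟩
  · rcases SGS_cases A b R j hj with ⟨hj', ej⟩ | ⟨l, hl, rfl, ej⟩ | ⟨l, hl1, hl, rfl, ej⟩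
    · rw [ei, ej]
      exact hA i j hij hj'.le
    · rw [ei, ej]
      exact h1 i hi l hl
    · rw [ei, ej, hd]
      have h3 := h i (A.length + (a.length + l)) (by omega) (by rw [hlen]; omega)
      rw [pos_append_left A _ hi.le, pos_append_right, pos_append_right] at h3
      exact h3
  · rcases SGS_cases A b R j hj with ⟨hj', ej⟩ | ⟨l, hl, rfl, ej⟩ | ⟨l, hl1, hl, rfl, ej⟩
    · omega
    · rw [ei, ej]
      intro he
      exact hb k l (by omega) hl (add_left_cancel he)
    · rw [ei, ej, hd]
      exact h2 k hk l hl1 hl
  · rcases SGS_cases A b R j hj with ⟨hj', ej⟩ | ⟨l, hl, rfl, ej⟩ | ⟨l, hl1, hl, rfl, ej⟩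
    · omega
    · omega
    · rw [ei, ej]
      intro he
      exact hR k l (by omega) hl (add_left_cancel (add_left_cancel he))

private theorem SGS_main (w : List (Step d)) :
    ∀ (l : List (List (Step d) × List (Step d) × Option (Pt d))) (A : List (Step d)) (s : ℕ)
      (Zs : Pt d → Prop), s ≤ w.length → w.drop s = (l.map (fun g => g.1)).flatten →
      SegOK w s l → Saw (A ++ w.drop s) → disp A = pos w s →
      (∀ j < A.length, (∃ i < s, pos A j = pos w i) ∨ ∃ z, Zs z ∧ InCube z (pos A j)) →
      (∀ z, Zs z → ∀ z' ∈ l.filterMap (fun g => g.2.2), ∀ p, ¬ (InCube z p ∧ InCube z' p)) →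
      (l.filterMap (fun g => g.2.2)).Pairwise (fun z z' => ∀ p, ¬ (InCube z p ∧ InCube z' p)) →
      Saw (A ++ (l.map (fun g => g.2.1)).flatten) ∧
        disp (A ++ (l.map (fun g => g.2.1)).flatten) = disp w := by
  intro l
  induction l with
  | nil =>
    intro A s Zs hs hw _ hS hA _ _ _
    simp only [List.map_nil, List.flatten_nil] at hw ⊢
    rw [hw] at hS
    refine ⟨hS, ?_⟩
    rw [List.append_nil, hA]
    have h1 : w.length ≤ s := List.drop_eq_nil_iff.1 hw
    exact pos_of_length_le w h1
  | cons g l ih =>
    intro A s Zs hs hw hok hS hA h3 h4 h5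
    obtain ⟨a, b, o⟩ := g
    simp only [List.map_cons, List.flatten_cons] at hw ⊢
    have hlen : s + a.length ≤ w.length := by
      have := congrArg List.length hw
      simp only [List.length_drop, List.length_append] at this
      omega
    have hdrop : w.drop (s + a.length) = (l.map (fun g => g.1)).flatten := by
      rw [← List.drop_drop, hw, List.drop_left]
    have hpos : ∀ k, k ≤ a.length → pos w (s + k) = pos w s + pos a k := by
      intro k hk
      rw [pos_drop w s k hs, hw, pos_append_left a _ hk]
    have hposR : ∀ k, pos w (s + (a.length + k)) =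
        pos w s + (disp a + pos (w.drop (s + a.length)) k) := by
      intro k
      rw [pos_drop w s _ hs, hw, pos_append_right, hdrop]
    have hposE : pos w (s + a.length) = pos w s + disp a := by
      rw [hpos _ le_rfl, pos_length]
    cases o with
    | none =>
      obtain ⟨hab, hok'⟩ := hok
      have hab' : a = b := hab
      subst hab'
      have h6 : Saw ((A ++ a) ++ w.drop (s + a.length)) := by
        rw [hdrop, List.append_assoc, ← hw]
        exact hS
      have h7 : disp (A ++ a) = pos w (s + a.length) := by
        rw [disp_append, hA, hposE]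
      have h8 := ih (A ++ a) (s + a.length) Zs hlen hdrop hok' h6 h7 (by
        intro j hj
        rw [List.length_append] at hj
        by_cases hjA : j < A.length
        · rw [pos_append_left A a hjA.le]
          rcases h3 j hjA with ⟨i, hi, he⟩ | hz
          · exact Or.inl ⟨i, by omega, he⟩
          · exact Or.inr hz
        · left
          obtain ⟨k, rfl⟩ : ∃ k, j = A.length + k := ⟨j - A.length, by omega⟩
          refine ⟨s + k, by omega, ?_⟩
          rw [pos_append_right, hpos k (by omega), hA])
        (by simpa using h4) (by simpa using h5)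
      rw [← List.append_assoc]
      exact h8
    | some z =>
      obtain ⟨hb, hd, hc1, hc2, hok'⟩ := hok
      have h4' : ∀ z', Zs z' → ∀ z'' ∈ z :: l.filterMap (fun g => g.2.2),
          ∀ p, ¬ (InCube z' p ∧ InCube z'' p) := by simpa using h4
      have h5' : (z :: l.filterMap (fun g => g.2.2)).Pairwise
          (fun z z' => ∀ p, ¬ (InCube z p ∧ InCube z' p)) := by simpa using h5
      rw [List.pairwise_cons] at h5'
      have h6 : Saw (A ++ (b ++ w.drop (s + a.length))) := by
        apply SGS_saw A a b _ _ hb hd
        · intro i hi k hk he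
          have hin : InCube z (pos A i) := by
            rw [he, hA]
            exact hc2 k hk
          rcases h3 i hi with ⟨i', hi', he'⟩ | ⟨z', hz', hin'⟩
          · rw [he'] at hin
            have := (hc1 i' (by omega) hin).1
            omega
          · exact h4' z' hz' z (List.mem_cons_self) _ ⟨hin', hin⟩
        · intro k hk m hm1 hm he
          have hin : InCube z (disp A + pos b k) := by
            rw [hA]
            exact hc2 k hk
          rw [he, hA, ← hposR m] at hin
          have hm' : s + (a.length + m) ≤ w.length := by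
            rw [List.length_drop] at hm
            omega
          have := (hc1 _ hm' hin).2
          omega
        · rw [hdrop, ← hw]
          exact hS
      have h7 : disp (A ++ b) = pos w (s + a.length) := by
        rw [disp_append, hA, hd, hposE]
      have h8 := ih (A ++ b) (s + a.length) (fun z' => Zs z' ∨ z' = z) hlen hdrop hok'
        (by rw [List.append_assoc]; exact h6) h7 (by
        intro j hj
        rw [List.length_append] at hj
        by_cases hjA : j < A.length
        · rw [pos_append_left A b hjA.le]
          rcases h3 j hjA with ⟨i, hi, he⟩ | ⟨z', hz', hin⟩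
          · exact Or.inl ⟨i, by omega, he⟩
          · exact Or.inr ⟨z', Or.inl hz', hin⟩
        · right
          obtain ⟨k, rfl⟩ : ∃ k, j = A.length + k := ⟨j - A.length, by omega⟩
          refine ⟨z, Or.inr rfl, ?_⟩
          rw [pos_append_right, hA]
          exact hc2 k (by omega))
        (by
          intro z' hz' z'' hz''
          rcases hz' with hz' | rfl
          · exact h4' z' hz' z'' (List.mem_cons_of_mem _ hz'')
          · exact h5'.1 z'' hz'')
        h5'.2
      rw [← List.append_assoc]
      exact h8

theorem thm_SGS : St_SGS := by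
  intro d l hS hok hp
  have h := SGS_main ((l.map (fun g => g.1)).flatten) l [] 0 (fun _ => False) (Nat.zero_le _)
    (by simp) hok (by simpa using hS) (by simp) (by simp) (by simp) hp
  simpa using h

end SRW
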