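import Pool.Agent.SRW.St

/-!
# SRW, module SLB: bounded change of the numbers of slots and bumps
-/

set_option autoImplicit false

namespace SRW

open Finset

variable {d : ℕ}

private lemma SLB_split (w : List (Step d)) (i : ℕ) (h : i < w.length) :
    ∃ a e b, w = a ++ e :: b ∧ a.length = i := by
  refine ⟨w.take i, w[i], w.drop (i + 1), ?_, ?_⟩
  · rw [List.getElem_cons_drop, List.take_append_drop]
  · rw [List.length_take]
    omega

private lemma SLB_ins (a : List (Step d)) (e : Step d) (b : List (Step d)) (f : Step d) :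
    ins (a ++ e :: b) a.length f = a ++ f :: e :: opp f :: b := by
  simp [ins]

private lemma SLB_len (w : List (Step d)) (i : ℕ) (f : Step d) (h : i < w.length) :
    (ins w i f).length = w.length + 2 := by
  obtain ⟨a, e, b, rfl, rfl⟩ := SLB_split w i h
  rw [SLB_ins]
  simp
  omega

/-! ## vertices -/

private lemma SLB_pos1 (w : List (Step d)) (i : ℕ) (f : Step d) (h : i < w.length) (k : ℕ) (hk : k ≤ i) :
    pos (ins w i f) k = pos w k := by
  obtain ⟨a, e, b, rfl, rfl⟩ := SLB_split w i h
  rw [SLB_ins, pos_append_left _ _ hk, pos_append_left _ _ hk]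

private lemma SLB_pos2 (w : List (Step d)) (i : ℕ) (f : Step d) (h : i < w.length) (k : ℕ) (hk : i + 1 ≤ k) :
    pos (ins w i f) (k + 2) = pos w k := by
  obtain ⟨a, e, b, rfl, rfl⟩ := SLB_split w i h
  obtain ⟨m, rfl⟩ := Nat.exists_eq_add_of_le hk
  rw [SLB_ins, show a.length + 1 + m + 2 = a.length + (m + 1 + 1 + 1) by omega,
    show a.length + 1 + m = a.length + (m + 1) by omega, pos_append_right, pos_append_right,
    pos_cons_succ, pos_cons_succ, pos_cons_succ, pos_cons_succ, vec_opp]
  abel

private lemma SLB_posX (w : List (Step d)) (i : ℕ) (f : Step d) (h : i < w.length) :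
    pos (ins w i f) (i + 1) = pos w i + vec f := by
  obtain ⟨a, e, b, rfl, rfl⟩ := SLB_split w i h
  rw [SLB_ins, show a.length + 1 = a.length + (0 + 1) by omega, pos_append_right, pos_cons_succ,
    pos_zero, add_zero, pos_append_left _ _ le_rfl, pos_length]

private lemma SLB_posY (w : List (Step d)) (i : ℕ) (f : Step d) (h : i < w.length) :
    pos (ins w i f) (i + 2) = pos w (i + 1) + vec f := by
  obtain ⟨a, e, b, rfl, rfl⟩ := SLB_split w i h
  rw [SLB_ins, show a.length + 2 = a.length + (0 + 1 + 1) by omega,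
    show a.length + 1 = a.length + (0 + 1) by omega, pos_append_right, pos_append_right,
    pos_cons_succ, pos_cons_succ, pos_cons_succ, pos_zero, pos_zero]
  abel

/-- shift of the indices of the vertices -/
private def SLB_s (i k : ℕ) : ℕ := if k ≤ i then k else k + 2

private lemma SLB_pos (w : List (Step d)) (i : ℕ) (f : Step d) (h : i < w.length) (k : ℕ) :
    pos (ins w i f) (SLB_s i k) = pos w k := by
  unfold SLB_s
  split_ifs with hk
  · exact SLB_pos1 w i f h k hk
  · exact SLB_pos2 w i f h k (by omega)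

private lemma SLB_cases (i n p : ℕ) (hp : p ≤ n + 2) (hi : i < n) :
    (∃ k, k ≤ n ∧ p = SLB_s i k) ∨ p = i + 1 ∨ p = i + 2 := by
  by_cases h1 : p ≤ i
  · exact Or.inl ⟨p, by omega, by simp [SLB_s, h1]⟩
  by_cases h2 : p = i + 1
  · exact Or.inr (Or.inl h2)
  by_cases h3 : p = i + 2
  · exact Or.inr (Or.inr h3)
  · refine Or.inl ⟨p - 2, by omega, ?_⟩
    have h4 : ¬ p - 2 ≤ i := by omega
    simp only [SLB_s, h4, if_false]
    omega

private lemma SLB_inj (i k l : ℕ) (h : SLB_s i k = SLB_s i l) : k = l := by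
  unfold SLB_s at h
  split_ifs at h <;> omega

private lemma SLB_ne1 (i k : ℕ) : SLB_s i k ≠ i + 1 ∧ SLB_s i k ≠ i + 2 := by
  unfold SLB_s
  split_ifs <;> constructor <;> omega

private lemma SLB_le (i k n : ℕ) (h : k ≤ n) : SLB_s i k ≤ n + 2 := by
  unfold SLB_s
  split_ifs <;> omega

/-- Self-avoidance after an insertion. -/
private lemma SLB_saw (w : List (Step d)) (i : ℕ) (f : Step d) (h : i < w.length) :
    Saw (ins w i f) ↔ Saw w ∧ ∀ k ≤ w.length, pos w k ≠ pos w i + vec f ∧
      pos w k ≠ pos w (i + 1) + vec f := by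
  have hl := SLB_len w i f h
  constructor
  · intro hs
    refine ⟨?_, ?_⟩
    · intro k l hkl hl2 he
      rw [← SLB_pos w i f h k, ← SLB_pos w i f h l] at he
      have h1 := hs.inj (by rw [hl]; exact SLB_le i k _ (by omega))
        (by rw [hl]; exact SLB_le i l _ hl2) he
      have h2 := SLB_inj i k l h1
      omega
    · intro k hk
      constructor
      · intro he
        rw [← SLB_pos w i f h k, ← SLB_posX w i f h] at he
        exact (SLB_ne1 i k).1 (hs.inj (by rw [hl]; exact SLB_le i k _ hk) (by rw [hl]; omega) he)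
      · intro he
        rw [← SLB_pos w i f h k, ← SLB_posY w i f h] at he
        exact (SLB_ne1 i k).2 (hs.inj (by rw [hl]; exact SLB_le i k _ hk) (by rw [hl]; omega) he)
  · rintro ⟨hs, hX⟩ p q hpq hq he
    rw [hl] at hq
    have hXY : pos w i + vec f ≠ pos w (i + 1) + vec f := by
      intro h1
      have h2 := hs.inj (by omega) (by omega) (add_right_cancel h1)
      omega
    rcases SLB_cases i w.length p (by omega) h with ⟨k, hk, rfl⟩ | rfl | rfl
    · rw [SLB_pos w i f h k] at he
      rcases SLB_cases i w.length q hq h with ⟨l, hl2, rfl⟩ | rfl | rfl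
      · rw [SLB_pos w i f h l] at he
        have h1 := hs.inj hk hl2 he
        rw [h1] at hpq
        exact lt_irrefl _ hpq
      · rw [SLB_posX w i f h] at he
        exact (hX k hk).1 he
      · rw [SLB_posY w i f h] at he
        exact (hX k hk).2 he
    · rw [SLB_posX w i f h] at he
      rcases SLB_cases i w.length q hq h with ⟨l, hl2, rfl⟩ | rfl | rfl
      · rw [SLB_pos w i f h l] at he
        exact (hX l hl2).1 he.symm
      · exact lt_irrefl _ hpq
      · rw [SLB_posY w i f h] at he
        exact hXY he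
    · rw [SLB_posY w i f h] at he
      rcases SLB_cases i w.length q hq h with ⟨l, hl2, rfl⟩ | rfl | rfl
      · rw [SLB_pos w i f h l] at he
        exact (hX l hl2).2 he.symm
      · omega
      · exact lt_irrefl _ hpq

/-! ## bumps -/

private lemma SLB_bump (w : List (Step d)) (j : ℕ) :
    (∃ f e b, w.drop j = f :: e :: opp f :: b) ↔
      ∃ f e, w[j]? = some f ∧ w[j + 1]? = some e ∧ w[j + 2]? = some (opp f) := by
  have h0 : (w.drop j)[0]? = w[j]? := by rw [List.getElem?_drop]; rfl
  have h1 : (w.drop j)[1]? = w[j + 1]? := List.getElem?_drop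
  have h2 : (w.drop j)[2]? = w[j + 2]? := List.getElem?_drop
  rw [← h0, ← h1, ← h2]
  constructor
  · rintro ⟨f, e, b, h⟩
    exact ⟨f, e, by simp [h], by simp [h], by simp [h]⟩
  · rintro ⟨f, e, h3, h4, h5⟩
    generalize w.drop j = l at h3 h4 h5
    rcases l with _ | ⟨x, _ | ⟨y, _ | ⟨z, b⟩⟩⟩
    · simp at h3
    · simp at h4
    · simp at h5
    · simp only [List.getElem?_cons_zero, Option.some.injEq] at h3
      simp only [List.getElem?_cons_succ, List.getElem?_cons_zero, Option.some.injEq] at h4 h5
      subst h3 h4 h5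
      exact ⟨_, _, _, rfl⟩

private lemma SLB_get1 (w : List (Step d)) (i : ℕ) (f : Step d) (h : i < w.length) (m : ℕ) (hm : m < i) :
    (ins w i f)[m]? = w[m]? := by
  obtain ⟨a, e, b, rfl, rfl⟩ := SLB_split w i h
  rw [SLB_ins, List.getElem?_append_left hm, List.getElem?_append_left hm]

private lemma SLB_get2 (w : List (Step d)) (i : ℕ) (f : Step d) (h : i < w.length) (m : ℕ) (hm : i + 1 ≤ m) :
    (ins w i f)[m + 2]? = w[m]? := by
  obtain ⟨a, e, b, rfl, rfl⟩ := SLB_split w i h
  obtain ⟨k, rfl⟩ := Nat.exists_eq_add_of_le hm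
  rw [SLB_ins, List.getElem?_append_right (by omega), List.getElem?_append_right (by omega)]
  rw [show a.length + 1 + k + 2 - a.length = k + 1 + 1 + 1 by omega,
    show a.length + 1 + k - a.length = k + 1 by omega]
  rfl

open Classical in
private lemma SLB_mem (w : List (Step d)) (j : ℕ) : j ∈ vsl w ↔
    ∃ f e, w[j]? = some f ∧ w[j + 1]? = some e ∧ w[j + 2]? = some (opp f) := by
  unfold vsl
  rw [mem_filter, SLB_bump, mem_range]
  constructor
  · exact fun h => h.2
  · intro h
    refine ⟨?_, h⟩
    obtain ⟨f, e, h1, _, _⟩ := h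
    exact (List.getElem?_eq_some_iff.mp h1).1

private lemma SLB_nb (w : List (Step d)) (i : ℕ) (f : Step d) (h : i < w.length) :
    nb (ins w i f) ≤ nb w + 5 ∧ nb w ≤ nb (ins w i f) + 5 := by
  have e1 : ∀ j, j + 3 ≤ i → (j ∈ vsl (ins w i f) ↔ j ∈ vsl w) := by
    intro j hj
    rw [SLB_mem, SLB_mem, SLB_get1 w i f h j (by omega), SLB_get1 w i f h (j + 1) (by omega),
      SLB_get1 w i f h (j + 2) (by omega)]
  have e2 : ∀ j, i + 1 ≤ j → (j + 2 ∈ vsl (ins w i f) ↔ j ∈ vsl w) := by
    intro j hj
    rw [SLB_mem, SLB_mem, SLB_get2 w i f h j (by omega),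
      show j + 2 + 1 = j + 1 + 2 by omega, SLB_get2 w i f h (j + 1) (by omega),
      SLB_get2 w i f h (j + 2) (by omega)]
  constructor
  · have hsub : vsl (ins w i f) ⊆ (vsl w).image (fun j => if j < i then j else j + 2) ∪
        Icc (i - 2) (i + 2) := by
      intro j hj
      rw [mem_union]
      by_cases h1 : j + 3 ≤ i
      · left
        rw [mem_image]
        refine ⟨j, (e1 j h1).mp hj, ?_⟩
        rw [if_pos (by omega)]
      · by_cases h2 : i + 3 ≤ j
        · left
          rw [mem_image]
          refine ⟨j - 2, (e2 (j - 2) (by omega)).mp ?_, ?_⟩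
          · rwa [show j - 2 + 2 = j by omega]
          · rw [if_neg (by omega)]
            omega
        · right
          rw [mem_Icc]
          omega
    calc nb (ins w i f) ≤ ((vsl w).image (fun j => if j < i then j else j + 2) ∪
        Icc (i - 2) (i + 2)).card := card_le_card hsub
      _ ≤ ((vsl w).image (fun j => if j < i then j else j + 2)).card +
        (Icc (i - 2) (i + 2)).card := card_union_le _ _
      _ ≤ nb w + 5 := by
        refine Nat.add_le_add card_image_le ?_
        rw [Nat.card_Icc]
        omega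
  · have hsub : vsl w ⊆ (vsl (ins w i f)).image (fun j => if j < i then j else j - 2) ∪
        Icc (i - 2) i := by
      intro j hj
      rw [mem_union]
      by_cases h1 : j + 3 ≤ i
      · left
        rw [mem_image]
        refine ⟨j, (e1 j h1).mpr hj, ?_⟩
        rw [if_pos (by omega)]
      · by_cases h2 : i + 1 ≤ j
        · left
          rw [mem_image]
          refine ⟨j + 2, (e2 j (by omega)).mpr hj, ?_⟩
          rw [if_neg (by omega)]
          omega
        · right
          rw [mem_Icc]
          omega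
    calc nb w ≤ ((vsl (ins w i f)).image (fun j => if j < i then j else j - 2) ∪
        Icc (i - 2) i).card := card_le_card hsub
      _ ≤ ((vsl (ins w i f)).image (fun j => if j < i then j else j - 2)).card +
        (Icc (i - 2) i).card := card_union_le _ _
      _ ≤ nb (ins w i f) + 5 := by
        refine Nat.add_le_add card_image_le ?_
        rw [Nat.card_Icc]
        omega

/-! ## slots -/

open Classical in
private lemma SLB_us (w : List (Step d)) (p : ℕ × Step d) :
    p ∈ us w ↔ p.1 < w.length ∧ Saw (ins w p.1 p.2) := by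
  unfold us
  simp [mem_filter, mem_product]

/-- A set of pairs in which the step determines the index has at most `2 d` elements. -/
private lemma SLB_card (S : Finset (ℕ × Step d))
    (h : ∀ p ∈ S, ∀ q ∈ S, p.2 = q.2 → p.1 = q.1) : S.card ≤ 2 * d := by
  have h1 : S.card ≤ (univ : Finset (Step d)).card := by
    refine card_le_card_of_injOn Prod.snd (fun _ _ => mem_univ _) ?_
    intro p hp q hq he
    exact Prod.ext (h p hp q hq he) he
  rwa [card_univ, card_step] at h1

open Classical in
private lemma SLB_nu (w : List (Step d)) (i : ℕ) (f : Step d) (hw : Saw w) (h : i < w.length)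
    (hv : Saw (ins w i f)) : nu w ≤ nu (ins w i f) + 10 * d := by
  set X : Pt d := pos w i + vec f with hX
  set Y : Pt d := pos w (i + 1) + vec f with hY
  have hvw := (SLB_saw w i f h).mp hv
  -- the bad sets
  let B0 := (us w).filter (fun p => p.1 = i)
  let B1 := (us w).filter (fun p => pos w p.1 + vec p.2 = X)
  let B2 := (us w).filter (fun p => pos w p.1 + vec p.2 = Y)
  let B3 := (us w).filter (fun p => pos w (p.1 + 1) + vec p.2 = X)
  let B4 := (us w).filter (fun p => pos w (p.1 + 1) + vec p.2 = Y)
  let G := (us w).filter (fun p => p.1 ≠ i ∧ pos w p.1 + vec p.2 ≠ X ∧ pos w p.1 + vec p.2 ≠ Y ∧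
    pos w (p.1 + 1) + vec p.2 ≠ X ∧ pos w (p.1 + 1) + vec p.2 ≠ Y)
  have hu : ∀ p ∈ us w, p.1 < w.length := fun p hp => ((SLB_us w p).mp hp).1
  have c0 : B0.card ≤ 2 * d := by
    refine SLB_card _ ?_
    intro p hp q hq _
    rw [(mem_filter.mp hp).2, (mem_filter.mp hq).2]
  have cA : ∀ Z : Pt d, ((us w).filter (fun p => pos w p.1 + vec p.2 = Z)).card ≤ 2 * d := by
    intro Z
    refine SLB_card _ ?_
    intro p hp q hq he
    have h1 := mem_filter.mp hp
    have h2 := mem_filter.mp hq
    have h3 : pos w p.1 + vec p.2 = pos w q.1 + vec q.2 := h1.2.trans h2.2.symm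
    rw [he] at h3
    exact hw.inj (hu p h1.1).le (hu q h2.1).le (add_right_cancel h3)
  have cB : ∀ Z : Pt d, ((us w).filter (fun p => pos w (p.1 + 1) + vec p.2 = Z)).card ≤ 2 * d := by
    intro Z
    refine SLB_card _ ?_
    intro p hp q hq he
    have h1 := mem_filter.mp hp
    have h2 := mem_filter.mp hq
    have h3 : pos w (p.1 + 1) + vec p.2 = pos w (q.1 + 1) + vec q.2 := h1.2.trans h2.2.symm
    rw [he] at h3
    have h4 := hw.inj (hu p h1.1) (hu q h2.1) (add_right_cancel h3)
    omega
  -- the good slots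
  have cG : G.card ≤ nu (ins w i f) := by
    refine card_le_card_of_injOn (fun p => ((if p.1 < i then p.1 else p.1 + 2), p.2)) ?_ ?_
    · intro p hp
      obtain ⟨hp0, hp1, hp2, hp3, hp4, hp5⟩ := mem_filter.mp hp
      obtain ⟨hp6, hp7⟩ := (SLB_us w p).mp hp0
      obtain ⟨_, hp8⟩ := (SLB_saw w p.1 p.2 hp6).mp hp7
      have hl := SLB_len w i f h
      show _ ∈ us (ins w i f)
      rw [SLB_us]
      have hlt : (if p.1 < i then p.1 else p.1 + 2) < (ins w i f).length := by
        rw [hl]
        split_ifs <;> omega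
      refine ⟨hlt, ?_⟩
      rw [SLB_saw _ _ _ hlt]
      have q1 : pos (ins w i f) (if p.1 < i then p.1 else p.1 + 2) = pos w p.1 := by
        split_ifs with h1
        · exact SLB_pos1 w i f h _ (by omega)
        · exact SLB_pos2 w i f h _ (by omega)
      have q2 : pos (ins w i f) ((if p.1 < i then p.1 else p.1 + 2) + 1) = pos w (p.1 + 1) := by
        split_ifs with h1
        · exact SLB_pos1 w i f h _ (by omega)
        · rw [show p.1 + 2 + 1 = p.1 + 1 + 2 by omega]
          exact SLB_pos2 w i f h _ (by omega)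
      refine ⟨hv, ?_⟩
      intro k hk
      rw [q1, q2]
      rw [hl] at hk
      rcases SLB_cases i w.length k hk h with ⟨l, hl2, rfl⟩ | rfl | rfl
      · rw [SLB_pos w i f h l]
        exact hp8 l hl2
      · rw [SLB_posX w i f h]
        exact ⟨fun h1 => hp2 h1.symm, fun h1 => hp4 h1.symm⟩
      · rw [SLB_posY w i f h]
        exact ⟨fun h1 => hp3 h1.symm, fun h1 => hp5 h1.symm⟩
    · intro p hp q hq he
      obtain ⟨_, hp1, _⟩ := mem_filter.mp hp
      obtain ⟨_, hq1, _⟩ := mem_filter.mp hq
      have h1 := congrArg Prod.fst he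
      have h2 := congrArg Prod.snd he
      simp only at h1 h2
      refine Prod.ext ?_ h2
      split_ifs at h1 <;> omega
  have hsub : us w ⊆ G ∪ (B0 ∪ (B1 ∪ (B2 ∪ (B3 ∪ B4)))) := by
    intro p hp
    simp only [mem_union, G, B0, B1, B2, B3, B4, mem_filter]
    tauto
  have h5 : nu w ≤ G.card + (B0.card + (B1.card + (B2.card + (B3.card + B4.card)))) := by
    refine (card_le_card hsub).trans ((card_union_le _ _).trans (Nat.add_le_add_left ?_ _))
    refine (card_union_le _ _).trans (Nat.add_le_add_left ?_ _)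
    refine (card_union_le _ _).trans (Nat.add_le_add_left ?_ _)
    refine (card_union_le _ _).trans (Nat.add_le_add_left ?_ _)
    exact card_union_le _ _
  have d1 : B1.card ≤ 2 * d := cA X
  have d2 : B2.card ≤ 2 * d := cA Y
  have d3 : B3.card ≤ 2 * d := cB X
  have d4 : B4.card ≤ 2 * d := cB Y
  omega

open Classical in
theorem thm_SLB : St_SLB := by
  intro d w i f hw h hv
  obtain ⟨h1, h2⟩ := SLB_nb w i f h
  refine ⟨h1, h2, SLB_nu w i f hw h hv, ?_⟩
  unfold nu us
  refine (card_filter_le _ _).trans ?_
  rw [card_product, card_range, card_univ, card_step]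
  exact le_of_eq (by ring)

end SRW
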