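import Pool.Agent.SRW.St

/-!
# SRW, module SLD: double counting of slots and bumps
-/

set_option autoImplicit false

namespace SRW

open Finset

variable {d : ℕ}

private lemma SLD_ins (a b : List (Step d)) (e f : Step d) :
    ins (a ++ e :: b) a.length f = a ++ f :: e :: opp f :: b := by
  have h1 : (a ++ e :: b).take a.length = a := by simp
  have h2 : (a ++ e :: b).drop a.length = e :: b := by simp
  have h3 : (a ++ e :: b).drop (a.length + 1) = b := by
    rw [← List.drop_drop, h2]
    rfl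
  unfold ins
  rw [h1, h2, h3]
  rfl

private lemma SLD_del (a b : List (Step d)) (e f g : Step d) :
    del (a ++ f :: e :: g :: b) a.length = a ++ e :: b := by
  have h1 : (a ++ f :: e :: g :: b).take a.length = a := by simp
  have h2 : (a ++ f :: e :: g :: b).drop a.length = f :: e :: g :: b := by simp
  have h3 : (a ++ f :: e :: g :: b).drop (a.length + 1) = e :: g :: b := by
    rw [← List.drop_drop, h2]
    rfl
  have h4 : (a ++ f :: e :: g :: b).drop (a.length + 3) = b := by
    rw [← List.drop_drop, h2]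
    rfl
  unfold del
  rw [h1, h3, h4]
  rfl

private lemma SLD_pos (a b : List (Step d)) (e f : Step d) (j : ℕ) :
    pos (a ++ e :: b) j =
      pos (a ++ f :: e :: opp f :: b) (if j ≤ a.length then j else j + 2) := by
  by_cases h : j ≤ a.length
  · rw [if_pos h, pos_append_left a _ h, pos_append_left a _ h]
  · rw [if_neg h]
    obtain ⟨k, rfl⟩ : ∃ k, j = a.length + (k + 1) := ⟨j - a.length - 1, by omega⟩
    rw [show a.length + (k + 1) + 2 = a.length + (k + 1 + 1 + 1) by omega, pos_append_right,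
      pos_append_right, pos_cons_succ, pos_cons_succ, pos_cons_succ, pos_cons_succ, vec_opp]
    abel

private lemma SLD_saw {a b : List (Step d)} {e f : Step d}
    (h : Saw (a ++ f :: e :: opp f :: b)) : Saw (a ++ e :: b) := by
  intro i j hij hj
  rw [SLD_pos a b e f i, SLD_pos a b e f j]
  have hj' : j ≤ a.length + (b.length + 1) := by simpa using hj
  apply h
  · split_ifs <;> omega
  · have h3 : (a ++ f :: e :: opp f :: b).length = a.length + (b.length + 3) := by simp
    rw [h3]
    split_ifs <;> omega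

private lemma SLD_split {w : List (Step d)} {i : ℕ} (h : i < w.length) :
    ∃ a e b, w = a ++ e :: b ∧ a.length = i := by
  refine ⟨w.take i, w[i], w.drop (i + 1), ?_, by simp; omega⟩
  rw [← List.drop_eq_getElem_cons h, List.take_append_drop]

private lemma SLD_split' {v : List (Step d)} {i : ℕ} {f e : Step d} {b : List (Step d)}
    (hi : i < v.length) (h : v.drop i = f :: e :: opp f :: b) :
    ∃ a, v = a ++ f :: e :: opp f :: b ∧ a.length = i := by
  refine ⟨v.take i, ?_, by simp; omega⟩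
  rw [← h, List.take_append_drop]

private lemma SLD_mem_us {w : List (Step d)} {p : ℕ × Step d} :
    p ∈ us w ↔ p.1 < w.length ∧ Saw (ins w p.1 p.2) := by
  simp [us]

private lemma SLD_mem_vsl {v : List (Step d)} {i : ℕ} :
    i ∈ vsl v ↔ i < v.length ∧ ∃ f e b, v.drop i = f :: e :: opp f :: b := by
  simp [vsl]

theorem thm_SLD : St_SLD := by
  intro d n F
  rw [Finset.sum_sigma', Finset.sum_sigma']
  refine Finset.sum_bij
    (fun (x : Σ _ : List (Step d), ℕ × Step d) _ =>
      (⟨ins x.1 x.2.1 x.2.2, x.2.1⟩ : Σ _ : List (Step d), ℕ)) ?_ ?_ ?_ ?_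
  · rintro ⟨w, i, f⟩ hx
    rw [Finset.mem_sigma, SLD_mem_us, mem_saws] at hx
    obtain ⟨⟨hw, hs⟩, hi, hsi⟩ := hx
    simp only at hw hs hi hsi
    obtain ⟨a, e, b, rfl, rfl⟩ := SLD_split hi
    rw [Finset.mem_sigma, SLD_mem_vsl, mem_saws]
    simp only
    rw [SLD_ins] at hsi ⊢
    refine ⟨⟨?_, hsi⟩, ?_, f, e, b, by simp⟩
    · simp only [List.length_append, List.length_cons] at hw ⊢
      omega
    · simp
  · rintro ⟨w, i, f⟩ hx ⟨w', i', f'⟩ hx' heq
    rw [Finset.mem_sigma, SLD_mem_us, mem_saws] at hx hx'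
    obtain ⟨⟨hw, hs⟩, hi, hsi⟩ := hx
    obtain ⟨⟨hw', hs'⟩, hi', hsi'⟩ := hx'
    simp only at hw hs hi hsi hw' hs' hi' hsi' heq
    obtain ⟨a, e, b, rfl, rfl⟩ := SLD_split hi
    obtain ⟨a', e', b', rfl, hla⟩ := SLD_split hi'
    have h2 : a.length = i' := (Sigma.mk.inj heq).2 |> eq_of_heq
    subst h2
    have h1 : ins (a ++ e :: b) a.length f = ins (a' ++ e' :: b') a.length f' :=
      (Sigma.mk.inj heq).1
    rw [SLD_ins] at h1
    rw [← hla, SLD_ins] at h1
    obtain ⟨haa, hr⟩ := List.append_inj h1 hla.symm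
    subst haa
    simp only [List.cons.injEq] at hr
    obtain ⟨rfl, rfl, _, rfl⟩ := hr
    rfl
  · rintro ⟨v, i⟩ hx
    rw [Finset.mem_sigma, SLD_mem_vsl, mem_saws] at hx
    obtain ⟨⟨hv, hs⟩, hi, f, e, b, hd⟩ := hx
    simp only at hv hs hi hd
    obtain ⟨a, rfl, rfl⟩ := SLD_split' hi hd
    refine ⟨⟨a ++ e :: b, a.length, f⟩, ?_, ?_⟩
    · rw [Finset.mem_sigma, SLD_mem_us, mem_saws]
      simp only
      rw [SLD_ins]
      refine ⟨⟨?_, SLD_saw hs⟩, by simp, hs⟩
      simp only [List.length_append, List.length_cons] at hv ⊢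
      omega
    · simp only [SLD_ins]
  · rintro ⟨w, i, f⟩ hx
    rw [Finset.mem_sigma, SLD_mem_us, mem_saws] at hx
    obtain ⟨⟨hw, hs⟩, hi, hsi⟩ := hx
    simp only at hw hs hi hsi
    obtain ⟨a, e, b, rfl, rfl⟩ := SLD_split hi
    simp only
    rw [SLD_ins, SLD_del]

end SRW
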