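import Pool.Agent.SRW.St

/-!
# SRW: module SNA, deleting the first step
-/

set_option autoImplicit false

namespace SRW

open Finset

variable {d : ℕ}

lemma SNA_ext_le (s : Step d) (w : List (Step d)) (k : ℕ) : ext (s :: w) k ≤ ext w k := by
  classical
  unfold ext
  apply Finset.card_le_card
  intro η hη
  rw [Finset.mem_filter] at hη ⊢
  refine ⟨hη.1, ?_⟩
  have h : Saw (s :: (w ++ η)) := hη.2
  exact h.tail

lemma SNA_ext_cl (s : Step d) (w : List (Step d)) (k : ℕ) :
    ext (s :: w) (k + 1) + cl (s :: w) k ≤ ext w (k + 1) := by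
  classical
  set S1 : Finset (List (Step d)) := (words d (k + 1)).filter (fun η => Saw (s :: w ++ η)) with hS1
  set T : Finset (List (Step d)) :=
    (polys d ((s :: w).length + k + 1)).filter (fun u => u.take (s :: w).length = s :: w) with hT
  have hU : ∀ u ∈ T, u = (s :: w) ++ u.drop (s :: w).length ∧
      (u.drop (s :: w).length).length = k + 1 ∧ disp u = 0 ∧ Saw u.dropLast := by
    intro u hu
    rw [hT, Finset.mem_filter, mem_polys] at hu
    obtain ⟨⟨hl, hd, hs⟩, ht⟩ := hu
    refine ⟨?_, ?_, hd, hs⟩
    · have h := List.take_append_drop (s :: w).length u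
      rw [ht] at h
      exact h.symm
    · rw [List.length_drop, hl]
      omega
  have hinj : Set.InjOn (fun u : List (Step d) => u.drop (s :: w).length) (T : Set (List (Step d))) := by
    intro u hu v hv huv
    have h1 := (hU u hu).1
    have h2 := (hU v hv).1
    have h3 : u.drop (s :: w).length = v.drop (s :: w).length := huv
    rw [h1, h2, h3]
  have hcard : (T.image (fun u : List (Step d) => u.drop (s :: w).length)).card = T.card :=
    Finset.card_image_of_injOn hinj
  have hdisj : Disjoint S1 (T.image (fun u : List (Step d) => u.drop (s :: w).length)) := by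
    rw [Finset.disjoint_left]
    intro η hη hη'
    rw [Finset.mem_image] at hη'
    obtain ⟨u, hu, rfl⟩ := hη'
    obtain ⟨h1, h2, h3, _⟩ := hU u hu
    rw [hS1, Finset.mem_filter] at hη
    have h4 : Saw u := by
      have h5 := hη.2
      rw [← h1] at h5
      exact h5
    have hlen : 0 < u.length := by
      rw [h1, List.length_append]
      simp only [List.length_cons]
      omega
    apply h4 0 u.length hlen le_rfl
    rw [pos_zero, pos_length, h3]
  have hsub : S1 ∪ T.image (fun u : List (Step d) => u.drop (s :: w).length) ⊆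
      (words d (k + 1)).filter (fun η => Saw (w ++ η)) := by
    intro η hη
    rw [Finset.mem_union] at hη
    rw [Finset.mem_filter]
    rcases hη with hη | hη
    · rw [hS1, Finset.mem_filter] at hη
      refine ⟨hη.1, ?_⟩
      have h : Saw (s :: (w ++ η)) := hη.2
      exact h.tail
    · rw [Finset.mem_image] at hη
      obtain ⟨u, hu, rfl⟩ := hη
      obtain ⟨h1, h2, h3, h4⟩ := hU u hu
      refine ⟨mem_words.2 h2, ?_⟩
      set v := w ++ u.drop (s :: w).length with hv
      have h5 : u = [s] ++ v ++ [] := by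
        rw [h1]
        simp [hv]
      refine poly_saw h3 h4 h5 ?_
      intro h6
      have h7 := congrArg List.length h5
      have h8 := congrArg List.length h6
      simp only [List.length_append, List.length_cons, List.length_nil] at h7
      omega
  calc ext (s :: w) (k + 1) + cl (s :: w) k = S1.card + T.card := rfl
    _ = (S1 ∪ T.image (fun u : List (Step d) => u.drop (s :: w).length)).card := by
        rw [Finset.card_union_of_disjoint hdisj, hcard]
    _ ≤ _ := Finset.card_le_card hsub

theorem thm_SNA : St_SNA := by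
  intro d x m s w hx hsaw hm
  obtain ⟨A, hA⟩ : ∃ A, m = w.length + A := ⟨m - w.length, by omega⟩
  have hA1 : m + 1 - (s :: w).length = A := by
    rw [List.length_cons]
    omega
  have hA2 : m + 1 - w.length = A + 1 := by omega
  unfold Z Zc
  rw [hA1, hA2]
  have h1 : ∑ k ∈ range A, x ^ k * (ext (s :: w) k : ℝ) ≤
      ∑ k ∈ range (A + 1), x ^ k * (ext (s :: w) k : ℝ) := by
    rw [Finset.sum_range_succ]
    have : 0 ≤ x ^ A * (ext (s :: w) A : ℝ) := mul_nonneg (pow_nonneg hx _) (Nat.cast_nonneg _)
    linarith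
  have h2 : ∑ k ∈ range (A + 1), x ^ k * (ext (s :: w) k : ℝ) + x * ∑ k ∈ range A, x ^ k * (cl (s :: w) k : ℝ) ≤
      ∑ k ∈ range (A + 1), x ^ k * (ext w k : ℝ) := by
    rw [Finset.sum_range_succ' _ A, Finset.sum_range_succ' _ A, Finset.mul_sum]
    have h3 : ∑ k ∈ range A, x ^ (k + 1) * (ext (s :: w) (k + 1) : ℝ) +
        ∑ k ∈ range A, x * (x ^ k * (cl (s :: w) k : ℝ)) ≤
        ∑ k ∈ range A, x ^ (k + 1) * (ext w (k + 1) : ℝ) := by
      rw [← Finset.sum_add_distrib]
      apply Finset.sum_le_sum
      intro k _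
      have h4 : (ext (s :: w) (k + 1) : ℝ) + (cl (s :: w) k : ℝ) ≤ (ext w (k + 1) : ℝ) := by
        exact_mod_cast SNA_ext_cl s w k
      have h5 : x ^ (k + 1) * (ext (s :: w) (k + 1) : ℝ) + x * (x ^ k * (cl (s :: w) k : ℝ)) =
          x ^ (k + 1) * ((ext (s :: w) (k + 1) : ℝ) + (cl (s :: w) k : ℝ)) := by
        rw [pow_succ]
        ring
      rw [h5]
      exact mul_le_mul_of_nonneg_left h4 (pow_nonneg hx _)
    have h6 : x ^ 0 * (ext (s :: w) 0 : ℝ) ≤ x ^ 0 * (ext w 0 : ℝ) := by
      apply mul_le_mul_of_nonneg_left _ (pow_nonneg hx _)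
      exact_mod_cast SNA_ext_le s w 0
    linarith
  linarith

end SRW
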