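import Pool.Agent.SRW.St

/-!
# SRW, module SNB: deleting `I` steps, on the average
-/

set_option autoImplicit false

namespace SRW

open Finset

private lemma SNB_Z_nonneg {d : ℕ} {x : ℝ} (hx : 0 ≤ x) (m : ℕ) (w : List (Step d)) :
    0 ≤ Z x m w :=
  Finset.sum_nonneg fun k _ => mul_nonneg (pow_nonneg hx k) (Nat.cast_nonneg _)

private lemma SNB_drop {d : ℕ} (I m : ℕ) (hI : I ≤ m) (G : List (Step d) → ℝ)
    (hG : ∀ v, 0 ≤ G v) :
    ∑ w ∈ saws d m, G (w.drop I) ≤ (c d I : ℝ) * ∑ v ∈ saws d (m - I), G v := by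
  classical
  have h1 : (c d I : ℝ) * ∑ v ∈ saws d (m - I), G v =
      ∑ p ∈ saws d I ×ˢ saws d (m - I), G p.2 := by
    rw [Finset.sum_product]
    show (c d I : ℝ) * ∑ v ∈ saws d (m - I), G v =
      ∑ _x ∈ saws d I, ∑ y ∈ saws d (m - I), G y
    rw [Finset.sum_const, nsmul_eq_mul]
    rfl
  rw [h1]
  have hinj : Set.InjOn (fun w : List (Step d) => (w.take I, w.drop I)) (saws d m) := by
    intro a _ b _ h
    have h2 := Prod.ext_iff.1 h
    have h2a : a.take I = b.take I := h2.1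
    have h2b : a.drop I = b.drop I := h2.2
    rw [← List.take_append_drop I a, ← List.take_append_drop I b, h2a, h2b]
  have h3 : ∑ w ∈ saws d m, G (w.drop I) =
      ∑ p ∈ (saws d m).image (fun w => (w.take I, w.drop I)), G p.2 := by
    rw [Finset.sum_image hinj]
  rw [h3]
  refine Finset.sum_le_sum_of_subset_of_nonneg ?_ fun p _ _ => hG _
  intro p hp
  obtain ⟨w, hw, rfl⟩ := Finset.mem_image.1 hp
  obtain ⟨hl, hs⟩ := mem_saws.1 hw
  refine Finset.mem_product.2 ⟨mem_saws.2 ⟨?_, hs.take I⟩, mem_saws.2 ⟨?_, hs.drop I⟩⟩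
  · rw [List.length_take, hl, min_eq_left hI]
  · rw [List.length_drop, hl]

theorem thm_SNB (hSPT : St_SPT) : St_SNB := by
  classical
  intro d x m0 I hx
  obtain ⟨_, _, h3, _, _, _⟩ := hSPT d
  have hS : ∀ j, 0 ≤ ∑ v ∈ saws d j, Z x m0 v :=
    fun j => Finset.sum_nonneg fun v _ => SNB_Z_nonneg hx m0 v
  calc ∑ m ∈ Icc I m0, x ^ m * ∑ w ∈ saws d m, Z x m0 (w.drop I)
      ≤ ∑ m ∈ Icc I m0,
          x ^ I * (c d I : ℝ) * (x ^ (m - I) * ∑ v ∈ saws d (m - I), Z x m0 v) := by
        refine Finset.sum_le_sum fun m hm => ?_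
        have hIm := (Finset.mem_Icc.1 hm).1
        have h4 := SNB_drop (d := d) I m hIm (Z x m0) (SNB_Z_nonneg hx m0)
        refine (mul_le_mul_of_nonneg_left h4 (pow_nonneg hx m)).trans (le_of_eq ?_)
        have h5 : x ^ m = x ^ I * x ^ (m - I) := by rw [← pow_add]; congr 1; omega
        rw [h5]
        ring
    _ = x ^ I * (c d I : ℝ) *
          ∑ m ∈ Icc I m0, x ^ (m - I) * ∑ v ∈ saws d (m - I), Z x m0 v :=
        (Finset.mul_sum _ _ _).symm
    _ ≤ x ^ I * (c d I : ℝ) * Xi d x m0 := by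
        refine mul_le_mul_of_nonneg_left ?_ (mul_nonneg (pow_nonneg hx I) (Nat.cast_nonneg _))
        rw [← h3 x m0]
        have h5 : ∑ m ∈ Icc I m0, x ^ (m - I) * ∑ v ∈ saws d (m - I), Z x m0 v =
            ∑ j ∈ (Icc I m0).image (fun m => m - I), x ^ j * ∑ v ∈ saws d j, Z x m0 v := by
          rw [Finset.sum_image]
          intro a ha b hb h
          have h6 := (Finset.mem_Icc.1 ha).1
          have h7 := (Finset.mem_Icc.1 hb).1
          have h8 : a - I = b - I := h
          omega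
        rw [h5]
        refine Finset.sum_le_sum_of_subset_of_nonneg ?_
          fun j _ _ => mul_nonneg (pow_nonneg hx j) (hS j)
        intro j hj
        obtain ⟨m, hm, rfl⟩ := Finset.mem_image.1 hj
        have h6 := Finset.mem_Icc.1 hm
        rw [Finset.mem_range]
        omega

end SRW
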