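import Pool.Agent.SRW.St

/-!
# SRW: the inequality for closed words (SNC)
-/

set_option autoImplicit false

namespace SRW

open Finset

private lemma SNC_exch (hSPT : St_SPT) (d I m0 : ℕ) (x : ℝ) (G : List (Step d) → ℝ) :
    ∑ n ∈ range (m0 + 1), x ^ n * ∑ u ∈ polys d (n + 1), ∑ m ∈ Icc I n, G (u.take m) =
      ∑ m ∈ Icc I m0, x ^ m * ∑ w ∈ saws d m, G w * Zc x m0 w := by
  have h1 : ∀ n ∈ range (m0 + 1),
      x ^ n * ∑ u ∈ polys d (n + 1), ∑ m ∈ Icc I n, G (u.take m) =
        ∑ m ∈ Icc I n, x ^ n * ∑ u ∈ polys d (n + 1), G (u.take m) := by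
    intro n _
    rw [Finset.sum_comm, Finset.mul_sum]
  rw [Finset.sum_congr rfl h1]
  rw [Finset.sum_comm' (s' := fun m => Ico m (m0 + 1)) (t' := Icc I m0)]
  · refine Finset.sum_congr rfl fun m hm => ?_
    rw [Finset.sum_Ico_eq_sum_range, Finset.mul_sum]
    have h2 : ∀ w ∈ saws d m, x ^ m * (G w * Zc x m0 w) =
        ∑ k ∈ range (m0 + 1 - m), x ^ (m + k) * (G w * (cl w k : ℝ)) := by
      intro w hw
      unfold Zc
      rw [(mem_saws.mp hw).1, Finset.mul_sum, Finset.mul_sum]
      refine Finset.sum_congr rfl fun k _ => ?_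
      rw [pow_add]
      ring
    rw [Finset.sum_congr rfl h2, Finset.sum_comm]
    refine Finset.sum_congr rfl fun k _ => ?_
    rw [← Finset.mul_sum, (hSPT d).2.1 m k G]
  · intro n m
    simp only [mem_range, mem_Icc, mem_Ico]
    omega

private lemma SNC_saw {d n m : ℕ} {u : List (Step d)} (hu : u ∈ polys d (n + 1)) (hm : m ≤ n) :
    Saw (u.take m) ∧ (u.take m).length = m := by
  obtain ⟨h1, -, h3⟩ := mem_polys.mp hu
  have h4 : u.take m = (u.dropLast).take m := by
    rw [List.dropLast_eq_take, List.take_take]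
    congr 1
    omega
  refine ⟨?_, ?_⟩
  · rw [h4]
    exact h3.take m
  · rw [List.length_take]
    omega

private lemma SNC_tel (hSPT : St_SPT) (hSNA : St_SNA) (d m0 : ℕ) (x : ℝ) (hx : 0 ≤ x)
    (w : List (Step d)) (hw : Saw w) (hm : w.length ≤ m0) : ∀ I : ℕ, I ≤ w.length →
    ∑ i ∈ range I, Real.log (1 + x * (Zc x m0 (w.drop i) / Z x m0 (w.drop i))) ≤
      Real.log (Z x m0 (w.drop I)) - Real.log (Z x m0 w) := by
  intro I
  induction I with
  | zero => intro _; simp
  | succ I ih =>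
    intro hI
    rw [Finset.sum_range_succ]
    have h1 := ih (by omega)
    have hlt : I < w.length := hI
    have e1 : w.drop I = w[I] :: w.drop (I + 1) := List.drop_eq_getElem_cons hlt
    have hsaw : Saw (w.drop I) := hw.drop I
    have hlen : (w.drop I).length = w.length - I := List.length_drop
    have hZ : 1 ≤ Z x m0 (w.drop I) :=
      (hSPT d).2.2.2.2.2 x m0 (w.drop I) hx hsaw (by omega)
    have h2 : Z x m0 (w.drop I) + x * Zc x m0 (w.drop I) ≤ Z x m0 (w.drop (I + 1)) := by
      have h3 := hSNA d x m0 w[I] (w.drop (I + 1)) hx (by rw [← e1]; exact hsaw)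
        (by rw [List.length_drop]; omega)
      rw [← e1] at h3
      exact h3
    have hZc : 0 ≤ Zc x m0 (w.drop I) := by
      unfold Zc
      exact Finset.sum_nonneg fun k _ => mul_nonneg (pow_nonneg hx k) (Nat.cast_nonneg _)
    have h4 : Real.log (1 + x * (Zc x m0 (w.drop I) / Z x m0 (w.drop I))) ≤
        Real.log (Z x m0 (w.drop (I + 1))) - Real.log (Z x m0 (w.drop I)) := by
      have hpos : 0 < Z x m0 (w.drop I) := by linarith
      have h5 : 0 ≤ x * Zc x m0 (w.drop I) := mul_nonneg hx hZc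
      rw [← Real.log_div (by linarith) (by linarith)]
      apply Real.log_le_log
      · have : 0 ≤ Zc x m0 (w.drop I) / Z x m0 (w.drop I) := div_nonneg hZc hpos.le
        have := mul_nonneg hx this
        linarith
      · rw [le_div_iff₀ hpos]
        have : (1 + x * (Zc x m0 (w.drop I) / Z x m0 (w.drop I))) * Z x m0 (w.drop I) =
            Z x m0 (w.drop I) + x * Zc x m0 (w.drop I) := by
          field_simp
        rw [this]
        exact h2
    linarith

private lemma SNC_log (t y : ℝ) (ht : 0 < t) (hy : 0 < y) :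
    Real.log t ≤ t * y⁻¹ + Real.log y := by
  have h1 := Real.log_le_sub_one_of_pos (div_pos ht hy)
  rw [Real.log_div ht.ne' hy.ne'] at h1
  rw [← div_eq_mul_inv]
  linarith

private lemma SNC_psi_nonneg {d : ℕ} (x : ℝ) (m0 : ℕ) (hx : 0 ≤ x) (w : List (Step d)) :
    0 ≤ Real.log (1 + x * (Zc x m0 w / Z x m0 w)) := by
  have hZc : 0 ≤ Zc x m0 w := by
    unfold Zc
    exact Finset.sum_nonneg fun k _ => mul_nonneg (pow_nonneg hx k) (Nat.cast_nonneg _)
  have hZ : 0 ≤ Z x m0 w := by
    unfold Z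
    exact Finset.sum_nonneg fun k _ => mul_nonneg (pow_nonneg hx k) (Nat.cast_nonneg _)
  apply Real.log_nonneg
  have := mul_nonneg hx (div_nonneg hZc hZ)
  linarith

private lemma SNC_upper (hSPT : St_SPT) (hSNA : St_SNA) (hSNB : St_SNB) (d I m0 : ℕ) (x δ : ℝ)
    (hx : 0 < x) (hδ : 0 < δ) (hy : 1 ≤ x ^ I * (c d I : ℝ) / δ)
    (h : δ * Xi d x m0 ≤ La d x m0) :
    ∑ n ∈ range (m0 + 1), x ^ n * ∑ u ∈ polys d (n + 1), ∑ m ∈ Icc I n, ∑ i ∈ range I,
        Real.log (1 + x * (Zc x m0 ((u.take m).drop i) / Z x m0 ((u.take m).drop i))) ≤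
      La d x m0 * (1 + Real.log (x ^ I * (c d I : ℝ) / δ)) := by
  set y := x ^ I * (c d I : ℝ) / δ with hydef
  have hy0 : 0 < y := by linarith
  have hly : 0 ≤ Real.log y := Real.log_nonneg hy
  have hstep : ∀ n ∈ range (m0 + 1),
      x ^ n * ∑ u ∈ polys d (n + 1), ∑ m ∈ Icc I n, ∑ i ∈ range I,
        Real.log (1 + x * (Zc x m0 ((u.take m).drop i) / Z x m0 ((u.take m).drop i))) ≤
      (x ^ n * ∑ u ∈ polys d (n + 1), ∑ m ∈ Icc I n,
        Z x m0 ((u.take m).drop I) / Z x m0 (u.take m)) * y⁻¹ +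
      ((n : ℝ) + 1) * x ^ n * (el d (n + 1) : ℝ) * Real.log y := by
    intro n hn
    have hn' : n ≤ m0 := by
      have := Finset.mem_range.mp hn
      omega
    have h1 : ∑ u ∈ polys d (n + 1), ∑ m ∈ Icc I n, ∑ i ∈ range I,
        Real.log (1 + x * (Zc x m0 ((u.take m).drop i) / Z x m0 ((u.take m).drop i))) ≤
        ∑ u ∈ polys d (n + 1), ∑ m ∈ Icc I n,
          (Z x m0 ((u.take m).drop I) / Z x m0 (u.take m) * y⁻¹ + Real.log y) := by
      refine Finset.sum_le_sum fun u hu => Finset.sum_le_sum fun m hm => ?_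
      have hm' := Finset.mem_Icc.mp hm
      obtain ⟨hs, hl⟩ := SNC_saw hu hm'.2
      have h2 := SNC_tel hSPT hSNA d m0 x hx.le (u.take m) hs (by omega) I (by omega)
      have h3 : 1 ≤ Z x m0 (u.take m) := (hSPT d).2.2.2.2.2 x m0 _ hx.le hs (by omega)
      have h4 : 1 ≤ Z x m0 ((u.take m).drop I) :=
        (hSPT d).2.2.2.2.2 x m0 _ hx.le (hs.drop I) (by rw [List.length_drop]; omega)
      have h5 := SNC_log (Z x m0 ((u.take m).drop I) / Z x m0 (u.take m)) y
        (div_pos (by linarith) (by linarith)) hy0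
      rw [Real.log_div (by linarith) (by linarith)] at h5
      linarith
    have h6 : ∑ u ∈ polys d (n + 1), ∑ m ∈ Icc I n,
          (Z x m0 ((u.take m).drop I) / Z x m0 (u.take m) * y⁻¹ + Real.log y) ≤
        (∑ u ∈ polys d (n + 1), ∑ m ∈ Icc I n,
          Z x m0 ((u.take m).drop I) / Z x m0 (u.take m)) * y⁻¹ +
        ((n : ℝ) + 1) * (el d (n + 1) : ℝ) * Real.log y := by
      simp only [Finset.sum_add_distrib, Finset.sum_mul]
      have h7 : ∑ u ∈ polys d (n + 1), ∑ m ∈ Icc I n, Real.log y ≤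
          ((n : ℝ) + 1) * (el d (n + 1) : ℝ) * Real.log y := by
        simp only [Finset.sum_const, nsmul_eq_mul, Nat.card_Icc]
        have h8 : ((n + 1 - I : ℕ) : ℝ) ≤ (n : ℝ) + 1 := by
          have : n + 1 - I ≤ n + 1 := Nat.sub_le _ _
          exact_mod_cast this
        have h9 : (0 : ℝ) ≤ (el d (n + 1) : ℝ) := Nat.cast_nonneg _
        unfold el at h9 ⊢
        calc ((polys d (n + 1)).card : ℝ) * (((n + 1 - I : ℕ) : ℝ) * Real.log y)
            ≤ ((polys d (n + 1)).card : ℝ) * (((n : ℝ) + 1) * Real.log y) := by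
              apply mul_le_mul_of_nonneg_left _ h9
              exact mul_le_mul_of_nonneg_right h8 hly
          _ = ((n : ℝ) + 1) * ((polys d (n + 1)).card : ℝ) * Real.log y := by ring
      linarith
    have h10 := mul_le_mul_of_nonneg_left (h1.trans h6) (pow_nonneg hx.le n)
    refine h10.trans (le_of_eq ?_)
    ring
  refine (Finset.sum_le_sum hstep).trans ?_
  rw [Finset.sum_add_distrib, ← Finset.sum_mul, ← Finset.sum_mul]
  have hA : ∑ n ∈ range (m0 + 1), x ^ n * ∑ u ∈ polys d (n + 1), ∑ m ∈ Icc I n,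
        Z x m0 ((u.take m).drop I) / Z x m0 (u.take m) ≤ x ^ I * (c d I : ℝ) * Xi d x m0 := by
    rw [SNC_exch hSPT d I m0 x (fun w => Z x m0 (w.drop I) / Z x m0 w)]
    refine le_trans ?_ (hSNB d x m0 I hx.le)
    refine Finset.sum_le_sum fun m hm => ?_
    apply mul_le_mul_of_nonneg_left _ (pow_nonneg hx.le m)
    refine Finset.sum_le_sum fun w hw => ?_
    obtain ⟨hl, hs⟩ := mem_saws.mp hw
    have hm' := Finset.mem_Icc.mp hm
    have h3 : 1 ≤ Z x m0 w := (hSPT d).2.2.2.2.2 x m0 _ hx.le hs (by omega)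
    have h4 : 1 ≤ Z x m0 (w.drop I) :=
      (hSPT d).2.2.2.2.2 x m0 _ hx.le (hs.drop I) (by rw [List.length_drop]; omega)
    have h5 : Zc x m0 w ≤ Z x m0 w := by
      unfold Zc Z
      refine Finset.sum_le_sum fun k _ => ?_
      apply mul_le_mul_of_nonneg_left _ (pow_nonneg hx.le k)
      exact_mod_cast (hSPT d).2.2.2.2.1 w k
    show Z x m0 (w.drop I) / Z x m0 w * Zc x m0 w ≤ Z x m0 (w.drop I)
    rw [div_mul_eq_mul_div, div_le_iff₀ (by linarith)]
    exact mul_le_mul_of_nonneg_left h5 (by linarith)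
  have hB : x ^ I * (c d I : ℝ) * Xi d x m0 * y⁻¹ = δ * Xi d x m0 := by
    have h1 : x ^ I * (c d I : ℝ) = y * δ := by
      rw [hydef]
      field_simp
    rw [h1]
    field_simp
  have hC := mul_le_mul_of_nonneg_right hA (inv_nonneg.mpr hy0.le)
  rw [hB] at hC
  have hD : (∑ i ∈ range (m0 + 1), ((i : ℝ) + 1) * x ^ i * (el d (i + 1) : ℝ)) = La d x m0 := rfl
  rw [hD, mul_add, mul_one]
  linarith

private lemma SNC_lower (hSPT : St_SPT) (hROT : St_ROT) (d I m0 : ℕ) (x δ : ℝ)
    (hx : 0 < x) (hδ : 0 < δ) (h : δ * Xi d x m0 ≤ La d x m0) :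
    (I : ℝ) * Real.log (1 + x * δ / 2) * (La d x m0 / 2 - 2 * I * Lp d x m0) ≤
    ∑ n ∈ range (m0 + 1), x ^ n * ∑ u ∈ polys d (n + 1), ∑ m ∈ Icc I n, ∑ i ∈ range I,
        Real.log (1 + x * (Zc x m0 ((u.take m).drop i) / Z x m0 ((u.take m).drop i))) := by
  classical
  set L := Real.log (1 + x * δ / 2) with hL
  have hL0 : 0 ≤ L := by
    apply Real.log_nonneg
    have := mul_pos hx hδ
    linarith
  set g : List (Step d) → ℝ := fun w => if Zc x m0 w < δ / 2 * Z x m0 w then 1 else 0 with hg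
  have hg0 : ∀ w, 0 ≤ g w := by
    intro w
    simp only [hg]
    split_ifs <;> norm_num
  have hstep : ∀ n ∈ range (m0 + 1),
      (I : ℝ) * L * (((n : ℝ) + 1) * x ^ n * (el d (n + 1) : ℝ) -
        2 * I * (x ^ n * (el d (n + 1) : ℝ)) -
        x ^ n * ∑ u ∈ polys d (n + 1), ∑ m ∈ Icc 0 n, g (u.take m)) ≤
      x ^ n * ∑ u ∈ polys d (n + 1), ∑ m ∈ Icc I n, ∑ i ∈ range I,
        Real.log (1 + x * (Zc x m0 ((u.take m).drop i) / Z x m0 ((u.take m).drop i))) := by
    intro n hn
    have hn' : n ≤ m0 := by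
      have := Finset.mem_range.mp hn
      omega
    set f : ℕ → ℝ := fun j => ∑ u ∈ polys d (n + 1),
      Real.log (1 + x * (Zc x m0 (u.take j) / Z x m0 (u.take j))) with hf
    have hf0 : ∀ j, 0 ≤ f j := fun j =>
      Finset.sum_nonneg fun u _ => SNC_psi_nonneg x m0 hx.le _
    have e1 : ∑ u ∈ polys d (n + 1), ∑ m ∈ Icc I n, ∑ i ∈ range I,
        Real.log (1 + x * (Zc x m0 ((u.take m).drop i) / Z x m0 ((u.take m).drop i))) =
        ∑ i ∈ range I, ∑ m ∈ Icc I n, f (m - i) := by
      rw [Finset.sum_comm]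
      have e2 : ∀ m ∈ Icc I n, ∑ u ∈ polys d (n + 1), ∑ i ∈ range I,
          Real.log (1 + x * (Zc x m0 ((u.take m).drop i) / Z x m0 ((u.take m).drop i))) =
          ∑ i ∈ range I, f (m - i) := by
        intro m hm
        have hm' := Finset.mem_Icc.mp hm
        rw [Finset.sum_comm]
        refine Finset.sum_congr rfl fun i hi => ?_
        have hi' := Finset.mem_range.mp hi
        exact hROT d (n + 1) i m
          (fun w => Real.log (1 + x * (Zc x m0 w / Z x m0 w))) (by omega) (by omega)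
      rw [Finset.sum_congr rfl e2, Finset.sum_comm]
    set J := (Icc I n).filter (fun j => j + I ≤ n) with hJ
    have h1 : ∀ i ∈ range I, ∑ j ∈ J, f j ≤ ∑ m ∈ Icc I n, f (m - i) := by
      intro i hi
      have hi' := Finset.mem_range.mp hi
      have e3 : ∑ j ∈ J, f j = ∑ m ∈ J.image (fun j => j + i), f (m - i) := by
        rw [Finset.sum_image (fun a _ b _ hab => by simpa using hab)]
        refine Finset.sum_congr rfl fun j _ => ?_
        rw [Nat.add_sub_cancel]
      rw [e3]
      apply Finset.sum_le_sum_of_subset_of_nonneg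
      · intro m hm
        obtain ⟨j, hj, rfl⟩ := Finset.mem_image.mp hm
        rw [hJ, Finset.mem_filter, Finset.mem_Icc] at hj
        rw [Finset.mem_Icc]
        omega
      · intro m _ _
        exact hf0 _
    have h2 : L * ((((n : ℝ) + 1) - 2 * I) * (el d (n + 1) : ℝ) -
        ∑ u ∈ polys d (n + 1), ∑ m ∈ Icc 0 n, g (u.take m)) ≤ ∑ j ∈ J, f j := by
      have h3 : ∀ j ∈ J, L * ((el d (n + 1) : ℝ) - ∑ u ∈ polys d (n + 1), g (u.take j)) ≤ f j := by
        intro j hj
        rw [hJ, Finset.mem_filter, Finset.mem_Icc] at hj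
        have e4 : (el d (n + 1) : ℝ) - ∑ u ∈ polys d (n + 1), g (u.take j) =
            ∑ u ∈ polys d (n + 1), (1 - g (u.take j)) := by
          rw [Finset.sum_sub_distrib]
          simp [el]
        rw [e4, Finset.mul_sum]
        refine Finset.sum_le_sum fun u hu => ?_
        obtain ⟨hs, hl⟩ := SNC_saw hu (show j ≤ n by omega)
        have h5 : 1 ≤ Z x m0 (u.take j) := (hSPT d).2.2.2.2.2 x m0 _ hx.le hs (by omega)
        by_cases hq : Zc x m0 (u.take j) < δ / 2 * Z x m0 (u.take j)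
        · have : g (u.take j) = 1 := by simp only [hg, if_pos hq]
          rw [this, sub_self, mul_zero]
          exact SNC_psi_nonneg x m0 hx.le _
        · have : g (u.take j) = 0 := by simp only [hg, if_neg hq]
          rw [this, sub_zero, mul_one, hL]
          apply Real.log_le_log
          · have := mul_pos hx hδ
            linarith
          · have h6 : δ / 2 ≤ Zc x m0 (u.take j) / Z x m0 (u.take j) := by
              rw [le_div_iff₀ (by linarith)]
              exact not_lt.mp hq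
            have h7 := mul_le_mul_of_nonneg_left h6 hx.le
            linarith
      have h4 := Finset.sum_le_sum h3
      refine le_trans ?_ h4
      rw [← Finset.mul_sum]
      apply mul_le_mul_of_nonneg_left _ hL0
      rw [Finset.sum_sub_distrib, Finset.sum_const, nsmul_eq_mul]
      have h8 : ∑ j ∈ J, ∑ u ∈ polys d (n + 1), g (u.take j) ≤
          ∑ u ∈ polys d (n + 1), ∑ m ∈ Icc 0 n, g (u.take m) := by
        rw [Finset.sum_comm]
        refine Finset.sum_le_sum fun u _ => ?_
        apply Finset.sum_le_sum_of_subset_of_nonneg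
        · intro j hj
          rw [hJ, Finset.mem_filter, Finset.mem_Icc] at hj
          rw [Finset.mem_Icc]
          omega
        · intro m _ _
          exact hg0 _
      have h9 : ((n : ℝ) + 1) - 2 * I ≤ (J.card : ℝ) := by
        by_cases hc : 2 * I ≤ n + 1
        · have hsub : Icc I (n - I) ⊆ J := by
            intro j hj
            rw [Finset.mem_Icc] at hj
            rw [hJ, Finset.mem_filter, Finset.mem_Icc]
            rcases Nat.lt_or_ge n I with h10 | h10
            · omega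
            · omega
          have h11 := Finset.card_le_card hsub
          rw [Nat.card_Icc] at h11
          have h12 : n + 1 ≤ J.card + 2 * I := by omega
          have h13 : ((n + 1 : ℕ) : ℝ) ≤ ((J.card + 2 * I : ℕ) : ℝ) := by exact_mod_cast h12
          push_cast at h13
          linarith
        · have h12 : n + 1 ≤ 2 * I := by omega
          have h13 : ((n + 1 : ℕ) : ℝ) ≤ ((2 * I : ℕ) : ℝ) := by exact_mod_cast h12
          push_cast at h13
          have : (0 : ℝ) ≤ (J.card : ℝ) := Nat.cast_nonneg _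
          linarith
      have h14 := mul_le_mul_of_nonneg_right h9 (show (0 : ℝ) ≤ (el d (n + 1) : ℝ) from Nat.cast_nonneg _)
      linarith
    rw [e1]
    have h15 : (I : ℝ) * ∑ j ∈ J, f j ≤ ∑ i ∈ range I, ∑ m ∈ Icc I n, f (m - i) := by
      have := Finset.sum_le_sum h1
      rw [Finset.sum_const, Finset.card_range, nsmul_eq_mul] at this
      exact this
    have h16 := mul_le_mul_of_nonneg_left h2 (show (0 : ℝ) ≤ (I : ℝ) from Nat.cast_nonneg _)
    have h17 := mul_le_mul_of_nonneg_left (h16.trans h15) (pow_nonneg hx.le n)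
    refine le_trans (le_of_eq ?_) h17
    ring
  refine le_trans ?_ (Finset.sum_le_sum hstep)
  rw [← Finset.mul_sum]
  apply mul_le_mul_of_nonneg_left _ (mul_nonneg (Nat.cast_nonneg _) hL0)
  rw [Finset.sum_sub_distrib, Finset.sum_sub_distrib, ← Finset.mul_sum]
  have hD : (∑ i ∈ range (m0 + 1), ((i : ℝ) + 1) * x ^ i * (el d (i + 1) : ℝ)) = La d x m0 := rfl
  have hE : (∑ i ∈ range (m0 + 1), x ^ i * (el d (i + 1) : ℝ)) = Lp d x m0 := rfl
  rw [hD, hE]
  have hF : ∑ n ∈ range (m0 + 1), x ^ n * ∑ u ∈ polys d (n + 1), ∑ m ∈ Icc 0 n, g (u.take m) ≤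
      La d x m0 / 2 := by
    rw [SNC_exch hSPT d 0 m0 x g]
    have hG : ∑ m ∈ Icc 0 m0, x ^ m * ∑ w ∈ saws d m, g w * Zc x m0 w ≤ δ / 2 * Xi d x m0 := by
      rw [← (hSPT d).2.2.1 x m0, Finset.mul_sum]
      have e5 : (Icc 0 m0 : Finset ℕ) = range (m0 + 1) := by
        ext j
        rw [Finset.mem_Icc, Finset.mem_range]
        omega
      rw [e5]
      refine Finset.sum_le_sum fun m hm => ?_
      have hm' := Finset.mem_range.mp hm
      have e6 : δ / 2 * (x ^ m * ∑ w ∈ saws d m, Z x m0 w) =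
          x ^ m * ∑ w ∈ saws d m, δ / 2 * Z x m0 w := by
        rw [← Finset.mul_sum]
        ring
      rw [e6]
      apply mul_le_mul_of_nonneg_left _ (pow_nonneg hx.le m)
      refine Finset.sum_le_sum fun w hw => ?_
      obtain ⟨hl, hs⟩ := mem_saws.mp hw
      have h3 : 1 ≤ Z x m0 w := (hSPT d).2.2.2.2.2 x m0 _ hx.le hs (by omega)
      by_cases hq : Zc x m0 w < δ / 2 * Z x m0 w
      · have : g w = 1 := by simp only [hg, if_pos hq]
        rw [this, one_mul]
        exact hq.le
      · have : g w = 0 := by simp only [hg, if_neg hq]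
        rw [this, zero_mul]
        positivity
    linarith
  linarith

theorem thm_SNC (hMU : St_MU) (hSPT : St_SPT) (hSNA : St_SNA) (hSNB : St_SNB)
    (hROT : St_ROT) : St_SNC := by
  intro d I m0 x δ hd hI hx hδ hδ1 h
  obtain ⟨hmu, hc, -⟩ := hMU d hd
  have hmu0 : 0 < mu d := by linarith
  have hx0 : 0 < x := lt_of_lt_of_le (by positivity) hx
  have hy : 1 ≤ x ^ I * (c d I : ℝ) / δ := by
    have h1 : 1 ≤ x ^ I * (c d I : ℝ) := by
      have h2 : (1 / mu d) ^ I ≤ x ^ I := pow_le_pow_left₀ (by positivity) hx I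
      have h3 : (1 / mu d) ^ I * mu d ^ I ≤ x ^ I * (c d I : ℝ) :=
        mul_le_mul h2 (hc I) (by positivity) (by positivity)
      rw [← mul_pow, one_div, inv_mul_cancel₀ hmu0.ne', one_pow] at h3
      exact h3
    rw [le_div_iff₀ hδ]
    linarith
  exact (SNC_lower hSPT hROT d I m0 x δ hx0 hδ h).trans
    (SNC_upper hSPT hSNA hSNB d I m0 x δ hx0 hδ hy h)

end SRW
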