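import Pool.Agent.SRW.St

/-!
# SRW, module SPT: splitting identities for the generating functions
-/

set_option autoImplicit false

namespace SRW

open Finset

variable {d : ℕ}

private lemma SPT_take_append (w η : List (Step d)) : (w ++ η).take w.length = w := by
  simp

private lemma SPT_one (m k : ℕ) (G : List (Step d) → ℝ) :
    ∑ w ∈ saws d m, G w * (ext w k : ℝ) = ∑ W ∈ saws d (m + k), G (W.take m) := by
  classical
  have hmaps : ∀ W ∈ saws d (m + k), W.take m ∈ saws d m := by
    intro W hW
    rw [mem_saws] at hW ⊢
    refine ⟨?_, hW.2.take m⟩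
    rw [List.length_take, hW.1]
    omega
  rw [← Finset.sum_fiberwise_of_maps_to hmaps]
  refine Finset.sum_congr rfl fun w hw => ?_
  rw [mem_saws] at hw
  have h1 : ∀ W ∈ (saws d (m + k)).filter (fun W => W.take m = w), G (W.take m) = G w := by
    intro W hW
    rw [(Finset.mem_filter.mp hW).2]
  rw [Finset.sum_congr rfl h1, Finset.sum_const, nsmul_eq_mul, mul_comm]
  congr 2
  unfold ext
  refine Finset.card_bij (fun η _ => w ++ η) ?_ ?_ ?_
  · intro η hη
    rw [Finset.mem_filter, mem_words] at hη
    rw [Finset.mem_filter, mem_saws]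
    refine ⟨⟨?_, hη.2⟩, ?_⟩
    · rw [List.length_append, hw.1, hη.1]
    · rw [← hw.1]
      exact SPT_take_append w η
  · intro a _ b _ hab
    exact List.append_cancel_left hab
  · intro W hW
    rw [Finset.mem_filter, mem_saws] at hW
    have e : w ++ W.drop m = W := by
      rw [← hW.2]
      exact List.take_append_drop m W
    refine ⟨W.drop m, ?_, e⟩
    rw [Finset.mem_filter, mem_words, e]
    refine ⟨?_, hW.1.2⟩
    rw [List.length_drop, hW.1.1]
    omega

private lemma SPT_take_dropLast (u : List (Step d)) (m : ℕ) (h : m + 1 ≤ u.length) :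
    u.dropLast.take m = u.take m := by
  rw [List.dropLast_eq_take, List.take_take]
  congr 1
  omega

private lemma SPT_two (m k : ℕ) (G : List (Step d) → ℝ) :
    ∑ w ∈ saws d m, G w * (cl w k : ℝ) = ∑ u ∈ polys d (m + k + 1), G (u.take m) := by
  classical
  have hmaps : ∀ u ∈ polys d (m + k + 1), u.take m ∈ saws d m := by
    intro u hu
    rw [mem_polys] at hu
    rw [mem_saws, ← SPT_take_dropLast u m (by omega)]
    refine ⟨?_, hu.2.2.take m⟩
    rw [List.length_take, List.length_dropLast, hu.1]
    omega
  rw [← Finset.sum_fiberwise_of_maps_to hmaps]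
  refine Finset.sum_congr rfl fun w hw => ?_
  rw [mem_saws] at hw
  have h1 : ∀ u ∈ (polys d (m + k + 1)).filter (fun u => u.take m = w), G (u.take m) = G w := by
    intro W hW
    rw [(Finset.mem_filter.mp hW).2]
  rw [Finset.sum_congr rfl h1, Finset.sum_const, nsmul_eq_mul, mul_comm]
  unfold cl
  rw [hw.1]

private lemma SPT_flip (f : ℕ → ℝ) (N : ℕ) :
    ∑ m ∈ range N, ∑ k ∈ range (N - m), f (m + k) = ∑ n ∈ range N, ((n : ℝ) + 1) * f n := by
  rw [← Finset.sum_range_diag_flip N (fun m k => f (m + k))]
  refine Finset.sum_congr rfl fun m _ => ?_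
  rw [Finset.sum_congr rfl (g := fun _ => f m)]
  · rw [Finset.sum_const, card_range, nsmul_eq_mul]
    push_cast
    ring
  · intro k hk
    rw [Finset.mem_range] at hk
    congr 1
    omega

private lemma SPT_inner (x : ℝ) (m N : ℕ) (h : List (Step d) → ℕ → ℕ) (c' : ℕ → ℝ)
    (hc : ∀ k, ∑ w ∈ saws d m, (h w k : ℝ) = c' (m + k)) :
    x ^ m * ∑ w ∈ saws d m, ∑ k ∈ range (N - m), x ^ k * (h w k : ℝ) =
      ∑ k ∈ range (N - m), x ^ (m + k) * c' (m + k) := by
  rw [Finset.sum_comm, Finset.mul_sum]
  refine Finset.sum_congr rfl fun k _ => ?_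
  rw [← hc k, ← Finset.mul_sum, pow_add]
  ring

theorem thm_SPT : St_SPT := by
  intro d
  refine ⟨SPT_one, SPT_two, ?_, ?_, ?_, ?_⟩
  · intro x m0
    unfold Xi
    have h2 : ∑ n ∈ range (m0 + 1), ((n : ℝ) + 1) * x ^ n * (c d n : ℝ) =
        ∑ n ∈ range (m0 + 1), ((n : ℝ) + 1) * (fun n => x ^ n * (c d n : ℝ)) n := by
      refine Finset.sum_congr rfl fun n _ => ?_
      ring
    rw [h2, ← SPT_flip]
    refine Finset.sum_congr rfl fun m _ => ?_
    rw [← SPT_inner x m (m0 + 1) (fun w k => ext w k) (fun n => (c d n : ℝ))]
    · congr 1
      refine Finset.sum_congr rfl fun w hw => ?_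
      rw [mem_saws] at hw
      unfold Z
      rw [hw.1]
    · intro k
      have := SPT_one (d := d) m k (fun _ => 1)
      simp only [one_mul, Finset.sum_const, nsmul_eq_mul, mul_one] at this
      rw [this]
      rfl
  · intro x m0
    unfold La
    have h2 : ∑ n ∈ range (m0 + 1), ((n : ℝ) + 1) * x ^ n * (el d (n + 1) : ℝ) =
        ∑ n ∈ range (m0 + 1), ((n : ℝ) + 1) * (fun n => x ^ n * (el d (n + 1) : ℝ)) n := by
      refine Finset.sum_congr rfl fun n _ => ?_
      ring
    rw [h2, ← SPT_flip]
    refine Finset.sum_congr rfl fun m _ => ?_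
    rw [← SPT_inner x m (m0 + 1) (fun w k => cl w k) (fun n => (el d (n + 1) : ℝ))]
    · congr 1
      refine Finset.sum_congr rfl fun w hw => ?_
      rw [mem_saws] at hw
      unfold Zc
      rw [hw.1]
    · intro k
      have := SPT_two (d := d) m k (fun _ => 1)
      simp only [one_mul, Finset.sum_const, nsmul_eq_mul, mul_one] at this
      rw [this]
      rfl
  · intro w k
    classical
    unfold cl ext
    refine Finset.card_le_card_of_injOn (fun u => (u.drop w.length).dropLast) ?_ ?_
    · intro u hu
      have hu' := Finset.mem_coe.mp hu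
      rw [Finset.mem_filter, mem_polys] at hu'
      obtain ⟨⟨hl, hd, hs⟩, ht⟩ := hu'
      apply Finset.mem_coe.mpr
      rw [Finset.mem_filter, mem_words]
      have e : w ++ (u.drop w.length).dropLast = u.dropLast := by
        have hne : u.drop w.length ≠ [] := by
          intro h0
          have := congrArg List.length h0
          rw [List.length_drop, List.length_nil] at this
          omega
        rw [← List.dropLast_append_of_ne_nil hne]
        congr 1
        conv_rhs => rw [← List.take_append_drop w.length u, ht]
      refine ⟨?_, ?_⟩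
      · rw [List.length_dropLast, List.length_drop]
        omega
      · show Saw (w ++ (u.drop w.length).dropLast)
        rw [e]
        exact hs
    · intro u hu v hv huv
      have hu' := Finset.mem_coe.mp hu
      have hv' := Finset.mem_coe.mp hv
      rw [Finset.mem_filter, mem_polys] at hu' hv'
      obtain ⟨⟨hul, hud, -⟩, hut⟩ := hu'
      obtain ⟨⟨hvl, hvd, -⟩, hvt⟩ := hv'
      have huv' : (u.drop w.length).dropLast = (v.drop w.length).dropLast := huv
      have hune : u ≠ [] := by
        rintro rfl
        simp at hul
      have hvne : v ≠ [] := by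
        rintro rfl
        simp at hvl
      have e : ∀ u : List (Step d), u.length = w.length + k + 1 → u.take w.length = w →
          w ++ (u.drop w.length).dropLast = u.dropLast := by
        intro u hl ht
        have hne : u.drop w.length ≠ [] := by
          intro h0
          have := congrArg List.length h0
          rw [List.length_drop, List.length_nil] at this
          omega
        rw [← List.dropLast_append_of_ne_nil hne]
        congr 1
        conv_rhs => rw [← List.take_append_drop w.length u, ht]
      have h1 : u.dropLast = v.dropLast := by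
        rw [← e u hul hut, ← e v hvl hvt, huv']
      have h2 := List.dropLast_append_getLast hune
      have h3 := List.dropLast_append_getLast hvne
      have h4 : vec (u.getLast hune) = vec (v.getLast hvne) := by
        have h5 := hud
        have h6 := hvd
        rw [← h2, disp_append, disp_cons, disp_nil, add_zero] at h5
        rw [← h3, disp_append, disp_cons, disp_nil, add_zero, ← h1] at h6
        exact add_left_cancel (h5.trans h6.symm)
      have h7 := vec_injective h4
      rw [← h2, ← h3, h1, h7]
  · intro x m0 w hx hw hl
    unfold Z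
    have h0 : (1 : ℝ) = x ^ 0 * (ext w 0 : ℝ) := by
      have : ext w 0 = 1 := by
        classical
        unfold ext
        rw [Finset.card_eq_one]
        refine ⟨[], ?_⟩
        ext η
        rw [Finset.mem_filter, mem_words, Finset.mem_singleton, List.length_eq_zero_iff]
        constructor
        · exact fun h => h.1
        · rintro rfl
          refine ⟨rfl, ?_⟩
          rw [List.append_nil]
          exact hw
      rw [this]
      simp
    rw [h0]
    refine Finset.single_le_sum (f := fun k => x ^ k * (ext w k : ℝ)) (fun k _ => ?_) ?_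
    · exact mul_nonneg (pow_nonneg hx k) (Nat.cast_nonneg _)
    · rw [Finset.mem_range]
      omega

end SRW
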