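import Pool.Agent.SRW.St

/-!
# SRW, module SUB: submultiplicativity for inherited properties (MP_55bc5d_pr)
-/

set_option autoImplicit false

namespace SRW

open Finset

/-- **SUB**. -/
theorem thm_SUB : St_SUB := by
  intro d P hP n m
  rw [← Finset.card_product]
  refine Finset.card_le_card_of_injOn (fun w => (w.take n, w.drop n)) ?_ ?_
  · intro w hw
    obtain ⟨hl, hs, hp⟩ := mem_sw.mp (Finset.mem_coe.mp hw)
    refine Finset.mem_coe.mpr (Finset.mem_product.mpr ⟨mem_sw.mpr ⟨?_, hs.take n, ?_⟩,
      mem_sw.mpr ⟨?_, hs.drop n, ?_⟩⟩)
    · rw [List.length_take, hl]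
      omega
    · apply hP [] (w.take n) (w.drop n)
      rw [List.nil_append, List.take_append_drop]
      exact hp
    · rw [List.length_drop, hl]
      omega
    · apply hP (w.take n) (w.drop n) []
      rw [List.append_nil, List.take_append_drop]
      exact hp
  · intro w _ v _ h
    have h1 : w.take n = v.take n := congrArg Prod.fst h
    have h2 : w.drop n = v.drop n := congrArg Prod.snd h
    rw [← List.take_append_drop n w, ← List.take_append_drop n v, h1, h2]

end SRW
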