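import Pool.Agent.SRW.St

/-!
# SRW, module TRA: words and functions
-/

set_option autoImplicit false

namespace SRW

open Finset

private lemma TRA_sum {d : ℕ} (s : Step d) : ∑ j : Fin d, |vec s j| = 1 := by
  rw [Finset.sum_eq_single s.1]
  · rcases s with ⟨k, b⟩
    cases b <;> simp [vec]
  · intro j _ hj
    simp [vec, hj]
  · intro h
    exact absurd (mem_univ _) h

private lemma TRA_step {d : ℕ} (z : Fin d → ℤ) (hz : ∑ j : Fin d, |z j| = 1) :
    ∃ s : Step d, vec s = z := by
  have h1 : ∃ k, z k ≠ 0 := by
    by_contra h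
    push Not at h
    rw [Finset.sum_eq_zero (fun j _ => by rw [h j, abs_zero])] at hz
    exact absurd hz (by norm_num)
  obtain ⟨k, hk⟩ := h1
  have h2 : |z k| + ∑ j ∈ univ.erase k, |z j| = 1 := by
    have h20 := Finset.add_sum_erase univ (fun j => |z j|) (mem_univ k)
    exact h20.trans hz
  have h3 : 1 ≤ |z k| := Int.one_le_abs hk
  have h4 : 0 ≤ ∑ j ∈ univ.erase k, |z j| := Finset.sum_nonneg (fun _ _ => abs_nonneg _)
  have h5 : ∑ j ∈ univ.erase k, |z j| = 0 := by omega
  have h6 : |z k| = 1 := by omega
  have h7 : ∀ j, j ≠ k → z j = 0 := by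
    intro j hj
    have := (Finset.sum_eq_zero_iff_of_nonneg (fun _ _ => abs_nonneg _)).mp h5 j
      (mem_erase.mpr ⟨hj, mem_univ j⟩)
    exact abs_eq_zero.mp this
  rcases (abs_eq (by norm_num : (0 : ℤ) ≤ 1)).mp h6 with h8 | h8
  · refine ⟨(k, true), ?_⟩
    funext j
    by_cases hj : j = k
    · subst hj
      simp [vec, h8]
    · simp [vec, hj, h7 j hj]
  · refine ⟨(k, false), ?_⟩
    funext j
    by_cases hj : j = k
    · subst hj
      simp [vec, h8]
    · simp [vec, hj, h7 j hj]

theorem thm_TRA : St_TRA := by
  intro d n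
  have hf : ∀ w : List (Step d), w ∈ saws d n →
      ((fun i : Fin (n + 1) => pos w i) 0 = 0 ∧
        Function.Injective (fun i : Fin (n + 1) => pos w (i : ℕ)) ∧
        ∀ i : Fin n, ∑ j : Fin d, |(fun i : Fin (n + 1) => pos w (i : ℕ)) i.succ j -
          (fun i : Fin (n + 1) => pos w (i : ℕ)) i.castSucc j| = 1) := by
    intro w hw
    obtain ⟨h1, h2⟩ := mem_saws.mp hw
    refine ⟨by simp, ?_, ?_⟩
    · intro i j hij
      have := h2.inj (i := i) (j := j) (by omega) (by omega) hij
      exact Fin.ext this
    · intro i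
      have h3 : (i : ℕ) < w.length := by omega
      have h4 := pos_succ_sub w h3
      have h5 : ∀ j : Fin d, |pos w ((i.succ : Fin (n + 1)) : ℕ) j -
          pos w ((i.castSucc : Fin (n + 1)) : ℕ) j| = |vec w[(i : ℕ)] j| := by
        intro j
        rw [Fin.val_succ, Fin.val_castSucc, h4]
        congr 1
        simp
      simp only [h5]
      exact TRA_sum _
  let f : {w // w ∈ saws d n} → {w : Fin (n + 1) → (Fin d → ℤ) //
      w 0 = 0 ∧ Function.Injective w ∧
        ∀ i : Fin n, ∑ j : Fin d, |w i.succ j - w i.castSucc j| = 1} :=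
    fun w => ⟨fun i => pos w.1 (i : ℕ), hf w.1 w.2⟩
  have hbij : Function.Bijective f := by
    constructor
    · rintro ⟨w, hw⟩ ⟨w', hw'⟩ h
      have h1 : ∀ i : ℕ, i ≤ n → pos w i = pos w' i := by
        intro i hi
        have := congrFun (congrArg Subtype.val h) ⟨i, by omega⟩
        exact this
      have l1 := (mem_saws.mp hw).1
      have l2 := (mem_saws.mp hw').1
      apply Subtype.ext
      apply List.ext_getElem (by rw [l1, l2])
      intro i hi hi'
      apply vec_injective
      have hin : i < n := l1 ▸ hi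
      have h2 := pos_succ_sub w hi
      have h3 := pos_succ_sub w' hi'
      rw [h1 (i + 1) (by omega), h1 i (by omega), h3] at h2
      exact (add_left_cancel h2).symm
    · rintro ⟨v, hv0, hvi, hvs⟩
      choose s hs using fun i : Fin n => TRA_step (fun j => v i.succ j - v i.castSucc j) (hvs i)
      have hlen : (List.ofFn s).length = n := by simp
      have hpos : ∀ i : ℕ, ∀ hi : i < n + 1, pos (List.ofFn s) i = v ⟨i, hi⟩ := by
        intro i
        induction i with
        | zero =>
          intro hi
          rw [pos_zero]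
          exact hv0.symm
        | succ i ih =>
          intro hi
          rw [pos_succ_sub _ (by rw [hlen]; omega), ih (by omega), List.getElem_ofFn, hs]
          funext j
          simp only [Pi.add_apply]
          have e1 : (⟨i, by omega⟩ : Fin n).succ = (⟨i + 1, hi⟩ : Fin (n + 1)) := rfl
          have e2 : (⟨i, by omega⟩ : Fin n).castSucc = (⟨i, by omega⟩ : Fin (n + 1)) := rfl
          rw [e1, e2]
          ring
      have hsaw : Saw (List.ofFn s) := by
        intro i j hij hj he
        rw [hlen] at hj
        rw [hpos i (by omega), hpos j (by omega)] at he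
        have := congrArg Fin.val (hvi he)
        simp only at this
        omega
      refine ⟨⟨List.ofFn s, mem_saws.mpr ⟨hlen, hsaw⟩⟩, ?_⟩
      apply Subtype.ext
      funext i
      exact hpos i i.2
  rw [← Nat.card_congr (Equiv.ofBijective f hbij), Nat.card_eq_fintype_card, Fintype.card_coe]
  rfl

end SRW
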