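import Pool.Agent.SRW.RES
import Pool.Agent.SRW.ENA
import Pool.Agent.SRW.ENB
import Pool.Agent.SRW.SUB
import Pool.Agent.SRW.MU
import Pool.Agent.SRW.BLA
import Pool.Agent.SRW.BLB
import Pool.Agent.SRW.GEO
import Pool.Agent.SRW.COV
import Pool.Agent.SRW.RIC
import Pool.Agent.SRW.MDF
import Pool.Agent.SRW.SGS
import Pool.Agent.SRW.DEC
import Pool.Agent.SRW.COA
import Pool.Agent.SRW.COB
import Pool.Agent.SRW.PIG
import Pool.Agent.SRW.NFU
import Pool.Agent.SRW.PAT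
import Pool.Agent.SRW.SLD
import Pool.Agent.SRW.SLB
import Pool.Agent.SRW.RTA
import Pool.Agent.SRW.RTB
import Pool.Agent.SRW.LOW
import Pool.Agent.SRW.RTC
import Pool.Agent.SRW.ANA
import Pool.Agent.SRW.KES
import Pool.Agent.SRW.SPT
import Pool.Agent.SRW.SNA
import Pool.Agent.SRW.SNB
import Pool.Agent.SRW.ROT
import Pool.Agent.SRW.SNC
import Pool.Agent.SRW.CLO
import Pool.Agent.SRW.AVG
import Pool.Agent.SRW.FIN
import Pool.Agent.SRW.TRA

/-!
# SRW: the final theorem (assembly)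
-/

set_option autoImplicit false

namespace SRW

theorem f_ENA : St_ENA := thm_ENA
theorem f_ENB : St_ENB := thm_ENB f_ENA
theorem f_SUB : St_SUB := thm_SUB
theorem f_MU : St_MU := thm_MU f_SUB
theorem f_BLA : St_BLA := thm_BLA
theorem f_BLB : St_BLB := thm_BLB f_BLA
theorem f_GEO : St_GEO := thm_GEO
theorem f_COV : St_COV := thm_COV
theorem f_RIC : St_RIC := thm_RIC
theorem f_MDF : St_MDF := thm_MDF f_RIC f_GEO
theorem f_SGS : St_SGS := thm_SGS
theorem f_DEC : St_DEC := thm_DEC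
theorem f_COA : St_COA := thm_COA f_MDF f_SGS f_DEC
theorem f_COB : St_COB := thm_COB f_COA
theorem f_PIG : St_PIG := thm_PIG
theorem f_NFU : St_NFU := thm_NFU f_MU f_BLB f_COV f_COB f_PIG
theorem f_PAT : St_PAT := thm_PAT f_NFU f_BLB f_MU
theorem f_SLD : St_SLD := thm_SLD
theorem f_SLB : St_SLB := thm_SLB
theorem f_RTA : St_RTA := thm_RTA f_SLD f_SLB
theorem f_RTB : St_RTB := thm_RTB f_SLD f_SLB
theorem f_LOW : St_LOW := thm_LOW
theorem f_RTC : St_RTC := thm_RTC f_MU f_PAT f_SLB f_RTA f_RTB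
theorem f_ANA : St_ANA := thm_ANA
theorem f_KES : St_KES := thm_KES f_MU f_LOW f_RTC f_ANA
theorem f_SPT : St_SPT := thm_SPT
theorem f_SNA : St_SNA := thm_SNA
theorem f_SNB : St_SNB := thm_SNB f_SPT
theorem f_ROT : St_ROT := thm_ROT
theorem f_SNC : St_SNC := thm_SNC f_MU f_SPT f_SNA f_SNB f_ROT
theorem f_CLO : St_CLO := thm_CLO f_MU f_SNC
theorem f_AVG : St_AVG := thm_AVG
theorem f_FIN : St_FIN := thm_FIN f_AVG
theorem f_TRA : St_TRA := thm_TRA
theorem f_RES : St_RES := thm_RES f_MU f_ENB f_KES f_CLO f_FIN f_TRA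

theorem final : St_RES := f_RES

end SRW
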