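import Pool.Agent.SRW.Defs

/-!
# SRW: basic lemmas on words, vertices and self-avoidance (all proved; to be used by all the modules)
-/

set_option autoImplicit false

namespace SRW

open Finset

variable {d : ℕ}

/-! ## membership -/

lemma mem_words {n : ℕ} {w : List (Step d)} : w ∈ words d n ↔ w.length = n := by
  simp [words]

lemma mem_saws {n : ℕ} {w : List (Step d)} : w ∈ saws d n ↔ w.length = n ∧ Saw w := by
  simp [saws, mem_words]

lemma mem_sw {n : ℕ} {P : List (Step d) → Prop} {w : List (Step d)} :
    w ∈ sw d n P ↔ w.length = n ∧ Saw w ∧ P w := by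
  simp [sw, mem_saws, and_assoc]

lemma mem_polys {n : ℕ} {w : List (Step d)} :
    w ∈ polys d n ↔ w.length = n ∧ disp w = 0 ∧ Saw w.dropLast := by
  simp [polys, mem_words]

/-! ## vectors and displacements -/

lemma opp_opp (s : Step d) : opp (opp s) = s := by simp [opp]

lemma opp_ne (s : Step d) : opp s ≠ s := by
  intro h
  have := congrArg Prod.snd h
  simp [opp] at this

lemma vec_opp (s : Step d) : vec (opp s) = -vec s := by
  funext j
  rcases s with ⟨k, b⟩
  by_cases h : j = k <;> cases b <;> simp [vec, opp, h]

lemma vec_ne_zero (s : Step d) : vec s ≠ 0 := by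
  intro h
  have := congrFun h s.1
  rcases s with ⟨k, b⟩
  cases b <;> simp [vec] at this

lemma vec_injective : Function.Injective (vec : Step d → Pt d) := by
  rintro ⟨k, b⟩ ⟨l, c⟩ h
  have h1 := congrFun h k
  by_cases hkl : k = l
  · subst hkl
    cases b <;> cases c <;> simp [vec] at h1 ⊢
  · exfalso
    cases b <;> simp [vec, hkl] at h1

lemma vec_eq_neg_iff (s t : Step d) : vec s = -vec t ↔ s = opp t := by
  rw [← vec_opp]
  exact ⟨fun h => vec_injective h, fun h => by rw [h]⟩

lemma abs_vec_le (s : Step d) (j : Fin d) : |vec s j| ≤ 1 := by
  rcases s with ⟨k, b⟩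
  by_cases h : j = k <;> cases b <;> simp [vec, h]

lemma card_step : Fintype.card (Step d) = 2 * d := by
  simp [Step, mul_comm]

@[simp] lemma disp_nil : disp ([] : List (Step d)) = 0 := rfl

@[simp] lemma disp_cons (s : Step d) (w : List (Step d)) : disp (s :: w) = vec s + disp w := by
  simp [disp]

@[simp] lemma disp_append (a b : List (Step d)) : disp (a ++ b) = disp a + disp b := by
  simp [disp]

lemma disp_rotate (w : List (Step d)) (i : ℕ) : disp (w.rotate i) = disp w := by
  unfold disp
  exact (List.Perm.map vec (List.rotate_perm w i)).sum_eq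

/-! ## vertices -/

@[simp] lemma pos_zero (w : List (Step d)) : pos w 0 = 0 := by simp [pos]

@[simp] lemma pos_length (w : List (Step d)) : pos w w.length = disp w := by simp [pos]

lemma pos_of_length_le (w : List (Step d)) {i : ℕ} (h : w.length ≤ i) : pos w i = disp w := by
  simp [pos, List.take_of_length_le h]

lemma pos_append_left (a b : List (Step d)) {i : ℕ} (h : i ≤ a.length) : pos (a ++ b) i = pos a i := by
  simp [pos, List.take_append_of_le_length h]

lemma pos_append_right (a b : List (Step d)) (i : ℕ) : pos (a ++ b) (a.length + i) = disp a + pos b i := by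
  simp [pos, List.take_append, List.take_of_length_le]

lemma pos_cons_succ (s : Step d) (w : List (Step d)) (i : ℕ) : pos (s :: w) (i + 1) = vec s + pos w i := by
  simp [pos]

/-- The vertices of `w.drop s` are the vertices of `w`, translated. -/
lemma pos_drop (w : List (Step d)) (s i : ℕ) (h : s ≤ w.length) : pos w (s + i) = pos w s + pos (w.drop s) i := by
  have h1 := pos_append_right (w.take s) (w.drop s) i
  rw [List.take_append_drop] at h1
  have h2 : (w.take s).length = s := by simp [h]
  rw [h2] at h1
  exact h1

/-- The vertices of the part of `w` which starts at index `s` and has length `m`. -/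
lemma pos_part (w : List (Step d)) (s m i : ℕ) (h : s ≤ w.length) (hi : i ≤ m) :
    pos w (s + i) = pos w s + pos ((w.drop s).take m) i := by
  rw [pos_drop w s i h]
  congr 1
  simp [pos, List.take_take, hi]

lemma pos_succ_sub (w : List (Step d)) {i : ℕ} (h : i < w.length) : pos w (i + 1) = pos w i + vec w[i] := by
  unfold pos
  rw [List.take_succ_eq_append_getElem h, disp_append]
  simp only [disp_cons, disp_nil, add_zero]

lemma abs_pos_succ_sub_le (w : List (Step d)) (i : ℕ) (j : Fin d) : |pos w (i + 1) j - pos w i j| ≤ 1 := by
  by_cases h : i < w.length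
  · rw [pos_succ_sub w h]
    simpa using abs_vec_le _ _
  · rw [pos_of_length_le w (by omega), pos_of_length_le w (by omega)]
    simp

/-! ## self-avoiding words -/

lemma saw_nil : Saw ([] : List (Step d)) := by
  intro i j hij hj
  simp at hj
  omega

lemma saw_singleton (s : Step d) : Saw [s] := by
  intro i j hij hj
  simp at hj
  have hi : i = 0 := by omega
  have hj' : j = 1 := by omega
  subst hi; subst hj'
  simp only [pos_zero]
  intro h
  apply vec_ne_zero s
  have : pos [s] 1 = vec s := by simp [pos]
  rw [← this, ← h]

lemma Saw.inj {w : List (Step d)} (h : Saw w) {i j : ℕ} (hi : i ≤ w.length) (hj : j ≤ w.length)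
    (he : pos w i = pos w j) : i = j := by
  rcases lt_trichotomy i j with h1 | h1 | h1
  · exact absurd he (h i j h1 hj)
  · exact h1
  · exact absurd he.symm (h j i h1 hi)

/-- Characterisation: no non-empty contiguous part has displacement zero. -/
lemma saw_iff {w : List (Step d)} : Saw w ↔ ∀ a u b, w = a ++ u ++ b → u ≠ [] → disp u ≠ 0 := by
  constructor
  · intro h a u b hw hu hd
    subst hw
    have h1 : a.length < a.length + u.length := by
      have := List.length_pos_of_ne_nil hu
      omega
    apply h a.length (a.length + u.length) h1 (by simp)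
    rw [List.append_assoc]
    have h2 : pos (a ++ (u ++ b)) a.length = disp a := by
      have := pos_append_right a (u ++ b) 0
      simpa using this
    have h3 : pos (a ++ (u ++ b)) (a.length + u.length) = disp a + disp u := by
      rw [pos_append_right, pos_append_left u b le_rfl, pos_length]
    rw [h2, h3, hd, add_zero]
  · intro h i j hij hj he
    apply h (w.take i) ((w.drop i).take (j - i)) (w.drop j)
    · have h1 : w.take i ++ (w.drop i).take (j - i) = w.take j := by
        have := List.take_add (l := w) (i := i) (j := j - i)
        rw [show i + (j - i) = j by omega] at this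
        exact this.symm
      rw [h1, List.take_append_drop]
    · intro h0
      have := congrArg List.length h0
      simp at this
      omega
    · have h1 := pos_part w i (j - i) (j - i) (by omega) le_rfl
      rw [show i + (j - i) = j by omega] at h1
      have h2 : pos ((w.drop i).take (j - i)) (j - i) = disp ((w.drop i).take (j - i)) :=
        pos_of_length_le _ (by simp)
      rw [h2, ← he] at h1
      exact (left_eq_add.mp h1)

lemma Saw.part {a v b : List (Step d)} (h : Saw (a ++ v ++ b)) : Saw v := by
  rw [saw_iff] at h ⊢
  intro a' u b' hv hu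
  exact h (a ++ a') u (b' ++ b) (by simp [hv, List.append_assoc]) hu

lemma Saw.left {a b : List (Step d)} (h : Saw (a ++ b)) : Saw a := by
  have : Saw ([] ++ a ++ b) := by simpa using h
  exact this.part

lemma Saw.right {a b : List (Step d)} (h : Saw (a ++ b)) : Saw b := by
  have : Saw (a ++ b ++ []) := by simpa using h
  exact this.part

lemma Saw.take {w : List (Step d)} (h : Saw w) (i : ℕ) : Saw (w.take i) := by
  have : Saw (w.take i ++ w.drop i) := by simpa using h
  exact this.left

lemma Saw.drop {w : List (Step d)} (h : Saw w) (i : ℕ) : Saw (w.drop i) := by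
  have : Saw (w.take i ++ w.drop i) := by simpa using h
  exact this.right

lemma Saw.tail {s : Step d} {w : List (Step d)} (h : Saw (s :: w)) : Saw w := by
  have : Saw ([s] ++ w) := by simpa using h
  exact this.right

lemma her_saw : Her (Saw : List (Step d) → Prop) := fun _ _ _ h => h.part

lemma her_NB : Her (NB : List (Step d) → Prop) := by
  rintro a v b h ⟨a', b', f, e, hv⟩
  exact h ⟨a ++ a', b' ++ b, f, e, by simp [hv]⟩

/-- A closed word: every proper non-empty contiguous part has displacement different from zero. -/
lemma poly_part {w a u b : List (Step d)} (h0 : disp w = 0) (h1 : Saw w.dropLast) (hw : w = a ++ u ++ b)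
    (hu : u ≠ []) (hp : u ≠ w) : disp u ≠ 0 := by
  intro hd
  by_cases hb : b = []
  · subst hb
    -- `a` is non-empty and has displacement zero
    have ha : a ≠ [] := by
      rintro rfl
      exact hp (by simpa using hw.symm)
    have had : disp a = 0 := by
      have := h0
      rw [hw] at this
      simpa [hd] using this
    rw [saw_iff] at h1
    apply h1 [] a (u.dropLast) _ ha had
    rw [hw]
    simp [List.dropLast_append_of_ne_nil hu]
  · rw [saw_iff] at h1
    apply h1 a u (b.dropLast) _ hu hd
    rw [hw, List.dropLast_append_of_ne_nil hb]

/-- Every proper contiguous part of a closed word is self-avoiding. -/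
lemma poly_saw {w a u b : List (Step d)} (h0 : disp w = 0) (h1 : Saw w.dropLast) (hw : w = a ++ u ++ b)
    (hp : u ≠ w) : Saw u := by
  rw [saw_iff]
  intro a' v b' hv hv0
  apply poly_part h0 h1 (a := a ++ a') (u := v) (b := b' ++ b) (by simp [hw, hv, List.append_assoc]) hv0
  rintro rfl
  have h2 := congrArg List.length hv
  have h3 := congrArg List.length hw
  simp at h2 h3
  have ha' : a' = [] := List.length_eq_zero_iff.mp (by omega)
  have hb' : b' = [] := List.length_eq_zero_iff.mp (by omega)
  subst ha'; subst hb'
  exact hp (by simpa using hv)

end SRW
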