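import Mathlib

/-!
# SRW (MP_55bc5d_pr, ratio limit for self-avoiding walk counts): definitions

Architect: helper43. Walks are words in the `2 d` unit steps of `Z^d` (so translations are factored out).

THEOREM (final file). For every `d ≥ 2`, with `q = 2 d - 1`, all the limit points of `c_{n+1} / c_n` lie in
`[2 q μ² / (q² + μ²), (q² + μ²) / (2 q)]`.
-/

set_option autoImplicit false

namespace SRW

open Finset

/-- Lattice points. -/
abbrev Pt (d : ℕ) : Type := Fin d → ℤ

/-- Unit steps: a coordinate and a sign. -/
abbrev Step (d : ℕ) : Type := Fin d × Bool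

/-- The vector of a step. -/
def vec {d : ℕ} (s : Step d) : Pt d := fun j => if j = s.1 then (if s.2 then 1 else -1) else 0

/-- The opposite step. -/
def opp {d : ℕ} (s : Step d) : Step d := (s.1, !s.2)

/-- The displacement of a word. -/
def disp {d : ℕ} (w : List (Step d)) : Pt d := (w.map vec).sum

/-- The vertex of index `i` of a word. -/
def pos {d : ℕ} (w : List (Step d)) (i : ℕ) : Pt d := disp (w.take i)

/-- Self-avoiding words: the vertices `pos w 0, ..., pos w w.length` are distinct. -/
def Saw {d : ℕ} (w : List (Step d)) : Prop := ∀ i j, i < j → j ≤ w.length → pos w i ≠ pos w j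

/-- The words of length `n`. -/
noncomputable def words (d n : ℕ) : Finset (List (Step d)) := (List.finite_length_eq (Step d) n).toFinset

open Classical in
/-- The self-avoiding words of length `n`. -/
noncomputable def saws (d n : ℕ) : Finset (List (Step d)) := (words d n).filter Saw

open Classical in
/-- The self-avoiding words of length `n` with a property. -/
noncomputable def sw (d n : ℕ) (P : List (Step d) → Prop) : Finset (List (Step d)) := (saws d n).filter P

/-- The number of self-avoiding walks of `n` steps. -/
noncomputable def c (d n : ℕ) : ℕ := (saws d n).card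

open Classical in
/-- Closed words: displacement `0`, and self-avoiding without the last step (used for `n ≥ 1` only). -/
noncomputable def polys (d n : ℕ) : Finset (List (Step d)) :=
  (words d n).filter (fun w => disp w = 0 ∧ Saw w.dropLast)

/-- The number of closed words. -/
noncomputable def el (d n : ℕ) : ℕ := (polys d n).card

/-- The connective constant. -/
noncomputable def mu (d : ℕ) : ℝ := ⨅ n : ℕ, (c d (n + 1) : ℝ) ^ (1 / ((n : ℝ) + 1))

/-- Properties inherited by contiguous parts. -/
def Her {d : ℕ} (P : List (Step d) → Prop) : Prop := ∀ a v b, P (a ++ v ++ b) → P v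

open Classical in
/-- The number of ways to extend a word by one step at its end. -/
noncomputable def fe {d : ℕ} (w : List (Step d)) : ℕ := ((univ : Finset (Step d)).filter (fun t => Saw (w ++ [t]))).card

open Classical in
/-- The number of ways to extend a word by one step at its start. -/
noncomputable def fs {d : ℕ} (w : List (Step d)) : ℕ := ((univ : Finset (Step d)).filter (fun s => Saw (s :: w))).card

/-! ## Blocks -/

/-- The block of index `t` of length `M`. -/
def blk {d : ℕ} (M : ℕ) (w : List (Step d)) (t : ℕ) : List (Step d) := (w.drop (t * M)).take M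

open Classical in
/-- The number of the blocks of index `t < N` without property `R`. -/
noncomputable def rho {d : ℕ} (R : List (Step d) → Prop) (M N : ℕ) (w : List (Step d)) : ℕ :=
  ((range N).filter (fun t => ¬ R (blk M w t))).card

/-! ## Bumps (three steps `f, e, -f`) -/

/-- The word contains a bump. -/
def HasBump {d : ℕ} (w : List (Step d)) : Prop := ∃ a b f e, w = a ++ [f, e, opp f] ++ b

/-- No bump. -/
def NB {d : ℕ} (w : List (Step d)) : Prop := ¬ HasBump w

open Classical in
/-- The positions of the bumps. -/
noncomputable def vsl {d : ℕ} (w : List (Step d)) : Finset ℕ :=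
  (range w.length).filter (fun i => ∃ f e b, w.drop i = f :: e :: opp f :: b)

/-- The number of bumps. -/
noncomputable def nb {d : ℕ} (w : List (Step d)) : ℕ := (vsl w).card

/-- The position of the first bump. -/
noncomputable def fb {d : ℕ} (w : List (Step d)) : ℕ := sInf {i | ∃ f e b, w.drop i = f :: e :: opp f :: b}

/-- Replace the step `e` of index `i` by the bump `f, e, -f`. -/
def ins {d : ℕ} (w : List (Step d)) (i : ℕ) (f : Step d) : List (Step d) :=
  w.take i ++ f :: ((w.drop i).take 1 ++ opp f :: w.drop (i + 1))

/-- Replace the three steps of index `i, i+1, i+2` by the middle one. -/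
def del {d : ℕ} (w : List (Step d)) (i : ℕ) : List (Step d) :=
  w.take i ++ ((w.drop (i + 1)).take 1 ++ w.drop (i + 3))

open Classical in
/-- The slots: where a bump can be inserted. -/
noncomputable def us {d : ℕ} (w : List (Step d)) : Finset (ℕ × Step d) :=
  ((range w.length) ×ˢ (univ : Finset (Step d))).filter (fun p => Saw (ins w p.1 p.2))

/-- The number of slots. -/
noncomputable def nu {d : ℕ} (w : List (Step d)) : ℕ := (us w).card

/-! ## Cubes of side three -/

/-- `p` is in the cube with centre `z`. -/
def InCube {d : ℕ} (z p : Pt d) : Prop := ∀ j, |p j - z j| ≤ 1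

open Classical in
/-- The number of vertices in the cube around the vertex of index `i`. -/
noncomputable def cov {d : ℕ} (w : List (Step d)) (i : ℕ) : ℕ :=
  ((range (w.length + 1)).filter (fun j => InCube (pos w i) (pos w j))).card

/-- All the cubes around vertices contain at most `k` vertices. -/
def Cov {d : ℕ} (k : ℕ) (w : List (Step d)) : Prop := ∀ i ≤ w.length, cov w i ≤ k

/-- The first index whose cube contains at least `k` vertices. -/
noncomputable def ctr {d : ℕ} (k : ℕ) (B : List (Step d)) : ℕ := sInf {i | i ≤ B.length ∧ k ≤ cov B i}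

/-- Residue class modulo three. -/
def res {d : ℕ} (z : Pt d) : Fin d → ZMod 3 := fun j => (z j : ZMod 3)

open Classical in
/-- The blocks of the group `g` (indices `g G + b`, `b < G`) where we may put a bump. -/
noncomputable def opt {d : ℕ} (k M G K : ℕ) (κ : Fin d → ZMod 3) (w : List (Step d)) (g : ℕ) : Finset ℕ :=
  (range G).filter (fun b => 1 ≤ g * G + b ∧ g * G + b + 2 ≤ K * G ∧ ctr k (blk M w (g * G + b)) ≤ M ∧
    k ≤ cov (blk M w (g * G + b)) (ctr k (blk M w (g * G + b))) ∧
    res (pos w ((g * G + b) * M + ctr k (blk M w (g * G + b)))) = κ)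

/-! ## Generating functions of the extensions -/

open Classical in
/-- The number of extensions by `k` steps at the end. -/
noncomputable def ext {d : ℕ} (w : List (Step d)) (k : ℕ) : ℕ :=
  ((words d k).filter (fun η => Saw (w ++ η))).card

open Classical in
/-- The number of closed words of length `w.length + k + 1` which start with `w`. -/
noncomputable def cl {d : ℕ} (w : List (Step d)) (k : ℕ) : ℕ :=
  ((polys d (w.length + k + 1)).filter (fun u => u.take w.length = w)).card

/-- Generating function of the extensions of `w` of total length at most `m`. -/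
noncomputable def Z {d : ℕ} (x : ℝ) (m : ℕ) (w : List (Step d)) : ℝ :=
  ∑ k ∈ range (m + 1 - w.length), x ^ k * (ext w k : ℝ)

/-- Generating function of the closing extensions of `w`. -/
noncomputable def Zc {d : ℕ} (x : ℝ) (m : ℕ) (w : List (Step d)) : ℝ :=
  ∑ k ∈ range (m + 1 - w.length), x ^ k * (cl w k : ℝ)

/-- `∑_{n ≤ m} (n+1) x^n c_n`. -/
noncomputable def Xi (d : ℕ) (x : ℝ) (m : ℕ) : ℝ := ∑ n ∈ range (m + 1), ((n : ℝ) + 1) * x ^ n * (c d n : ℝ)

/-- `∑_{n ≤ m} (n+1) x^n ℓ_{n+1}`. -/
noncomputable def La (d : ℕ) (x : ℝ) (m : ℕ) : ℝ := ∑ n ∈ range (m + 1), ((n : ℝ) + 1) * x ^ n * (el d (n + 1) : ℝ)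

/-- `∑_{n ≤ m} x^n ℓ_{n+1}`. -/
noncomputable def Lp (d : ℕ) (x : ℝ) (m : ℕ) : ℝ := ∑ n ∈ range (m + 1), x ^ n * (el d (n + 1) : ℝ)

end SRW
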