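import Pool.Agent.SRW.Base

/-!
# SRW: further definitions (segments, decoding)
-/

set_option autoImplicit false

namespace SRW

open Finset

variable {d : ℕ}

/-- A list of segments `(a, b, o)`: the word is the concatenation of the `a`, the new word is the concatenation of the `b`. `o = none`:
the segment is kept. `o = some z`: the segment is replaced, inside of the cube of centre `z`. `w` is the whole old word, `s` is the
index in `w` of the start of the first segment of the list. -/
def SegOK (w : List (Step d)) : ℕ → List (List (Step d) × List (Step d) × Option (Pt d)) → Prop
  | _, [] => True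
  | s, (a, b, none) :: l => a = b ∧ SegOK w (s + a.length) l
  | s, (a, b, some z) :: l => Saw b ∧ disp b = disp a ∧
      (∀ i ≤ w.length, InCube z (pos w i) → s ≤ i ∧ i ≤ s + a.length) ∧
      (∀ j ≤ b.length, InCube z (pos w s + pos b j)) ∧ SegOK w (s + a.length) l

/-- Decoding of the old word. The groups have length `m`. A code `some (r, l, O)` of a group: the new group `B` has length
`m - O.length + l`, its replaced part starts at index `fb B + r - L` and has length `l`, and the old part is `O`. -/
noncomputable def decW (m L : ℕ) : List (Option (ℕ × ℕ × List (Step d))) → List (Step d) → List (Step d)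
  | [], _ => []
  | none :: D, v => v.take m ++ decW m L D (v.drop m)
  | some (r, l, O) :: D, v =>
      (v.take (m - O.length + l)).take (fb (v.take (m - O.length + l)) + r - L) ++
        (O ++ ((v.take (m - O.length + l)).drop (fb (v.take (m - O.length + l)) + r - L + l) ++
          decW m L D (v.drop (m - O.length + l))))

/-- Decoding of the choice. -/
noncomputable def decS (m L M : ℕ) : List (Option (ℕ × ℕ × List (Step d))) → List (Step d) → List (Option ℕ)
  | [], _ => []
  | none :: D, v => none :: decS m L M D (v.drop m)
  | some (r, l, O) :: D, v =>
      some ((fb (v.take (m - O.length + l)) + r - L) / M) :: decS m L M D (v.drop (m - O.length + l))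

/-- The sum of the inequality of Kesten type. -/
noncomputable def FF (d n : ℕ) : ℝ := ∑ w ∈ saws d n, (nu w : ℝ) / ((nb w : ℝ) + 2 * (10 * d + 5))

end SRW
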