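import Pool.Agent.SRW.St

/-!
# SRW, module PAT: the words with few bumps have a smaller growth
-/

set_option autoImplicit false

namespace SRW

open Finset

variable {d : ℕ}

private lemma PAT_blk_take (M N t : ℕ) (w : List (Step d)) (ht : t < N) :
    blk M (w.take (N * M)) t = blk M w t := by
  unfold blk
  rw [List.drop_take, List.take_take]
  have h : (t + 1) * M ≤ N * M := Nat.mul_le_mul_right M ht
  rw [add_mul, one_mul] at h
  congr 1
  omega

open Classical in
private lemma PAT_rho_take (R : List (Step d) → Prop) (M N : ℕ) (w : List (Step d)) :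
    rho R M N (w.take (N * M)) = rho R M N w := by
  unfold rho
  congr 1
  apply filter_congr
  intro t ht
  rw [PAT_blk_take M N t w (mem_range.mp ht)]

/-- Blocks with bumps give bumps. -/
private lemma PAT_rho_le (M N : ℕ) (hM : 1 ≤ M) (w : List (Step d)) :
    rho NB M N w ≤ nb w := by
  classical
  have hsub : (range N).filter (fun t => ¬ NB (blk M w t)) ⊆ (vsl w).image (fun i => i / M) := by
    intro t ht
    have h1 : HasBump (blk M w t) := not_not.mp (mem_filter.mp ht).2
    obtain ⟨a, b, f, e, hab⟩ := h1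
    have hlen : a.length + 3 + b.length ≤ M := by
      have h2 := congrArg List.length hab
      have h3 : (blk M w t).length ≤ M := by
        unfold blk
        exact List.length_take_le _ _
      rw [List.length_append, List.length_append] at h2
      have h4 : ([f, e, opp f] : List (Step d)).length = 3 := rfl
      rw [h4] at h2
      omega
    have hdrop : w.drop (t * M + a.length) = f :: e :: opp f :: (b ++ (w.drop (t * M)).drop M) := by
      have h2 : w.drop (t * M) = (blk M w t) ++ (w.drop (t * M)).drop M := by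
        unfold blk
        exact (List.take_append_drop M (w.drop (t * M))).symm
      have h3 : w.drop (t * M + a.length) = (w.drop (t * M)).drop a.length := by
        rw [List.drop_drop]
      generalize (w.drop (t * M)).drop M = rest at h2 ⊢
      rw [h3, h2, hab, List.append_assoc, List.append_assoc, List.drop_left]
      rfl
    rw [mem_image]
    refine ⟨t * M + a.length, ?_, ?_⟩
    · unfold vsl
      rw [mem_filter]
      refine ⟨?_, f, e, _, hdrop⟩
      rw [mem_range]
      by_contra hc
      rw [List.drop_of_length_le (by omega)] at hdrop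
      exact absurd hdrop (by simp)
    · show (t * M + a.length) / M = t
      rw [mul_comm t M, Nat.mul_add_div (by omega), Nat.div_eq_of_lt (by omega), add_zero]
  unfold rho nb
  calc _ ≤ ((vsl w).image (fun i => i / M)).card := card_le_card hsub
    _ ≤ (vsl w).card := card_image_le

/-- **PAT.** -/
theorem thm_PAT (hNFU : St_NFU) (hBLB : St_BLB) (hMU : St_MU) : St_PAT := by
  classical
  intro d hd
  obtain ⟨hmu1, -, -, hc0, -, hcs, -, -⟩ := hMU d (by omega)
  obtain ⟨M, hM1, hlt⟩ := hNFU d hd
  have hlt' : ((sw d M (fun v => True ∧ NB v)).card : ℝ) < mu d ^ M := by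
    have e : sw d M (fun v => True ∧ NB v) = sw d M (NB : List (Step d) → Prop) := by
      ext v
      rw [mem_sw, mem_sw]
      simp
    rw [e]
    exact hlt
  obtain ⟨a', η', ha', hη0, hη1, hN⟩ :=
    hBLB d M (fun _ => True) NB (mu d ^ M) (fun _ _ _ _ => trivial) hlt'
  have hMr : (0 : ℝ) < M := by exact_mod_cast (by omega : 0 < M)
  have hmu0 : (0 : ℝ) < mu d := lt_of_lt_of_le one_pos hmu1
  -- the growth of `c`
  have hcr : ∀ r : ℕ, (c d r : ℝ) ≤ (2 * (d : ℝ)) ^ r := by
    intro r
    induction r with
    | zero => rw [hc0]; simp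
    | succ r ih =>
      have h1 : (c d (r + 1) : ℝ) ≤ 2 * (d : ℝ) * (c d r : ℝ) := by exact_mod_cast hcs r
      calc (c d (r + 1) : ℝ) ≤ 2 * (d : ℝ) * (c d r : ℝ) := h1
        _ ≤ 2 * (d : ℝ) * (2 * (d : ℝ)) ^ r := mul_le_mul_of_nonneg_left ih (by positivity)
        _ = (2 * (d : ℝ)) ^ (r + 1) := by rw [pow_succ]; ring
  have hd1 : (1 : ℝ) ≤ 2 * (d : ℝ) := by
    have : (2 : ℝ) ≤ d := by exact_mod_cast hd
    linarith
  set η : ℝ := η' ^ (1 / (M : ℝ)) with hη
  have hηpos : 0 < η := Real.rpow_pos_of_pos hη0 _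
  have hηlt : η < 1 := Real.rpow_lt_one hη0.le hη1 (by positivity)
  have hηM : η ^ M = η' := by
    rw [hη, ← Real.rpow_natCast, ← Real.rpow_mul hη0.le, one_div, inv_mul_cancel₀ hMr.ne', Real.rpow_one]
  have hηMpos : 0 < η ^ M := pow_pos hηpos M
  refine ⟨a' / (2 * M), η, (2 * (d : ℝ)) ^ M / η ^ M, by positivity, hηpos, hηlt,
    div_pos (pow_pos (by linarith) M) hηMpos, ?_⟩
  intro n
  set N : ℕ := n / M with hNdef
  have hnr : N * M + n % M = n := Nat.div_add_mod' n M
  have hrM : n % M < M := Nat.mod_lt _ (by omega)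
  set r : ℕ := n % M with hrdef
  -- the map
  let e : List (Step d) → List (Step d) × List (Step d) := fun w => (w.take (N * M), w.drop (N * M))
  have hinj : Set.InjOn e (sw d n (fun w => (nb w : ℝ) < a' / (2 * M) * n) : Set (List (Step d))) := by
    intro w _ w' _ h
    have h1 := congrArg Prod.fst h
    have h2 := congrArg Prod.snd h
    simp only [e] at h1 h2
    rw [← List.take_append_drop (N * M) w, ← List.take_append_drop (N * M) w', h1, h2]
  have himg : (sw d n (fun w => (nb w : ℝ) < a' / (2 * M) * n)).image e ⊆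
      sw d (N * M) (fun w => True ∧ (rho NB M N w : ℝ) ≤ a' * N) ×ˢ saws d r := by
    intro x hx
    rw [mem_image] at hx
    obtain ⟨w, hw, rfl⟩ := hx
    rw [mem_sw] at hw
    obtain ⟨hl, hs, hb⟩ := hw
    rw [mem_product, mem_sw, mem_saws]
    refine ⟨⟨?_, hs.take _, trivial, ?_⟩, ?_, hs.drop _⟩
    · simp only [e, List.length_take, hl]
      omega
    · show (rho NB M N (w.take (N * M)) : ℝ) ≤ a' * N
      rw [PAT_rho_take]
      rcases Nat.eq_zero_or_pos N with h0 | h0
      · rw [h0]
        simp [rho]
      · have h1 : (rho NB M N w : ℝ) ≤ (nb w : ℝ) := by exact_mod_cast PAT_rho_le M N hM1 w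
        have h2 : (n : ℝ) ≤ 2 * N * M := by
          have : n ≤ 2 * N * M := by
            have h3 : M ≤ N * M := Nat.le_mul_of_pos_left M h0
            have h4 : 2 * N * M = N * M + N * M := by ring
            omega
          exact_mod_cast this
        have h5 : a' / (2 * M) * n ≤ a' * N := by
          calc a' / (2 * M) * n ≤ a' / (2 * M) * (2 * N * M) :=
                mul_le_mul_of_nonneg_left h2 (by positivity)
            _ = a' * N := by field_simp
        linarith
    · simp only [e, List.length_drop, hl]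
      omega
  have hcard : ((sw d n (fun w => (nb w : ℝ) < a' / (2 * M) * n)).card : ℝ) ≤
      ((sw d (N * M) (fun w => True ∧ (rho NB M N w : ℝ) ≤ a' * N)).card : ℝ) * (c d r : ℝ) := by
    rw [← card_image_of_injOn hinj]
    have := card_le_card himg
    rw [card_product] at this
    unfold c
    exact_mod_cast this
  have h1 := hN N
  have hcr' : (c d r : ℝ) ≤ (2 * (d : ℝ)) ^ M :=
    (hcr r).trans (pow_le_pow_right₀ hd1 hrM.le)
  have hgrow : (η' * mu d ^ M) ^ N ≤ (η * mu d) ^ n / η ^ M := by
    rw [le_div_iff₀ hηMpos, ← hηM, ← mul_pow, ← pow_mul, mul_comm M N]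
    calc (η * mu d) ^ (N * M) * η ^ M ≤ (η * mu d) ^ (N * M) * (η * mu d) ^ r := by
          apply mul_le_mul_of_nonneg_left _ (by positivity)
          calc η ^ M ≤ η ^ r := pow_le_pow_of_le_one hηpos.le hηlt.le hrM.le
            _ ≤ (η * mu d) ^ r := by
                apply pow_le_pow_left₀ hηpos.le
                exact le_mul_of_one_le_right hηpos.le hmu1
      _ = (η * mu d) ^ n := by rw [← pow_add, hnr]
  calc ((sw d n (fun w => (nb w : ℝ) < a' / (2 * M) * n)).card : ℝ)
      ≤ ((sw d (N * M) (fun w => True ∧ (rho NB M N w : ℝ) ≤ a' * N)).card : ℝ) * (c d r : ℝ) := hcard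
    _ ≤ (η' * mu d ^ M) ^ N * (2 * (d : ℝ)) ^ M :=
        mul_le_mul h1 hcr' (Nat.cast_nonneg _) (by positivity)
    _ ≤ (η * mu d) ^ n / η ^ M * (2 * (d : ℝ)) ^ M :=
        mul_le_mul_of_nonneg_right hgrow (by positivity)
    _ = (2 * (d : ℝ)) ^ M / η ^ M * (η * mu d) ^ n := by ring

end SRW
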