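import Pool.Agent.SRW.St

/-!
# SRW: assembly from the statements of the modules (helper43)
-/

set_option autoImplicit false

namespace SRW

open Finset Filter

/-- The final statement. -/
def St_RES : Prop := ∀ d : ℕ, 2 ≤ d →
  ∀ c : ℕ → ℝ,
    (∀ n : ℕ, c n = (Nat.card {w : Fin (n + 1) → (Fin d → ℤ) //
        w 0 = 0 ∧ Function.Injective w ∧
        ∀ i : Fin n, ∑ j : Fin d, |w i.succ j - w i.castSucc j| = 1} : ℝ)) →
    ∃ μ : ℝ, 1 ≤ μ ∧
      Tendsto (fun n : ℕ => c n ^ ((1 : ℝ) / (n : ℝ))) atTop (nhds μ) ∧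
      ∀ ε : ℝ, 0 < ε → ∀ᶠ n : ℕ in atTop,
        2 * (2 * (d : ℝ) - 1) * μ ^ 2 / ((2 * (d : ℝ) - 1) ^ 2 + μ ^ 2) - ε ≤ c (n + 1) / c n ∧
        c (n + 1) / c n ≤ ((2 * (d : ℝ) - 1) ^ 2 + μ ^ 2) / (2 * (2 * (d : ℝ) - 1)) + ε

theorem thm_RES (hMU : St_MU) (hENB : St_ENB) (hKES : St_KES) (hCLO : St_CLO) (hFIN : St_FIN) (hTRA : St_TRA) :
    St_RES := by
  intro d hd cc hcc
  have hd1 : 1 ≤ d := by omega
  obtain ⟨hμ1, hμn, hc1, hc0, -, hcS, hlim, -⟩ := hMU d hd1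
  have hcc' : ∀ n, cc n = (c d n : ℝ) := by
    intro n; rw [hcc n, hTRA d n]
  have hfun : cc = fun n => (c d n : ℝ) := funext hcc'
  subst hfun
  set q : ℝ := 2 * (d : ℝ) - 1 with hq
  have hd' : (2 : ℝ) ≤ (d : ℝ) := by exact_mod_cast hd
  have hq1 : 1 ≤ q := by rw [hq]; linarith
  set μ : ℝ := mu d with hμ
  refine ⟨μ, hμ1, hlim, ?_⟩
  have hpos : ∀ n, (0 : ℝ) < (c d n : ℝ) := fun n => by exact_mod_cast hc1 n
  -- upper bound
  have hup : ∀ η : ℝ, 0 < η → ∀ᶠ n in atTop, (c d (n + 1) : ℝ) / (c d n : ℝ) ≤ (q ^ 2 + μ ^ 2) / (2 * q) + η := by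
    apply hFIN (fun n => (c d n : ℝ)) (fun n => (el d n : ℝ)) μ q hμ1 hq1
    · simp [hc0]
    · exact hμn
    · intro n; positivity
    · intro n
      have := hcS n
      have h2 : (c d (n + 1) : ℝ) ≤ 2 * d * c d n := by exact_mod_cast this
      rw [hq]
      calc (c d (n + 1) : ℝ) ≤ 2 * d * c d n := h2
        _ = (2 * (d : ℝ) - 1 + 1) * (c d n : ℝ) := by ring
    · exact hKES d hd
    · intro n
      have := hENB d n hd1
      rw [hq]
      exact this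
    · intro δ hδ
      obtain ⟨ε0, hε0, h⟩ := hCLO d δ hd1 hδ
      refine ⟨ε0, hε0, ?_⟩
      obtain ⟨n1, hn1⟩ := h ε0 hε0 le_rfl
      refine ⟨n1, fun m0 hm0 => ?_⟩
      have := hn1 m0 hm0
      simpa [La, Xi] using this
  have hμpos : 0 < μ := by linarith
  have hqpos : 0 < q := by linarith
  -- lower bound
  intro ε hε
  set A : ℝ := (q ^ 2 + μ ^ 2) / (2 * q) with hA
  have hApos : 0 < A := by positivity
  have hlow_eq : 2 * q * μ ^ 2 / (q ^ 2 + μ ^ 2) = μ ^ 2 / A := by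
    rw [hA]; field_simp
  -- choose `η` with `(μ² - η) / (A + η) ≥ μ²/A - ε`
  have hcont : Tendsto (fun η : ℝ => (μ ^ 2 - η) / (A + η)) (nhds 0) (nhds (μ ^ 2 / A)) := by
    have h1 : ContinuousAt (fun η : ℝ => (μ ^ 2 - η) / (A + η)) 0 := by
      apply ContinuousAt.div
      · fun_prop
      · fun_prop
      · simp; exact hApos.ne'
    have h2 := h1.tendsto
    simpa using h2
  have hev : ∀ᶠ η in nhds (0 : ℝ), μ ^ 2 / A - ε < (μ ^ 2 - η) / (A + η) :=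
    hcont.eventually (lt_mem_nhds (by linarith))
  obtain ⟨η0, hη0, hη0'⟩ := Metric.eventually_nhds_iff.mp hev
  set η : ℝ := min (η0 / 2) (min ε (μ ^ 2 / 2)) with hη
  have hηpos : 0 < η := by
    rw [hη]; positivity
  have hη1 : η < η0 := lt_of_le_of_lt (min_le_left _ _) (by linarith)
  have hη2 : η ≤ ε := le_trans (min_le_right _ _) (min_le_left _ _)
  have hη3 : η ≤ μ ^ 2 / 2 := le_trans (min_le_right _ _) (min_le_right _ _)
  have hkey : μ ^ 2 / A - ε < (μ ^ 2 - η) / (A + η) := by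
    apply hη0'
    rw [Real.dist_eq, sub_zero, abs_of_pos hηpos]
    exact hη1
  have hK := (hKES d hd).eventually (lt_mem_nhds (show μ ^ 2 - η < μ ^ 2 by linarith))
  have hU := hup η hηpos
  have hU' : ∀ᶠ n in atTop, (c d (n + 1 + 1) : ℝ) / (c d (n + 1) : ℝ) ≤ A + η :=
    (tendsto_add_atTop_nat 1).eventually hU
  filter_upwards [hK, hU, hU'] with n h1 h2 h3
  refine ⟨?_, by linarith⟩
  rw [hlow_eq]
  have e1 : (c d (n + 1) : ℝ) / (c d n : ℝ) =
      ((c d (n + 2) : ℝ) / (c d n : ℝ)) / ((c d (n + 1 + 1) : ℝ) / (c d (n + 1) : ℝ)) := by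
    have p0 := (hpos n).ne'
    have p1 := (hpos (n + 1)).ne'
    have p2 := (hpos (n + 2)).ne'
    rw [show n + 1 + 1 = n + 2 from rfl]
    field_simp
  have hr2pos : 0 < (c d (n + 1 + 1) : ℝ) / (c d (n + 1) : ℝ) := div_pos (hpos _) (hpos _)
  have h4 : (μ ^ 2 - η) / (A + η) ≤ (c d (n + 1) : ℝ) / (c d n : ℝ) := by
    rw [e1]
    apply div_le_div₀
    · positivity
    · exact h1.le
    · exact hr2pos
    · exact h3
  linarith

end SRW
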