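import Pool.Agent.SRW.Defs2

/-!
# SRW (MP_55bc5d_pr): statements of the modules, with complete proofs in the docstrings

THEOREM. Let `d ≥ 2`, `q = 2 d - 1`, `c_n` the number of `n`-step self-avoiding walks of `Z^d`, `μ = lim c_n^{1/n}`. Then
`2 q μ² / (q² + μ²) ≤ liminf c_{n+1} / c_n ≤ limsup c_{n+1} / c_n ≤ (q² + μ²) / (2 q)`.
(For `d = 2`: the limit points are within 0.84 percent of `μ`; `d = 3`: 0.21 percent; `d = 4`: 0.06 percent. Trivial bounds: `[μ²/q, q]`.)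

THREE PARTS.

(I) Ends (ENA, ENB). For a walk `w` let `f_s`, `f_e` be the numbers of ways to extend it by one step at its start, at its end. Then
`∑ f_s = ∑ f_e = c_{n+1}` and `∑ f_s f_e = c_{n+2} + ℓ_{n+2}` (`ℓ_N`: closed words of length `N`), so
`0 ≤ ∑ (q - f_s) (q - f_e) = q² c_n - 2 q c_{n+1} + c_{n+2} + ℓ_{n+2}` for all `n`.

(II) Kesten's theorem `c_{n+2} / c_n → μ²` (SUB ... KES), with a short proof of the pattern theorem for the bump `f, e, -f`: among the classes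
`NB ∧ Cov k` (no bump; at most `k` vertices in each cube of side three around a vertex) let `k` be minimal such that the class has full growth
(if `NB` had); then there are many places where the cube is visited only during a short time interval, where a bump can be inserted.

(III) Closed words are rare in an averaged sense (SPT ... CLO): with `x = exp ε / μ`,
`∑_{n ≤ N} (n+1) x^n ℓ_{n+1} ≤ δ ∑_{n ≤ N} (n+1) x^n c_n` for `ε ≤ ε0(δ)`, `N ≥ N0(δ, ε)`. Idea: for a word `w` let `Z(w) = ∑ x^|η|` over the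
extensions `η` at its end (total length `≤ N`), `Q(w)` the fraction of the closing ones. Deleting the first step of `w` multiplies `Z` by at least
`1 + x Q(w)`. After `I` deletions: at least `∏ (1 + x Q)`; but the total increase is at most `x^I c_I = e^{o(I)}` on the average; on a closed word the
law of the parts is invariant under rotation, so if closed words had a positive fraction `δ` the increase would be exponential in `I`.

Final part (AVG, FIN): average (I) over `n ≡ N mod 2`, `n ≤ N` with the weights `(n+1) x^n`, which concentrate near `N`.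

CONVENTIONS. Words are lists of steps; `pos w i` is the vertex of index `i` (`pos w 0 = 0`); `Saw w`: the vertices are distinct; equivalently
(`saw_iff` in Base) no non-empty contiguous part has displacement zero. The lemmas of `Base.lean` are proved. The module `XXX` has to
prove `St_XXX`; hypotheses `(hYYY : St_YYY)` are available as listed in the offer.
-/

set_option autoImplicit false

namespace SRW

open Finset Filter

/-! ## Part I -/

/-- [ENA] PROOF. `∑ fe`: pairs `(w, t)` with `w ++ [t]` self-avoiding are the self-avoiding words of length `n + 1` (a word `v` of length `n + 1` is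
`v.dropLast ++ [last]`, and `v.dropLast` is self-avoiding). `∑ fs`: the same with `s :: w`. Third identity: it counts the triples `(s, w, t)` with
`Saw (s :: w)` and `Saw (w ++ [t])` (then `Saw w`). Let `u = s :: w ++ [t]`, of length `n + 2`. If `disp u ≠ 0` then `u` is self-avoiding: a non-empty
contiguous part of `u` different from `u` is a part of `s :: w` or of `w ++ [t]`. If `disp u = 0` then `u` is in `polys d (n + 2)` since `u.dropLast = s :: w`.
Conversely a self-avoiding word `u` of length `n + 2` gives such a triple, and so does `u` in `polys d (n + 2)` (`u.dropLast` is self-avoiding by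
definition and `u.tail` by `poly_saw`). -/
def St_ENA : Prop := ∀ (d n : ℕ),
  (∑ w ∈ saws d n, fe w = c d (n + 1)) ∧ (∑ w ∈ saws d n, fs w = c d (n + 1)) ∧
  (∑ w ∈ saws d n, fs w * fe w = c d (n + 2) + el d (n + 2))

/-- [ENB] PROOF. Let `q = 2 d - 1`. For `w` of length `n ≥ 1`, `fe w ≤ q` and `fs w ≤ q` (`card_step`; if `t` is the last step of `w` then `w ++ [opp t]` is
not self-avoiding since `[t, opp t]` has displacement zero; similarly at the start); for `n = 0`, `fe = fs = q + 1`. In both cases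
`(q - fs w) * (q - fe w) ≥ 0`. Sum over `w` and use ENA. -/
def St_ENB : Prop := ∀ (d n : ℕ), 1 ≤ d →
  2 * (2 * (d : ℝ) - 1) * (c d (n + 1) : ℝ) ≤ (2 * (d : ℝ) - 1) ^ 2 * (c d n : ℝ) + (c d (n + 2) : ℝ) + (el d (n + 2) : ℝ)

/-! ## Part II: growth and blocks -/

/-- [SUB] PROOF. `w ↦ (w.take n, w.drop n)` is injective. -/
def St_SUB : Prop := ∀ (d : ℕ) (P : List (Step d) → Prop), Her P → ∀ n m : ℕ,
  (sw d (n + m) P).card ≤ (sw d n P).card * (sw d m P).card

/-- [MU] PROOF. Straight words are self-avoiding, so `c d n ≥ 1`. SUB with the trivial property: `c (n + m) ≤ c n * c m`; `c d 1 ≤ 2 d`. So `log c` is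
subadditive, nonnegative, and Fekete (`Subadditive.tendsto_lim` in Mathlib) gives the limit, equal to the infimum `mu d` of `c_{n+1}^{1/(n+1)}`; hence
`mu ≥ 1`, `mu^n ≤ c_n`, and for every `ε > 0` `c_n ≤ (mu (1 + ε))^n` for `n` large; take `C` as the maximum of the finitely many other ratios and `1`. -/
def St_MU : Prop := ∀ (d : ℕ), 1 ≤ d →
  1 ≤ mu d ∧ (∀ n : ℕ, mu d ^ n ≤ (c d n : ℝ)) ∧ (∀ n : ℕ, 1 ≤ c d n) ∧ c d 0 = 1 ∧
  (∀ n m : ℕ, c d (n + m) ≤ c d n * c d m) ∧ (∀ n : ℕ, c d (n + 1) ≤ 2 * d * c d n) ∧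
  Tendsto (fun n : ℕ => (c d n : ℝ) ^ ((1 : ℝ) / (n : ℝ))) atTop (nhds (mu d)) ∧
  (∀ ε : ℝ, 0 < ε → ∃ C : ℝ, 0 < C ∧ ∀ n : ℕ, (c d n : ℝ) ≤ C * (mu d * (1 + ε)) ^ n)

/-- [BLA] PROOF. Induction on `N`. A word `w` of length `(N + 1) * M` is `u ++ v`, `u = w.take (N * M)`, `v = blk M w N = w.drop (N * M)` (of length `M`); the
blocks of `u` are the first `N` blocks of `w`, `u` and `v` have property `P` and are self-avoiding, and
`rho R M (N + 1) w = rho R M N u + (if R v then 0 else 1)`. The map `w ↦ (u, v)` is injective, so the sum is at most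
`(∑_u θ^(rho u)) * (∑_{v ∈ sw d M P} θ^(if R v then 0 else 1))` and the second factor is at most `#(P ∧ R) + θ #P`. -/
def St_BLA : Prop := ∀ (d M N : ℕ) (P R : List (Step d) → Prop) (θ : ℝ), Her P → 0 ≤ θ →
  ∑ w ∈ sw d (N * M) P, θ ^ (rho R M N w) ≤
    (((sw d M (fun v => P v ∧ R v)).card : ℝ) + θ * ((sw d M P).card : ℝ)) ^ N

/-- [BLB] PROOF. Let `y < t` be the cardinality in the hypothesis, `x = #(sw d M P)`. Choose `0 < θ < 1` with `s := y + θ x < t`, then `a > 0` with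
`s θ^(-a) < t` (real power; `θ^(-a) → 1` as `a → 0`), and `η < 1` with `η ≥ 1/2`, `s θ^(-a) ≤ η t`. By BLA, the words with `rho ≤ a N` contribute at least
`θ^(a N)` each to the sum, so their number is at most `θ^(-a N) s^N ≤ (η t)^N`. -/
def St_BLB : Prop := ∀ (d M : ℕ) (P R : List (Step d) → Prop) (t : ℝ), Her P →
  ((sw d M (fun v => P v ∧ R v)).card : ℝ) < t →
  ∃ a η : ℝ, 0 < a ∧ 0 < η ∧ η < 1 ∧ ∀ N : ℕ,
    ((sw d (N * M) (fun w => P w ∧ (rho R M N w : ℝ) ≤ a * N)).card : ℝ) ≤ (η * t) ^ N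

/-! ## Part II: geometry -/

/-- [GEO] A path in a cube of side three, with a bump. PROOF. Translate: `z = 0`, `x, y ∈ {-1,0,1}^d`. Let `D = ∑ |y_j - x_j| ≥ 1`. A direct word is a word of `D`
steps from `x` to `y`, each one decreasing the `ℓ¹` distance to `y` by one (any order of the steps is allowed); its vertices are at distances
`D, D-1, ..., 0` of `y`, so it is self-avoiding, and all the coordinates stay between those of `x` and `y`, so in the cube.
Choose `i` with `x_i ≠ y_i` and `k ≠ i` (`d ≥ 2`). `e_i'` denotes the step `± e_i` from `x_i` towards `y_i`.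
CASE A: some `ε = ± 1` has `|x_k + ε| ≤ 1` and `|x_k + ε - y_k| = |x_k - y_k| + 1`. Take a direct word with first step `e_i'` and replace this step by
the bump `ε e_k, e_i', - ε e_k`. The two new vertices are `x + ε e_k` at distance `D + 1` and `x + ε e_k + e_i'` at distance `D`, and the only vertex of the
direct word at distance `D` is `x`. So the new word is self-avoiding, in the cube, of length `D + 2 ≤ 2 d + 2`.
CASE A': case A with `x` and `y` exchanged, then reverse the word (the reverse of `s_1 ... s_m` is `opp s_m ... opp s_1`; the reverse of a bump is a bump).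
CASE B: `|x_i - y_i| = 2` and `|x_k + ε - y_k| = |x_k - y_k| - 1` (so `|x_k + ε| ≤ 1`). Take a direct word with first steps `e_i', e_i'` and replace the first one
by the bump `ε e_k, e_i', - ε e_k`: the new vertices are `x + ε e_k` at distance `D - 1` and `x + ε e_k + e_i'` at distance `D - 2`; the vertices of the direct word
at these distances are `x + e_i'` and `x + 2 e_i'`.
One of the cases applies: if `x_k = y_k`, case A (choose `ε` with `|x_k + ε| ≤ 1`). If `|x_k - y_k| = 1`: with `ε = sign (x_k - y_k)`, case A applies unless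
`|x_k + ε| = 2`, i.e. `x_k = ε`, and then `y_k = 0` and case A' applies (with `-ε`: `|y_k - ε| = 1`). If `|x_k - y_k| = 2`: case B with the roles of `i` and `k`
exchanged (`ε = sign (y_i - x_i)`). -/
def St_GEO : Prop := ∀ (d : ℕ), 2 ≤ d → ∀ z x y : Pt d, InCube z x → InCube z y → x ≠ y →
  ∃ π : List (Step d), Saw π ∧ HasBump π ∧ x + disp π = y ∧ π.length ≤ 2 * d + 2 ∧
    ∀ i ≤ π.length, InCube z (x + pos π i)

/-- [COV] PROOF. (1) For `w = a ++ v ++ b` and `i, j ≤ v.length`: `pos w (a.length + j) - pos w (a.length + i) = pos v j - pos v i`, so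
`cov v i ≤ cov w (a.length + i)`. (2) `j ↦ pos w j - pos w i` is injective on `j ≤ w.length` with values in `{-1,0,1}^d`. (3) `cov w 0 ≥ 1`. (4) trivial. -/
def St_COV : Prop := ∀ (d : ℕ),
  (∀ k : ℕ, Her (Cov k : List (Step d) → Prop)) ∧ (∀ w : List (Step d), Saw w → Cov (3 ^ d) w) ∧
  (∀ w : List (Step d), ¬ Cov 0 w) ∧ (∀ (k : ℕ) (w : List (Step d)), Cov k w → Cov (k + 1) w)

/-- [RIC] PROOF. `B = blk M w t` has length `M` and `pos B i = pos w (t M + i) - pos w (t M)` for `i ≤ M` (`pos_part`). With `z = pos w (t M + i0)`: the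
set `T` of the indices `i ≤ w.length` with `InCube z (pos w i)` has at most `k` elements (`Cov k w` at the index `t M + i0`), and its part with
`t M ≤ i ≤ t M + M` has `cov B i0 ≥ k` elements; so `T` is contained in `[t M, (t+1) M]`. `T` contains `t M + i0 - 1`, `t M + i0`, `t M + i0 + 1` (these indices
are between `0` and `N M` since `1 ≤ t`, `t + 2 ≤ N`, `M ≥ 1`; `abs_pos_succ_sub_le`). Let `s = min T`, `e = max T`. -/
def St_RIC : Prop := ∀ (d k M N : ℕ) (w : List (Step d)), 1 ≤ M → Saw w → w.length = N * M → Cov k w →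
  ∀ t i0 : ℕ, 1 ≤ t → t + 2 ≤ N → i0 ≤ M → k ≤ cov (blk M w t) i0 →
  ∃ s e : ℕ, t * M ≤ s ∧ s < t * M + i0 ∧ t * M + i0 < e ∧ e ≤ (t + 1) * M ∧
    InCube (pos w (t * M + i0)) (pos w s) ∧ InCube (pos w (t * M + i0)) (pos w e) ∧
    ∀ i ≤ w.length, InCube (pos w (t * M + i0)) (pos w i) → s ≤ i ∧ i ≤ e

/-- [MDF] PROOF. RIC, then GEO with `x = pos w s`, `y = pos w e` (different since `s < e`, `Saw w`). -/
def St_MDF : Prop := ∀ (d k M N : ℕ) (w : List (Step d)), 2 ≤ d → 1 ≤ M → Saw w → w.length = N * M → Cov k w →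
  ∀ t i0 : ℕ, 1 ≤ t → t + 2 ≤ N → i0 ≤ M → k ≤ cov (blk M w t) i0 →
  ∃ (s e : ℕ) (π : List (Step d)), t * M ≤ s ∧ s < t * M + i0 ∧ t * M + i0 < e ∧ e ≤ (t + 1) * M ∧
    Saw π ∧ HasBump π ∧ π.length ≤ 2 * d + 2 ∧ pos w s + disp π = pos w e ∧
    (∀ i ≤ w.length, InCube (pos w (t * M + i0)) (pos w i) → s ≤ i ∧ i ≤ e) ∧
    (∀ i ≤ π.length, InCube (pos w (t * M + i0)) (pos w s + pos π i))

/-- [SGS] Replacing segments inside of disjoint cubes. PROOF. Let `w` be the old word. Claim, by induction on the length of `l1` (for `l = l1 ++ l2`): the word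
`u = (new word of l1) ++ (old word of l2)` is self-avoiding, `disp (new word of l1) = disp (old word of l1)`, and every vertex of `u` of index at most the
length of the new word of `l1` is a vertex of `w` of index at most the length of the old word of `l1`, or lies in the cube of a replaced segment of `l1`.
Step: the next segment `(a, b, o)` of `l2`. If it is kept nothing changes. If `o = some z`: `u = A ++ a ++ R`, `u' = A ++ b ++ R`, `A` the new word of `l1`, `s` the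
length of the old word of `l1`; the vertices of `u'` are: (i) those of `A` before its end: they are not in the cube of `z` (a vertex of `w` of index `< s`
is not in it by hypothesis; and the cubes of the replaced segments of `l1` are disjoint from the cube of `z`; the vertices of `u` are distinct and the end of `A` is
`pos w s`); (ii) `pos w s + pos b j`, `j ≤ b.length`: in the cube and distinct (`Saw b`); (iii) those of `R` after its start: they are `pos w i` with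
`i > s + a.length`, not in the cube. (i) and (iii) are distinct since `u` is self-avoiding. For a formal proof it may be convenient to use the following form
of `Saw (A ++ b ++ R)`: the three words are self-avoiding and the vertices of the three groups are pairwise different. -/
def St_SGS : Prop := ∀ (d : ℕ) (l : List (List (Step d) × List (Step d) × Option (Pt d))),
  Saw ((l.map (fun g => g.1)).flatten) → SegOK ((l.map (fun g => g.1)).flatten) 0 l →
  (l.filterMap (fun g => g.2.2)).Pairwise (fun z z' => ∀ p, ¬ (InCube z p ∧ InCube z' p)) →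
  Saw ((l.map (fun g => g.2.1)).flatten) ∧ disp ((l.map (fun g => g.2.1)).flatten) = disp ((l.map (fun g => g.1)).flatten)

/-- [DEC] PROOF. `B = α ++ π ++ β` has a bump (in `π`, at an index `≤ α.length + π.length`), so `fb B` is the index of a bump and `fb B ≤ α.length + L`. If
`fb B + 2 < α.length` then this bump is inside of `α`, but `α ++ O ++ β` has no bump. -/
def St_DEC : Prop := ∀ (d L : ℕ) (α O π β : List (Step d)), NB (α ++ O ++ β) → HasBump π → π.length ≤ L →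
  fb (α ++ π ++ β) ≤ α.length + L ∧ α.length ≤ fb (α ++ π ++ β) + 2

/-- [COA] PROOF. Put `L = 2 d + 2`, `m = G * M`. `w` is the concatenation of `K` groups `B_g`, `g < K`, of length `m`. For `g` with `σ_g = none` the new group is `B_g`
and the code is `none`. For `σ_g = some b`: put `t = g G + b`, `i0 = ctr k (blk M w t)`, `z_g = pos w (t M + i0)`; by the definition of `opt` and MDF (with `N = K G`)
we get `s, e, π`, with `t M ≤ s < t M + i0 < e ≤ (t + 1) M`; then `B_g = α ++ O ++ β` with `α` the letters of index in `[g m, s)`, `O` those in `[s, e)`, `β` the rest;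
`O.length ≤ M`, `disp π = disp O`. The new group is `α ++ π ++ β` and the code is `some (r, π.length, O)` with `r = α.length + L - fb (α ++ π ++ β)`, which is a
natural number with `r ≤ L + 2`, and `α.length = fb + r - L` (DEC; `B_g` has no bump by `her_NB`). So decW gives back `w`. And `b M ≤ α.length < (b + 1) M`
since `t M ≤ s < e ≤ (t+1) M` with `s + 2 ≤ e`: decS gives back `b = α.length / M`. The new word `v` (concatenation of the new groups) is self-avoiding by SGS,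
with the segments `(α, α, none), (O, π, some z_g), (β, β, none)` or `(B_g, B_g, none)`: the cubes are pairwise disjoint, since for `g ≠ g'` the centres are
different (`Saw w`, different indices: the index of `z_g` is in the group `g`, strictly between `s` and `e`) and congruent modulo three in all
coordinates, so at distance `≥ 3` in some coordinate. Length: each new group has at most `m + L` letters. -/
def St_COA : Prop := ∀ (d k M G K : ℕ) (κ : Fin d → ZMod 3) (w : List (Step d)) (σ : List (Option ℕ)),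
  2 ≤ d → 1 ≤ M → 1 ≤ G → w ∈ sw d (K * G * M) (fun u => NB u ∧ Cov k u) → σ.length = K →
  (∀ g b : ℕ, σ[g]? = some (some b) → b ∈ opt k M G K κ w g) →
  ∃ (v : List (Step d)) (D : List (Option (ℕ × ℕ × List (Step d)))),
    Saw v ∧ v.length ≤ K * G * M + K * (2 * d + 2) ∧ D.length = K ∧
    (∀ a ∈ D, a = none ∨ ∃ r l O, a = some (r, l, O) ∧ r ≤ 2 * d + 4 ∧ l ≤ 2 * d + 2 ∧ O.length ≤ M) ∧
    decW (G * M) (2 * d + 2) D v = w ∧ decS (G * M) (2 * d + 2) M D v = σ

/-- [COB] PROOF. The left side is the number of pairs `(w, σ)` as in COA (`σ_g` is `none` or `some b` with `b ∈ opt k M G K κ w g`). By COA and the decoding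
functions the map `(w, σ) ↦ (v, D)` is injective. The number of `v` is at most the first factor, the number of the lists `D` of length `K` is at most
`(1 + (2d+5)(2d+3) ∑_{j ≤ M} (2d)^j)^K`. -/
def St_COB : Prop := ∀ (d k M G K : ℕ) (κ : Fin d → ZMod 3), 2 ≤ d → 1 ≤ M → 1 ≤ G →
  ∑ w ∈ sw d (K * G * M) (fun u => NB u ∧ Cov k u), ∏ g ∈ range K, (1 + (opt k M G K κ w g).card) ≤
    (∑ n ∈ range (K * G * M + K * (2 * d + 2) + 1), c d n) *
      (1 + (2 * d + 5) * (2 * d + 3) * ∑ j ∈ range (M + 1), (2 * d) ^ j) ^ K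

/-- [PIG] PROOF. If `t < K G` and `¬ Cov (k-1) B`, `B = blk M w t`, then some `i ≤ B.length ≤ M` has `cov B i ≥ k`, so `i0 = ctr k B` satisfies `i0 ≤ M`, `k ≤ cov B i0`
(`Nat.sInf_mem`). If moreover `1 ≤ t`, `t + 2 ≤ K G`, then `t % G ∈ opt k M G K κ w (t / G)` for `κ = res (pos w (t M + i0))`. So
`rho - 2 ≤ ∑_κ ∑_g #(opt κ g)`, a sum over `3^d` classes; choose `κ` with the largest inner sum. Second inequality: for `0 ≤ y ≤ G`,
`(1 + G)^(y / G) ≤ 1 + y` (Bernoulli, `Real.rpow_one_add_le_one_add_mul_self`); multiply over `g`. -/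
def St_PIG : Prop := ∀ (d k M G K : ℕ) (w : List (Step d)), 1 ≤ k → 1 ≤ G → w.length = K * G * M →
  ∃ κ : Fin d → ZMod 3,
    (rho (Cov (k - 1)) M (K * G) w : ℝ) - 2 ≤ 3 ^ d * ∑ g ∈ range K, ((opt k M G K κ w g).card : ℝ) ∧
    (1 + (G : ℝ)) ^ ((∑ g ∈ range K, ((opt k M G K κ w g).card : ℝ)) / (G : ℝ)) ≤
      ∏ g ∈ range K, (1 + ((opt k M G K κ w g).card : ℝ))

/-- [NFU] The words without bumps have a smaller growth. PROOF. Let `μ = mu d` and suppose `μ^M ≤ #(sw d M NB)` for all `M ≥ 1`. Let `k` be minimal such that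
`μ^M ≤ #(sw d M (NB ∧ Cov k))` for all `M ≥ 1`: it exists, `k ≤ 3^d` (COV 2), and `k ≥ 1` (COV 3, `μ > 0`). By minimality there is `M ≥ 1` with
`#(sw d M (NB ∧ Cov (k-1))) < μ^M`. BLB with `P = NB ∧ Cov k` (inherited), `R = Cov (k-1)`, `t = μ^M` (`P ∧ R` is `NB ∧ Cov (k-1)` by COV 4): `a, η`. For `N` with
`η^N ≤ 1/2`: at least `μ^(N M) / 2` words of `sw d (N M) P` have `rho > a N`. Let `L = 2d+2`, `W = 1 + (2d+5)(2d+3) ∑_{j≤M} (2d)^j`, `N = K G`. For each of these words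
PIG gives `κ` with `∏_g (1 + #opt) ≥ (1+G)^((a K G - 2) / (3^d G))`. Sum COB over the `3^d` classes, and `c_n ≤ C (μ (1+ε))^n` (MU), `S = K (G M + L)`:
`(1/2) μ^(K G M) (1+G)^((a K G - 2)/(3^d G)) ≤ 3^d (S + 1) C μ^S (1+ε)^S W^K`, i.e. `(1/2) (1+G)^(-2/(3^d G)) ((1+G)^(a/3^d))^K ≤ 3^d (S+1) C (μ^L (1+ε)^(G M + L) W)^K`.
Choose first `G` with `(1+G)^(a/3^d) ≥ 4 W μ^L`, then `ε > 0` with `(1+ε)^(G M + L) ≤ 2`, and let `K → ∞`: contradiction (`2^K` against a polynomial). -/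
def St_NFU : Prop := ∀ (d : ℕ), 2 ≤ d → ∃ M : ℕ, 1 ≤ M ∧ ((sw d M (NB : List (Step d) → Prop)).card : ℝ) < mu d ^ M

/-- [PAT] PROOF. `M` from NFU, BLB with `P = True`, `R = NB`, `t = μ^M`: `a'`, `η'`. For `n`, put `N = n / M`. A block with a bump gives a bump of `w` inside of the
block, so `nb w ≥ rho NB M N w = rho NB M N (w.take (N M))`. Put `a = a' / (2 M)`: for `N ≥ 1`, `nb w < a n ≤ a (N+1) M ≤ a' N` implies `rho ≤ a' N`. So the
number of words is at most `(η' μ^M)^N * max_{r<M} c_r` (split `w = w.take (N M) ++ w.drop (N M)`), and `(η')^N = (η'^(1/M))^(N M)`, `n - M < N M ≤ n`. Take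
`η = η'^(1/M)` and `C` large (also for `n < M`). -/
def St_PAT : Prop := ∀ (d : ℕ), 2 ≤ d → ∃ a η C : ℝ, 0 < a ∧ 0 < η ∧ η < 1 ∧ 0 < C ∧
  ∀ n : ℕ, ((sw d n (fun w => (nb w : ℝ) < a * n)).card : ℝ) ≤ C * (η * mu d) ^ n

/-! ## Part II: Kesten's ratio theorem -/

/-- [SLD] PROOF. Bijection `(w, (i, f)) ↔ (v, i)`, `v = ins w i f`, `w = del v i`. With `w = a ++ [e] ++ b`, `a.length = i`: `v = a ++ [f, e, opp f] ++ b`. If `v` is of this form
and self-avoiding then `w` is self-avoiding: a contiguous part of `w` is a part of `a` or `b`, or `a' ++ [e] ++ b'`, with the same displacement as the part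
`a' ++ [f, e, opp f] ++ b'` of `v`. -/
def St_SLD : Prop := ∀ (d n : ℕ) (F : List (Step d) → List (Step d) → ℝ),
  ∑ w ∈ saws d n, ∑ p ∈ us w, F w (ins w p.1 p.2) = ∑ v ∈ saws d (n + 2), ∑ i ∈ vsl v, F (del v i) v

/-- [SLB] PROOF. Let `v = ins w i f`. Bumps of `v` at positions `j` with `j + 3 ≤ i` are the bumps of `w` at `j`; bumps of `v` at `j ≥ i + 3` are those of `w` at `j - 2`; the
other positions are `i-2..i+2` for `v` and `i-2..i` for `w`. Slots: the vertices of `v` are those of `w` and the two points `X = pos w i + vec f`,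
`Y = pos w (i+1) + vec f`, which are not vertices of `w`. A slot `(j, g)` of `w` with `j ≠ i` adds the points `pos w j + vec g`, `pos w (j+1) + vec g`; it stays a
slot of `v` (at the index `j` or `j + 2`) if these points are different from `X` and `Y`. For each `g` at most four `j` violate this (`pos w` is
injective), in total at most `8 d` slots, and at most `2 d` slots have `j = i`. (A word is self-avoiding iff the list of its vertices has no duplicates.)
`nu w ≤ 2 d w.length` by `card_step`. -/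
def St_SLB : Prop := ∀ (d : ℕ) (w : List (Step d)) (i : ℕ) (f : Step d), Saw w → i < w.length → Saw (ins w i f) →
  nb (ins w i f) ≤ nb w + 5 ∧ nb w ≤ nb (ins w i f) + 5 ∧ nu w ≤ nu (ins w i f) + 10 * d ∧ nu w ≤ 2 * d * w.length

/-- [RTA] PROOF. Let `C = 10 d + 5`. For `v ∈ saws d (n+2)` with `nb v ≥ a (n+2) > 0`: `1 = ∑_{i ∈ vsl v} 1 / nb v`. Sum over these `v` and use SLD with
`F w v = 1 / nb v` if `nb v ≥ a (n+2)`, else `0`: it is `∑_w ∑_{p ∈ us w} F w (ins w p)`, and by SLB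
`nb w + 2 C ≤ nb v + 3 C ≤ nb v (1 + 3 C / (a n))`, so `F ≤ (1 + 3 C / (a n)) / (nb w + 2 C)`. -/
def St_RTA : Prop := ∀ (d n : ℕ) (a : ℝ), 1 ≤ n → 0 < a →
  (c d (n + 2) : ℝ) ≤ ((sw d (n + 2) (fun w => (nb w : ℝ) < a * ((n + 2 : ℕ) : ℝ))).card : ℝ) +
    (1 + 3 * (10 * d + 5) / (a * n)) * FF d n

/-- [RTB] PROOF. Let `C = 10 d + 5`. First `c_{n+4} ≥ ∑_{u ∈ saws (n+4), nb u ≥ 1} ∑_{i ∈ vsl u} 1 / nb u = ∑_{v ∈ saws (n+2)} ∑_{p ∈ us v} 1 / nb (ins v p)` (SLD; `nb (ins v p) ≥ 1`)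
`≥ ∑_v h v`, `h v = nu v / (nb v + C)` (SLB). Again `∑_v h v ≥ ∑_{v, nb v ≥ 1} ∑_{i ∈ vsl v} h v / nb v = ∑_{w ∈ saws n} ∑_{p ∈ us w} h (ins w p) / nb (ins w p)`, and with `v = ins w p`:
`h v / nb v ≥ max (nu w - C) 0 / ((nb w + 2 C) (nb w + C)) ≥ (nu w - C) / (nb w + 2 C)²`. -/
def St_RTB : Prop := ∀ (d n : ℕ),
  ∑ w ∈ saws d n, (nu w : ℝ) * ((nu w : ℝ) - (10 * d + 5)) / ((nb w : ℝ) + 2 * (10 * d + 5)) ^ 2 ≤ (c d (n + 4) : ℝ)

/-- [LOW] PROOF. Let `e` be the step `+ e_0` (first coordinate, `d ≥ 1`), `w` self-avoiding of length `n`, `H` the maximum of the first coordinate of its vertices,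
`j` the last index where it is attained. If `j = n`: `v = w ++ [e, e]`. If `j = 0 < n`: `v = [opp e, opp e] ++ w`. If `0 < j < n`: the step `w[j]` is `opp e` (the next
vertex is lower), so the step `w[j-1]` is not `e` (otherwise the vertices `j - 1` and `j + 1` coincide) and not `opp e` (the vertex `j-1` would be higher): the vertex
`j - 1` has first coordinate `H`; `v = w.take (j-1) ++ [e, w[j-1], opp e] ++ w.drop j`. In the three cases `v` is self-avoiding of length `n + 2` (the new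
vertices are higher than `H`, resp. than all the others), and `v` and the case determine `w`: in the third case the indices of
the highest vertices of `v` are exactly `j, j + 1`. -/
def St_LOW : Prop := ∀ (d n : ℕ), 1 ≤ d → c d n ≤ 3 * c d (n + 2)

/-- [RTC] PROOF. Write `μ = mu d`, `cc = c_n`, `C = 10 d + 5`, `u = nu w`, `v = nb w`, `F = FF d n`, `φ = c_{n+2}/c_n`; `a, η, C1` from PAT, `bad_n` the cardinality there,
`bad_n ≤ C1 η^n μ^n ≤ C1 η^n cc`, `bad_{n+2} ≤ C1 η^n μ² cc`. RTB: `c_{n+4} ≥ ∑ u²/(v+2C)² - C ∑ u/(v+2C)²`. Cauchy-Schwarz: `F² ≤ cc ∑ u²/(v+2C)²`. With `u ≤ 2 d n`: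
`∑ u/(v+2C)² ≤ cc 2d/(a² n) + 2 d n bad_n`. So `c_{n+4}/cc ≥ (F/cc)² - B1/n` for `n ≥ n1` (as `n² η^n` is bounded). RTA:
`F/cc ≥ (φ - C1 μ² η^n) / (1 + 3C/(a n)) ≥ φ - B2/n` (`φ ≤ (2d)²`). If `φ ≥ B2/n`, square it: `(F/cc)² ≥ φ² - 2 φ B2/n`; otherwise `φ² ≤ (B2/n)²` and the claim
holds since the right side is `≥ 0`. -/
def St_RTC : Prop := ∀ (d : ℕ), 2 ≤ d → ∃ (B : ℝ) (n0 : ℕ), ∀ n : ℕ, n0 ≤ n →
  ((c d (n + 2) : ℝ) / (c d n : ℝ)) ^ 2 - B / n ≤ (c d (n + 4) : ℝ) / (c d n : ℝ)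

/-- [ANA] PROOF. `φ n = cc (n+2) / cc n`; `φ n φ (n+2) ≥ φ n ² - B/n` and `φ ≥ κ` give `φ (n+2) ≥ φ n - B'/n`, `B' = |B|/κ`, for `n ≥ n0` (`n ≥ 1`).
Upper bound: if `φ n > μ² + 2 τ` for arbitrarily large `n`: for `0 ≤ j ≤ θ n`, `φ (n + 2 j) ≥ φ n - B' j / n ≥ μ² + τ`, if `θ B' ≤ τ`. With `J = floor (θ n)`:
`cc (n + 2J) ≥ (μ² + τ)^J cc n ≥ (μ² + τ)^J μ^n`, but `cc (n + 2J) ≤ C (μ (1+ε))^(n + 2J)`: `(1 + τ/μ²)^J ≤ C (1+ε)^(n + 2J)`, false for `n` large if `ε` is small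
(depending on `τ`, `θ`). Lower bound: if `φ n < μ² - 2 τ` for arbitrarily large `n` (`2 τ < μ²`): for `j ≤ θ n`, `θ ≤ 1/4`:
`φ (n - 2 j) ≤ φ n + B' j / (n - 2 j) ≤ μ² - τ` if `2 θ B' ≤ τ`, so with `J = floor (θ n)`: `μ^(n + 2) ≤ cc (n+2) ≤ (μ² - τ)^(J+1) cc (n - 2J)
≤ (μ² - τ)^(J+1) C (μ (1+ε))^(n - 2J)`, false for `n` large. -/
def St_ANA : Prop := ∀ (cc : ℕ → ℝ) (μ κ Φ B : ℝ) (n0 : ℕ), 1 ≤ μ → 0 < κ → (∀ n, μ ^ n ≤ cc n) →
  (∀ ε : ℝ, 0 < ε → ∃ C : ℝ, 0 < C ∧ ∀ n : ℕ, cc n ≤ C * (μ * (1 + ε)) ^ n) →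
  (∀ n, κ ≤ cc (n + 2) / cc n) → (∀ n, cc (n + 2) / cc n ≤ Φ) →
  (∀ n, n0 ≤ n → (cc (n + 2) / cc n) ^ 2 - B / n ≤ cc (n + 4) / cc n) →
  Tendsto (fun n => cc (n + 2) / cc n) atTop (nhds (μ ^ 2))

/-- [KES] PROOF. ANA with `cc = c d`, `μ = mu d`, `κ = 1/3` (LOW), `Φ = (2d)²` (MU), RTC. -/
def St_KES : Prop := ∀ (d : ℕ), 2 ≤ d →
  Tendsto (fun n : ℕ => (c d (n + 2) : ℝ) / (c d n : ℝ)) atTop (nhds (mu d ^ 2))

/-! ## Part III: closed words -/

/-- [SPT] PROOF. (1) `W ↦ (W.take m, W.drop m)`. (2) `u ↦ u.take m`: for `u ∈ polys d (m+k+1)`, `u.take m` is self-avoiding (part of `u.dropLast`), of length `m`. (3), (4):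
(1), (2) with `G = 1`; a number `n` is `m + k` with `k < m0 + 1 - m` in `n + 1` ways if `n ≤ m0`. (5) `u = w ++ η'`, `η' ` of length `k + 1`; `u ↦ η'.dropLast` is injective (the last
step is determined by `disp u = 0`, `vec_injective`) with `w ++ η'.dropLast = u.dropLast` self-avoiding. (6) the term `k = 0`. -/
def St_SPT : Prop := ∀ (d : ℕ),
  (∀ (m k : ℕ) (G : List (Step d) → ℝ), ∑ w ∈ saws d m, G w * (ext w k : ℝ) = ∑ W ∈ saws d (m + k), G (W.take m)) ∧
  (∀ (m k : ℕ) (G : List (Step d) → ℝ), ∑ w ∈ saws d m, G w * (cl w k : ℝ) = ∑ u ∈ polys d (m + k + 1), G (u.take m)) ∧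
  (∀ (x : ℝ) (m0 : ℕ), ∑ m ∈ range (m0 + 1), x ^ m * ∑ w ∈ saws d m, Z x m0 w = Xi d x m0) ∧
  (∀ (x : ℝ) (m0 : ℕ), ∑ m ∈ range (m0 + 1), x ^ m * ∑ w ∈ saws d m, Zc x m0 w = La d x m0) ∧
  (∀ (w : List (Step d)) (k : ℕ), cl w k ≤ ext w k) ∧
  (∀ (x : ℝ) (m0 : ℕ) (w : List (Step d)), 0 ≤ x → Saw w → w.length ≤ m0 → 1 ≤ Z x m0 w)

/-- [SNA] PROOF. For `k`: the `η` of length `k` with `s :: (w ++ η)` self-avoiding have `w ++ η` self-avoiding. The `u ∈ polys` of length `(s :: w).length + k + 1`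
starting with `s :: w`: `u = s :: (w ++ η')` with `η'` of length `k + 1`, and `w ++ η'` is self-avoiding (`poly_saw`), while `s :: (w ++ η') = u` is not. So
`ext w 0 ≥ ext (s :: w) 0` and `ext w (k+1) ≥ ext (s :: w) (k+1) + cl (s :: w) k`; sum with `x^k`; here `k + 1 ≤ m - w.length` iff `k ≤ m - (s :: w).length`. -/
def St_SNA : Prop := ∀ (d : ℕ) (x : ℝ) (m : ℕ) (s : Step d) (w : List (Step d)), 0 ≤ x → Saw (s :: w) → w.length + 1 ≤ m →
  Z x m (s :: w) + x * Zc x m (s :: w) ≤ Z x m w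

/-- [SNB] PROOF. For `I ≤ m`, the map `w ↦ w.drop I` from `saws d m` to `saws d (m - I)` has fibres of cardinality at most `c d I` (`w.take I ∈ saws d I`), so
`∑_{w ∈ saws m} Z (w.drop I) ≤ c_I ∑_{v ∈ saws (m - I)} Z v`. Multiply by `x^m = x^I x^(m-I)` and sum; use SPT (3). -/
def St_SNB : Prop := ∀ (d : ℕ) (x : ℝ) (m0 I : ℕ), 0 ≤ x →
  ∑ m ∈ Icc I m0, x ^ m * ∑ w ∈ saws d m, Z x m0 (w.drop I) ≤ x ^ I * (c d I : ℝ) * Xi d x m0

/-- [ROT] PROOF. `u ↦ u.rotate i` is a bijection of `polys d N` (same displacement; `(u.rotate i).dropLast` is self-avoiding: a non-empty contiguous part of it is a part of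
`u.drop i` or of `u.take i`, or is `a2 ++ b1` with `u.drop i = a1 ++ a2`, `u.take i = b1 ++ b2`, and then its displacement is minus the one of `b2 ++ a1`, a
non-empty proper contiguous part of `u`; use `poly_part`), and `(u.take m).drop i = (u.rotate i).take (m - i)` for `i ≤ m ≤ N = u.length`. -/
def St_ROT : Prop := ∀ (d N i m : ℕ) (ψ : List (Step d) → ℝ), i ≤ m → m ≤ N →
  ∑ u ∈ polys d N, ψ ((u.take m).drop i) = ∑ u ∈ polys d N, ψ (u.take (m - i))

/-- [SNC] PROOF. Write `Z = Z x m0`, `Zc`, `X = Xi`, `Λ = La`, `L' = Lp`, `Q w = Zc w / Z w` (`Z w ≥ 1` for `w` self-avoiding of length `≤ m0`), `ψ w = log (1 + x Q w) ≥ 0`,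
`y = x^I c_I / δ ≥ 1` (`x^I c_I ≥ μ^(-I) μ^I = 1`). Let `T = ∑_{n ≤ m0} x^n ∑_{u ∈ polys (n+1)} ∑_{m ∈ Icc I n} ∑_{i < I} ψ ((u.take m).drop i)`.
UPPER BOUND: for `w = u.take m`, `I ≤ m ≤ n ≤ m0`, SNA gives `Z (w.drop (i+1)) ≥ Z (w.drop i) (1 + x Q (w.drop i))`, so
`∑_{i<I} ψ (w.drop i) ≤ log (Z (w.drop I) / Z w) ≤ Z (w.drop I) / (y Z w) + log y` (`log t ≤ t / y + log y`). By SPT (2),
`∑_n x^n ∑_u ∑_{m ∈ Icc I n} Z (w.drop I) / Z w = ∑_{m ∈ Icc I m0} x^m ∑_{w ∈ saws m} Zc w Z (w.drop I) / Z w ≤ ∑_m x^m ∑_w Z (w.drop I) ≤ x^I c_I X` (SPT (5), SNB), and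
`x^I c_I X / y = δ X ≤ Λ`. So `T ≤ Λ + Λ log y` (the number of pairs `(u, m)`, `m ≤ n`, weighted by `x^n`, is `Λ`; `log y ≥ 0`).
LOWER BOUND: by ROT `T = ∑_n x^n ∑_{i<I} ∑_{m ∈ Icc I n} ∑_u ψ (u.take (m - i)) ≥ I ∑_n x^n ∑_u ∑_{m : I ≤ m, m + I ≤ n} ψ (u.take m)`. The total weight of the `(u, m)`, `m ≤ n`, with
`Q (u.take m) < δ/2` is `∑_m x^m ∑_{w : Q w < δ/2} Zc w ≤ (δ/2) X ≤ Λ/2`, the weight of those with `m < I` or `m + I > n` is at most `2 I L'`. On the others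
`ψ ≥ log (1 + x δ/2)`. So `T ≥ I log (1 + x δ/2) (Λ/2 - 2 I L')`. -/
def St_SNC : Prop := ∀ (d I m0 : ℕ) (x δ : ℝ), 1 ≤ d → 1 ≤ I → 1 / mu d ≤ x → 0 < δ → δ ≤ 1 →
  δ * Xi d x m0 ≤ La d x m0 →
  (I : ℝ) * Real.log (1 + x * δ / 2) * (La d x m0 / 2 - 2 * I * Lp d x m0) ≤
    La d x m0 * (1 + Real.log (x ^ I * (c d I : ℝ) / δ))

/-- [CLO] PROOF. We may assume `δ ≤ 1`. Let `μ = mu d`, `γ = log (1 + δ/(2μ)) > 0`. By MU, `log (c_I μ^(-I)) / I → 0`; choose `I ≥ 1` with
`(1 + log (1/δ) + log (c_I μ^(-I))) / I ≤ γ/16`, `ε0 = γ/16`. Let `0 < ε ≤ ε0`, `x = exp ε / μ`, and suppose `La > δ Xi` for some `m0`. Then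
`La ≥ δ (m0+1) x^m0 c_m0 ≥ δ (m0 + 1)`. And `Lp ≤ ∑_{n < 16 I} x^n ℓ_{n+1} + La/(16 I)`, so `2 I Lp ≤ La/8 + C(I, x)≤ La/4` for `m0 ≥ n1`. SNC: `(I γ/4) La ≤ La (1 + I ε + log (c_I μ^(-I)) + log (1/δ))`
(`x ≥ 1/μ`), so `γ/4 ≤ γ/16 + ε ≤ γ/8`: contradiction. -/
def St_CLO : Prop := ∀ (d : ℕ) (δ : ℝ), 1 ≤ d → 0 < δ → ∃ ε0 : ℝ, 0 < ε0 ∧ ∀ ε : ℝ, 0 < ε → ε ≤ ε0 →
  ∃ n1 : ℕ, ∀ m0 : ℕ, n1 ≤ m0 → La d (Real.exp ε / mu d) m0 ≤ δ * Xi d (Real.exp ε / mu d) m0

/-! ## Final part -/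

/-- [AVG] PROOF. Let `1/κ < ρ < 1`; `u j ≤ ρ u (j+1)` for `j ≥ j0`, so `u j ≤ ρ^(J-j) u J` for `j0 ≤ j ≤ J` and `u j ≤ C1 ρ^J u J` for `j < j0 ≤ J`. The difference is at most
`∑_{j ≤ J} (u j / u J) |g j - g J|`; for `J - T ≤ j ≤ J`, `|g j - g J| ≤ T sup_{i ≥ J - T} |g (i+1) - g i| → 0` (`T` fixed, `J → ∞`); the rest is at most
`2 C (∑_{i > T} ρ^i + j0 C1 ρ^J)`. -/
def St_AVG : Prop := ∀ (u g : ℕ → ℝ) (κ C : ℝ), 1 < κ → (∀ n, 0 < u n) →
  Tendsto (fun n => u (n + 1) / u n) atTop (nhds κ) → (∀ n, |g n| ≤ C) →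
  Tendsto (fun n => g (n + 1) - g n) atTop (nhds 0) →
  Tendsto (fun J => (∑ j ∈ range (J + 1), u j * g j) / (∑ j ∈ range (J + 1), u j) - g J) atTop (nhds 0)

/-- [FIN] PROOF. Let `φ n = cc (n+2)/cc n → μ²`, `r n = cc (n+1)/cc n ∈ (0, q+1]`, `δ > 0`, `ε, n1` from the last hypothesis, `x = exp ε / μ ≥ 1/μ`, `W n = (n+1) x^n cc n`; `W (n+2)/W n → x² μ² = exp (2 ε) > 1`.
`r (n+2) - r n = r n (φ (n+1)/φ n - 1) → 0`. For `N` let `S = ∑ W n` over `n ≤ N`, `n ≡ N mod 2`. Multiply the inequality `2 q cc (n+1) ≤ ...` by `(n+1) x^n` and sum over these `n`: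
`2 q ∑ W r ≤ q² S + ∑ W φ + ∑ (n+1) x^n ll (n+2)`. The last sum is at most `x^(-1) ∑_{k ≤ N+1} (k+1) x^k ll (k+1)` (`k = n+1`) `≤ x^(-1) δ ∑_{k ≤ N+1} W k` for `N ≥ n1`, and
`∑_{k ≤ N+1} W k ≤ (2 + 2 (q+1) x) S`: the `k ≡ N` give `S`, the others are `k = n + 1` with `W (n+1) ≤ 2 (q+1) x W n`, or `k = 0` (if `N` is odd) with `W 0 = 1 ≤ W 1 ≤ S`
(`W 1 = 2 x cc 1 ≥ 2 x μ ≥ 2`). Divide by `S` and apply AVG (along the two parities) to `g = r` and `g = φ`: `2 q r N ≤ q² + μ² + o(1) + δ (2/x + 2 (q+1))`, and `1/x ≤ μ`. So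
`limsup r ≤ (q² + μ²)/(2q) + δ (2 μ + 2 (q+1))/(2 q)` for every `δ > 0`. -/
def St_FIN : Prop := ∀ (cc ll : ℕ → ℝ) (μ q : ℝ), 1 ≤ μ → 1 ≤ q → cc 0 = 1 → (∀ n, μ ^ n ≤ cc n) → (∀ n, 0 ≤ ll n) →
  (∀ n, cc (n + 1) ≤ (q + 1) * cc n) → Tendsto (fun n => cc (n + 2) / cc n) atTop (nhds (μ ^ 2)) →
  (∀ n, 2 * q * cc (n + 1) ≤ q ^ 2 * cc n + cc (n + 2) + ll (n + 2)) →
  (∀ δ : ℝ, 0 < δ → ∃ ε : ℝ, 0 < ε ∧ ∃ n1 : ℕ, ∀ m0 : ℕ, n1 ≤ m0 →
    ∑ n ∈ range (m0 + 1), ((n : ℝ) + 1) * (Real.exp ε / μ) ^ n * ll (n + 1) ≤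
      δ * ∑ n ∈ range (m0 + 1), ((n : ℝ) + 1) * (Real.exp ε / μ) ^ n * cc n) →
  ∀ η : ℝ, 0 < η → ∀ᶠ n in atTop, cc (n + 1) / cc n ≤ (q ^ 2 + μ ^ 2) / (2 * q) + η

/-- [TRA] PROOF. Bijection between the self-avoiding words of length `n` and the functions: `w ↦ (i ↦ pos w i)`. Inverse: `∑ j, |v j| = 1` for an integer vector `v` iff `v = vec s` for
a (unique) step `s` (`vec_injective`); the word is `List.ofFn` of the steps. -/
def St_TRA : Prop := ∀ (d n : ℕ), Nat.card {w : Fin (n + 1) → (Fin d → ℤ) //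
    w 0 = 0 ∧ Function.Injective w ∧ ∀ i : Fin n, ∑ j : Fin d, |w i.succ j - w i.castSucc j| = 1} = c d n

end SRW
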